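import Pool.Agent.Lib_MP_7c418e_gt.Defs

/-!
# Basic properties of words and equivalences
-/

set_option autoImplicit false

universe u v

namespace Pool.Agent.KL

open Kind

section

variable {X : Type u}

@[simp] theorem wout_cup (x : X) : (cup x).wout = 2 := rfl
@[simp] theorem wout_cap : (cap : Kind X).wout = 0 := rfl
@[simp] theorem wout_pos : (pos : Kind X).wout = 2 := rfl
@[simp] theorem wout_neg : (neg : Kind X).wout = 2 := rfl
@[simp] theorem win_cup (x : X) : (cup x).win = 0 := rfl
@[simp] theorem win_cap : (cap : Kind X).win = 2 := rfl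
@[simp] theorem win_pos : (pos : Kind X).win = 2 := rfl
@[simp] theorem win_neg : (neg : Kind X).win = 2 := rfl

@[simp] theorem sh_nil (i : ℕ) : sh i ([] : Wrd X) = [] := rfl

@[simp] theorem sh_cons (i : ℕ) (k : Kind X) (j : ℕ) (w : Wrd X) : sh i ((k, j) :: w) = (k, j + i) :: sh i w := rfl

@[simp] theorem sh_append (i : ℕ) (w w' : Wrd X) : sh i (w ++ w') = sh i w ++ sh i w' := by simp [sh]

@[simp] theorem sh_zero (w : Wrd X) : sh 0 w = w := by simp [sh]

theorem sh_sh (i j : ℕ) (w : Wrd X) : sh i (sh j w) = sh (i + j) w := by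
  simp only [sh, List.map_map]
  apply List.map_congr_left
  intro l _
  simp only [Function.comp]
  congr 1
  omega

@[simp] theorem length_sh (i : ℕ) (w : Wrd X) : (sh i w).length = w.length := by simp [sh]

@[simp] theorem ncr_sh (i : ℕ) (w : Wrd X) : ncr (sh i w) = ncr w := by
  simp only [ncr, sh, List.countP_map]
  rfl

@[simp] theorem ncr_append (w w' : Wrd X) : ncr (w ++ w') = ncr w + ncr w' := by simp [ncr]

@[simp] theorem ncr_nil : ncr ([] : Wrd X) = 0 := rfl

theorem ncr_cons (k : Kind X) (i : ℕ) (w : Wrd X) : ncr ((k, i) :: w) = ncr w + ncr [(k, i)] := by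
  rw [← List.singleton_append, ncr_append, add_comm]

@[simp] theorem ncr_cup (x : X) (i : ℕ) : ncr [(cup x, i)] = 0 := rfl
@[simp] theorem ncr_cap (i : ℕ) : ncr [((cap : Kind X), i)] = 0 := rfl
@[simp] theorem ncr_pos (i : ℕ) : ncr [((pos : Kind X), i)] = 1 := rfl
@[simp] theorem ncr_neg (i : ℕ) : ncr [((neg : Kind X), i)] = 1 := rfl

end

section

variable {X : Type u} [Rule X]

theorem act_bar_act (a x : X) : act a (act (bar a) x) = x := by
  have := bar_act (bar a) x
  rwa [bar_bar] at this

theorem act_inj {a x y : X} (h : act a x = act a y) : x = y := by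
  rw [← bar_act a x, h, bar_act]

theorem act_self_bar (x : X) : act x (bar x) = bar x := by rw [act_bar, act_self]

theorem act_bar_self (x : X) : act (bar x) x = x := by
  have h := bar_act x x
  rwa [act_self] at h

/-! ### App -/

theorem App.length {k : Kind X} {i : ℕ} {s t : List X} (h : App k i s t) :
    s.length + k.wout = t.length + k.win := by
  induction h with
  | cup x s => simp
  | cap x s => simp
  | pos a b s => simp
  | neg a b s => simp
  | skip x h ih => simp only [List.length_cons]; omega

theorem App.det {k : Kind X} {i : ℕ} {s t t' : List X} (h : App k i s t) (h' : App k i s t') : t = t' := by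
  induction h generalizing t' with
  | cup x s => cases h'; rfl
  | cap x s => cases h'; rfl
  | pos a b s => cases h'; rfl
  | neg a b s => cases h'; rfl
  | skip x h ih => cases h' with | skip _ h'' => rw [ih h'']

theorem App.left {k : Kind X} {i : ℕ} {s t : List X} (h : App k i s t) (a : List X) :
    App k (i + a.length) (a ++ s) (a ++ t) := by
  induction a with
  | nil => simpa using h
  | cons x a ih =>
    rw [List.length_cons, ← add_assoc]
    exact App.skip x ih

theorem App.right {k : Kind X} {i : ℕ} {s t : List X} (h : App k i s t) (b : List X) :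
    App k i (s ++ b) (t ++ b) := by
  induction h with
  | cup x s => exact App.cup x (s ++ b)
  | cap x s => exact App.cap x (s ++ b)
  | pos x y s => exact App.pos x y (s ++ b)
  | neg x y s => exact App.neg x y (s ++ b)
  | skip x h ih => exact App.skip x ih

theorem App.left_inv {k : Kind X} {i : ℕ} {s u : List X} (a : List X) (h : App k (i + a.length) (a ++ s) u) :
    ∃ t, u = a ++ t ∧ App k i s t := by
  induction a generalizing u with
  | nil => exact ⟨u, rfl, by simpa using h⟩
  | cons x a ih =>
    rw [List.length_cons, ← add_assoc] at h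
    cases h with
    | skip _ h' =>
      obtain ⟨t, rfl, ht⟩ := ih h'
      exact ⟨t, rfl, ht⟩

theorem App.right_inv {k : Kind X} {i : ℕ} {s u b : List X} (hi : i + k.win ≤ s.length) (h : App k i (s ++ b) u) :
    ∃ t, u = t ++ b ∧ App k i s t := by
  induction s generalizing i u with
  | nil =>
    cases k with
    | cup x =>
      have hi0 : i = 0 := by simp at hi; exact hi
      subst hi0
      cases h
      exact ⟨[x, bar x], rfl, App.cup x []⟩
    | cap => simp at hi
    | pos => simp at hi
    | neg => simp at hi
  | cons y s ih =>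
    cases i with
    | zero =>
      cases k with
      | cup x =>
        cases h
        exact ⟨x :: bar x :: y :: s, rfl, App.cup x _⟩
      | cap =>
        cases s with
        | nil => simp at hi
        | cons z s =>
          cases h
          exact ⟨s, rfl, App.cap y s⟩
      | pos =>
        cases s with
        | nil => simp at hi
        | cons z s =>
          cases h
          exact ⟨act y z :: y :: s, rfl, App.pos y z s⟩
      | neg =>
        cases s with
        | nil => simp at hi
        | cons z s =>
          cases h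
          exact ⟨z :: act (bar z) y :: s, rfl, App.neg y z s⟩
    | succ i =>
      cases h with
      | skip _ h' =>
        obtain ⟨t, rfl, ht⟩ := ih (by simp only [List.length_cons] at hi; omega) h'
        exact ⟨y :: t, rfl, App.skip y ht⟩

theorem App.le {k : Kind X} {i : ℕ} {s t : List X} (h : App k i s t) : i + k.win ≤ s.length := by
  induction h with
  | cup x s => simp
  | cap x s => simp
  | pos a b s => simp
  | neg a b s => simp
  | skip x h ih => simp only [List.length_cons]; omega

/-! ### Run -/

theorem Run.append {s t u : List X} {w w' : Wrd X} (h : Run s w t) (h' : Run t w' u) : Run s (w ++ w') u := by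
  induction h with
  | nil s => exact h'
  | cons h _ ih => exact Run.cons h (ih h')

theorem Run.of_append {s u : List X} {w w' : Wrd X} (h : Run s (w ++ w') u) : ∃ t, Run s w t ∧ Run t w' u := by
  induction w generalizing s with
  | nil => exact ⟨s, Run.nil s, h⟩
  | cons l w ih =>
    cases h with
    | cons h h' =>
      obtain ⟨t, h1, h2⟩ := ih h'
      exact ⟨t, Run.cons h h1, h2⟩

theorem run_append {s u : List X} {w w' : Wrd X} : Run s (w ++ w') u ↔ ∃ t, Run s w t ∧ Run t w' u :=
  ⟨Run.of_append, fun ⟨_, h, h'⟩ => h.append h'⟩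

theorem run_nil {s t : List X} : Run s [] t ↔ s = t :=
  ⟨fun h => by cases h; rfl, fun h => h ▸ Run.nil s⟩

theorem run_cons {k : Kind X} {i : ℕ} {s u : List X} {w : Wrd X} :
    Run s ((k, i) :: w) u ↔ ∃ t, App k i s t ∧ Run t w u :=
  ⟨fun h => by cases h with | cons h h' => exact ⟨_, h, h'⟩, fun ⟨_, h, h'⟩ => Run.cons h h'⟩

theorem run_one {k : Kind X} {i : ℕ} {s u : List X} : Run s [(k, i)] u ↔ App k i s u := by
  rw [run_cons]
  constructor
  · rintro ⟨t, h, h'⟩
    rw [run_nil] at h'
    rwa [h'] at h
  · intro h
    exact ⟨u, h, Run.nil u⟩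

theorem Run.det {s t t' : List X} {w : Wrd X} (h : Run s w t) (h' : Run s w t') : t = t' := by
  induction h with
  | nil s => exact (run_nil.1 h')
  | cons h _ ih =>
    cases h' with
    | cons g g' =>
      rw [h.det g] at ih
      exact ih g'

theorem Run.left {s t : List X} {w : Wrd X} (h : Run s w t) (a : List X) : Run (a ++ s) (sh a.length w) (a ++ t) := by
  induction h with
  | nil s => exact Run.nil _
  | cons h _ ih => exact Run.cons (h.left a) ih

theorem Run.right {s t : List X} {w : Wrd X} (h : Run s w t) (b : List X) : Run (s ++ b) w (t ++ b) := by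
  induction h with
  | nil s => exact Run.nil _
  | cons h _ ih => exact Run.cons (h.right b) ih

theorem Run.mid {s t : List X} {w : Wrd X} (h : Run s w t) (a b : List X) :
    Run (a ++ s ++ b) (sh a.length w) (a ++ t ++ b) := (h.left a).right b

theorem Run.left_inv {s u : List X} {w : Wrd X} (a : List X) (h : Run (a ++ s) (sh a.length w) u) :
    ∃ t, u = a ++ t ∧ Run s w t := by
  induction w generalizing s with
  | nil =>
    rw [sh_nil, run_nil] at h
    exact ⟨s, h.symm, Run.nil s⟩
  | cons l w ih =>
    obtain ⟨k, i⟩ := l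
    cases h with
    | cons h h' =>
      obtain ⟨t, rfl, ht⟩ := App.left_inv a h
      obtain ⟨t', rfl, ht'⟩ := ih h'
      exact ⟨t', rfl, Run.cons ht ht'⟩

/-! ### Equivalence -/

theorem Eqv.refl (s : List X) (w : Wrd X) : Eqv s w w := Relation.EqvGen.refl w

theorem Eqv.symm {s : List X} {w w' : Wrd X} (h : Eqv s w w') : Eqv s w' w := Relation.EqvGen.symm _ _ h

theorem Eqv.trans {s : List X} {w w' w'' : Wrd X} (h : Eqv s w w') (h' : Eqv s w' w'') : Eqv s w w'' :=
  Relation.EqvGen.trans _ _ _ h h'

theorem Step.eqv {s : List X} {w w' : Wrd X} (h : Step s w w') : Eqv s w w' := Relation.EqvGen.rel _ _ h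

theorem Eqv.of_eq {s : List X} {w w' : Wrd X} (h : w = w') : Eqv s w w' := h ▸ Eqv.refl s w

instance (s : List X) : Trans (Eqv (X := X) s) (Eqv s) (Eqv s) := ⟨Eqv.trans⟩

theorem Step.run {s t : List X} {w w' : Wrd X} (h : Step s w w') : Run s w t ↔ Run s w' t := by
  obtain ⟨p, q, l, r, i, a, b, -, rfl, rfl, hp, hl, hr⟩ := h
  rw [run_append, run_append]
  have key : ∀ c, Run s (p ++ sh i l) c ↔ Run s (p ++ sh i r) c := by
    intro c
    constructor
    · intro h
      have : c = b := h.det (hp.append hl)
      rw [this]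
      exact hp.append hr
    · intro h
      have : c = b := h.det (hp.append hr)
      rw [this]
      exact hp.append hl
  simp only [key]

theorem Eqv.run {s t : List X} {w w' : Wrd X} (h : Eqv s w w') : Run s w t ↔ Run s w' t := by
  induction h with
  | rel _ _ h => exact h.run
  | refl _ => exact Iff.rfl
  | symm _ _ _ ih => exact ih.symm
  | trans _ _ _ _ _ ih1 ih2 => exact ih1.trans ih2

theorem Step.ctx {s t : List X} {w w' p : Wrd X} (h : Step t w w') (hp : Run s p t) (q : Wrd X) :
    Step s (p ++ w ++ q) (p ++ w' ++ q) := by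
  obtain ⟨p', q', l, r, i, a, b, h0, rfl, rfl, hp', hl, hr⟩ := h
  exact ⟨p ++ p', q' ++ q, l, r, i, a, b, h0, by simp, by simp, hp.append hp', hl, hr⟩

/-- equivalence in a context -/
theorem Eqv.ctx {s t : List X} {w w' p : Wrd X} (h : Eqv t w w') (hp : Run s p t) (q : Wrd X) :
    Eqv s (p ++ w ++ q) (p ++ w' ++ q) := by
  induction h with
  | rel _ _ h => exact (h.ctx hp q).eqv
  | refl _ => exact Eqv.refl _ _
  | symm _ _ _ ih => exact ih.symm
  | trans _ _ _ _ _ ih1 ih2 => exact ih1.trans ih2

theorem Eqv.app_left {s t : List X} {w w' p : Wrd X} (h : Eqv t w w') (hp : Run s p t) :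
    Eqv s (p ++ w) (p ++ w') := by
  have := h.ctx hp []
  simpa using this

theorem Eqv.app_right {s : List X} {w w' : Wrd X} (h : Eqv s w w') (q : Wrd X) :
    Eqv s (w ++ q) (w' ++ q) := by
  have := h.ctx (Run.nil s) q
  simpa using this

theorem Eqv.cons {k : Kind X} {i : ℕ} {s t : List X} {w w' : Wrd X} (h : Eqv t w w') (hp : App k i s t) :
    Eqv s ((k, i) :: w) ((k, i) :: w') := h.app_left (run_one.2 hp)

theorem Eqv.append {s t : List X} {w w' v v' : Wrd X} (h : Eqv s w w') (hw : Run s w t) (h' : Eqv t v v') :
    Eqv s (w ++ v) (w' ++ v') :=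
  (h'.app_left hw).trans (h.app_right v')

theorem Step.left {s : List X} {w w' : Wrd X} (h : Step s w w') (a : List X) :
    Step (a ++ s) (sh a.length w) (sh a.length w') := by
  obtain ⟨p', q', l, r, i, t, u, h0, rfl, rfl, hp', hl, hr⟩ := h
  refine ⟨sh a.length p', sh a.length q', l, r, a.length + i, a ++ t, a ++ u, h0, ?_, ?_, hp'.left a, ?_, ?_⟩
  · simp only [sh_append, sh_sh]
  · simp only [sh_append, sh_sh]
  · rw [← sh_sh]
    exact hl.left a
  · rw [← sh_sh]
    exact hr.left a

/-- strands at the left -/
theorem Eqv.left {s : List X} {w w' : Wrd X} (h : Eqv s w w') (a : List X) :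
    Eqv (a ++ s) (sh a.length w) (sh a.length w') := by
  induction h with
  | rel _ _ h => exact (h.left a).eqv
  | refl _ => exact Eqv.refl _ _
  | symm _ _ _ ih => exact ih.symm
  | trans _ _ _ _ _ ih1 ih2 => exact ih1.trans ih2

theorem Step.right {s : List X} {w w' : Wrd X} (h : Step s w w') (b : List X) : Step (s ++ b) w w' := by
  obtain ⟨p', q', l, r, i, t, u, h0, rfl, rfl, hp', hl, hr⟩ := h
  exact ⟨p', q', l, r, i, t ++ b, u ++ b, h0, rfl, rfl, hp'.right b, hl.right b, hr.right b⟩

/-- strands at the right -/
theorem Eqv.right {s : List X} {w w' : Wrd X} (h : Eqv s w w') (b : List X) : Eqv (s ++ b) w w' := by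
  induction h with
  | rel _ _ h => exact (h.right b).eqv
  | refl _ => exact Eqv.refl _ _
  | symm _ _ _ ih => exact ih.symm
  | trans _ _ _ _ _ ih1 ih2 => exact ih1.trans ih2

theorem Eqv.mid {s : List X} {w w' : Wrd X} (h : Eqv s w w') (a b : List X) :
    Eqv (a ++ s ++ b) (sh a.length w) (sh a.length w') := (h.left a).right b

/-- one local relation at the left end -/
theorem Rel0.eqv {s t : List X} {l r : Wrd X} (h : Rel0 l r) (hl : Run s l t) (hr : Run s r t) : Eqv s l r :=
  Step.eqv ⟨[], [], l, r, 0, s, t, h, by simp, by simp, Run.nil s, by simpa using hl, by simpa using hr⟩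

end

end Pool.Agent.KL
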