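import Pool.Agent.Lib_MP_7c418e_gt.Use

/-!
# The trivial knot, split links, crossing numbers, classes modulo mirror images
-/

set_option autoImplicit false
set_option linter.unusedSectionVars false
set_option linter.unusedVariables false
set_option linter.unusedSimpArgs false

universe u v

namespace Pool.Agent.KL

open Kind

/-- the trivial knot is not a connected sum of knots one of which is not trivial (this holds, by Schubert's theorem; we do not use this) -/
def NoInv : Prop := ∀ S T, Tan S → Tan T → LEq (clo (S ++ T)) O → LEq (clo S) O ∧ LEq (clo T) O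

/-! ### Isotopies -/

theorem LEq.refl (d : Wrd Unit) : LEq d d := Eqv.refl _ _
theorem LEq.symm {d e : Wrd Unit} (h : LEq d e) : LEq e d := Eqv.symm h
theorem LEq.trans {d e f : Wrd Unit} (h : LEq d e) (h' : LEq e f) : LEq d f := Eqv.trans h h'
theorem LEq.closed {d e : Wrd Unit} (h : LEq d e) : Closed d ↔ Closed e := Eqv.run h
theorem LEq.mir {d e : Wrd Unit} (h : LEq d e) : LEq (mir d) (mir e) := Eqv.mir h
theorem Closed.mir {d : Wrd Unit} (h : Closed d) : Closed (mir d) := Run.mir h

theorem Run.leq {κ : Type u} {w w' : Wrd (Col κ)} (h : Eqv [] w w') : LEq (fgt w) (fgt w') := h.forget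

theorem Run.closed {X : Type u} [Rule X] {w : Wrd X} (h : Run [] w []) : Closed (fgt w) := h.forget

theorem Same.refl (d : Wrd Unit) : Same d d := Or.inl (LEq.refl d)

theorem Same.symm {d e : Wrd Unit} (h : Same d e) : Same e d := by
  rcases h with h | h
  · exact Or.inl h.symm
  · right
    have := h.mir
    rw [mir_mir] at this
    exact this.symm

theorem Same.trans {d e f : Wrd Unit} (h : Same d e) (h' : Same e f) : Same d f := by
  rcases h with h | h <;> rcases h' with h' | h'
  · exact Or.inl (h.trans h')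
  · exact Or.inr (h.trans h')
  · exact Or.inr (h.trans h'.mir)
  · left
    have := h'.mir
    rw [mir_mir] at this
    exact h.trans this

theorem Same.mir (d : Wrd Unit) : Same d (mir d) := by
  right
  rw [mir_mir]
  exact LEq.refl d

theorem cls_eq {d e : Wrd Unit} : cls d = cls e ↔ Same d e := by
  constructor
  · intro h
    have : e ∈ cls e := Same.refl e
    rw [← h] at this
    exact this
  · intro h
    ext f
    exact ⟨fun hf => h.symm.trans hf, fun hf => h.trans hf⟩

/-! ### Closed words -/

theorem Closed.head {X : Type u} [Rule X] {w : Wrd X} (h : Run [] w []) (hw : w ≠ []) :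
    ∃ x w', w = (cup x, 0) :: w' ∧ Run [x, bar x] w' [] := by
  rcases w with _ | ⟨⟨k, i⟩, w⟩
  · exact absurd rfl hw
  · cases h with
    | cons h h' =>
      have h1 := h.le
      cases k with
      | cup x =>
        simp only [win_cup, List.length_nil] at h1
        obtain rfl : i = 0 := by omega
        cases h
        exact ⟨x, w, rfl, h'⟩
      | cap => simp at h1
      | pos => simp at h1
      | neg => simp at h1

theorem closed_nil : Closed [] := Run.nil _

theorem Closed.append {d e : Wrd Unit} (h : Closed d) (h' : Closed e) : Closed (d ++ e) := Run.append h h'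

theorem closed_O : Closed O := run_dec (n := 0) (m := 0) (by rfl)

/-- no label is used, so the word is empty -/
theorem nil_of_cups {X : Type u} [Rule X] {w : Wrd X} (h : Run [] w []) (hw : cups (fun _ => False) w) : w = [] := by
  by_contra h0
  obtain ⟨x, w', rfl, -⟩ := Closed.head h h0
  exact hw x 0 (by simp)

section Const

variable {κ : Type u}

/-- the constant labelling -/
def cst (c : κ) : RHom Unit (Col κ) := ⟨fun _ => c, fun _ => rfl, fun _ _ => rfl⟩

/-- the word with constant labels -/
def cw (c : κ) (d : Wrd Unit) : Wrd (Col κ) := wmap (cst c).toFun d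

theorem fgt_cw (c : κ) (d : Wrd Unit) : fgt (cw c d) = d := by
  rw [cw, fgt_wmap, fgt_eq]
  induction d with
  | nil => rfl
  | cons l d ih =>
    obtain ⟨k, i⟩ := l
    rw [wmap_cons, ih]
    cases k <;> rfl

theorem run_cw (c : κ) {d : Wrd Unit} (h : Closed d) : Run [] (cw c d) [] := Run.map (cst c) h

theorem cups_cw (c : κ) (d : Wrd Unit) : cups (fun x : Col κ => x = c) (cw c d) := by
  rw [cw, cups_wmap]
  intro x i _
  rfl

end Const

/-- split a labelled word over a decomposition of the diagram -/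
theorem fgt_eq_append {X : Type u} {w : Wrd X} {d e : Wrd Unit} (h : fgt w = d ++ e) :
    ∃ v v' : Wrd X, w = v ++ v' ∧ fgt v = d ∧ fgt v' = e := by
  rw [fgt_eq] at h
  obtain ⟨v, v', h1, h2, h3⟩ := wmap_eq_append.1 h
  exact ⟨v, v', h1, by rw [fgt_eq, h2], by rw [fgt_eq, h3]⟩

theorem fgt_eq_nil {X : Type u} {w : Wrd X} (h : fgt w = []) : w = [] := by
  rw [fgt_eq] at h
  exact wmap_eq_nil.1 h

theorem fgt_eq_cons' {X : Type u} {w : Wrd X} {k : Kind Unit} {i : ℕ} {d : Wrd Unit} (h : fgt w = (k, i) :: d) :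
    ∃ (k' : Kind X) (w' : Wrd X), w = (k', i) :: w' ∧ kmap (fun _ => ()) k' = k ∧ fgt w' = d := by
  rw [fgt_eq] at h
  obtain ⟨k', w', h1, h2, h3⟩ := wmap_eq_cons.1 h
  exact ⟨k', w', h1, h2, by rw [fgt_eq, h3]⟩

theorem fgt_ne_nil {X : Type u} {w : Wrd X} (h : w ≠ []) : fgt w ≠ [] := fun h' => h (fgt_eq_nil h')

/-- closed parts of a labelled word -/
theorem Run.split_closed {X : Type u} [Rule X] {w w' : Wrd X} (h : Run [] (w ++ w') []) (hd : Closed (fgt w)) :
    Run [] w [] ∧ Run [] w' [] := by
  obtain ⟨t, h1, h2⟩ := h.of_append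
  have h3 : t.map (fun _ => ()) = [] := by
    have h4 := h1.forget
    exact h4.det hd
  have h4 : t = [] := by simpa using h3
  subst h4
  exact ⟨h1, h2⟩

/-- labels of a diagram of the trivial knot by colours are constant -/
theorem O_label {κ : Type u} {w : Wrd (Col κ)} (h : Run [] w []) (hO : LEq (fgt w) O) :
    ∃ c : κ, cups (fun x : Col κ => x = c) w := by
  obtain ⟨v, h1, h2, h3⟩ := LEq.lift h hO
  obtain ⟨k, v', rfl, h4, h5⟩ := fgt_eq_cons' h1
  obtain ⟨c, rfl, -⟩ := kmap_eq_cup.1 h4
  obtain ⟨k', v'', rfl, h6, h7⟩ := fgt_eq_cons' h5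
  have h8 := fgt_eq_nil h7
  subst h8
  have h9 : k' = cap := kmap_eq_cap.1 h6
  subst h9
  refine ⟨c, Eqv.cups (subR_col _) h2.symm h3 (by simp) ?_⟩
  rw [cups_cons_cup, cups_cons (by simp)]
  exact ⟨rfl, cups_nil⟩

/-- a closed part of a word -/
theorem cups_true_false {κ : Type u} {w : Wrd (Col κ)} (h : Run [] w []) (hw : w ≠ []) {S : Col κ → Prop} (h1 : cups S w) :
    ∃ c, S c := by
  obtain ⟨x, w', rfl, -⟩ := Closed.head h hw
  exact ⟨x, h1 x 0 (by simp)⟩

/-- the trivial knot is not split -/
theorem O_nonsplit {a b : Wrd Unit} (ha : Closed a) (hb : Closed b) (h : LEq O (a ++ b)) : a = [] ∨ b = [] := by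
  by_contra hc
  push Not at hc
  obtain ⟨ha0, hb0⟩ := hc
  have h1 : Run [] (cw true a ++ cw false b) [] := (run_cw true ha).append (run_cw false hb)
  have h2 : LEq (fgt (cw true a ++ cw false b)) O := by
    rw [fgt_append, fgt_cw, fgt_cw]
    exact h.symm
  obtain ⟨c, hc⟩ := O_label h1 h2
  rw [cups_append] at hc
  have h3 : cw true a ≠ [] := fun h => ha0 (by rw [← fgt_cw true a, h]; rfl)
  have h4 : cw false b ≠ [] := fun h => hb0 (by rw [← fgt_cw false b, h]; rfl)
  have h5 : ∀ {w : Wrd (Col Bool)} (x : Bool), Run [] w [] → w ≠ [] → cups (fun y : Col Bool => y = x) w →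
      cups (fun y : Col Bool => y = c) w → x = c := by
    intro w x hw hw0 h6 h7
    obtain ⟨y, w', rfl, -⟩ := Closed.head hw hw0
    have h8 := h6 y 0 (by simp)
    have h9 := h7 y 0 (by simp)
    rw [← h8, ← h9]
  have h6 := h5 true (run_cw true ha) h3 (cups_cw true a) hc.1
  have h7 := h5 false (run_cw false hb) h4 (cups_cw false b) hc.2
  rw [← h6] at h7
  cases h7

/-- the empty link is equivalent to the empty word only -/
theorem nil_leq {d : Wrd Unit} (h : LEq d []) : d = [] := by
  have hc : Closed d := h.closed.2 closed_nil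
  have h1 := run_cw (κ := Bool) true hc
  obtain ⟨v, h2, h3, h4⟩ := LEq.lift h1 (by rw [fgt_cw]; exact h)
  have h5 := fgt_eq_nil h2
  subst h5
  have h6 : cups (fun _ : Col Bool => False) (cw true d) := Eqv.cups (subR_col _) h3.symm h4 (by simp) cups_nil
  have h7 := nil_of_cups h1 h6
  rw [← fgt_cw true d, h7]
  rfl

/-! ### Links with at least two components -/

theorem two_iff {d : Wrd Unit} : Two d ↔ ∃ w : Wrd (Col Bool), fgt w = d ∧ Run [] w [] ∧
    ¬ cups (fun x : Col Bool => x = false) w ∧ ¬ cups (fun x : Col Bool => x = true) w := by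
  constructor
  · rintro ⟨w, h1, h2, ⟨i, h3⟩, ⟨j, h4⟩⟩
    refine ⟨w, h1, h2, fun h => ?_, fun h => ?_⟩
    · have := h true i h3
      cases this
    · have := h false j h4
      cases this
  · rintro ⟨w, h1, h2, h3, h4⟩
    refine ⟨w, h1, h2, ?_, ?_⟩
    · by_contra hc
      apply h3
      intro x i hx
      cases x
      · rfl
      · exact absurd ⟨i, hx⟩ hc
    · by_contra hc
      apply h4
      intro x i hx
      cases x
      · exact absurd ⟨i, hx⟩ hc
      · rfl

/-- a diagram with labels of two kinds has at least two components -/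
theorem two_of_label {κ : Type u} {w : Wrd (Col κ)} (h : Run [] w []) (p : κ → Bool)
    (h1 : ¬ cups (fun x : Col κ => p x = false) w) (h2 : ¬ cups (fun x : Col κ => p x = true) w) : Two (fgt w) := by
  let f : RHom (Col κ) (Col Bool) := ⟨p, fun _ => rfl, fun _ _ => rfl⟩
  rw [two_iff]
  refine ⟨wmap f.toFun w, fgt_wmap _ _, ?_, ?_, ?_⟩
  · exact h.map f
  · rw [cups_wmap]
    exact h1
  · rw [cups_wmap]
    exact h2

/-- a diagram without two components has constant labels -/
theorem label_of_not_two {κ : Type u} {w : Wrd (Col κ)} (h : Run [] w []) (hw : w ≠ []) (h2 : ¬ Two (fgt w)) :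
    ∃ c : κ, cups (fun x : Col κ => x = c) w := by
  classical
  obtain ⟨x, w', rfl, -⟩ := Closed.head h hw
  refine ⟨x, ?_⟩
  by_contra hc
  apply h2
  refine two_of_label h (fun y => decide (y = x)) ?_ ?_
  · intro h3
    have := h3 x 0 (by simp)
    simp at this
  · intro h3
    apply hc
    intro y i hy
    exact of_decide_eq_true (h3 y i hy)

theorem Two.leq {d e : Wrd Unit} (h : LEq d e) (hd : Two d) : Two e := by
  rw [two_iff] at hd
  obtain ⟨w, rfl, h2, h3, h4⟩ := hd
  obtain ⟨v, h5, h6, h7⟩ := LEq.lift h2 h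
  rw [two_iff]
  exact ⟨v, h5, h7, fun h8 => h3 (Eqv.cups (subR_col _) h6.symm h7 (by simp) h8),
    fun h8 => h4 (Eqv.cups (subR_col _) h6.symm h7 (by simp) h8)⟩

theorem Two.mir {d : Wrd Unit} (hd : Two d) : Two (mir d) := by
  rw [two_iff] at hd ⊢
  obtain ⟨w, rfl, h2, h3, h4⟩ := hd
  exact ⟨KL.mir w, fgt_mir w, h2.mir, by rwa [cups_mir], by rwa [cups_mir]⟩

theorem not_two_O : ¬ Two O := by
  intro h
  rw [two_iff] at h
  obtain ⟨w, h1, h2, h3, h4⟩ := h
  obtain ⟨c, hc⟩ := O_label h2 (by rw [h1]; exact LEq.refl _)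
  cases c
  · exact h3 hc
  · exact h4 hc

/-! ### Prime links -/

theorem Prime.leq {d e : Wrd Unit} (h : LEq d e) (hd : Prime d) : Prime e where
  closed := h.closed.1 hd.closed
  ne_nil h' := hd.ne_nil (h.trans h')
  ne_O h' := hd.ne_O (h.trans h')
  nonsplit a b ha hb ha' hb' h' := hd.nonsplit a b ha hb ha' hb' (h.trans h')
  nonsum S T hS hT h' := hd.nonsum S T hS hT (h.trans h')

theorem Prime.split {d a b : Wrd Unit} (hd : Prime d) (ha : Closed a) (hb : Closed b) (h : LEq d (a ++ b)) :
    a = [] ∨ b = [] := by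
  by_contra hc
  push Not at hc
  exact hd.nonsplit a b ha hb hc.1 hc.2 h

/-! ### Crossing numbers -/

theorem cr_le {d e : Wrd Unit} (h : LEq d e) : cr d ≤ ncr e := Nat.sInf_le ⟨e, h, rfl⟩

theorem cr_spec (d : Wrd Unit) : ∃ e, LEq d e ∧ ncr e = cr d :=
  Nat.sInf_mem (s := {k | ∃ e, LEq d e ∧ ncr e = k}) ⟨_, d, LEq.refl d, rfl⟩

theorem le_cr {d : Wrd Unit} {n : ℕ} (h : ∀ e, LEq d e → n ≤ ncr e) : n ≤ cr d := by
  obtain ⟨e, h1, h2⟩ := cr_spec d
  rw [← h2]
  exact h e h1

theorem cr_leq {d e : Wrd Unit} (h : LEq d e) : cr d = cr e := by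
  apply le_antisymm
  · exact le_cr fun f hf => cr_le (h.trans hf)
  · exact le_cr fun f hf => cr_le (h.symm.trans hf)

theorem cr_mir (d : Wrd Unit) : cr (mir d) = cr d := by
  have key : ∀ d : Wrd Unit, cr (mir d) ≤ cr d := by
    intro d
    refine le_cr fun e he => ?_
    rw [← ncr_mir e]
    exact cr_le he.mir
  apply le_antisymm (key d)
  have := key (mir d)
  rwa [mir_mir] at this

theorem cr_same {d e : Wrd Unit} (h : Same d e) : cr d = cr e := by
  rcases h with h | h
  · exact cr_leq h
  · rw [cr_leq h, cr_mir]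

/-! ### Tangles -/

/-- the closure of a labelled tangle -/
def clox {X : Type u} (x : X) (T : Wrd X) : Wrd X := (cup x, 0) :: (T ++ [(cap, 0)])

@[simp] theorem fgt_clox {X : Type u} (x : X) (T : Wrd X) : fgt (clox x T) = clo (fgt T) := by
  simp [clox, clo]

/-- labels of a closure -/
theorem clo_lift {X : Type u} [Rule X] {w : Wrd X} {T : Wrd Unit} (hT : Tan T) (h : Run [] w []) (hw : fgt w = clo T) :
    ∃ x T', w = clox x T' ∧ fgt T' = T ∧ Run [x] T' [x] := by
  obtain ⟨k, w1, rfl, h1, h2⟩ := fgt_eq_cons' hw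
  obtain ⟨x, rfl, -⟩ := kmap_eq_cup.1 h1
  obtain ⟨T', w2, rfl, rfl, h4⟩ := fgt_eq_append h2
  obtain ⟨k', w3, rfl, h5, h6⟩ := fgt_eq_cons' h4
  have h7 := fgt_eq_nil h6
  subst h7
  have h8 : k' = cap := kmap_eq_cap.1 h5
  subst h8
  refine ⟨x, T', rfl, rfl, ?_⟩
  rw [run_cons] at h
  obtain ⟨t, h9, h10⟩ := h
  rw [app_cup] at h9
  subst h9
  obtain ⟨t, h11, h12⟩ := h10.of_append
  have key : ∀ (T' : Wrd X) (s : List X) (m : List Unit) (t : List X), Run (s.map fun _ => ()) (fgt T') m → Run (s ++ [bar x]) T' t →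
      ∃ u, t = u ++ [bar x] ∧ Run s T' u := by
    intro T'
    induction T' with
    | nil =>
      intro s m t _ h
      rw [run_nil] at h
      exact ⟨s, h.symm, Run.nil s⟩
    | cons l T' ih =>
      obtain ⟨k, i⟩ := l
      intro s m t h h'
      rw [fgt_cons] at h
      cases h with
      | cons g g' =>
        cases h' with
        | cons k1 k2 =>
          have h13 : i + k.win ≤ s.length := by
            have := g.le
            simpa using this
          obtain ⟨u, rfl, h14⟩ := App.right_inv h13 k1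
          have h15 := h14.map (fgtHom X)
          have h16 := g.det h15
          subst h16
          obtain ⟨v, rfl, h17⟩ := ih u m t g' k2
          exact ⟨v, rfl, Run.cons h14 h17⟩
  obtain ⟨u, rfl, h13⟩ := key T' [x] [()] t hT h11
  have h14 : u.length = 1 := by
    have h15 := h13.forget
    have h16 := h15.det hT
    have := congrArg List.length h16
    simpa using this
  obtain ⟨y, rfl⟩ := List.length_eq_one_iff.1 h14
  rw [run_one] at h12
  have h15 : bar x = bar y := (app_cap.1 h12).1
  have h16 : y = x := by rw [← bar_bar y, ← h15, bar_bar]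
  rwa [h16] at h13

theorem clo_lift_append {X : Type u} [Rule X] {w : Wrd X} {S T : Wrd Unit} (hS : Tan S) (hT : Tan T) (h : Run [] w [])
    (hw : fgt w = clo (S ++ T)) :
    ∃ x y S' T', w = clox x (S' ++ T') ∧ fgt S' = S ∧ fgt T' = T ∧ Run [x] S' [y] ∧ Run [y] T' [x] := by
  obtain ⟨x, R, rfl, h1, h2⟩ := clo_lift (hS.append hT) h hw
  obtain ⟨S', T', rfl, rfl, rfl⟩ := fgt_eq_append h1
  obtain ⟨t, h3, h4⟩ := h2.of_append
  have h5 : t.length = 1 := by
    have h6 := h3.forget.det hS
    have := congrArg List.length h6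
    simpa using this
  obtain ⟨y, rfl⟩ := List.length_eq_one_iff.1 h5
  exact ⟨x, y, S', T', rfl, rfl, rfl, h3, h4⟩

instance {κ : Type u} [DecidableEq κ] : DecidableEq (Col κ) := inferInstanceAs (DecidableEq κ)

theorem App.count_col {κ : Type u} [DecidableEq κ] {k : Kind (Col κ)} {i : ℕ} {s t : List (Col κ)} (h : App k i s t) (c : Col κ) :
    (s.count c) % 2 = (t.count c) % 2 := by
  induction h with
  | cup x s => rw [bar_col, List.count_cons, List.count_cons]; split <;> omega
  | cap x s => rw [bar_col, List.count_cons, List.count_cons]; split <;> omega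
  | pos a b s => rw [act_col, List.count_cons, List.count_cons, List.count_cons, List.count_cons]; omega
  | neg a b s => rw [act_col, List.count_cons, List.count_cons, List.count_cons, List.count_cons]; omega
  | skip x h ih => rw [List.count_cons, List.count_cons]; omega

theorem Run.count_col {κ : Type u} [DecidableEq κ] {s t : List (Col κ)} {w : Wrd (Col κ)} (h : Run s w t) (c : Col κ) :
    (s.count c) % 2 = (t.count c) % 2 := by
  induction h with
  | nil s => rfl
  | cons h _ ih => rw [h.count_col, ih]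

/-- both ends of a tangle have the same colour -/
theorem tan_col {κ : Type u} {x y : Col κ} {T : Wrd (Col κ)} (h : Run [x] T [y]) : y = x := by
  classical
  have h1 := h.count_col x
  by_contra hc
  have h2 : [x].count x = 1 := by simp
  have h3 : [y].count x = 0 := by
    rw [List.count_eq_zero]
    intro h4
    rw [List.mem_singleton] at h4
    exact hc h4.symm
  rw [h2, h3] at h1
  omega

end Pool.Agent.KL
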