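import Pool.Agent.Lib_MP_7c418e_gt.Nat

/-!
# Moving a tangle with one strand at the bottom and one at the top along a component
-/

set_option autoImplicit false

universe u v

namespace Pool.Agent.KL

open Kind

/-- abbreviations for the letters of diagrams -/
abbrev cu (i : ℕ) : Ltr Unit := (cup (), i)
abbrev ca (i : ℕ) : Ltr Unit := (cap, i)
abbrev po (i : ℕ) : Ltr Unit := (pos, i)
abbrev ne (i : ℕ) : Ltr Unit := (neg, i)

/-- states of diagrams -/
abbrev U (n : ℕ) : List Unit := List.replicate n ()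

theorem U_add (m n : ℕ) : U m ++ U n = U (m + n) := List.replicate_append_replicate

theorem unit_list (s : List Unit) : s = U s.length := by
  induction s with
  | nil => rfl
  | cons a s ih => rw [List.length_cons, U, List.replicate_succ, ← U, ← ih]

theorem app_U {k : Kind Unit} {i n m : ℕ} : App k i (U n) (U m) ↔ i + k.win ≤ n ∧ m + k.win = n + k.wout := by
  constructor
  · intro h
    have h1 := h.le
    have h2 := h.length
    simp only [U, List.length_replicate] at h1 h2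
    omega
  · rintro ⟨h1, h2⟩
    have key : ∀ (i n : ℕ), i + k.win ≤ n → ∃ t, App k i (U n) t := by
      intro i
      induction i with
      | zero =>
        intro n hn
        cases k with
        | cup x => exact ⟨_, App.cup _ _⟩
        | cap =>
          simp only [win_cap] at hn
          obtain ⟨c, rfl⟩ : ∃ c, n = c + 1 + 1 := ⟨n - 2, by omega⟩
          exact ⟨_, App.cap () _⟩
        | pos =>
          simp only [win_pos] at hn
          obtain ⟨c, rfl⟩ : ∃ c, n = c + 1 + 1 := ⟨n - 2, by omega⟩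
          exact ⟨_, App.pos () () _⟩
        | neg =>
          simp only [win_neg] at hn
          obtain ⟨c, rfl⟩ : ∃ c, n = c + 1 + 1 := ⟨n - 2, by omega⟩
          exact ⟨_, App.neg () () _⟩
      | succ i ih =>
        intro n hn
        obtain ⟨c, rfl⟩ : ∃ c, n = c + 1 := ⟨n - 1, by omega⟩
        obtain ⟨t, ht⟩ := ih c (by omega)
        exact ⟨_, App.skip () ht⟩
    obtain ⟨t, ht⟩ := key i n h1
    have h3 := ht.length
    have h4 : t.length = m := by simp only [U, List.length_replicate] at h3; omega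
    rw [unit_list t, h4] at ht
    exact ht

theorem run_U_nil {n m : ℕ} : Run (U n) [] (U m) ↔ n = m := by
  rw [run_nil]
  constructor
  · intro h
    have := congrArg List.length h
    simpa using this
  · rintro rfl
    rfl

theorem run_U_cons {k : Kind Unit} {i n m : ℕ} {w : Wrd Unit} :
    Run (U n) ((k, i) :: w) (U m) ↔ i + k.win ≤ n ∧ Run (U (n + k.wout - k.win)) w (U m) := by
  rw [run_cons]
  constructor
  · rintro ⟨t, h, h'⟩
    rw [unit_list t] at h h'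
    rw [app_U] at h
    refine ⟨h.1, ?_⟩
    have : n + k.wout - k.win = t.length := by omega
    rwa [this]
  · rintro ⟨h, h'⟩
    exact ⟨_, app_U.2 ⟨h, by omega⟩, h'⟩

/-- the number of strands above a concrete diagram -/
def evU : ℕ → Wrd Unit → Option ℕ
  | n, [] => some n
  | n, (k, i) :: w => if i + k.win ≤ n then evU (n + k.wout - k.win) w else none

theorem run_U_iff {n m : ℕ} {w : Wrd Unit} : Run (U n) w (U m) ↔ evU n w = some m := by
  induction w generalizing n with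
  | nil => rw [run_U_nil, evU, Option.some.injEq]
  | cons l w ih =>
    obtain ⟨k, i⟩ := l
    rw [run_U_cons, evU, ih]
    by_cases h : i + k.win ≤ n <;> simp [h]

/-- run of a concrete diagram -/
theorem run_dec {n m : ℕ} {w : Wrd Unit} (h : evU n w = some m) : Run (U n) w (U m) := run_U_iff.2 h

/-- one move at a concrete place of a diagram -/
theorem move {n : ℕ} {l r : Wrd Unit} (i : ℕ) (h : Rel0 l r) (hc : ∃ m, evU n (sh i l) = some m ∧ evU n (sh i r) = some m) :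
    Eqv (U n) (sh i l) (sh i r) := by
  obtain ⟨m, hl, hr⟩ := hc
  exact Step.eqv ⟨[], [], l, r, i, U n, U m, h, by simp, by simp, Run.nil _, run_dec hl, run_dec hr⟩

section

variable {V : Wrd Unit} (hV : Tan V)

include hV

theorem tanR (n : ℕ) : Run (U (n + 1)) V (U (n + 1)) := by
  have := Run.right hV (U n)
  simpa [U, List.replicate_succ] using this

theorem tan_sh (i n : ℕ) (h : i < n) : Run (U n) (sh i V) (U n) := by
  obtain ⟨c, rfl⟩ : ∃ c, n = i + (c + 1) := ⟨n - i - 1, by omega⟩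
  have := (tanR hV c).left (U i)
  rw [U_add] at this
  simpa using this

/-- tangle and crossing -/
theorem tc1 : Eqv (U 2) (sh 1 V ++ [po 0]) ([po 0] ++ V) := ov_nat hV ()

theorem tc2 : Eqv (U 2) (sh 1 V ++ [ne 0]) ([ne 0] ++ V) := un_nat hV ()

theorem tc3 : Eqv (U 2) (V ++ [po 0]) ([po 0] ++ sh 1 V) := by
  have h1 : Eqv (U 2) ([po 0] ++ (sh 1 V ++ [ne 0]) ++ [po 0]) ([po 0] ++ ([ne 0] ++ V) ++ [po 0]) :=
    (tc2 hV).ctx (run_dec (by rfl)) _
  have h2 : Eqv (U 2) ([po 0] ++ sh 1 V ++ [ne 0, po 0]) ([po 0] ++ sh 1 V ++ []) :=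
    (move 0 Rel0.r2b ⟨_, rfl, rfl⟩).app_left (t := U 2) ((run_dec (m := 2) (by rfl)).append (tan_sh hV 1 2 (by norm_num)))
  have h3 : Eqv (U 2) ([po 0, ne 0] ++ (V ++ [po 0])) ([] ++ (V ++ [po 0])) :=
    (move 0 Rel0.r2a ⟨_, rfl, rfl⟩).app_right _
  have h4 := (h2.symm.trans (by simpa using h1)).trans (by simpa using h3)
  simpa using h4.symm

theorem tc4 : Eqv (U 2) (V ++ [ne 0]) ([ne 0] ++ sh 1 V) := by
  have h1 : Eqv (U 2) ([ne 0] ++ (sh 1 V ++ [po 0]) ++ [ne 0]) ([ne 0] ++ ([po 0] ++ V) ++ [ne 0]) :=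
    (tc1 hV).ctx (run_dec (by rfl)) _
  have h2 : Eqv (U 2) ([ne 0] ++ sh 1 V ++ [po 0, ne 0]) ([ne 0] ++ sh 1 V ++ []) :=
    (move 0 Rel0.r2a ⟨_, rfl, rfl⟩).app_left (t := U 2) ((run_dec (m := 2) (by rfl)).append (tan_sh hV 1 2 (by norm_num)))
  have h3 : Eqv (U 2) ([ne 0, po 0] ++ (V ++ [ne 0])) ([] ++ (V ++ [ne 0])) :=
    (move 0 Rel0.r2b ⟨_, rfl, rfl⟩).app_right _
  have h4 := (h2.symm.trans (by simpa using h1)).trans (by simpa using h3)
  simpa using h4.symm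

end

/-- the tangle turned by a half turn -/
def rotT (V : Wrd Unit) : Wrd Unit := cu 0 :: (sh 1 V ++ [ca 1])

/-- the tangle turned by a half turn in the other direction -/
def rotT' (V : Wrd Unit) : Wrd Unit := cu 1 :: (sh 1 V ++ [ca 0])

section

variable {V : Wrd Unit} (hV : Tan V)

include hV

theorem tan_rotT : Tan (rotT V) := by
  have h1 : Run (U 1) [cu 0] (U 3) := run_dec (by rfl)
  have h2 : Run (U 3) [ca 1] (U 1) := run_dec (by rfl)
  have h3 := (h1.append (tan_sh hV 1 3 (by norm_num))).append h2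
  have h4 : Run (U 1) (rotT V) (U 1) := by simpa [rotT] using h3
  exact h4

theorem tan_rotT' : Tan (rotT' V) := by
  have h1 : Run (U 1) [cu 1] (U 3) := run_dec (by rfl)
  have h2 : Run (U 3) [ca 0] (U 1) := run_dec (by rfl)
  have h3 := (h1.append (tan_sh hV 1 3 (by norm_num))).append h2
  have h4 : Run (U 1) (rotT' V) (U 1) := by simpa [rotT'] using h3
  exact h4

/-- far commutation of a tangle and a word at the right -/
theorem tan_far (i n : ℕ) {w : Wrd Unit} {a b : ℕ} (h : i < n) (hw : Run (U a) w (U b)) :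
    Eqv (U (n + a)) (sh i V ++ sh n w) (sh n w ++ sh i V) := by
  have := far_block (tan_sh hV i n h) hw
  rw [U_add] at this
  simpa using this

/-- far commutation of a tangle and a word at the left -/
theorem tan_far' (n : ℕ) {w : Wrd Unit} {a b : ℕ} (hw : Run (U a) w (U b)) :
    Eqv (U (a + (n + 1))) (w ++ sh b V) (sh a V ++ w) := by
  have := far_block hw (tanR hV n)
  rw [U_add] at this
  simpa using this

theorem rotT_eqv : Eqv (U 1) (rotT V) (rotT' V) := by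
  -- insert two crossings
  have h1 : Eqv (U 1) ([cu 0] ++ [] ++ (sh 1 V ++ [ca 1])) ([cu 0] ++ [ne 0, po 0] ++ (sh 1 V ++ [ca 1])) :=
    (move (n := 3) 0 Rel0.r2b ⟨_, rfl, rfl⟩).symm.ctx (run_dec (by rfl)) _
  have h2 : Eqv (U 1) ([cu 0, ne 0] ++ ([po 0] ++ sh 1 V) ++ [ca 1]) ([cu 0, ne 0] ++ (V ++ [po 0]) ++ [ca 1]) := by
    have := (tc3 hV).symm.right (U 1)
    exact Eqv.ctx (t := U 3) this (run_dec (by rfl)) _
  have h3 : Eqv (U 1) ([cu 0, ne 0] ++ (V ++ [po 0, ca 1])) ([cu 0] ++ (V ++ [po 0, ca 1])) :=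
    (move (n := 1) 0 (Rel0.r1b () ()) ⟨_, rfl, rfl⟩).app_right _
  have h4 : Eqv (U 1) (([cu 0] ++ V) ++ [po 0, ca 1]) (([cu 0] ++ V) ++ [ne 1, ca 0]) :=
    (move (n := 3) 0 Rel0.sl4 ⟨_, rfl, rfl⟩).symm.app_left ((run_dec (m := 3) (by rfl)).append (tanR hV 2))
  have h5 : Eqv (U 1) ([cu 0] ++ (V ++ [ne 1]) ++ [ca 0]) ([cu 0] ++ ([ne 1] ++ V) ++ [ca 0]) := by
    have := tan_far hV 0 1 (by norm_num) (run_dec (n := 2) (m := 2) (w := [ne 0]) (by rfl))
    exact Eqv.ctx (t := U 3) (by simpa using this) (run_dec (by rfl)) _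
  have h6 : Eqv (U 1) ([cu 0, ne 1] ++ (V ++ [ca 0])) ([cu 1, po 0] ++ (V ++ [ca 0])) :=
    (move (n := 1) 0 (Rel0.sl2 () ()) ⟨_, rfl, rfl⟩).app_right _
  have h7 : Eqv (U 1) ([cu 1] ++ ([po 0] ++ V) ++ [ca 0]) ([cu 1] ++ (sh 1 V ++ [po 0]) ++ [ca 0]) := by
    have := (tc1 hV).symm.right (U 1)
    exact Eqv.ctx (t := U 3) this (run_dec (by rfl)) _
  have h8 : Eqv (U 1) (([cu 1] ++ sh 1 V) ++ [po 0, ca 0]) (([cu 1] ++ sh 1 V) ++ [ca 0]) :=
    (move (n := 3) 0 Rel0.r1c ⟨_, rfl, rfl⟩).app_left ((run_dec (m := 3) (by rfl)).append (tan_sh hV 1 3 (by norm_num)))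
  have h9 := h1.trans ((by simpa using h2 : Eqv (U 1) _ _).trans ((by simpa using h3 : Eqv (U 1) _ _).trans
    ((by simpa using h4 : Eqv (U 1) _ _).trans ((by simpa using h5 : Eqv (U 1) _ _).trans
    ((by simpa using h6 : Eqv (U 1) _ _).trans ((by simpa using h7 : Eqv (U 1) _ _).trans (by simpa using h8)))))))
  simpa [rotT, rotT'] using h9


/-- tangle at the left leg of a maximum -/
theorem cap_V : Eqv (U 2) (V ++ [ca 0]) (sh 1 (rotT V) ++ [ca 0]) := by
  -- `sh 1 (rotT V) ++ [ca 0] = [cu 1] ++ sh 2 V ++ [ca 2, ca 0]`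
  have h1 : Eqv (U 2) (([cu 1] ++ sh 2 V) ++ [ca 0, ca 0]) (([cu 1] ++ sh 2 V) ++ [ca 2, ca 0]) :=
    (move (n := 4) 0 (Rel0.far cap cap 0) ⟨_, rfl, rfl⟩).app_left
      ((run_dec (m := 4) (by rfl)).append (tan_sh hV 2 4 (by norm_num)))
  have h2 : Eqv (U 2) ([cu 1] ++ ([ca 0] ++ V) ++ [ca 0]) ([cu 1] ++ (sh 2 V ++ [ca 0]) ++ [ca 0]) := by
    have := tan_far' hV 1 (w := [ca 0]) (a := 2) (b := 0) (run_dec (by rfl))
    rw [sh_zero] at this
    exact Eqv.ctx this (run_dec (by rfl)) _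
  have h3 : Eqv (U 2) ([cu 1, ca 0] ++ (V ++ [ca 0])) ([] ++ (V ++ [ca 0])) :=
    (move (n := 2) 0 (Rel0.zag ()) ⟨_, rfl, rfl⟩).symm.app_right _
  have h4 := h3.symm.trans ((by simpa using h2 : Eqv (U 2) _ _).trans (by simpa using h1))
  simpa [rotT, sh_sh] using h4

theorem cup_R : Eqv (U 0) ([cu 0] ++ rotT V) ([cu 0] ++ sh 1 V) := by
  -- `[cu 0] ++ rotT V = [cu 0, cu 0] ++ sh 1 V ++ [ca 1]`
  have h1 : Eqv (U 0) ([cu 0, cu 2] ++ (sh 1 V ++ [ca 1])) ([cu 0, cu 0] ++ (sh 1 V ++ [ca 1])) :=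
    (move (n := 0) 0 (Rel0.far (cup ()) (cup ()) 0) ⟨_, rfl, rfl⟩).app_right _
  have h2 : Eqv (U 0) ([cu 0] ++ (sh 1 V ++ [cu 2]) ++ [ca 1]) ([cu 0] ++ ([cu 2] ++ sh 1 V) ++ [ca 1]) := by
    have := tan_far hV 1 2 (by norm_num) (w := [cu 0]) (a := 0) (b := 2) (run_dec (by rfl))
    exact Eqv.ctx this (run_dec (by rfl)) _
  have h3 : Eqv (U 0) (([cu 0] ++ sh 1 V) ++ []) (([cu 0] ++ sh 1 V) ++ [cu 2, ca 1]) :=
    (move (n := 2) 1 (Rel0.zag ()) ⟨_, rfl, rfl⟩).app_left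
      ((run_dec (m := 2) (by rfl)).append (tan_sh hV 1 2 (by norm_num)))
  have h4 := (by simpa using h3 : Eqv (U 0) _ _).trans ((by simpa using h2 : Eqv (U 0) _ _).trans (by simpa using h1))
  simpa [rotT, sh_sh] using h4.symm

theorem cap_R : Eqv (U 2) (rotT V ++ [ca 0]) (sh 1 V ++ [ca 0]) := by
  have h0 : Eqv (U 2) (rotT V ++ [ca 0]) (rotT' V ++ [ca 0]) :=
    Eqv.app_right ((rotT_eqv hV).right (U 1)) _
  -- `rotT' V ++ [ca 0] = [cu 1] ++ sh 1 V ++ [ca 0, ca 0]`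
  have h1 : Eqv (U 2) (([cu 1] ++ sh 1 V) ++ [ca 0, ca 0]) (([cu 1] ++ sh 1 V) ++ [ca 2, ca 0]) :=
    (move (n := 4) 0 (Rel0.far cap cap 0) ⟨_, rfl, rfl⟩).app_left
      ((run_dec (m := 4) (by rfl)).append (tan_sh hV 1 4 (by norm_num)))
  have h2 : Eqv (U 2) ([cu 1] ++ (sh 1 V ++ [ca 2]) ++ [ca 0]) ([cu 1] ++ ([ca 2] ++ sh 1 V) ++ [ca 0]) := by
    have := tan_far hV 1 2 (by norm_num) (w := [ca 0]) (a := 2) (b := 0) (run_dec (by rfl))
    exact Eqv.ctx this (run_dec (by rfl)) _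
  have h3 : Eqv (U 2) ([] ++ (sh 1 V ++ [ca 0])) ([cu 1, ca 2] ++ (sh 1 V ++ [ca 0])) :=
    (move (n := 2) 1 (Rel0.zig ()) ⟨_, rfl, rfl⟩).app_right _
  have h4 := (by simpa [rotT'] using h0 : Eqv (U 2) _ _).trans ((by simpa using h1 : Eqv (U 2) _ _).trans
    ((by simpa using h2 : Eqv (U 2) _ _).trans (by simpa using h3.symm)))
  simpa using h4

theorem cup_V : Eqv (U 0) ([cu 0] ++ V) ([cu 0] ++ sh 1 (rotT V)) := by
  have h0 : Eqv (U 0) ([cu 0] ++ sh 1 (rotT V)) ([cu 0] ++ sh 1 (rotT' V)) := by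
    have h := (rotT_eqv hV).left (U 1)
    rw [U_add] at h
    exact Eqv.app_left h (run_dec (by rfl))
  -- `[cu 0] ++ sh 1 (rotT' V) = [cu 0, cu 2] ++ sh 2 V ++ [ca 1]`
  have h1 : Eqv (U 0) ([cu 0, cu 2] ++ (sh 2 V ++ [ca 1])) ([cu 0, cu 0] ++ (sh 2 V ++ [ca 1])) :=
    (move (n := 0) 0 (Rel0.far (cup ()) (cup ()) 0) ⟨_, rfl, rfl⟩).app_right _
  have h2 : Eqv (U 0) ([cu 0] ++ ([cu 0] ++ sh 2 V) ++ [ca 1]) ([cu 0] ++ (V ++ [cu 0]) ++ [ca 1]) := by
    have := tan_far' hV 1 (w := [cu 0]) (a := 0) (b := 2) (run_dec (by rfl))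
    rw [sh_zero] at this
    exact Eqv.ctx this (run_dec (by rfl)) _
  have h3 : Eqv (U 0) (([cu 0] ++ V) ++ []) (([cu 0] ++ V) ++ [cu 0, ca 1]) :=
    (move (n := 2) 0 (Rel0.zig ()) ⟨_, rfl, rfl⟩).app_left
      ((run_dec (m := 2) (by rfl)).append (tanR hV 1))
  have h4 := (by simpa using h3 : Eqv (U 0) _ _).trans ((by simpa using h2.symm : Eqv (U 0) _ _).trans
    ((by simpa using h1.symm : Eqv (U 0) _ _).trans (by simpa [rotT', sh_sh] using h0.symm)))
  simpa using h4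

/-- closing at the left or at the right -/
theorem clo_left : Eqv (U 0) ([cu 0] ++ sh 1 V ++ [ca 0]) (clo V) := by
  have h1 : Eqv (U 0) ([cu 0] ++ (sh 1 V ++ [ca 0])) ([cu 0, ne 0] ++ (sh 1 V ++ [ca 0])) :=
    (move (n := 0) 0 (Rel0.r1b () ()) ⟨_, rfl, rfl⟩).symm.app_right _
  have h2 : Eqv (U 0) ([cu 0] ++ ([ne 0] ++ sh 1 V) ++ [ca 0]) ([cu 0] ++ (V ++ [ne 0]) ++ [ca 0]) :=
    (tc4 hV).symm.ctx (run_dec (by rfl)) _
  have h3 : Eqv (U 0) (([cu 0] ++ V) ++ [ne 0, ca 0]) (([cu 0] ++ V) ++ [ca 0]) :=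
    (move (n := 2) 0 Rel0.r1d ⟨_, rfl, rfl⟩).app_left ((run_dec (m := 2) (by rfl)).append (tanR hV 1))
  have h4 := (by simpa using h1 : Eqv (U 0) _ _).trans ((by simpa using h2 : Eqv (U 0) _ _).trans (by simpa using h3))
  simpa [clo] using h4

theorem clo_rotT : LEq (clo (rotT V)) (clo V) := by
  have h1 : Eqv (U 0) (([cu 0] ++ rotT V) ++ [ca 0]) (([cu 0] ++ sh 1 V) ++ [ca 0]) := (cup_R hV).app_right _
  have h2 := h1.trans (clo_left hV)
  have h3 : Eqv (U 0) (clo (rotT V)) (clo V) := by simpa [clo] using h2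
  exact h3

end

end Pool.Agent.KL
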