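import Mathlib

/-!
# MP_7c418e_gt: links as words in elementary tangles

A link diagram in general position is cut by horizontal lines into elementary pieces: a local minimum (`cup`), a local maximum
(`cap`), or a crossing, at a position between the vertical strands. So a diagram is a word, read from bottom to top. Two diagrams
represent isotopic links if and only if they are related by the local relations `Rel0` (planar isotopies and Reidemeister moves;
this is the classical presentation of the category of unoriented tangles by generators and relations; Yetter, Turaev).

Words may carry labels in a set `X` with a rule how labels change at crossings: `X = Unit` gives the diagrams themselves,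
`X = Col κ` the colourings of the components, `X = Cj G` the homomorphisms of the link group to `G` (Wirtinger).
-/

set_option autoImplicit false

universe u v

namespace Pool.Agent.KL

/-- labels of strands: `bar x` is the label of the same strand seen upside down, `act a x` is the label of a strand with label
`x` after it has passed from the right to the left under a strand with label `a` -/
class Rule (X : Type u) where
  bar : X → X
  act : X → X → X
  bar_bar : ∀ x, bar (bar x) = x
  act_self : ∀ x, act x x = x
  act_bar : ∀ a x, act a (bar x) = bar (act a x)
  bar_act : ∀ a x, act (bar a) (act a x) = x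
  act_act : ∀ a b x, act a (act b x) = act (act a b) (act a x)

export Rule (bar act bar_bar act_self act_bar bar_act act_act)

/-- no labels -/
instance : Rule Unit where
  bar x := x
  act _ x := x
  bar_bar _ := rfl
  act_self _ := rfl
  act_bar _ _ := rfl
  bar_act _ _ := rfl
  act_act _ _ _ := rfl

/-- colours of components -/
def Col (κ : Type u) : Type u := κ

instance (κ : Type u) : Rule (Col κ) where
  bar x := x
  act _ x := x
  bar_bar _ := rfl
  act_self _ := rfl
  act_bar _ _ := rfl
  bar_act _ _ := rfl
  act_act _ _ _ := rfl

/-- labels in a group `G`: the label is the image of the loop which passes under the strand from the left to the right -/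
def Cj (G : Type u) : Type u := G

instance (G : Type u) [Group G] : Group (Cj G) := inferInstanceAs (Group G)

instance (G : Type u) [Group G] : Rule (Cj G) where
  bar x := x⁻¹
  act a x := a * x * a⁻¹
  bar_bar x := inv_inv x
  act_self x := mul_inv_cancel_right x x
  act_bar a x := by group
  bar_act a x := by group
  act_act a b x := by group

/-- the elementary tangles: local minimum (with the label of its left leg), local maximum, the crossing at which the strand from the lower left to the upper right
is over (`pos`), or under (`neg`) -/
inductive Kind (X : Type u) : Type u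
  | cup (x : X) : Kind X
  | cap : Kind X
  | pos : Kind X
  | neg : Kind X

open Kind

/-- an elementary tangle and the number of strands to the left of it -/
abbrev Ltr (X : Type u) : Type u := Kind X × ℕ

/-- words, from bottom to top -/
abbrev Wrd (X : Type u) : Type u := List (Ltr X)

/-- number of strands entering from below -/
def Kind.win {X : Type u} : Kind X → ℕ
  | cup _ => 0
  | _ => 2

/-- number of strands leaving at the top -/
def Kind.wout {X : Type u} : Kind X → ℕ
  | cap => 0
  | _ => 2

/-- add `i` strands at the left -/
def sh {X : Type u} (i : ℕ) (w : Wrd X) : Wrd X := w.map fun l => (l.1, l.2 + i)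

section

variable {X : Type u} [Rule X]

/-- `App k i s t`: the labels of the strands are `s` below and `t` above the elementary tangle `k` at position `i` -/
inductive App : Kind X → ℕ → List X → List X → Prop
  | cup (x : X) (s : List X) : App (cup x) 0 s (x :: bar x :: s)
  | cap (x : X) (s : List X) : App cap 0 (x :: bar x :: s) s
  | pos (a b : X) (s : List X) : App pos 0 (a :: b :: s) (act a b :: a :: s)
  | neg (a b : X) (s : List X) : App neg 0 (a :: b :: s) (b :: act (bar b) a :: s)
  | skip (x : X) {k : Kind X} {i : ℕ} {s t : List X} (h : App k i s t) : App k (i + 1) (x :: s) (x :: t)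

/-- `Run s w t`: the labels of the strands are `s` below and `t` above the word `w` -/
inductive Run : List X → Wrd X → List X → Prop
  | nil (s : List X) : Run s [] s
  | cons {k : Kind X} {i : ℕ} {s t u : List X} {w : Wrd X} (h : App k i s t) (h' : Run t w u) : Run s ((k, i) :: w) u

/-- the local relations between words, at the left end: planar isotopies (`zig`, `zag`, `sl1`, …, `sl4`, `far`) and
Reidemeister moves (`r1a`, …, `r1d`, `r2a`, `r2b`, `r3`). The labels of the local minima are free here, they are determined by the
condition in `Step` that both sides have the same labels at their ends. -/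
inductive Rel0 : Wrd X → Wrd X → Prop
  | zig (x : X) : Rel0 [] [(cup x, 0), (cap, 1)]
  | zag (x : X) : Rel0 [] [(cup x, 1), (cap, 0)]
  | r1a (x y : X) : Rel0 [(cup x, 0), (pos, 0)] [(cup y, 0)]
  | r1b (x y : X) : Rel0 [(cup x, 0), (neg, 0)] [(cup y, 0)]
  | r1c : Rel0 [(pos, 0), (cap, 0)] [(cap, 0)]
  | r1d : Rel0 [(neg, 0), (cap, 0)] [(cap, 0)]
  | r2a : Rel0 [(pos, 0), (neg, 0)] []
  | r2b : Rel0 [(neg, 0), (pos, 0)] []
  | r3 : Rel0 [(pos, 0), (pos, 1), (pos, 0)] [(pos, 1), (pos, 0), (pos, 1)]
  | sl1 (x y : X) : Rel0 [(cup x, 0), (pos, 1)] [(cup y, 1), (neg, 0)]
  | sl2 (x y : X) : Rel0 [(cup x, 0), (neg, 1)] [(cup y, 1), (pos, 0)]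
  | sl3 : Rel0 [(pos, 1), (cap, 0)] [(neg, 0), (cap, 1)]
  | sl4 : Rel0 [(neg, 1), (cap, 0)] [(pos, 0), (cap, 1)]
  | far (k m : Kind X) (j : ℕ) : Rel0 [(k, 0), (m, k.wout + j)] [(m, k.win + j), (k, 0)]

/-- one application of a local relation in a word whose strands have the labels `s` at the bottom -/
def Step (s : List X) (w w' : Wrd X) : Prop :=
  ∃ (p q l r : Wrd X) (i : ℕ) (t u : List X), Rel0 l r ∧ w = p ++ sh i l ++ q ∧ w' = p ++ sh i r ++ q ∧
    Run s p t ∧ Run t (sh i l) u ∧ Run t (sh i r) u

/-- equivalence of words -/
def Eqv (s : List X) (w w' : Wrd X) : Prop := Relation.EqvGen (Step s) w w'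

end

/-- forget the labels -/
def fgt {X : Type u} (w : Wrd X) : Wrd Unit := w.map fun l =>
  (match l.1 with
    | cup _ => cup ()
    | cap => cap
    | pos => pos
    | neg => neg, l.2)

/-- link diagrams: words without strands at the bottom and at the top -/
def Closed (d : Wrd Unit) : Prop := Run [] d []

/-- isotopy of links -/
def LEq (d d' : Wrd Unit) : Prop := Eqv [] d d'

/-- number of crossings -/
def ncr {X : Type u} (d : Wrd X) : ℕ := d.countP fun l => match l.1 with
  | pos => true
  | neg => true
  | _ => false

/-- the mirror image -/
def mir {X : Type u} (d : Wrd X) : Wrd X := d.map fun l =>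
  (match l.1 with
    | cup x => cup x
    | cap => cap
    | pos => neg
    | neg => pos, l.2)

/-- the trivial knot -/
def O : Wrd Unit := [(cup (), 0), (cap, 0)]

/-- tangles with one strand at the bottom and one at the top (and possibly closed components) -/
def Tan (T : Wrd Unit) : Prop := Run [()] T [()]

/-- the closure of a tangle with one strand at the bottom and one at the top. If `S` and `T` are two such tangles then `clo (S ++ T)` is the connected sum of `clo S`
and `clo T` along the components of the two strands. -/
def clo (T : Wrd Unit) : Wrd Unit := (cup (), 0) :: (T ++ [(cap, 0)])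

/-- prime links: not empty, not trivial, not split and not a connected sum of two links different from the trivial knot -/
structure Prime (d : Wrd Unit) : Prop where
  closed : Closed d
  ne_nil : ¬ LEq d []
  ne_O : ¬ LEq d O
  nonsplit : ∀ a b, Closed a → Closed b → a ≠ [] → b ≠ [] → ¬ LEq d (a ++ b)
  nonsum : ∀ S T, Tan S → Tan T → LEq d (clo (S ++ T)) → LEq (clo S) O ∨ LEq (clo T) O

/-- the diagram has at least two components: the strands can be coloured with two colours, constant along the
components, and both colours are used -/
def Two (d : Wrd Unit) : Prop := ∃ w : Wrd (Col Bool), fgt w = d ∧ Run [] w [] ∧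
  (∃ i, ((cup true, i) : Ltr (Col Bool)) ∈ w) ∧ ∃ i, ((cup false, i) : Ltr (Col Bool)) ∈ w

/-- the link group has a homomorphism (given by Wirtinger labels of a diagram) to a group, such that the images of
two meridians do not commute. For knots: the group of the knot is not abelian, equivalently not infinite cyclic. -/
def NonAb (d : Wrd Unit) : Prop := ∃ (G : Type) (_ : Group G) (w : Wrd (Cj G)), fgt w = d ∧ Run [] w [] ∧
  ∃ x y : Cj G, (∃ i, (cup x, i) ∈ w) ∧ (∃ i, (cup y, i) ∈ w) ∧ x * y ≠ y * x

/-- equal or mirror images -/
def Same (d d' : Wrd Unit) : Prop := LEq d d' ∨ LEq d (mir d')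

/-- all diagrams of a link and of its mirror image -/
def cls (d : Wrd Unit) : Set (Wrd Unit) := {e | Same d e}

/-- crossing number: the minimum of the numbers of crossings of all diagrams of the link -/
noncomputable def cr (d : Wrd Unit) : ℕ := sInf {k | ∃ e, LEq d e ∧ ncr e = k}

/-- the number of prime links (modulo mirror images) with crossing number `n` which have at least two components or a group with two
noncommuting meridians. By Dehn's lemma (not used here) every nontrivial knot has such a group, so this is the number of all prime links with crossing number `n`. -/
noncomputable def lnum (n : ℕ) : ℕ∞ := Set.encard {C | ∃ d, Prime d ∧ (Two d ∨ NonAb d) ∧ cr d = n ∧ C = cls d}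

/-- the number of prime links with at least two components (modulo mirror images) with crossing number `n` -/
noncomputable def lnum2 (n : ℕ) : ℕ∞ := Set.encard {C | ∃ d, Prime d ∧ Two d ∧ cr d = n ∧ C = cls d}

end Pool.Agent.KL
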