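import Pool.Agent.Lib_MP_7c418e_gt.Nat

/-!
# Deleting components; the list of the crossings of a labelled word
-/

set_option autoImplicit false
set_option linter.unusedSectionVars false
set_option linter.unusedVariables false
set_option linter.unusedSimpArgs false

universe u v

namespace Pool.Agent.KL

open Kind

section

variable {X : Type u} [Rule X]

/-- the labels above an elementary tangle (as a function) -/
def nx (k : Kind X) : ℕ → List X → List X
  | 0, s => match k, s with
    | cup x, s => x :: bar x :: s
    | cap, _ :: _ :: s => s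
    | pos, a :: b :: s => act a b :: a :: s
    | neg, a :: b :: s => b :: act (bar b) a :: s
    | _, s => s
  | i + 1, a :: s => a :: nx k i s
  | _ + 1, [] => []

/-- the labels of the over and under strand at a crossing -/
def crL (k : Kind X) : ℕ → List X → List (X × X)
  | 0, s => match k, s with
    | pos, a :: b :: _ => [(a, b)]
    | neg, a :: b :: _ => [(b, a)]
    | _, _ => []
  | i + 1, _ :: s => crL k i s
  | _ + 1, [] => []

/-- the labels of the over and under strands at the crossings of a word -/
def crs : List X → Wrd X → List (X × X)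
  | _, [] => []
  | s, (k, i) :: w => crL k i s ++ crs (nx k i s) w

/-- a letter after deleting the strands with labels which do not satisfy `p` -/
def resL (p : X → Bool) (k : Kind X) : ℕ → List X → Wrd X
  | 0, s => match k, s with
    | cup x, _ => if p x then [(cup x, 0)] else []
    | cap, a :: _ => if p a then [(cap, 0)] else []
    | pos, a :: b :: _ => if p a && p b then [(pos, 0)] else []
    | neg, a :: b :: _ => if p a && p b then [(neg, 0)] else []
    | _, _ => []
  | i + 1, a :: s => if p a then sh 1 (resL p k i s) else resL p k i s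
  | _ + 1, [] => []

/-- a word after deleting the strands with labels which do not satisfy `p` -/
def res (p : X → Bool) : List X → Wrd X → Wrd X
  | _, [] => []
  | s, (k, i) :: w => resL p k i s ++ res p (nx k i s) w

/-- strands with labels which do not satisfy `p` can be deleted -/
structure Keeps (p : X → Bool) : Prop where
  kbar : ∀ x, p (bar x) = p x
  kact : ∀ a x, p (act a x) = p x
  ktriv : ∀ a x, p a = false → p x = true → act a x = x

theorem keeps_col {κ : Type u} (p : Col κ → Bool) : Keeps p := ⟨fun _ => rfl, fun _ _ => rfl, fun _ _ _ _ => rfl⟩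

@[simp] theorem nx_cup (x : X) (s : List X) : nx (cup x) 0 s = x :: bar x :: s := rfl
@[simp] theorem nx_cap (a b : X) (s : List X) : nx cap 0 (a :: b :: s) = s := rfl
@[simp] theorem nx_pos (a b : X) (s : List X) : nx pos 0 (a :: b :: s) = act a b :: a :: s := rfl
@[simp] theorem nx_neg (a b : X) (s : List X) : nx neg 0 (a :: b :: s) = b :: act (bar b) a :: s := rfl
@[simp] theorem nx_succ (k : Kind X) (i : ℕ) (a : X) (s : List X) : nx k (i + 1) (a :: s) = a :: nx k i s := rfl
@[simp] theorem nx_one (k : Kind X) (a : X) (s : List X) : nx k 1 (a :: s) = a :: nx k 0 s := rfl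
@[simp] theorem nx_two (k : Kind X) (a b : X) (s : List X) : nx k 2 (a :: b :: s) = a :: b :: nx k 0 s := rfl

@[simp] theorem crL_cup (x : X) (s : List X) : crL (cup x) 0 s = [] := rfl
@[simp] theorem crL_cap (s : List X) : crL cap 0 s = [] := by rcases s with _ | ⟨a, _ | ⟨b, s⟩⟩ <;> rfl
@[simp] theorem crL_pos (a b : X) (s : List X) : crL pos 0 (a :: b :: s) = [(a, b)] := rfl
@[simp] theorem crL_neg (a b : X) (s : List X) : crL neg 0 (a :: b :: s) = [(b, a)] := rfl
@[simp] theorem crL_succ (k : Kind X) (i : ℕ) (a : X) (s : List X) : crL k (i + 1) (a :: s) = crL k i s := rfl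
@[simp] theorem crL_one (k : Kind X) (a : X) (s : List X) : crL k 1 (a :: s) = crL k 0 s := rfl
@[simp] theorem crL_two (k : Kind X) (a b : X) (s : List X) : crL k 2 (a :: b :: s) = crL k 0 s := rfl

@[simp] theorem crs_nil (s : List X) : crs s ([] : Wrd X) = [] := rfl
@[simp] theorem crs_cons (s : List X) (k : Kind X) (i : ℕ) (w : Wrd X) :
    crs s ((k, i) :: w) = crL k i s ++ crs (nx k i s) w := rfl

section
variable (p : X → Bool)
@[simp] theorem resL_cup (x : X) (s : List X) : resL p (cup x) 0 s = if p x then [(cup x, 0)] else [] := rfl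
@[simp] theorem resL_cap (a : X) (s : List X) : resL p cap 0 (a :: s) = if p a then [(cap, 0)] else [] := rfl
@[simp] theorem resL_pos (a b : X) (s : List X) : resL p pos 0 (a :: b :: s) = if p a && p b then [(pos, 0)] else [] := rfl
@[simp] theorem resL_neg (a b : X) (s : List X) : resL p neg 0 (a :: b :: s) = if p a && p b then [(neg, 0)] else [] := rfl
@[simp] theorem resL_succ (k : Kind X) (i : ℕ) (a : X) (s : List X) :
    resL p k (i + 1) (a :: s) = if p a then sh 1 (resL p k i s) else resL p k i s := rfl
@[simp] theorem resL_one (k : Kind X) (a : X) (s : List X) :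
    resL p k 1 (a :: s) = if p a then sh 1 (resL p k 0 s) else resL p k 0 s := rfl
@[simp] theorem resL_two (k : Kind X) (a b : X) (s : List X) :
    resL p k 2 (a :: b :: s) = if p a then sh 1 (if p b then sh 1 (resL p k 0 s) else resL p k 0 s)
      else if p b then sh 1 (resL p k 0 s) else resL p k 0 s := rfl
@[simp] theorem res_nil (s : List X) : res p s ([] : Wrd X) = [] := rfl
@[simp] theorem res_cons (s : List X) (k : Kind X) (i : ℕ) (w : Wrd X) :
    res p s ((k, i) :: w) = resL p k i s ++ res p (nx k i s) w := rfl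
end

theorem App.nx {k : Kind X} {i : ℕ} {s t : List X} (h : App k i s t) : nx k i s = t := by
  induction h with
  | cup x s => rfl
  | cap x s => rfl
  | pos a b s => rfl
  | neg a b s => rfl
  | skip x h ih => rw [nx_succ, ih]

theorem res_append {s t : List X} {w w' : Wrd X} (p : X → Bool) (h : Run s w t) :
    res p s (w ++ w') = res p s w ++ res p t w' := by
  induction h with
  | nil s => rfl
  | cons h _ ih => rw [List.cons_append, res_cons, res_cons, h.nx, ih, List.append_assoc]

theorem crs_append {s t : List X} {w w' : Wrd X} (h : Run s w t) :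
    crs s (w ++ w') = crs s w ++ crs t w' := by
  induction h with
  | nil s => rfl
  | cons h _ ih => rw [List.cons_append, crs_cons, crs_cons, h.nx, ih, List.append_assoc]

theorem App.res {p : X → Bool} (hp : Keeps p) {k : Kind X} {i : ℕ} {s t : List X} (h : App k i s t) :
    Run (s.filter p) (resL p k i s) (t.filter p) := by
  induction h with
  | cup x s =>
    rw [resL_cup]
    by_cases hx : p x
    · simp only [hx, if_true, List.filter_cons, hp.kbar]
      exact run_cup.2 rfl
    · simp only [hx, List.filter_cons, hp.kbar]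
      exact Run.nil _
  | cap x s =>
    rw [resL_cap]
    by_cases hx : p x
    · simp only [hx, if_true, List.filter_cons, hp.kbar]
      exact run_cap.2 ⟨x, rfl⟩
    · simp only [hx, List.filter_cons, hp.kbar]
      exact Run.nil _
  | pos a b s =>
    rw [resL_pos]
    by_cases ha : p a
    · by_cases hb : p b
      · simp only [ha, hb, Bool.and_self, if_true, List.filter_cons, hp.kact]
        exact run_one.2 (App.pos _ _ _)
      · simp only [ha, hb, if_true, List.filter_cons, hp.kact, Bool.and_false]
        exact Run.nil _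
    · by_cases hb : p b
      · simp only [ha, hb, if_true, List.filter_cons, hp.kact, Bool.false_and]
        rw [hp.ktriv a b (by simpa using ha) hb]
        exact Run.nil _
      · simp only [ha, hb, List.filter_cons, hp.kact, Bool.and_false]
        exact Run.nil _
  | neg a b s =>
    rw [resL_neg]
    by_cases ha : p a
    · by_cases hb : p b
      · simp only [ha, hb, Bool.and_self, if_true, List.filter_cons, hp.kact]
        exact run_one.2 (App.neg _ _ _)
      · simp only [ha, hb, if_true, List.filter_cons, hp.kact, Bool.and_false]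
        rw [hp.ktriv (bar b) a (by rw [hp.kbar]; simpa using hb) ha]
        exact Run.nil _
    · by_cases hb : p b
      · simp only [ha, hb, if_true, List.filter_cons, hp.kact, Bool.false_and]
        exact Run.nil _
      · simp only [ha, hb, List.filter_cons, hp.kact, Bool.and_false]
        exact Run.nil _
  | @skip x k i s t h ih =>
    rw [resL_succ]
    by_cases hx : p x
    · simp only [hx, if_true, List.filter_cons]
      simpa using ih.left [x]
    · simp only [hx, List.filter_cons]
      exact ih

theorem Run.res {p : X → Bool} (hp : Keeps p) {s t : List X} {w : Wrd X} (h : Run s w t) :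
    Run (s.filter p) (res p s w) (t.filter p) := by
  induction h with
  | nil s => exact Run.nil _
  | cons h _ ih =>
    rw [res_cons, h.nx]
    exact (h.res hp).append ih

theorem resL_left (p : X → Bool) (k : Kind X) (i : ℕ) (a s : List X) :
    resL p k (i + a.length) (a ++ s) = sh (a.filter p).length (resL p k i s) := by
  induction a with
  | nil => simp
  | cons x a ih =>
    rw [List.length_cons, ← add_assoc, List.cons_append, resL_succ, ih]
    by_cases hx : p x
    · simp only [hx, if_true, List.filter_cons, sh_sh, List.length_cons, add_comm]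
    · simp only [hx, List.filter_cons]
      rfl

theorem nx_left (k : Kind X) (i : ℕ) (a s : List X) : nx k (i + a.length) (a ++ s) = a ++ nx k i s := by
  induction a with
  | nil => simp
  | cons x a ih => rw [List.length_cons, ← add_assoc, List.cons_append, nx_succ, ih, List.cons_append]

theorem crL_left (k : Kind X) (i : ℕ) (a s : List X) : crL k (i + a.length) (a ++ s) = crL k i s := by
  induction a with
  | nil => simp
  | cons x a ih => rw [List.length_cons, ← add_assoc, List.cons_append, crL_succ, ih]

theorem res_left (p : X → Bool) (a s : List X) (w : Wrd X) :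
    res p (a ++ s) (sh a.length w) = sh (a.filter p).length (res p s w) := by
  induction w generalizing s with
  | nil => rfl
  | cons l w ih =>
    obtain ⟨k, i⟩ := l
    rw [sh_cons, res_cons, resL_left, nx_left, ih, res_cons, sh_append]

theorem crs_left (a s : List X) (w : Wrd X) : crs (a ++ s) (sh a.length w) = crs s w := by
  induction w generalizing s with
  | nil => rfl
  | cons l w ih =>
    obtain ⟨k, i⟩ := l
    rw [sh_cons, crs_cons, crL_left, nx_left, ih, crs_cons]

theorem App.resL_right {p : X → Bool} {k : Kind X} {i : ℕ} {s t : List X} (h : App k i s t) (b : List X) :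
    resL p k i (s ++ b) = resL p k i s := by
  induction h with
  | cup x s => rfl
  | cap x s => rfl
  | pos a b s => rfl
  | neg a b s => rfl
  | skip x h ih => rw [List.cons_append, resL_succ, resL_succ, ih]

theorem App.crL_right {k : Kind X} {i : ℕ} {s t : List X} (h : App k i s t) (b : List X) :
    crL k i (s ++ b) = crL k i s := by
  induction h with
  | cup x s => rfl
  | cap x s => rfl
  | pos a b s => rfl
  | neg a b s => rfl
  | skip x h ih => rw [List.cons_append, crL_succ, crL_succ, ih]

theorem Run.res_right {p : X → Bool} {s t : List X} {w : Wrd X} (h : Run s w t) (b : List X) :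
    KL.res p (s ++ b) w = KL.res p s w := by
  induction h with
  | nil s => rfl
  | cons h _ ih => rw [res_cons, res_cons, h.resL_right, h.nx, (h.right b).nx, ih]

theorem Run.crs_right {s t : List X} {w : Wrd X} (h : Run s w t) (b : List X) :
    crs (s ++ b) w = crs s w := by
  induction h with
  | nil s => rfl
  | cons h _ ih => rw [crs_cons, crs_cons, h.crL_right, h.nx, (h.right b).nx, ih]

theorem App.length_crL {k : Kind X} {i : ℕ} {s t : List X} (h : App k i s t) : (crL k i s).length = ncr [(k, i)] := by
  induction h with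
  | cup x s => rfl
  | cap x s => rfl
  | pos a b s => rfl
  | neg a b s => rfl
  | @skip x k i s t h ih =>
    rw [crL_succ, ih]
    cases k <;> rfl

/-- the number of crossings -/
theorem Run.length_crs {s t : List X} {w : Wrd X} (h : Run s w t) : (crs s w).length = ncr w := by
  induction h with
  | nil s => rfl
  | @cons k i s t u w h _ ih => rw [crs_cons, List.length_append, h.length_crL, h.nx, ih, ncr_cons k i w, add_comm]

theorem App.crL_resL {p : X → Bool} (hp : Keeps p) {k : Kind X} {i : ℕ} {s t : List X} (h : App k i s t) :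
    crs (s.filter p) (resL p k i s) = (crL k i s).filter fun x => p x.1 && p x.2 := by
  induction h with
  | cup x s => rw [resL_cup]; split <;> rfl
  | cap x s => rw [resL_cap]; by_cases hx : p x <;> simp [hx]
  | pos a b s => rw [resL_pos]; by_cases ha : p a <;> by_cases hb : p b <;> simp [ha, hb]
  | neg a b s => rw [resL_neg]; by_cases ha : p a <;> by_cases hb : p b <;> simp [ha, hb]
  | @skip x k i s t h ih =>
    rw [resL_succ, crL_succ, ← ih]
    by_cases hx : p x
    · simp only [hx, if_true, List.filter_cons]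
      exact crs_left [x] _ _
    · simp only [hx, List.filter_cons]
      rfl

/-- the crossings which remain after the deletion -/
theorem Run.crs_res {p : X → Bool} (hp : Keeps p) {s t : List X} {w : Wrd X} (h : Run s w t) :
    crs (s.filter p) (KL.res p s w) = (crs s w).filter fun x => p x.1 && p x.2 := by
  induction h with
  | nil s => rfl
  | @cons k i s t u w h h' ih =>
    rw [res_cons, crs_cons, List.filter_append, crs_append (h.res hp), h.crL_resL hp, h.nx, ih]


theorem App.split0 {k : Kind X} {s v : List X} (h : App k 0 s v) :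
    ∃ a a' b, s = a ++ b ∧ v = a' ++ b ∧ a.length = k.win ∧ a'.length = k.wout ∧ App k 0 a a' := by
  cases h with
  | cup x s => exact ⟨[], [x, bar x], s, rfl, rfl, rfl, rfl, App.cup x []⟩
  | cap x s => exact ⟨[x, bar x], [], v, rfl, rfl, rfl, rfl, App.cap x []⟩
  | pos a b s => exact ⟨[a, b], [act a b, a], s, rfl, rfl, rfl, rfl, App.pos a b []⟩
  | neg a b s => exact ⟨[a, b], [b, act (bar b) a], s, rfl, rfl, rfl, rfl, App.neg a b []⟩

/-- deletion in a local relation -/
theorem Rel0.res {p : X → Bool} (hp : Keeps p) {l r : Wrd X} (h : Rel0 l r) {s t : List X} (hl : Run s l t)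
    (hr : Run s r t) : Eqv (s.filter p) (KL.res p s l) (KL.res p s r) := by
  have hl' := hl.res hp
  have hr' := hr.res hp
  have e : ∀ {a b c : Wrd X}, a = b → b = c → Eqv (s.filter p) a c := fun h h' => Eqv.of_eq (h.trans h')
  cases h with
  | zig x =>
    rw [run_zig] at hr
    obtain ⟨s', rfl, -⟩ := hr
    by_cases hx : p x
    · have h1 : KL.res p (x :: s') [(cup x, 0), (cap, 1)] = [(cup x, 0), (cap, 1)] := by simp [hx, hp.kbar]
      rw [h1] at hr' ⊢
      exact (Rel0.zig x).eqv hl' hr'
    · exact Eqv.of_eq (by simp [hx, hp.kbar])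
  | zag x =>
    rw [run_zag] at hr
    obtain ⟨s', rfl, -⟩ := hr
    by_cases hx : p x
    · have h1 : KL.res p (bar x :: s') [(cup x, 1), (cap, 0)] = [(cup x, 1), (cap, 0)] := by simp [hx, hp.kbar]
      rw [h1] at hr' ⊢
      exact (Rel0.zag x).eqv hl' hr'
    · exact Eqv.of_eq (by simp [hx, hp.kbar])
  | r1a x y =>
    rw [run_r1a] at hl
    rw [run_cup] at hr
    have hy : bar x = y := by rw [hl] at hr; exact (List.cons.injEq _ _ _ _ ▸ hr).1
    by_cases hx : p x
    · have h1 : KL.res p s [(cup x, 0), (pos, 0)] = [(cup x, 0), (pos, 0)] := by simp [hx, hp.kbar]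
      have h2 : KL.res p s [(cup y, 0)] = [(cup y, 0)] := by simp [← hy, hx, hp.kbar]
      rw [h1] at hl' ⊢
      rw [h2] at hr' ⊢
      exact (Rel0.r1a x y).eqv hl' hr'
    · exact Eqv.of_eq (by simp [hx, hp.kbar, ← hy])
  | r1b x y =>
    rw [run_r1b] at hl
    rw [run_cup] at hr
    have hy : bar x = y := by rw [hl] at hr; exact (List.cons.injEq _ _ _ _ ▸ hr).1
    by_cases hx : p x
    · have h1 : KL.res p s [(cup x, 0), (neg, 0)] = [(cup x, 0), (neg, 0)] := by simp [hx, hp.kbar]
      have h2 : KL.res p s [(cup y, 0)] = [(cup y, 0)] := by simp [← hy, hx, hp.kbar]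
      rw [h1] at hl' ⊢
      rw [h2] at hr' ⊢
      exact (Rel0.r1b x y).eqv hl' hr'
    · exact Eqv.of_eq (by simp [hx, hp.kbar, ← hy])
  | r1c =>
    rw [run_cap] at hr
    obtain ⟨x, rfl⟩ := hr
    by_cases hx : p x
    · have h1 : KL.res p (x :: bar x :: t) [(pos, 0), (cap, 0)] = [(pos, 0), (cap, 0)] := by simp [hx, hp.kbar, hp.kact]
      have h2 : KL.res p (x :: bar x :: t) [(cap, 0)] = [(cap, 0)] := by simp [hx]
      rw [h1] at hl' ⊢
      rw [h2] at hr' ⊢
      exact Rel0.r1c.eqv hl' hr'
    · exact Eqv.of_eq (by simp [hx, hp.kbar, hp.kact])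
  | r1d =>
    rw [run_cap] at hr
    obtain ⟨x, rfl⟩ := hr
    by_cases hx : p x
    · have h1 : KL.res p (x :: bar x :: t) [(neg, 0), (cap, 0)] = [(neg, 0), (cap, 0)] := by simp [hx, hp.kbar, hp.kact]
      have h2 : KL.res p (x :: bar x :: t) [(cap, 0)] = [(cap, 0)] := by simp [hx]
      rw [h1] at hl' ⊢
      rw [h2] at hr' ⊢
      exact Rel0.r1d.eqv hl' hr'
    · exact Eqv.of_eq (by simp [hx, hp.kbar, hp.kact])
  | r2a =>
    rw [run_r2a] at hl
    obtain ⟨a, b, s', rfl, -⟩ := hl
    by_cases ha : p a <;> by_cases hb : p b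
    · have h1 : KL.res p (a :: b :: s') [(pos, 0), (neg, 0)] = [(pos, 0), (neg, 0)] := by simp [ha, hb, hp.kact]
      rw [h1] at hl' ⊢
      exact Rel0.r2a.eqv hl' hr'
    all_goals exact Eqv.of_eq (by simp [ha, hb, hp.kbar, hp.kact])
  | r2b =>
    rw [run_r2b] at hl
    obtain ⟨a, b, s', rfl, -⟩ := hl
    by_cases ha : p a <;> by_cases hb : p b
    · have h1 : KL.res p (a :: b :: s') [(neg, 0), (pos, 0)] = [(neg, 0), (pos, 0)] := by simp [ha, hb, hp.kact]
      rw [h1] at hl' ⊢
      exact Rel0.r2b.eqv hl' hr'
    all_goals exact Eqv.of_eq (by simp [ha, hb, hp.kbar, hp.kact])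
  | r3 =>
    rw [run_r3l] at hl
    obtain ⟨a, b, c, s', rfl, -⟩ := hl
    by_cases ha : p a <;> by_cases hb : p b <;> by_cases hc : p c
    · have h1 : KL.res p (a :: b :: c :: s') [(pos, 0), (pos, 1), (pos, 0)] = [(pos, 0), (pos, 1), (pos, 0)] := by
        simp [ha, hb, hc, hp.kact]
      have h2 : KL.res p (a :: b :: c :: s') [(pos, 1), (pos, 0), (pos, 1)] = [(pos, 1), (pos, 0), (pos, 1)] := by
        simp [ha, hb, hc, hp.kact]
      rw [h1] at hl' ⊢
      rw [h2] at hr' ⊢
      exact Rel0.r3.eqv hl' hr'
    all_goals exact Eqv.of_eq (by simp [ha, hb, hc, hp.kbar, hp.kact])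
  | sl1 x y =>
    rw [run_sl1l] at hl
    obtain ⟨b, s', rfl, rfl⟩ := hl
    rw [run_sl1r] at hr
    obtain ⟨b', s'', h1, h2⟩ := hr
    have hy : x = y := (List.cons.injEq _ _ _ _ ▸ h2).1
    subst hy
    by_cases hx : p x <;> by_cases hb : p b
    · have h1 : KL.res p (b :: s') [(cup x, 0), (pos, 1)] = [(cup x, 0), (pos, 1)] := by simp [hx, hb, hp.kact, hp.kbar]
      have h2 : KL.res p (b :: s') [(cup x, 1), (neg, 0)] = [(cup x, 1), (neg, 0)] := by simp [hx, hb, hp.kact, hp.kbar]
      rw [h1] at hl' ⊢
      rw [h2] at hr' ⊢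
      exact (Rel0.sl1 x x).eqv hl' hr'
    all_goals exact Eqv.of_eq (by simp [hx, hb, hp.kbar, hp.kact])
  | sl2 x y =>
    rw [run_sl2l] at hl
    obtain ⟨b, s', rfl, rfl⟩ := hl
    rw [run_sl2r] at hr
    obtain ⟨b', s'', h1, h2⟩ := hr
    simp only [List.cons.injEq] at h1 h2
    obtain ⟨rfl, rfl⟩ := h1
    have hy : x = act b y := h2.1
    subst hy
    by_cases hx : p y <;> by_cases hb : p b
    · have h1 : KL.res p (b :: s') [(cup (act b y), 0), (neg, 1)] = [(cup (act b y), 0), (neg, 1)] := by simp [hx, hb, hp.kact, hp.kbar]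
      have h2 : KL.res p (b :: s') [(cup y, 1), (pos, 0)] = [(cup y, 1), (pos, 0)] := by simp [hx, hb, hp.kact, hp.kbar]
      rw [h1] at hl' ⊢
      rw [h2] at hr' ⊢
      exact (Rel0.sl2 _ _).eqv hl' hr'
    · have h3 : act b y = y := hp.ktriv b y (by simpa using hb) hx
      exact Eqv.of_eq (by simp [hx, hb, hp.kbar, hp.kact, h3])
    all_goals exact Eqv.of_eq (by simp [hx, hb, hp.kbar, hp.kact])
  | sl3 =>
    rw [run_sl3l] at hl
    obtain ⟨a, b, s', rfl, rfl⟩ := hl
    by_cases ha : p a <;> by_cases hb : p b
    · have h1 : KL.res p (a :: b :: act (bar b) (bar a) :: s') [(pos, 1), (cap, 0)] = [(pos, 1), (cap, 0)] := by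
        simp [ha, hb, hp.kact, hp.kbar]
      have h2 : KL.res p (a :: b :: act (bar b) (bar a) :: s') [(neg, 0), (cap, 1)] = [(neg, 0), (cap, 1)] := by
        simp [ha, hb, hp.kact, hp.kbar]
      rw [h1] at hl' ⊢
      rw [h2] at hr' ⊢
      exact Rel0.sl3.eqv hl' hr'
    all_goals exact Eqv.of_eq (by simp [ha, hb, hp.kbar, hp.kact])
  | sl4 =>
    rw [run_sl4l] at hl
    obtain ⟨a, b, s', rfl, rfl⟩ := hl
    by_cases ha : p a <;> by_cases hb : p b
    · have h1 : KL.res p (a :: b :: bar a :: s') [(neg, 1), (cap, 0)] = [(neg, 1), (cap, 0)] := by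
        simp [ha, hb, hp.kact, hp.kbar]
      have h2 : KL.res p (a :: b :: bar a :: s') [(pos, 0), (cap, 1)] = [(pos, 0), (cap, 1)] := by
        simp [ha, hb, hp.kact, hp.kbar]
      rw [h1] at hl' ⊢
      rw [h2] at hr' ⊢
      exact Rel0.sl4.eqv hl' hr'
    all_goals exact Eqv.of_eq (by simp [ha, hb, hp.kbar, hp.kact])
  | far k m j =>
    rw [run_two] at hl
    obtain ⟨v, h1, h2⟩ := hl
    obtain ⟨a, a', b, rfl, rfl, ha, ha', h3⟩ := h1.split0
    have h4 : k.wout + j = j + a'.length := by omega
    rw [h4] at h2
    obtain ⟨c, rfl, h5⟩ := App.left_inv a' h2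
    have e1 : KL.res p (a ++ b) [(k, 0), (m, k.wout + j)] =
        resL p k 0 a ++ sh (a'.filter p).length (resL p m j b) := by
      rw [res_cons, res_cons, res_nil, List.append_nil, (h3.right b).nx, h4, resL_left, h3.resL_right]
    have e2 : KL.res p (a ++ b) [(m, k.win + j), (k, 0)] =
        sh (a.filter p).length (resL p m j b) ++ resL p k 0 a := by
      have h6 : k.win + j = j + a.length := by omega
      rw [res_cons, res_cons, res_nil, List.append_nil, h6, (h5.left a).nx, resL_left, h3.resL_right]
    rw [e1, e2, List.filter_append]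
    exact far_block (h3.res hp) (h5.res hp)

theorem Step.res {p : X → Bool} (hp : Keeps p) {s t : List X} {w w' : Wrd X} (h : Step s w w') (hw : Run s w t) :
    Eqv (s.filter p) (KL.res p s w) (KL.res p s w') := by
  obtain ⟨p', q', l, r, i, u, v, h0, rfl, rfl, hp', hl, hr⟩ := h
  have hi : i ≤ u.length := by
    rcases h0.ne_nil with h2 | h2
    · exact hl.le_of_ne_nil h2
    · exact hr.le_of_ne_nil h2
  obtain ⟨a, b, rfl, rfl⟩ : ∃ a b, u = a ++ b ∧ a.length = i :=
    ⟨u.take i, u.drop i, (List.take_append_drop i u).symm, by simp [hi]⟩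
  obtain ⟨c, rfl, hl'⟩ := Run.left_inv a hl
  obtain ⟨c', h1, hr'⟩ := Run.left_inv a hr
  have h2 : c' = c := (List.append_cancel_left h1).symm
  subst h2
  rw [res_append p (hp'.append hl), res_append p hp', res_append p (hp'.append hr), res_append p hp',
    res_left, res_left]
  have h3 := (h0.res hp hl' hr').left (a.filter p)
  have h4 := hp'.res hp
  rw [List.filter_append] at h4
  exact h3.ctx h4 _

/-- deletion is compatible with equivalences -/
theorem Eqv.res {p : X → Bool} (hp : Keeps p) {s t : List X} {w w' : Wrd X} (h : Eqv s w w') (hw : Run s w t) :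
    Eqv (s.filter p) (KL.res p s w) (KL.res p s w') := by
  have key : ∀ w w' : Wrd X, Eqv s w w' → Run s w t → Eqv (s.filter p) (KL.res p s w) (KL.res p s w') := by
    intro w w' h
    induction h with
    | rel _ _ h => exact fun hw => h.res hp hw
    | refl _ => exact fun _ => Eqv.refl _ _
    | symm a b h ih =>
      intro hw
      have : Run s a t := (Eqv.run (X := X) h).2 hw
      exact (ih this).symm
    | trans a b c h1 h2 ih1 ih2 =>
      intro hw
      exact (ih1 hw).trans (ih2 ((Eqv.run (X := X) h1).1 hw))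
  exact key w w' h hw

/-! ### Parity of crossing counts -/

/-- the number of crossings whose pair of labels (over, under) satisfies `P` -/
def cnt (P : X → X → Bool) (s : List X) (w : Wrd X) : ℕ := (crs s w).countP fun x => P x.1 x.2

/-- the condition depends only on the components, and self-crossings are not counted -/
structure Pairs (P : X → X → Bool) : Prop where
  bar1 : ∀ x y, P (bar x) y = P x y
  bar2 : ∀ x y, P x (bar y) = P x y
  act1 : ∀ a x y, P (act a x) y = P x y
  act2 : ∀ a x y, P x (act a y) = P x y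
  self : ∀ x, P x x = false

theorem cnt_append {P : X → X → Bool} {s t : List X} {w w' : Wrd X} (h : Run s w t) :
    cnt P s (w ++ w') = cnt P s w + cnt P t w' := by
  rw [cnt, crs_append h, List.countP_append, cnt, cnt]

theorem Rel0.cnt {P : X → X → Bool} (hP : Pairs P) {l r : Wrd X} (h : Rel0 l r) {s t : List X} (hl : Run s l t)
    (hr : Run s r t) : cnt P s l % 2 = cnt P s r % 2 := by
  cases h with
  | zig x =>
    rw [run_zig] at hr
    obtain ⟨s', rfl, -⟩ := hr
    simp [KL.cnt]
  | zag x =>
    rw [run_zag] at hr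
    obtain ⟨s', rfl, -⟩ := hr
    simp [KL.cnt]
  | r1a x y => simp [KL.cnt, hP.bar2, hP.self]
  | r1b x y => simp [KL.cnt, hP.bar1, hP.self]
  | r1c =>
    rw [run_cap] at hr
    obtain ⟨x, rfl⟩ := hr
    simp [KL.cnt, hP.bar2, hP.self]
  | r1d =>
    rw [run_cap] at hr
    obtain ⟨x, rfl⟩ := hr
    simp [KL.cnt, hP.bar1, hP.self]
  | r2a =>
    rw [run_r2a] at hl
    obtain ⟨a, b, s', rfl, -⟩ := hl
    simp only [KL.cnt, crs_cons, crs_nil, crL_pos, nx_pos, crL_neg, List.cons_append, List.nil_append, List.append_nil,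
      List.countP_cons, List.countP_nil, hP.act2]
    split <;> simp
  | r2b =>
    rw [run_r2b] at hl
    obtain ⟨a, b, s', rfl, -⟩ := hl
    simp only [KL.cnt, crs_cons, crs_nil, crL_pos, nx_neg, crL_neg, List.cons_append, List.nil_append, List.append_nil,
      List.countP_cons, List.countP_nil, hP.act2]
    split <;> simp
  | r3 =>
    rw [run_r3l] at hl
    obtain ⟨a, b, c, s', rfl, -⟩ := hl
    simp only [KL.cnt, crs_cons, crs_nil, crL_pos, nx_pos, nx_one, crL_one, List.cons_append, List.nil_append,
      List.append_nil, List.countP_cons, List.countP_nil, hP.act2, hP.act1]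
    ring_nf
  | sl1 x y =>
    rw [run_sl1l] at hl
    obtain ⟨b, s', rfl, rfl⟩ := hl
    rw [run_sl1r] at hr
    obtain ⟨b', s'', h1, h2⟩ := hr
    have hy : x = y := (List.cons.injEq _ _ _ _ ▸ h2).1
    subst hy
    simp [KL.cnt, hP.bar1]
  | sl2 x y =>
    rw [run_sl2l] at hl
    obtain ⟨b, s', rfl, rfl⟩ := hl
    rw [run_sl2r] at hr
    obtain ⟨b', s'', h1, h2⟩ := hr
    simp only [List.cons.injEq] at h1 h2
    obtain ⟨rfl, rfl⟩ := h1
    have hy : x = act b y := h2.1
    subst hy
    simp [KL.cnt, hP.bar2, hP.act2]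
  | sl3 =>
    rw [run_sl3l] at hl
    obtain ⟨a, b, s', rfl, rfl⟩ := hl
    simp [KL.cnt, hP.bar2, hP.act2]
  | sl4 =>
    rw [run_sl4l] at hl
    obtain ⟨a, b, s', rfl, rfl⟩ := hl
    simp [KL.cnt, hP.bar1]
  | far k m j =>
    rw [run_two] at hl
    obtain ⟨v, h1, h2⟩ := hl
    obtain ⟨a, a', b, rfl, rfl, ha, ha', h3⟩ := h1.split0
    have h4 : k.wout + j = j + a'.length := by omega
    rw [h4] at h2
    obtain ⟨c, rfl, h5⟩ := App.left_inv a' h2
    have h6 : k.win + j = j + a.length := by omega
    simp only [KL.cnt, crs_cons, crs_nil, List.append_nil, (h3.right b).nx, h4, crL_left, h3.crL_right, h6,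
      (h5.left a).nx, List.countP_append]
    rw [add_comm]

theorem Step.cnt {P : X → X → Bool} (hP : Pairs P) {s t : List X} {w w' : Wrd X} (h : Step s w w') (hw : Run s w t) :
    cnt P s w % 2 = cnt P s w' % 2 := by
  obtain ⟨p', q', l, r, i, u, v, h0, rfl, rfl, hp', hl, hr⟩ := h
  have hi : i ≤ u.length := by
    rcases h0.ne_nil with h2 | h2
    · exact hl.le_of_ne_nil h2
    · exact hr.le_of_ne_nil h2
  obtain ⟨a, b, rfl, rfl⟩ : ∃ a b, u = a ++ b ∧ a.length = i :=
    ⟨u.take i, u.drop i, (List.take_append_drop i u).symm, by simp [hi]⟩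
  obtain ⟨c, rfl, hl'⟩ := Run.left_inv a hl
  obtain ⟨c', h1, hr'⟩ := Run.left_inv a hr
  have h2 : c' = c := (List.append_cancel_left h1).symm
  subst h2
  have h3 := h0.cnt hP hl' hr'
  rw [cnt_append (hp'.append hl), cnt_append hp', cnt_append (hp'.append hr), cnt_append hp']
  have e : ∀ z : Wrd X, KL.cnt P (a ++ b) (sh a.length z) = KL.cnt P b z := by
    intro z
    rw [KL.cnt, crs_left, KL.cnt]
  rw [e, e]
  omega

/-- the parities of the crossing counts are invariant -/
theorem Eqv.cnt {P : X → X → Bool} (hP : Pairs P) {s t : List X} {w w' : Wrd X} (h : Eqv s w w') (hw : Run s w t) :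
    cnt P s w % 2 = cnt P s w' % 2 := by
  have key : ∀ w w' : Wrd X, Eqv s w w' → Run s w t → KL.cnt P s w % 2 = KL.cnt P s w' % 2 := by
    intro w w' h
    induction h with
    | rel _ _ h => exact fun hw => h.cnt hP hw
    | refl _ => exact fun _ => rfl
    | symm a b h ih =>
      intro hw
      have : Run s a t := (Eqv.run (X := X) h).2 hw
      exact (ih this).symm
    | trans a b c h1 h2 ih1 ih2 =>
      intro hw
      exact (ih1 hw).trans (ih2 ((Eqv.run (X := X) h1).1 hw))
  exact key w w' h hw

end

end Pool.Agent.KL
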