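import Pool.Agent.Lib_MP_7c418e_gt.JDef

/-!
# Tools for joined links
-/

set_option autoImplicit false
set_option linter.unusedSectionVars false
set_option linter.unusedVariables false
set_option linter.unusedSimpArgs false

universe u v

namespace Pool.Agent.KL

open Kind

/-- the parts with labels satisfying `p` is empty -/
def no {κ : Type} (p : Col κ → Bool) (w : Wrd (Col κ)) : Prop := cups (fun x => p x = false) w

section

variable {κ : Type}

theorem no_of_res {p : Col κ → Bool} {s t : List (Col κ)} {w : Wrd (Col κ)} (h : Run s w t) (h0 : res p s w = []) : no p w :=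
  cups_of_res_nil h h0

theorem no_append {p : Col κ → Bool} {w w' : Wrd (Col κ)} : no p (w ++ w') ↔ no p w ∧ no p w' := cups_append

variable [DecidableEq κ]

/-- the number of crossings of the given kind -/
def oct (x y : κ) (s : List (Col κ)) (w : Wrd (Col κ)) : ℕ :=
  cnt (fun u v : Col κ => decide (u = x) && decide (v = y)) s w

theorem oct_nil (x y : κ) (w : Wrd (Col κ)) : oct x y [] w = oc x y w := rfl

theorem oct_append {x y : κ} {s t : List (Col κ)} {w w' : Wrd (Col κ)} (h : Run s w t) :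
    oct x y s (w ++ w') = oct x y s w + oct x y t w' := cnt_append h

theorem oct_zero1 {p : Col κ → Bool} {x y : κ} {s t : List (Col κ)} {w : Wrd (Col κ)} (h : Run s w t) (hs : ∀ z ∈ s, p z = false)
    (hn : no p w) (hx : p x = true) : oct x y s w = 0 := by
  refine cnt_zero (S := fun z => p z = false) (subR_col _) h hs hn ?_
  intro u v hu hv
  have : ¬ (u = x) := by
    rintro rfl
    rw [hu] at hx
    cases hx
  simp [this]

theorem oct_zero2 {p : Col κ → Bool} {x y : κ} {s t : List (Col κ)} {w : Wrd (Col κ)} (h : Run s w t) (hs : ∀ z ∈ s, p z = false)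
    (hn : no p w) (hy : p y = true) : oct x y s w = 0 := by
  refine cnt_zero (S := fun z => p z = false) (subR_col _) h hs hn ?_
  intro u v hu hv
  have : ¬ (v = y) := by
    rintro rfl
    rw [hv] at hy
    cases hy
  simp [this]

end

theorem res_res_nil {X : Type u} [Rule X] {p q : X → Bool} (hp : Keeps p) {t : List X} {w : Wrd X} (h : Run [] w t) :
    res q [] (res p [] w) = res (fun x => q x && p x) [] w := res_res hp h

/-! ### Invariance of the joining data -/

theorem JD.eqv {d₁ d₂ : Wrd Unit} {J J' : Wrd (Col JC)} (hJ : JD d₁ d₂ J) (he : Eqv [] J J') : JD d₁ d₂ J' where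
  run := he.run.1 hJ.run
  split := by
    obtain ⟨z₁, z₂, h1, h2, h3, h4, h5, h6, h7⟩ := hJ.split
    exact ⟨z₁, z₂, h1, h2, h3, h4, (he.res (keeps_col p12) hJ.run).symm.trans h5, h6, h7⟩
  ringr := (he.res (keeps_col pr) hJ.run).symm.forget.trans hJ.ringr
  ringq := (he.res (keeps_col pq) hJ.run).symm.forget.trans hJ.ringq
  ora := by rw [← oc_eqv (by decide) hJ.run he]; exact hJ.ora
  oar := by rw [← oc_eqv (by decide) hJ.run he]; exact hJ.oar
  orc := by rw [← oc_eqv (by decide) hJ.run he]; exact hJ.orc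
  ocr := by rw [← oc_eqv (by decide) hJ.run he]; exact hJ.ocr
  oqb := by rw [← oc_eqv (by decide) hJ.run he]; exact hJ.oqb
  obq := by rw [← oc_eqv (by decide) hJ.run he]; exact hJ.obq
  oqd := by rw [← oc_eqv (by decide) hJ.run he]; exact hJ.oqd
  odq := by rw [← oc_eqv (by decide) hJ.run he]; exact hJ.odq

/-- lift the labels to an equivalent diagram -/
theorem JD.lift {d₁ d₂ e : Wrd Unit} {J : Wrd (Col JC)} (hJ : JD d₁ d₂ J) (he : LEq (fgt J) e) :
    ∃ J', fgt J' = e ∧ JD d₁ d₂ J' := by
  obtain ⟨J', h1, h2, h3⟩ := LEq.lift hJ.run he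
  exact ⟨J', h1, hJ.eqv h2⟩

theorem JD.first' {d₁ d₂ : Wrd Unit} {J : Wrd (Col JC)} (hJ : JD d₁ d₂ J) :
    ∃ z₁, LEq d₁ (fgt z₁) ∧ Eqv [] (res p1 [] J) z₁ := by
  obtain ⟨z₁, z₂, h1, h2, h3, h4, h5, h6, h7⟩ := hJ.split
  refine ⟨z₁, h6, ?_⟩
  have h8 := h5.res (keeps_col p1) (hJ.run.res (keeps_col p12))
  rw [List.filter_nil, res_res_nil (keeps_col p12) hJ.run, res_append p1 h1, res_all (keeps_col p1) h1 (by simp) h3,
    res_none (keeps_col p1) h2 (by simp) (cups_mono h4 fun x hx => by cases x <;> first | rfl | cases hx), List.append_nil] at h8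
  have h9 : (fun x => p1 x && p12 x) = p1 := by
    funext x
    cases x <;> rfl
  rwa [h9] at h8

theorem JD.second' {d₁ d₂ : Wrd Unit} {J : Wrd (Col JC)} (hJ : JD d₁ d₂ J) :
    ∃ z₂, LEq d₂ (fgt z₂) ∧ Eqv [] (res p2 [] J) z₂ := by
  obtain ⟨z₁, z₂, h1, h2, h3, h4, h5, h6, h7⟩ := hJ.split
  refine ⟨z₂, h7, ?_⟩
  have h8 := h5.res (keeps_col p2) (hJ.run.res (keeps_col p12))
  rw [List.filter_nil, res_res_nil (keeps_col p12) hJ.run, res_append p2 h1, res_all (keeps_col p2) h2 (by simp) h4,
    res_none (keeps_col p2) h1 (by simp) (cups_mono h3 fun x hx => by cases x <;> first | rfl | cases hx), List.nil_append] at h8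
  have h9 : (fun x => p2 x && p12 x) = p2 := by
    funext x
    cases x <;> rfl
  rwa [h9] at h8

/-- the first link is the part with the labels `a`, `b` -/
theorem JD.first {d₁ d₂ : Wrd Unit} {J : Wrd (Col JC)} (hJ : JD d₁ d₂ J) : LEq d₁ (fgt (res p1 [] J)) := by
  obtain ⟨z, h1, h2⟩ := hJ.first'
  exact h1.trans h2.symm.forget

/-- the second link is the part with the labels `c`, `d` -/
theorem JD.second {d₁ d₂ : Wrd Unit} {J : Wrd (Col JC)} (hJ : JD d₁ d₂ J) : LEq d₂ (fgt (res p2 [] J)) := by
  obtain ⟨z, h1, h2⟩ := hJ.second'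
  exact h1.trans h2.symm.forget

/-- deletion in a closure -/
theorem res_clox {X : Type u} [Rule X] (p : X → Bool) {x : X} {T : Wrd X} (hT : Run [x] T [x]) :
    res p [] (clox x T) = if p x then clox x (res p [x] T) else res p [x] T := by
  have h1 : Run ([x] ++ [bar x]) T ([x] ++ [bar x]) := hT.right [bar x]
  rw [clox, res_cons, nx_cup, resL_cup]
  have h2 : res p (x :: bar x :: []) (T ++ [(cap, 0)]) = res p [x] T ++ (if p x then [(cap, 0)] else []) := by
    have h3 := res_append p (w' := [(cap, 0)]) h1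
    have h4 : res p ([x] ++ [bar x]) T = res p [x] T := hT.res_right [bar x]
    rw [h4] at h3
    rw [show (x :: bar x :: [] : List X) = [x] ++ [bar x] from rfl, h3, List.singleton_append, res_cons, resL_cap, res_nil,
      List.append_nil]
  rw [h2]
  by_cases hx : p x
  · simp [hx, clox]
  · simp [hx]

theorem run_clox {X : Type u} [Rule X] {x : X} {T : Wrd X} (hT : Run [x] T [x]) : Run [] (clox x T) [] := by
  refine Run.cons (App.cup x []) ?_
  have h1 : Run ([x] ++ [bar x]) T ([x] ++ [bar x]) := hT.right [bar x]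
  exact h1.append (run_one.2 (App.cap x []))

theorem oct_clox {κ : Type} [DecidableEq κ] {a b : κ} {x : Col κ} {T : Wrd (Col κ)} (hT : Run [x] T [x]) :
    oc a b (clox x T) = oct a b [x] T := by
  have h1 : Run ([x] ++ [bar x]) T ([x] ++ [bar x]) := hT.right [bar x]
  have h2 : crs [] (clox x T) = crs [x] T := by
    rw [clox, crs_cons, nx_cup, crL_cup, List.nil_append]
    have h3 := crs_append (w' := [(cap, 0)]) h1
    have h4 : crs ([x] ++ [bar x]) T = crs [x] T := hT.crs_right [bar x]
    rw [h4] at h3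
    rw [show (x :: bar x :: [] : List (Col κ)) = [x] ++ [bar x] from rfl, h3]
    simp
  rw [oc, oct, cnt, cnt, h2]

end Pool.Agent.KL
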