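import Pool.Agent.Lib_MP_7c418e_gt.WD
import Pool.Agent.Lib_MP_7c418e_gt.JTool

/-!
# If the trivial knot were a connected sum of nontrivial knots there would be at most one prime link
-/

set_option autoImplicit false

universe u v

namespace Pool.Agent.KL

open Kind

/-- every nonempty link is the closure of a tangle with one strand at the bottom and one at the top -/
theorem exists_tangle {d : Wrd Unit} (hd : Closed d) (h0 : d ≠ []) : ∃ T, Tan T ∧ LEq d (clo T) := by
  obtain ⟨x, w, rfl, h⟩ := Closed.head hd h0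
  have hw : Run (U 2) w (U 0) := h
  have h1 : Tan (cu 1 :: w) := by
    have h2 : Run (U 1) [cu 1] (U 3) := run_dec (by rfl)
    have h3 : Run (U 2 ++ U 1) w (U 0 ++ U 1) := hw.right (U 1)
    exact h2.append h3
  refine ⟨cu 1 :: w, h1, ?_⟩
  have h2 : Eqv (U 4) (w ++ [ca 0]) ([ca 2] ++ w) := by
    exact far_block (s₂ := U 2) (t₂ := U 0) (w' := [ca 0]) hw (run_dec (by rfl))
  have h3 : Eqv (U 0) ([cu 0, cu 1] ++ (w ++ [ca 0])) ([cu 0, cu 1] ++ ([ca 2] ++ w)) :=
    h2.app_left (run_dec (by rfl))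
  have h4 : Eqv (U 0) ([cu 0] ++ ([] ++ w)) ([cu 0] ++ ([cu 1, ca 2] ++ w)) :=
    ((move (n := 2) 1 (Rel0.zig ()) ⟨_, rfl, rfl⟩).app_right w).app_left (run_dec (by rfl))
  have h5 : Eqv (U 0) (cu 0 :: w) (cu 0 :: cu 1 :: ca 2 :: w) := by simpa using h4
  have h6 : Eqv (U 0) (cu 0 :: cu 1 :: (w ++ [ca 0])) (cu 0 :: cu 1 :: ca 2 :: w) := by simpa using h3
  have h7 := h5.trans h6.symm
  have h8 : LEq (cu 0 :: w) (clo (cu 1 :: w)) := by
    have h9 : Eqv (U 0) (cu 0 :: w) (clo (cu 1 :: w)) := by simpa [clo] using h7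
    exact h9
  exact h8

theorem prime_ne_nil {d : Wrd Unit} (hd : Prime d) : d ≠ [] := by
  rintro rfl
  exact hd.ne_nil (LEq.refl _)

/-- a connected sum with a link with two components has two components -/
theorem two_clo {S T : Wrd Unit} (hS : Tan S) (hT : Tan T) (h : Two (clo S)) : Two (clo (S ++ T)) := by
  rw [two_iff] at h
  obtain ⟨w, h1, h2, h3, h4⟩ := h
  obtain ⟨x, S', rfl, rfl, h5⟩ := clo_lift hS h2 h1
  have h6 : Run [x] (cw (κ := Bool) x T) [x] := Run.map (cst (κ := Bool) x) hT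
  have h7 := run_clox (h5.append h6)
  rw [two_iff]
  refine ⟨clox x (S' ++ cw (κ := Bool) x T), ?_, h7, ?_, ?_⟩
  · rw [fgt_clox, fgt_append, fgt_cw]
  · intro h
    apply h3
    rw [clox, cups_cons_cup, cups_append, cups_append] at h
    rw [clox, cups_cons_cup, cups_append]
    exact ⟨h.1, h.2.1.1, h.2.2⟩
  · intro h
    apply h4
    rw [clox, cups_cons_cup, cups_append, cups_append] at h
    rw [clox, cups_cons_cup, cups_append]
    exact ⟨h.1, h.2.1.1, h.2.2⟩

theorem at_most_one_prime (h : ¬ NoInv) : ∃ d₀, ∀ d, Prime d → LEq d d₀ ∧ ¬ Two d := by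
  unfold NoInv at h
  push Not at h
  obtain ⟨S, T, hS, hT, h1, h2⟩ := h
  have h3 : ¬ LEq (clo T) O := by
    intro h3
    apply h2 _ h3
    exact (sum_trivial_right hT hS h3).symm.trans h1
  refine ⟨clo T, fun d hd => ?_⟩
  obtain ⟨D, hD, h4⟩ := exists_tangle hd.closed (prime_ne_nil hd)
  have h5 : LEq (clo (D ++ (S ++ T))) (clo D) := sum_trivial_right (hS.append hT) hD h1
  rw [← List.append_assoc] at h5
  have h6 : LEq d (clo ((D ++ S) ++ T)) := h4.trans h5.symm
  have h7 : LEq (clo (D ++ S)) O := (hd.nonsum _ _ (hD.append hS) hT h6).resolve_right h3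
  refine ⟨h6.trans (sum_trivial_left (hD.append hS) hT h7), fun h8 => ?_⟩
  exact not_two_O ((two_clo hD hS (h8.leq h4)).leq h7)

end Pool.Agent.KL
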