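import Pool.Agent.Lib_MP_7c418e_gt.Lift

/-!
# Far commutation of words
-/

set_option autoImplicit false

universe u v

namespace Pool.Agent.KL

open Kind

variable {X : Type u} [Rule X]

theorem far_letter {s₁ t₁ s₂ t₂ : List X} {k m : Kind X} {i j : ℕ} (h₁ : App k i s₁ t₁) (h₂ : App m j s₂ t₂) :
    Eqv (s₁ ++ s₂) [(k, i), (m, j + t₁.length)] [(m, j + s₁.length), (k, i)] := by
  have h3 := h₁.length
  have h4 := h₁.le
  obtain ⟨c, hc⟩ : ∃ c, s₁.length = i + k.win + c := ⟨s₁.length - (i + k.win), by omega⟩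
  have hc' : t₁.length = i + k.wout + c := by omega
  refine Step.eqv ⟨[], [], [(k, 0), (m, k.wout + (c + j))], [(m, k.win + (c + j)), (k, 0)], i, s₁ ++ s₂, t₁ ++ t₂,
    Rel0.far k m (c + j), ?_, ?_, Run.nil _, ?_, ?_⟩
  · have e : k.wout + (c + j) + i = j + (i + k.wout + c) := by omega
    simp only [sh_cons, sh_nil, List.nil_append, List.append_nil, hc', zero_add, e]
  · have e : k.win + (c + j) + i = j + (i + k.win + c) := by omega
    simp only [sh_cons, sh_nil, List.nil_append, List.append_nil, hc, zero_add, e]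
  · have e : sh i [(k, 0), (m, k.wout + (c + j))] = [(k, i), (m, j + t₁.length)] := by
      simp only [sh_cons, sh_nil, List.cons.injEq, Prod.mk.injEq, true_and, and_true]
      omega
    rw [e]
    exact run_two.2 ⟨t₁ ++ s₂, h₁.right s₂, h₂.left t₁⟩
  · have e : sh i [(m, k.win + (c + j)), (k, 0)] = [(m, j + s₁.length), (k, i)] := by
      simp only [sh_cons, sh_nil, List.cons.injEq, Prod.mk.injEq, true_and, and_true]
      omega
    rw [e]
    exact run_two.2 ⟨s₁ ++ t₂, h₂.left s₁, h₁.right t₂⟩

theorem far_word_letter {s₁ t₁ s₂ t₂ : List X} {w : Wrd X} {m : Kind X} {j : ℕ} (h₁ : Run s₁ w t₁) (h₂ : App m j s₂ t₂) :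
    Eqv (s₁ ++ s₂) (w ++ [(m, j + t₁.length)]) ((m, j + s₁.length) :: w) := by
  induction h₁ with
  | nil s => exact Eqv.refl _ _
  | @cons k i s t u w h h' ih =>
    have h1 : Eqv (s ++ s₂) ((k, i) :: (w ++ [(m, j + u.length)])) ((k, i) :: (m, j + t.length) :: w) :=
      ih.cons (h.right s₂)
    have h2 : Eqv (s ++ s₂) ((k, i) :: (m, j + t.length) :: w) ((m, j + s.length) :: (k, i) :: w) := by
      have := (far_letter h h₂).app_right w
      simpa using this
    simpa using h1.trans h2

/-- words acting on different strands commute -/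
theorem far_block {s₁ t₁ s₂ t₂ : List X} {w w' : Wrd X} (h₁ : Run s₁ w t₁) (h₂ : Run s₂ w' t₂) :
    Eqv (s₁ ++ s₂) (w ++ sh t₁.length w') (sh s₁.length w' ++ w) := by
  induction h₂ with
  | nil s => simpa using Eqv.refl _ _
  | @cons k i s t u w' h h' ih =>
    have h1 : Eqv (s₁ ++ s) (w ++ [(k, i + t₁.length)] ++ sh t₁.length w') ((k, i + s₁.length) :: w ++ sh t₁.length w') :=
      (far_word_letter h₁ h).app_right _
    have h2 : Eqv (s₁ ++ s) ((k, i + s₁.length) :: (w ++ sh t₁.length w'))
        ((k, i + s₁.length) :: (sh s₁.length w' ++ w)) := ih.cons (h.left s₁)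
    have h3 := h1.trans (by simpa using h2)
    simpa using h3

/-- a closed word commutes with every word -/
theorem closed_comm {s t : List X} {z w : Wrd X} (hz : Run [] z []) (hw : Run s w t) :
    Eqv s (z ++ w) (w ++ z) := by
  have := far_block hz hw
  simpa using this

end Pool.Agent.KL
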