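import Pool.Agent.Lib_MP_7c418e_gt.LemS

/-!
# The Hopf link

Plan. Label the Hopf link by colours: `[(cup true, 0), (cup false, 2), (pos, 1), (pos, 1), (cap, 0), (cap, 0)]`; `oc true false = 1`, `oc false true = 1`. So every diagram equivalent to it has (after lifting the
labels) odd, hence positive numbers of crossings of both kinds (`oc_eqv`): `cr = 2`. Not split: if it is equivalent to `a ++ b` lift the labels: `a' ++ b'` (closed parts, `Run.split_closed`). The part `true` is a trivial
knot and not split (`O_nonsplit`), so the label `true` is used in one of `a'`, `b'` only, the same for `false`; the count of crossings `oc true false` of `a' ++ b'` is odd, so both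
labels are used in the same part, and the other part is empty (`nil_of_cups`). Not a sum: if it is equivalent to `clo (S ++ T)` lift the labels (`clo_lift_append`): `clox x (S' ++ T')`, all
ends have the same colour `x` (`tan_col`), say `x = true`. The other colour is used in `S'` only or in `T'` only (the part `false` of the word is `res false S' ++ res false T'`, which is a trivial
knot). If it is not used in `T'` then the part `true` is `clox true (res true S' ++ T')`, a trivial knot, so `clo T ~ O` by `NoInv`. The general statement
`prime_of_two_trivial` below is also used for the Whitehead link.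
-/

set_option autoImplicit false

universe u v

namespace Pool.Agent.KL

open Kind

/-- the restriction to colours of a closure -/
theorem res_clox_true {p : Col Bool → Bool} {x : Col Bool} {S T : Wrd (Col Bool)} (hp : p x = true) (hS : Run [x] S [x])
    (hT : Run [x] T [x]) : res p [] (clox x (S ++ T)) = clox x (res p [x] S ++ res p [x] T) := by
  have e1 : res p (x :: bar x :: []) ((S ++ T) ++ [(cap, 0)])
      = res p [x] S ++ res p [x] T ++ [(cap, 0)] := by
    have hS' : Run ([x] ++ [bar x]) S ([x] ++ [bar x]) := hS.right _
    have hT' : Run ([x] ++ [bar x]) T ([x] ++ [bar x]) := hT.right _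
    have e2 : res p ([x] ++ [bar x]) (S ++ T ++ [(cap, 0)]) = res p [x] S ++ res p [x] T ++ [(cap, 0)] := by
      rw [res_append p (hS'.append hT'), res_append p hS', hS.res_right, hT.res_right]
      simp [hp]
    exact e2
  rw [clox, clox, res_cons, resL_cup, nx_cup, e1]
  simp [hp]

theorem res_clox_false {p : Col Bool → Bool} {x : Col Bool} {S T : Wrd (Col Bool)} (hp : p x = false) (hS : Run [x] S [x])
    (hT : Run [x] T [x]) : res p [] (clox x (S ++ T)) = res p [x] S ++ res p [x] T := by
  have e1 : res p (x :: bar x :: []) ((S ++ T) ++ [(cap, 0)])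
      = res p [x] S ++ res p [x] T := by
    have hS' : Run ([x] ++ [bar x]) S ([x] ++ [bar x]) := hS.right _
    have hT' : Run ([x] ++ [bar x]) T ([x] ++ [bar x]) := hT.right _
    have e2 : res p ([x] ++ [bar x]) (S ++ T ++ [(cap, 0)]) = res p [x] S ++ res p [x] T := by
      rw [res_append p (hS'.append hT'), res_append p hS', hS.res_right, hT.res_right]
      simp [hp]
    exact e2
  rw [clox, res_cons, resL_cup, nx_cup, e1]
  simp [hp]

theorem leq_res {p : Col Bool → Bool} {w v : Wrd (Col Bool)} (h : Run [] w []) (he : Eqv [] w v) :
    LEq (fgt (res p [] w)) (fgt (res p [] v)) := by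
  have h1 : Eqv [] (res p [] w) (res p [] v) := he.res (keeps_col p) h
  exact Run.leq h1

theorem nonsum_aux (hN : NoInv) {p q : Col Bool → Bool} (hpq : ∀ y, q y = !p y) {w : Wrd (Col Bool)} (h : Run [] w [])
    (h1 : LEq (fgt (res p [] w)) O) (h2 : LEq (fgt (res q [] w)) O) {x : Col Bool} (hx : p x = true)
    {S T : Wrd (Col Bool)} (hS : Run [x] S [x]) (hT : Run [x] T [x]) (he : Eqv [] w (clox x (S ++ T))) :
    LEq (clo (fgt S)) O ∨ LEq (clo (fgt T)) O := by
  have hqx : q x = false := by rw [hpq, hx]; rfl
  have hfp : [x].filter p = [x] := by simp [hx]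
  have hfq : [x].filter q = [] := by simp [hqx]
  have hSq : Run [] (res q [x] S) [] := by
    have := hS.res (keeps_col q)
    rwa [hfq] at this
  have hTq : Run [] (res q [x] T) [] := by
    have := hT.res (keeps_col q)
    rwa [hfq] at this
  have hSp : Tan (fgt (res p [x] S)) := by
    have := hS.res (keeps_col p)
    rw [hfp] at this
    exact this.forget
  have hTp : Tan (fgt (res p [x] T)) := by
    have := hT.res (keeps_col p)
    rw [hfp] at this
    exact this.forget
  have e1 : LEq O (fgt (res q [x] S) ++ fgt (res q [x] T)) := by
    rw [← fgt_append, ← res_clox_false hqx hS hT]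
    exact h2.symm.trans (leq_res h he)
  have e2 : LEq (clo (fgt (res p [x] S) ++ fgt (res p [x] T))) O := by
    rw [← fgt_append, ← fgt_clox, ← res_clox_true hx hS hT]
    exact (leq_res h he).symm.trans h1
  have hc : ∀ {R : Wrd (Col Bool)}, Run [x] R [x] → res q [x] R = [] → res p [x] R = R := by
    intro R hR h0
    refine res_all (keeps_col p) hR (by simp [hx]) ?_
    refine cups_mono (cups_of_res_nil hR h0) ?_
    intro y hy
    rw [hpq] at hy
    simpa using hy
  rcases O_nonsplit hSq.closed hTq.closed e1 with h3 | h3
  · left
    have h4 := hc hS (fgt_eq_nil h3)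
    rw [h4] at e2
    rw [h4] at hSp
    exact (hN _ _ hSp hTp e2).1
  · right
    have h4 := hc hT (fgt_eq_nil h3)
    rw [h4] at e2
    rw [h4] at hTp
    exact (hN _ _ hSp hTp e2).2

/-- a link with two trivial components which is not split is prime -/
theorem prime_of_two_trivial (hN : NoInv) {w : Wrd (Col Bool)} (h : Run [] w []) (h1 : LEq (fgt (red [] w)) O)
    (h2 : LEq (fgt (blu [] w)) O)
    (hs : ∀ a b, Closed a → Closed b → a ≠ [] → b ≠ [] → ¬ LEq (fgt w) (a ++ b)) : Prime (fgt w) := by
  have hO : ¬ LEq [] O := by
    intro h3
    have := nil_leq h3.symm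
    simp [O] at this
  refine ⟨h.closed, ?_, ?_, hs, ?_⟩
  · intro h3
    have h4 := fgt_eq_nil (nil_leq h3)
    subst h4
    exact hO h1
  · intro h3
    obtain ⟨c, hc⟩ := O_label h h3
    cases c with
    | false =>
      have h4 : red [] w = [] := res_none (keeps_col _) h (by simp) hc
      rw [h4] at h1
      exact hO h1
    | true =>
      have h4 : blu [] w = [] := by
        refine res_none (keeps_col _) h (by simp) (cups_mono hc ?_)
        intro y hy
        subst hy
        rfl
      rw [h4] at h2
      exact hO h2
  · intro S T hS hT h3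
    obtain ⟨v, h4, h5, h6⟩ := LEq.lift h h3
    obtain ⟨x, y, S', T', rfl, rfl, rfl, h7, h8⟩ := clo_lift_append hS hT h6 h4
    obtain rfl := tan_col h7
    cases hx : (y : Bool) with
    | true =>
      exact nonsum_aux hN (p := fun x => x) (q := fun x => !x) (fun _ => rfl) h h1 h2 hx h7 h8 h5
    | false =>
      refine nonsum_aux hN (p := fun x => !x) (q := fun x => x) ?_ h h2 h1 ?_ h7 h8 h5
      · intro y
        exact (Bool.not_not y).symm
      · show (!y) = true
        rw [hx]
        rfl

/-- the Hopf link -/
def hopf : Wrd Unit := [cu 0, cu 2, po 1, po 1, ca 0, ca 0]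

/-- the labelled diagram of the Hopf link -/
def hopfW : Wrd (Col Bool) := [(cup true, 0), (cup false, 2), (pos, 1), (pos, 1), (cap, 0), (cap, 0)]

theorem fgt_hopfW : fgt hopfW = hopf := rfl

theorem run_hopfW : Run [] hopfW [] := by
  have h1 : App (X := Col Bool) (cup true) 0 [] [true, true] := App.cup (X := Col Bool) true []
  have h2 : App (X := Col Bool) (cup false) 2 [true, true] [true, true, false, false] :=
    App.skip _ (App.skip _ (App.cup (X := Col Bool) false []))
  have h3 : App (X := Col Bool) pos 1 [true, true, false, false] [true, false, true, false] :=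
    App.skip _ (App.pos (X := Col Bool) true false [false])
  have h4 : App (X := Col Bool) pos 1 [true, false, true, false] [true, true, false, false] :=
    App.skip _ (App.pos (X := Col Bool) false true [false])
  have h5 : App (X := Col Bool) cap 0 [true, true, false, false] [false, false] := App.cap (X := Col Bool) true _
  have h6 : App (X := Col Bool) cap 0 [false, false] [] := App.cap (X := Col Bool) false _
  exact Run.cons h1 (Run.cons h2 (Run.cons h3 (Run.cons h4 (Run.cons h5 (Run.cons h6 (Run.nil _))))))

theorem oc_hopfW (x : Bool) : oc x (!x) hopfW = 1 := by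
  cases x <;> rfl

theorem red_hopfW : fgt (red [] hopfW) = O := rfl

theorem blu_hopfW : fgt (blu [] hopfW) = O := rfl

/-- two linked trivial components with an odd number of crossings of one kind are not split -/
theorem nonsplit_of_odd {w : Wrd (Col Bool)} (h : Run [] w []) (h1 : LEq (fgt (red [] w)) O)
    (h2 : LEq (fgt (blu [] w)) O) (ho : oc true false w % 2 = 1) :
    ∀ a b, Closed a → Closed b → a ≠ [] → b ≠ [] → ¬ LEq (fgt w) (a ++ b) := by
  intro a b ha hb ha0 hb0 he
  obtain ⟨v, h3, h4, h5⟩ := LEq.lift h he
  obtain ⟨a', b', rfl, rfl, rfl⟩ := fgt_eq_append h3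
  obtain ⟨h6, h7⟩ := h5.split_closed ha
  have key : ∀ p : Col Bool → Bool, LEq (fgt (res p [] w)) O →
      cups (fun x => p x = false) a' ∨ cups (fun x => p x = false) b' := by
    intro p hp
    have h8 := (leq_res (p := p) h h4).symm.trans hp
    rw [res_append p h6, fgt_append] at h8
    have h9 : Run [] (res p [] a') [] := h6.res (keeps_col p)
    have h10 : Run [] (res p [] b') [] := h7.res (keeps_col p)
    rcases O_nonsplit h9.closed h10.closed h8.symm with h11 | h11
    · exact Or.inl (cups_of_res_nil h6 (fgt_eq_nil h11))
    · exact Or.inr (cups_of_res_nil h7 (fgt_eq_nil h11))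
  have hnil : ∀ {u : Wrd (Col Bool)}, Run [] u [] → cups (fun x : Col Bool => (fun y : Col Bool => y) x = false) u →
      cups (fun x : Col Bool => (fun y : Col Bool => !y) x = false) u → u = [] := by
    intro u hu h8 h9
    refine nil_of_cups hu ?_
    intro x i hx
    have h10 := h8 x i hx
    have h11 := h9 x i hx
    simp only at h10 h11
    rw [h10] at h11
    exact absurd h11 (by decide)
  have hz1 : ∀ {u : Wrd (Col Bool)}, Run [] u [] → cups (fun x : Col Bool => (fun y : Col Bool => y) x = false) u →
      oc true false u = 0 := by
    intro u hu h8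
    refine cnt_zero (subR_col _) hu (by simp) h8 ?_
    intro x y hx hy
    simp only at hx hy
    subst hx
    rfl
  have hz2 : ∀ {u : Wrd (Col Bool)}, Run [] u [] → cups (fun x : Col Bool => (fun y : Col Bool => !y) x = false) u →
      oc true false u = 0 := by
    intro u hu h8
    refine cnt_zero (subR_col _) hu (by simp) h8 ?_
    intro x y hx hy
    simp only at hx hy
    cases y
    · exact absurd hy (by decide)
    · cases x <;> rfl
  have hodd : (oc true false a' + oc true false b') % 2 = 1 := by
    have h8 := oc_eqv (x := true) (y := false) (by decide) h h4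
    have h9 : oc true false (a' ++ b') = oc true false a' + oc true false b' := cnt_append h6
    rw [← h9, ← h8, ho]
  rcases key _ h1 with h8 | h8 <;> rcases key _ h2 with h9 | h9
  · exact ha0 (by rw [hnil h6 h8 h9]; rfl)
  · rw [hz1 h6 h8, hz2 h7 h9] at hodd
    exact absurd hodd (by decide)
  · rw [hz1 h7 h8, hz2 h6 h9] at hodd
    exact absurd hodd (by decide)
  · exact hb0 (by rw [hnil h7 h8 h9]; rfl)

theorem countP_add_le {α : Type*} (P Q : α → Bool) (l : List α) (h : ∀ x, P x = true → Q x = false) :
    l.countP P + l.countP Q ≤ l.length := by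
  induction l with
  | nil => simp
  | cons a l ih =>
    rw [List.countP_cons, List.countP_cons, List.length_cons]
    by_cases ha : P a = true
    · rw [if_pos ha, if_neg (by rw [h a ha]; decide)]
      omega
    · rw [if_neg ha]
      split <;> omega

/-- the crossings of two components -/
theorem oc_add_le {w : Wrd (Col Bool)} (h : Run [] w []) : oc true false w + oc false true w ≤ ncr w := by
  rw [← h.length_crs]
  refine countP_add_le _ _ _ ?_
  rintro ⟨x, y⟩ hx
  cases x <;> cases y
  · exact absurd hx (by decide)
  · exact absurd hx (by decide)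
  · rfl
  · exact absurd hx (by decide)

theorem exists_two (hN : NoInv) : ∃ d, Prime d ∧ Two d ∧ cr d = 2 := by
  refine ⟨fgt hopfW, ?_, ?_, ?_⟩
  · refine prime_of_two_trivial hN run_hopfW (by rw [red_hopfW]; exact LEq.refl _)
      (by rw [blu_hopfW]; exact LEq.refl _) ?_
    exact nonsplit_of_odd run_hopfW (by rw [red_hopfW]; exact LEq.refl _)
      (by rw [blu_hopfW]; exact LEq.refl _) (by rfl)
  · exact ⟨hopfW, rfl, run_hopfW, ⟨0, by simp [hopfW]⟩, ⟨2, by simp [hopfW]⟩⟩
  · apply le_antisymm
    · exact (cr_le (LEq.refl _)).trans (by decide)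
    · refine le_cr fun e he => ?_
      obtain ⟨v, rfl, h4, h5⟩ := LEq.lift run_hopfW he
      rw [ncr_fgt]
      have h6 := oc_eqv (x := true) (y := false) (by decide) run_hopfW h4
      have h7 := oc_eqv (x := false) (y := true) (by decide) run_hopfW h4
      have h8 : oc true false hopfW = 1 := rfl
      have h9 : oc false true hopfW = 1 := rfl
      rw [h8] at h6
      rw [h9] at h7
      have h10 := oc_add_le h5
      omega

end Pool.Agent.KL
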