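import Pool.Agent.Lib_MP_7c418e_gt.Basic

/-!
# Turning a diagram on the sphere
-/

set_option autoImplicit false

universe u v

namespace Pool.Agent.KL

open Kind

variable {X : Type u} [Rule X] [Inert X]

omit [Inert X] in
private theorem rot_cup (x : X) (s : List X) : App (cup (bar x)) 0 s (bar x :: x :: s) := by
  have h := App.cup (bar x) s
  rwa [bar_bar] at h

omit [Inert X] in
private theorem rot_cap (x : X) (s : List X) : App cap 0 (bar x :: x :: s) s := by
  have h := App.cap (bar x) s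
  rwa [bar_bar] at h

private theorem rot_u {u : Wrd X} {x : X} {s : List X} (hu : Run [] u (x :: s)) :
    Eqv [] ((cup (bar x), 0) :: (sh 1 u ++ [(cap, 0)])) (u ++ ovR s.length) := by
  have h1 : Eqv [bar x, x] (sh 2 u ++ sh 1 (ovR (s.length + 1))) (sh 1 u) := by
    have h := (ov_nat hu x).left [bar x]
    simpa [sh_sh] using h
  have e1 : (sh 1 (ovR (s.length + 1)) : Wrd X) = (pos, 1) :: sh 2 (ovR s.length) := by
    rw [ovR_succ, sh_cons, sh_sh]
  rw [e1] at h1
  have h2 : Eqv [] ((cup (bar x), 0) :: (sh 2 u ++ (pos, 1) :: sh 2 (ovR s.length) ++ [(cap, 0)]))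
      ((cup (bar x), 0) :: (sh 1 u ++ [(cap, 0)])) :=
    (h1.app_right [(cap, 0)]).cons (rot_cup x [])
  have h3 : Eqv (bar x :: x :: x :: s) (sh 2 (ovR s.length) ++ [(cap, 0)])
      ((cap, 0) :: ovR s.length) := by
    have h : Eqv ([bar x, x] ++ x :: s) ([(cap, 0)] ++ sh ([] : List X).length (ovR s.length))
        (sh [bar x, x].length (ovR s.length) ++ [(cap, 0)]) :=
      far_block (run_one.2 (rot_cap x [])) (run_ovR' x s)
    simp only [List.length_cons, List.length_nil, zero_add, Nat.reduceAdd, sh_zero] at h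
    exact h.symm
  have hst : App (pos : Kind X) 1 (bar x :: x :: x :: s) (bar x :: x :: x :: s) :=
    App.skip _ (app_pos_inert.2 rfl)
  have k1 : Eqv (bar x :: x :: x :: s) ((pos, 1) :: (sh 2 (ovR s.length) ++ [(cap, 0)]))
      ((pos, 1) :: (cap, 0) :: ovR s.length) := h3.cons hst
  have k2 : Eqv (bar x :: x :: x :: s) [(pos, 1), (cap, 0)] [(neg, 0), (cap, 1)] :=
    Rel0.sl3.eqv (t := x :: s) (run_two.2 ⟨_, hst, rot_cap x (x :: s)⟩)
      (run_two.2 ⟨x :: bar x :: x :: s, app_neg_inert.2 rfl, App.skip _ (rot_cap x s)⟩)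
  have k3 : Eqv (bar x :: x :: x :: s) ((pos, 1) :: (sh 2 (ovR s.length) ++ [(cap, 0)]))
      ((neg, 0) :: (cap, 1) :: ovR s.length) := k1.trans (k2.app_right (ovR s.length))
  have hr : Run [bar x, x] (sh 2 u) (bar x :: x :: x :: s) := hu.left [bar x, x]
  have k4 : Eqv [bar x, x] (sh 2 u ++ ((pos, 1) :: (sh 2 (ovR s.length) ++ [(cap, 0)])))
      (sh 2 u ++ ((neg, 0) :: (cap, 1) :: ovR s.length)) := k3.app_left hr
  have k5 : Eqv [bar x, x] ([(neg, 0)] ++ sh 2 u) (sh 2 u ++ [(neg, 0)]) := by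
    have h : Eqv ([bar x, x] ++ []) ([(neg, 0)] ++ sh [x, bar x].length u)
        (sh [bar x, x].length u ++ [(neg, 0)]) :=
      far_block (run_one.2 (app_neg_inert.2 rfl)) hu
    simpa using h
  have k6 : Eqv [bar x, x] (sh 2 u ++ ((neg, 0) :: (cap, 1) :: ovR s.length))
      ((neg, 0) :: (sh 2 u ++ (cap, 1) :: ovR s.length)) := by
    have h := k5.symm.app_right ((cap, 1) :: ovR s.length)
    simpa using h
  have k7 : Eqv [] ((cup (bar x), 0) :: (sh 2 u ++ (pos, 1) :: sh 2 (ovR s.length) ++ [(cap, 0)]))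
      ((cup (bar x), 0) :: (neg, 0) :: (sh 2 u ++ (cap, 1) :: ovR s.length)) := by
    have h := (k4.trans k6).cons (rot_cup x [])
    simpa using h
  have k8 : Eqv [] [(cup (bar x), 0), (neg, 0)] [(cup x, 0)] :=
    (Rel0.r1b (bar x) x).eqv (t := [x, bar x])
      (run_two.2 ⟨[bar x, x], rot_cup x [], app_neg_inert.2 rfl⟩) (run_one.2 (App.cup x []))
  have k9 : Eqv [] ((cup (bar x), 0) :: (neg, 0) :: (sh 2 u ++ (cap, 1) :: ovR s.length))
      ((cup x, 0) :: (sh 2 u ++ (cap, 1) :: ovR s.length)) := k8.app_right _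
  have k10 : Eqv [] ([(cup x, 0)] ++ sh 2 u) (u ++ [(cup x, 0)]) := by
    have h : Eqv ([] ++ []) ([(cup x, 0)] ++ sh [x, bar x].length u)
        (sh ([] : List X).length u ++ [(cup x, 0)]) :=
      far_block (run_one.2 (App.cup x [])) hu
    simpa using h
  have k11 : Eqv [] ((cup x, 0) :: (sh 2 u ++ (cap, 1) :: ovR s.length))
      (u ++ ((cup x, 0) :: (cap, 1) :: ovR s.length)) := by
    have h := k10.app_right ((cap, 1) :: ovR s.length)
    simpa using h
  have k12 : Eqv (x :: s) [] [(cup x, 0), (cap, 1)] :=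
    (Rel0.zig x).eqv (t := x :: s) (Run.nil _)
      (run_two.2 ⟨x :: bar x :: x :: s, App.cup x _, App.skip _ (rot_cap x s)⟩)
  have k13 : Eqv [] (u ++ ((cup x, 0) :: (cap, 1) :: ovR s.length)) (u ++ ovR s.length) :=
    (k12.symm.app_right (ovR s.length)).app_left hu
  exact h2.symm.trans (k7.trans (k9.trans (k11.trans k13)))

private theorem rot_v {v : Wrd X} {x : X} {s : List X} (hv : Run (x :: s) v []) :
    Eqv (s ++ [x]) ((cup (bar x), 0) :: (sh 1 v ++ [(cap, 0)])) (winv (ovR s.length) ++ v) := by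
  have hov : Run (x :: s) (ovR s.length) (s ++ [x]) := run_ovR' x s
  have hwi : Run (s ++ [x]) (winv (ovR s.length)) (x :: s) := hov.winv (ovR_XW _)
  have m1 : Eqv (x :: x :: s) (sh 1 v) (ovR (s.length + 1) ++ v) := by
    have h := ov_nat hv x
    simpa using h
  have hov1 : Run (x :: x :: s) (ovR (s.length + 1)) (x :: (s ++ [x])) := run_ovR' x (x :: s)
  have m2 : Eqv (x :: (s ++ [x])) (winv (ovR (s.length + 1)) ++ sh 1 v) v := by
    have h1 := m1.app_left (hov1.winv (ovR_XW _))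
    have h2 := (word_cancel' hov1 (ovR_XW _)).app_right v
    have h3 := h1.trans (by simpa using h2)
    simpa using h3
  have e1 : (winv (ovR (s.length + 1)) : Wrd X) = sh 1 (winv (ovR s.length)) ++ [(neg, 0)] := by
    rw [ovR_succ, winv_cons, winv_sh]
    rfl
  have m3 : Eqv (bar x :: x :: (s ++ [x])) (sh 1 v)
      (sh 2 (winv (ovR s.length)) ++ (neg, 1) :: sh 2 v) := by
    have h := m2.symm.left [bar x]
    rw [e1] at h
    simpa [sh_sh] using h
  have m5 : Eqv (s ++ [x]) ((cup (bar x), 0) :: (sh 1 v ++ [(cap, 0)]))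
      ((cup (bar x), 0) :: (sh 2 (winv (ovR s.length)) ++ (neg, 1) :: (sh 2 v ++ [(cap, 0)]))) := by
    have h := (m3.app_right [(cap, 0)]).cons (rot_cup x (s ++ [x]))
    simpa using h
  have m6 : Eqv (s ++ [x]) ([(cup (bar x), 0)] ++ sh 2 (winv (ovR s.length)))
      (winv (ovR s.length) ++ [(cup (bar x), 0)]) := by
    have h : Eqv ([] ++ (s ++ [x])) ([(cup (bar x), 0)] ++ sh [bar x, x].length (winv (ovR s.length)))
        (sh ([] : List X).length (winv (ovR s.length)) ++ [(cup (bar x), 0)]) :=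
      far_block (run_one.2 (rot_cup x [])) hwi
    simpa using h
  have m7 : Eqv (s ++ [x]) ((cup (bar x), 0) :: (sh 2 (winv (ovR s.length)) ++
        (neg, 1) :: (sh 2 v ++ [(cap, 0)])))
      (winv (ovR s.length) ++ ((cup (bar x), 0) :: (neg, 1) :: (sh 2 v ++ [(cap, 0)]))) := by
    have h := m6.app_right ((neg, 1) :: (sh 2 v ++ [(cap, 0)]))
    simpa using h
  have m8 : Eqv (x :: s) [(cup (bar x), 0), (neg, 1)] [(cup (bar x), 1), (pos, 0)] :=
    (Rel0.sl2 (bar x) (bar x)).eqv (t := bar x :: x :: x :: s)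
      (run_two.2 ⟨bar x :: x :: x :: s, rot_cup x (x :: s), App.skip _ (app_neg_inert.2 rfl)⟩)
      (run_two.2 ⟨x :: bar x :: x :: s, App.skip _ (rot_cup x s), app_pos_inert.2 rfl⟩)
  have m8' : Eqv (x :: s) ((cup (bar x), 0) :: (neg, 1) :: (sh 2 v ++ [(cap, 0)]))
      ((cup (bar x), 1) :: (pos, 0) :: (sh 2 v ++ [(cap, 0)])) := m8.app_right _
  have m9 : Eqv (x :: bar x :: x :: s) ((pos, 0) :: (sh 2 v ++ [(cap, 0)]))
      (sh 2 v ++ [(pos, 0), (cap, 0)]) := by
    have h : Eqv ([x, bar x] ++ x :: s) ([(pos, 0)] ++ sh [bar x, x].length v)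
        (sh [x, bar x].length v ++ [(pos, 0)]) :=
      far_block (run_one.2 (app_pos_inert.2 rfl)) hv
    have h2 := h.app_right [(cap, 0)]
    simpa using h2
  have m10 : Eqv [x, bar x] [(pos, 0), (cap, 0)] [(cap, 0)] :=
    Rel0.r1c.eqv (t := []) (run_two.2 ⟨[bar x, x], app_pos_inert.2 rfl, rot_cap x []⟩)
      (run_one.2 (App.cap x []))
  have m10' : Eqv (x :: bar x :: x :: s) (sh 2 v ++ [(pos, 0), (cap, 0)])
      (sh 2 v ++ [(cap, 0)]) := m10.app_left (hv.left [x, bar x])
  have m11 : Eqv (x :: bar x :: x :: s) (sh 2 v ++ [(cap, 0)]) ((cap, 0) :: v) := by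
    have h : Eqv ([x, bar x] ++ x :: s) ([(cap, 0)] ++ sh ([] : List X).length v)
        (sh [x, bar x].length v ++ [(cap, 0)]) :=
      far_block (run_one.2 (App.cap x [])) hv
    have h2 := h.symm
    simpa using h2
  have m12 : Eqv (x :: s) [] [(cup (bar x), 1), (cap, 0)] :=
    (Rel0.zag (bar x)).eqv (t := x :: s) (Run.nil _)
      (run_two.2 ⟨x :: bar x :: x :: s, App.skip _ (rot_cup x s), App.cap x _⟩)
  have m12' : Eqv (x :: s) ((cup (bar x), 1) :: (cap, 0) :: v) v := by
    have h := m12.symm.app_right v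
    simpa using h
  have m13 : Eqv (x :: s) ((cup (bar x), 1) :: (pos, 0) :: (sh 2 v ++ [(cap, 0)]))
      ((cup (bar x), 1) :: (cap, 0) :: v) :=
    (m9.trans (m10'.trans m11)).cons (App.skip _ (rot_cup x s))
  have m14 : Eqv (x :: s) ((cup (bar x), 0) :: (neg, 1) :: (sh 2 v ++ [(cap, 0)])) v :=
    m8'.trans (m13.trans m12')
  exact m5.trans (m7.trans (m14.app_left hwi))

private theorem rot_one {u v : Wrd X} {x : X} {s : List X} (hu : Run [] u (x :: s))
    (hv : Run (x :: s) v []) : ∃ u' v' : Wrd X, Run [] u' (s ++ [x]) ∧ Run (s ++ [x]) v' [] ∧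
      Eqv [] (u ++ v) (u' ++ v') ∧ ncr (u' ++ v') = ncr (u ++ v) := by
  have hov : Run (x :: s) (ovR s.length) (s ++ [x]) := run_ovR' x s
  have h1 := rot_u hu
  have h2 := rot_v hv
  have hu' : Run [] ((cup (bar x), 0) :: (sh 1 u ++ [(cap, 0)])) (s ++ [x]) := by
    refine Run.cons (rot_cup x []) (Run.append (t := bar x :: x :: (s ++ [x])) ?_ ?_)
    · have h := hu.mid [bar x] [x]
      simpa using h
    · exact run_one.2 (rot_cap x _)
  have hv' : Run (s ++ [x]) ((cup (bar x), 0) :: (sh 1 v ++ [(cap, 0)])) [] := by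
    refine Run.cons (rot_cup x _) (Run.append (t := [bar x, x]) ?_ ?_)
    · have h := hv.mid [bar x] [x]
      simpa using h
    · exact run_one.2 (rot_cap x _)
  refine ⟨_, _, hu', hv', ?_, ?_⟩
  · have h3 : Eqv [] ((cup (bar x), 0) :: (sh 1 u ++ [(cap, 0)]) ++
        ((cup (bar x), 0) :: (sh 1 v ++ [(cap, 0)])))
        (u ++ ovR s.length ++ (winv (ovR s.length) ++ v)) := h1.append hu' h2
    have h4 : Eqv [] (u ++ (ovR s.length ++ winv (ovR s.length)) ++ v) (u ++ [] ++ v) :=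
      (word_cancel hov (ovR_XW _)).ctx hu v
    have h5 := h3.trans (by simpa using h4)
    exact h5.symm
  · rw [ncr_append, ncr_append, ncr_cons (cup (bar x)) 0 (sh 1 u ++ [(cap, 0)]),
      ncr_cons (cup (bar x)) 0 (sh 1 v ++ [(cap, 0)]), ncr_append, ncr_append, ncr_sh, ncr_sh,
      ncr_cup, ncr_cap]
    omega

/-- the strands at the left of a level of a closed diagram can be moved to the right. Paper proof: induction on `a`; for one strand `x` (with `a ++ b = x :: s`) take
`u' = [cup (bar x) 0] ++ sh 1 u ++ [cap 0]` (state `[bar x, x]`, then `bar x :: (x :: s) ++ [x]`, then `s ++ [x]`) and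
`v' = [cup y 0] ++ sh 1 v ++ [cap 0]` with `bar y = x` (state `s ++ [x]`, then `y :: (x :: s) ++ [x]`, then `[y, x]`, closed by the maximum).
Then `u' ~ u ++ ovR s.length` and `v' ~ winv (ovR s.length) ++ v`: for `u'` insert `winv (sh 1 (ovR n)) ++ sh 1 (ovR n)`-type
cancelling pairs which move the right strand over all of `x :: s` to the left, use naturality (`ov_nat`, in the inverse form `u ++ winv (ovR _) ~ sh 1 u`) so that the word `u` stands to the right of both strands of the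
minimum, then `[pos 1, cap 0] ~ [neg 0, cap 1]` (`sl3`), the first Reidemeister move `[cup 0, neg 0] ~ [cup 0]`, and the zigzag. The same for `v'` with
`[cup 0, neg 1] ~ [cup 1, pos 0]` (`sl2`) and `[pos 0, cap 0] ~ [cap 0]`. Finally `ovR n ++ winv (ovR n) ~ []` (`word_cancel`). -/
theorem rotate {u v : Wrd X} {a b : List X} (hu : Run [] u (a ++ b)) (hv : Run (a ++ b) v []) :
    ∃ u' v' : Wrd X, Run [] u' (b ++ a) ∧ Run (b ++ a) v' [] ∧ Eqv [] (u ++ v) (u' ++ v') ∧
      ncr (u' ++ v') = ncr (u ++ v) := by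
  induction a generalizing u v b with
  | nil =>
    refine ⟨u, v, ?_, ?_, Eqv.refl _ _, rfl⟩
    · simpa using hu
    · simpa using hv
  | cons x a ih =>
    obtain ⟨u₁, v₁, h1, h2, h3, h4⟩ := rot_one hu hv
    obtain ⟨u₂, v₂, h5, h6, h7, h8⟩ := ih (b := b ++ [x]) (by simpa using h1) (by simpa using h2)
    refine ⟨u₂, v₂, by simpa using h5, by simpa using h6, h3.trans h7, h8.trans h4⟩

end Pool.Agent.KL
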