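import Pool.Agent.Lib_MP_7c418e_gt.LemS
import Pool.Agent.Lib_MP_7c418e_gt.Rot
import Pool.Agent.Lib_MP_7c418e_gt.JTool

/-!
# Joined links exist
-/

set_option autoImplicit false
set_option linter.unusedVariables false
set_option linter.constructorNameAsVariable false

universe u v

namespace Pool.Agent.KL

open Kind

section

variable {X : Type u} [Rule X]

theorem Run.crs_mid {s t : List X} {w : Wrd X} (h : Run s w t) (a b : List X) :
    crs (a ++ s ++ b) (sh a.length w) = crs s w := by
  rw [List.append_assoc, crs_left, h.crs_right]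

theorem Run.res_mid {s t : List X} {w : Wrd X} (h : Run s w t) (p : X → Bool) (a b : List X) :
    KL.res p (a ++ s ++ b) (sh a.length w) = sh (a.filter p).length (KL.res p s w) := by
  rw [List.append_assoc, res_left, h.res_right]

theorem exists_crossing {P : X → X → Bool} {s t : List X} {w : Wrd X} (h : Run s w t) (hc : 1 ≤ cnt P s w) :
    ∃ (u v : Wrd X) (a b : List X) (x y : X), w = u ++ v ∧ Run s u (a ++ x :: y :: b) ∧
      Run (a ++ x :: y :: b) v t ∧ (P x y = true ∨ P y x = true) := by
  induction h with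
  | nil s => simp [cnt] at hc
  | @cons k i s t u w h h' ih =>
    rw [cnt, crs_cons, h.nx, List.countP_append] at hc
    by_cases h0 : 1 ≤ (crs t w).countP fun x => P x.1 x.2
    · obtain ⟨u', v, a, b, x, y, rfl, h1, h2, h3⟩ := ih h0
      exact ⟨(k, i) :: u', v, a, b, x, y, rfl, Run.cons h h1, h2, h3⟩
    · have h1 : 1 ≤ (crL k i s).countP fun x => P x.1 x.2 := by omega
      have h2 : ∃ (a b : List X) (x y : X), s = a ++ x :: y :: b ∧ (P x y = true ∨ P y x = true) := by
        clear ih h0 hc h'
        induction h with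
        | cup x s => simp at h1
        | cap x s => simp at h1
        | pos x y s =>
          refine ⟨[], s, x, y, rfl, Or.inl ?_⟩
          rw [crL_pos, List.countP_singleton] at h1
          by_contra hcon
          simp [hcon] at h1
        | neg x y s =>
          refine ⟨[], s, x, y, rfl, Or.inr ?_⟩
          rw [crL_neg, List.countP_singleton] at h1
          by_contra hcon
          simp [hcon] at h1
        | skip z h ih =>
          rw [crL_succ] at h1
          obtain ⟨a, b, x, y, rfl, h2⟩ := ih h1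
          exact ⟨z :: a, b, x, y, rfl, h2⟩
      obtain ⟨a, b, x, y, rfl, h3⟩ := h2
      exact ⟨[], (k, i) :: w, a, b, x, y, rfl, Run.nil _, Run.cons h h', h3⟩

end

/-- the ring around the strands `0` and `1` -/
def rg {X : Type u} (x : X) : Wrd X := [(cup x, 0), (pos, 1), (pos, 2), (pos, 2), (pos, 1), (cap, 0)]

theorem run_rg {κ : Type} (x a b : Col κ) : Run [a, b] (rg x) [a, b] := by
  refine Run.cons (App.cup x _) ?_
  refine Run.cons (App.skip _ (App.pos _ _ _)) ?_
  refine Run.cons (App.skip _ (App.skip _ (App.pos _ _ _))) ?_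
  refine Run.cons (App.skip _ (App.skip _ (App.pos _ _ _))) ?_
  refine Run.cons (App.skip _ (App.pos _ _ _)) ?_
  exact Run.cons (App.cap x _) (Run.nil _)

theorem crs_rg {κ : Type} (x a b : Col κ) : crs [a, b] (rg x) = [(x, a), (x, b), (b, x), (a, x)] := rfl

theorem ncr_rg {X : Type u} (x : X) : ncr (rg x) = 4 := rfl

theorem res_rg {κ : Type} (p : Col κ → Bool) (x a b : Col κ) (ha : p x = true → p a = false) (hb : p x = true → p b = false) :
    res p [a, b] (rg x) = if p x then [(cup x, 0), (cap, 0)] else [] := by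
  unfold rg
  by_cases hx : p x
  · have ha' := ha hx
    have hb' := hb hx
    simp [hx, ha', hb']
  · simp [hx]

abbrev cA : Col JC := JC.a
abbrev cB : Col JC := JC.b
abbrev cC : Col JC := JC.c
abbrev cD : Col JC := JC.d
abbrev cR : Col JC := JC.r
abbrev cQ : Col JC := JC.q

/-- a link with two components: labelled diagram with a level at which two neighbouring strands have different labels -/
theorem exists_level {d : Wrd Unit} (hd : Prime d) (ht : Two d) (l m : Col JC) :
    ∃ (u v : Wrd (Col JC)) (a b : List (Col JC)), fgt (u ++ v) = d ∧ Run [] u (a ++ l :: m :: b) ∧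
      Run (a ++ l :: m :: b) v [] ∧ cups (fun x : Col JC => x = l ∨ x = m) (u ++ v) := by
  rw [two_iff] at ht
  obtain ⟨w, rfl, h2, h3, h4⟩ := ht
  obtain ⟨h5, -⟩ := over_exists h2 h3 h4 hd.nonsplit
  obtain ⟨u, v, a, b, x, y, rfl, h6, h7, h8⟩ := exists_crossing h2 h5
  have hxy : x ≠ y := by
    rintro rfl
    simp only [Bool.and_eq_true, decide_eq_true_eq] at h8
    rcases h8 with ⟨h8, h9⟩ | ⟨h8, h9⟩
    · rw [h8] at h9
      cases h9
    · rw [h8] at h9
      cases h9
  let f : RHom (Col Bool) (Col JC) := ⟨fun z => if z = x then l else m, fun _ => rfl, fun _ _ => rfl⟩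
  have fx : f.toFun x = l := if_pos rfl
  have fy : f.toFun y = m := if_neg hxy.symm
  refine ⟨wmap f.toFun u, wmap f.toFun v, a.map f.toFun, b.map f.toFun, ?_, ?_, ?_, ?_⟩
  · rw [← wmap_append, fgt_wmap]
  · have := h6.map f
    simpa [fx, fy] using this
  · have := h7.map f
    simpa [fx, fy] using this
  · rw [← wmap_append, cups_wmap]
    intro z i _
    by_cases hz : z = x
    · left
      rw [hz, fx]
    · right
      exact if_neg hz

/-- the kind of a crossing -/
def pkf (x y : JC) (z : Col JC × Col JC) : Bool := (fun u v : Col JC => decide (u = x) && decide (v = y)) z.1 z.2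

theorem oc_eq_pkf (x y : JC) (w : Wrd (Col JC)) : oc x y w = (crs [] w).countP (pkf x y) := rfl

theorem join_exists {d₁ d₂ : Wrd Unit} (h₁ : Prime d₁) (h₂ : Prime d₂) (t₁ : Two d₁) (t₂ : Two d₂) :
    ∃ J : Wrd (Col JC), JD d₁ d₂ J ∧ ncr J = ncr d₁ + ncr d₂ + 8 := by
  obtain ⟨U₁, V₁, A, B, e1, e2, e3, e4⟩ := exists_level h₁ t₁ cA cB
  obtain ⟨U₂', V₂', A', B', g1, g2, g3, g4⟩ := exists_level h₂ t₂ cD cC
  -- turn the second diagram
  have g2' : Run [] U₂' ((A' ++ [cD]) ++ cC :: B') := by simpa using g2
  have g3' : Run ((A' ++ [cD]) ++ cC :: B') V₂' [] := by simpa using g3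
  obtain ⟨U₂, V₂, k1, k2, k3, k4⟩ := rotate g2' g3'
  have k5 : cups (fun x : Col JC => x = cD ∨ x = cC) (U₂ ++ V₂) :=
    Eqv.cups (subR_col _) k3 (g2.append g3) (by simp) g4
  set M := B' ++ A' with hM
  have k1' : Run [] U₂ (cC :: (M ++ [cD])) := by simpa [hM] using k1
  have k2' : Run (cC :: (M ++ [cD])) V₂ [] := by simpa [hM] using k2
  clear k1 k2 g2' g3'
  have c1 : cups (fun x => p1 x = true) (U₁ ++ V₁) := cups_mono e4 fun x hx => by rcases hx with rfl | rfl <;> rfl
  have c2 : cups (fun x => p2 x = true) (U₂ ++ V₂) := cups_mono k5 fun x hx => by rcases hx with rfl | rfl <;> rfl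
  rw [cups_append] at c1 c2
  -- the ring words
  let A1 : List (Col JC) := A ++ [cA]
  have hA1 : A1.length = A.length + 1 := by simp [A1]
  have r1 : Run [] U₁ (A1 ++ cB :: B) := by simpa [A1] using e2
  have r2 : Run (A1 ++ [] ++ cB :: B) (sh A1.length U₂) (A1 ++ (cC :: (M ++ [cD])) ++ cB :: B) := k1'.mid A1 (cB :: B)
  have r3 : Run (A ++ [cA, cC] ++ (M ++ cD :: cB :: B)) (sh A.length (rg cR)) (A ++ [cA, cC] ++ (M ++ cD :: cB :: B)) :=
    (run_rg cR cA cC).mid A (M ++ cD :: cB :: B)
  let A2 : List (Col JC) := A1 ++ cC :: M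
  have r4 : Run (A2 ++ [cD, cB] ++ B) (sh A2.length (rg cQ)) (A2 ++ [cD, cB] ++ B) :=
    (run_rg cQ cD cB).mid A2 B
  have r5 : Run (A1 ++ (cC :: (M ++ [cD])) ++ cB :: B) (sh A1.length V₂) (A1 ++ [] ++ cB :: B) := k2'.mid A1 (cB :: B)
  have r6 : Run (A1 ++ cB :: B) V₁ [] := by simpa [A1] using e3
  -- normal forms of the states
  set s0 : List (Col JC) := A1 ++ cB :: B with hs0
  set s1 : List (Col JC) := A1 ++ (cC :: (M ++ [cD])) ++ cB :: B with hs1
  have q2 : Run s0 (sh A1.length U₂) s1 := by simpa [hs0] using r2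
  have e31 : A ++ [cA, cC] ++ (M ++ cD :: cB :: B) = s1 := by simp [hs1, A1]
  have e41 : A2 ++ [cD, cB] ++ B = s1 := by simp [hs1, A2]
  have q3 : Run s1 (sh A.length (rg cR)) s1 := by rw [← e31]; exact r3
  have q4 : Run s1 (sh A2.length (rg cQ)) s1 := by rw [← e41]; exact r4
  have q5 : Run s1 (sh A1.length V₂) s0 := by simpa [hs0] using r5
  -- crossings
  have x2 : crs s0 (sh A1.length U₂) = crs [] U₂ := by
    have := k1'.crs_mid A1 (cB :: B)
    simpa [hs0] using this
  have x3 : crs s1 (sh A.length (rg cR)) = [((cR, cA) : Col JC × Col JC), (cR, cC), (cC, cR), (cA, cR)] := by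
    rw [← e31, (run_rg cR cA cC).crs_mid, crs_rg]
  have x4 : crs s1 (sh A2.length (rg cQ)) = [((cQ, cD) : Col JC × Col JC), (cQ, cB), (cB, cQ), (cD, cQ)] := by
    rw [← e41, (run_rg cQ cD cB).crs_mid, crs_rg]
  have x5 : crs s1 (sh A1.length V₂) = crs (cC :: (M ++ [cD])) V₂ := k2'.crs_mid A1 (cB :: B)
  let J : Wrd (Col JC) := U₁ ++ (sh A1.length U₂ ++ (sh A.length (rg cR) ++ (sh A2.length (rg cQ) ++ (sh A1.length V₂ ++ V₁))))
  have hJ : Run [] J [] := r1.append (q2.append (q3.append (q4.append (q5.append r6))))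
  have hcrs : crs [] J = crs [] U₁ ++ (crs [] U₂ ++ ([((cR, cA) : Col JC × Col JC), (cR, cC), (cC, cR), (cA, cR)] ++
      ([((cQ, cD) : Col JC × Col JC), (cQ, cB), (cB, cQ), (cD, cQ)] ++
      (crs (cC :: (M ++ [cD])) V₂ ++ crs s0 V₁)))) := by
    rw [crs_append r1, crs_append q2, crs_append q3, crs_append q4, crs_append q5, x2, x3, x4, x5]
  -- labels at the crossings of the two links
  have m1 := Run.crs_mem (S := fun x => p1 x = true) (subR_col _) r1 (by simp) c1.1
  have st1 := Run.mem_of_cups (S := fun x => p1 x = true) (subR_col _) r1 (by simp) c1.1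
  have m2 := Run.crs_mem (S := fun x => p1 x = true) (subR_col _) r6 st1 c1.2
  have m3 := Run.crs_mem (S := fun x => p2 x = true) (subR_col _) k1' (by simp) c2.1
  have st2 := Run.mem_of_cups (S := fun x => p2 x = true) (subR_col _) k1' (by simp) c2.1
  have m4 := Run.crs_mem (S := fun x => p2 x = true) (subR_col _) k2' st2 c2.2
  have z0 : ∀ (L : List (Col JC × Col JC)) (p : Col JC → Bool) (x y : JC), (∀ z ∈ L, p z.1 = true ∧ p z.2 = true) →
      (p x = false ∨ p y = false) → L.countP (pkf x y) = 0 := by
    intro L p x y hL hxy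
    rw [List.countP_eq_zero]
    intro z hz
    have h := hL z hz
    rcases hxy with hxy | hxy
    · intro h'
      unfold pkf at h'
      rw [Bool.and_eq_true] at h'
      rw [of_decide_eq_true h'.1, hxy] at h
      cases h.1
    · intro h'
      unfold pkf at h'
      rw [Bool.and_eq_true] at h'
      rw [of_decide_eq_true h'.2, hxy] at h
      cases h.2
  have hcount : ∀ x y : JC, (p1 x = false ∨ p1 y = false) → (p2 x = false ∨ p2 y = false) →
      oc x y J = ([((cR, cA) : Col JC × Col JC), (cR, cC), (cC, cR), (cA, cR), (cQ, cD), (cQ, cB), (cB, cQ),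
        (cD, cQ)] : List (Col JC × Col JC)).countP (pkf x y) := by
    intro x y h1 h2
    rw [oc_eq_pkf, hcrs]
    simp only [List.countP_append]
    rw [z0 _ p1 x y m1 h1, z0 _ p2 x y m3 h2, z0 _ p2 x y m4 h2, z0 _ p1 x y m2 h1]
    simp only [List.countP_cons, List.countP_nil, zero_add, add_zero]
    ring
  -- deletions
  have hres : ∀ p : Col JC → Bool, res p [] J = res p [] U₁ ++ (res p s0 (sh A1.length U₂) ++ (res p s1 (sh A.length (rg cR)) ++
      (res p s1 (sh A2.length (rg cQ)) ++ (res p s1 (sh A1.length V₂) ++ res p s0 V₁)))) := by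
    intro p
    rw [res_append p r1, res_append p q2, res_append p q3, res_append p q4, res_append p q5]
  have y2 : ∀ p : Col JC → Bool, res p s0 (sh A1.length U₂) = sh (A1.filter p).length (res p [] U₂) := by
    intro p
    have := k1'.res_mid p A1 (cB :: B)
    simpa [hs0] using this
  have y3 : ∀ p : Col JC → Bool, res p s1 (sh A.length (rg cR)) = sh (A.filter p).length (res p [cA, cC] (rg cR)) := by
    intro p
    rw [← e31, (run_rg cR cA cC).res_mid]
  have y4 : ∀ p : Col JC → Bool, res p s1 (sh A2.length (rg cQ)) = sh (A2.filter p).length (res p [cD, cB] (rg cQ)) := by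
    intro p
    rw [← e41, (run_rg cQ cD cB).res_mid]
  have y5 : ∀ p : Col JC → Bool, res p s1 (sh A1.length V₂) = sh (A1.filter p).length (res p (cC :: (M ++ [cD])) V₂) := by
    intro p
    exact k2'.res_mid p A1 (cB :: B)
  have memA : ∀ x ∈ A1, p1 x = true := fun x hx => st1 x (by simp [hs0, hx])
  have memA' : ∀ x ∈ A, p1 x = true := fun x hx => st1 x (by simp [hs0, A1, hx])
  have memA2 : ∀ x ∈ A2, p12 x = true := by
    intro x hx
    simp only [A2, List.mem_append] at hx
    rcases hx with hx | hx
    · simp [p12, memA x hx]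
    · have := st2 x (by simp only [List.mem_cons, List.mem_append] at hx ⊢; tauto)
      simp [p12, this]
  have q12 : ∀ x, p1 x = true → p12 x = true := fun x hx => by simp [p12, hx]
  have q12' : ∀ x, p2 x = true → p12 x = true := fun x hx => by simp [p12, hx]
  have qr1 : ∀ x, p1 x = true → pr x = false := fun x hx => by cases x <;> first | rfl | cases hx
  have qr2 : ∀ x, p2 x = true → pr x = false := fun x hx => by cases x <;> first | rfl | cases hx
  have qq1 : ∀ x, p1 x = true → pq x = false := fun x hx => by cases x <;> first | rfl | cases hx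
  have qq2 : ∀ x, p2 x = true → pq x = false := fun x hx => by cases x <;> first | rfl | cases hx
  have qr12 : ∀ x, p12 x = true → pr x = false := fun x hx => by cases x <;> first | rfl | cases hx
  have qq12 : ∀ x, p12 x = true → pq x = false := fun x hx => by cases x <;> first | rfl | cases hx
  refine ⟨J, ?_, ?_⟩
  · refine ⟨hJ, ⟨U₁ ++ V₁, U₂ ++ V₂, r1.append r6, k1'.append k2', cups_append.2 c1, cups_append.2 c2, ?_, ?_, ?_⟩,
      ?_, ?_, ?_, ?_, ?_, ?_, ?_, ?_, ?_, ?_⟩
    · -- the two links without the rings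
      have h1 : res p12 [] J = U₁ ++ sh A1.length (U₂ ++ V₂) ++ V₁ := by
        rw [hres, y2, y3, y4, y5, res_rg _ _ _ _ (by intro h; cases h) (by intro h; cases h),
          res_rg _ _ _ _ (by intro h; cases h) (by intro h; cases h),
          res_all (keeps_col _) r1 (by simp) (cups_mono c1.1 q12),
          res_all (keeps_col _) k1' (by simp) (cups_mono c2.1 q12'),
          res_all (keeps_col _) k2' (fun x hx => q12' x (st2 x hx)) (cups_mono c2.2 q12'),
          res_all (keeps_col _) r6 (fun x hx => q12 x (st1 x hx)) (cups_mono c1.2 q12),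
          List.filter_eq_self.2 (fun x hx => q12 x (memA x hx))]
        simp [p12, p1, p2]
      rw [h1]
      have h2 : Eqv [] (U₁ ++ sh A1.length (U₂ ++ V₂) ++ V₁) ((U₂ ++ V₂) ++ (U₁ ++ V₁)) :=
        closed_move (t := []) (k1'.append k2') r1
      exact h2.trans (closed_comm (k1'.append k2') (r1.append r6))
    · rw [e1]
      exact LEq.refl _
    · have h1 := k3.forget
      rw [← g1]
      exact h1
    · -- the first ring
      have h1 : res pr [] J = [(cup cR, 0), (cap, 0)] := by
        rw [hres, y2, y3, y4, y5, res_rg _ _ _ _ (by intro h; rfl) (by intro h; rfl),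
          res_rg _ _ _ _ (by intro h; cases h) (by intro h; cases h),
          res_none (keeps_col _) r1 (by simp) (cups_mono c1.1 qr1),
          res_none (keeps_col _) k1' (by simp) (cups_mono c2.1 qr2),
          res_none (keeps_col _) k2' (fun x hx => qr2 x (st2 x hx)) (cups_mono c2.2 qr2),
          res_none (keeps_col _) r6 (fun x hx => qr1 x (st1 x hx)) (cups_mono c1.2 qr1),
          (List.filter_eq_nil_iff (p := pr) (l := A)).2 (fun x hx => by rw [qr1 x (memA' x hx)]; simp)]
        simp [pr]
      rw [h1]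
      exact LEq.refl _
    · -- the second ring
      have h1 : res pq [] J = [(cup cQ, 0), (cap, 0)] := by
        rw [hres, y2, y3, y4, y5, res_rg _ _ _ _ (by intro h; cases h) (by intro h; cases h),
          res_rg _ _ _ _ (by intro h; rfl) (by intro h; rfl),
          res_none (keeps_col _) r1 (by simp) (cups_mono c1.1 qq1),
          res_none (keeps_col _) k1' (by simp) (cups_mono c2.1 qq2),
          res_none (keeps_col _) k2' (fun x hx => qq2 x (st2 x hx)) (cups_mono c2.2 qq2),
          res_none (keeps_col _) r6 (fun x hx => qq1 x (st1 x hx)) (cups_mono c1.2 qq1),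
          (List.filter_eq_nil_iff (p := pq) (l := A2)).2 (fun x hx => by rw [qq12 x (memA2 x hx)]; simp)]
        simp [pq]
      rw [h1]
      exact LEq.refl _
    all_goals
      rw [hcount _ _ (by simp [p1]) (by simp [p2])]
      decide
  · have h1 := hJ.length_crs
    rw [hcrs] at h1
    have h2 := r1.length_crs
    have h3 := k1'.length_crs
    have h4 := k2'.length_crs
    have h5 := r6.length_crs
    simp only [List.length_append, List.length_cons, List.length_nil] at h1
    have h6 : ncr d₁ = ncr U₁ + ncr V₁ := by rw [← e1, ncr_fgt, ncr_append]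
    have h7 : ncr d₂ = ncr U₂ + ncr V₂ := by rw [← g1, ncr_fgt, ← k4, ncr_append]
    omega

end Pool.Agent.KL
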