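import Pool.Agent.Lib_MP_7c418e_gt.JDef

/-!
# How many pairs of links give the same joined link

Plan for `fibre_unique`. Zip the two labelled words: `Z : Wrd (Col (JC × JC))` with first projection `J` and second projection `K` (as `fgt J = fgt K`). The part of `Z` with first label `r` is a
diagram of the trivial knot (`JD.ringr`), so all its second labels are equal (`O_label`), and at crossing number `m` the second label is `r`: hence first label `r` implies second label `r`; by symmetry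
the two conditions are equivalent. The same for `q` with crossing number `n`. So after deleting the rings we have `E : Wrd (Col (JC × JC))` (closed) with
all labels in `{a, b, c, d} × {a, b, c, d}`. By `JD.split` for `J` and relative lifting (`Eqv.lift` for the first projection) `E ~ e₁ ++ e₂` with first labels of `e₁` in `{a, b}` and of `e₂` in `{c, d}`,
`LEq z₁ (fgt e₁)`, `LEq z₂ (fgt e₂)`; by `JD.split` for `K` also `E ~ f₁ ++ f₂` with the same for the second labels. Deleting from `e₁ ++ e₂ ~ f₁ ++ f₂` all strands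
whose second label is in `{c, d}` gives (`Eqv.res`) `e₁' ++ e₂' ~ f₁`, so `e₁' = []` or `e₂' = []` as `fgt f₁` is prime (not split); deleting all strands
whose second label is in `{a, b}` gives `e₁'' ++ e₂'' ~ f₂`, so `e₁'' = []` or `e₂'' = []`. As `e₁`, `e₂` are not empty, either `e₁'' = []` and `e₂' = []`, then `e₁ = e₁' ~ f₁` and `e₂ ~ f₂`, or
`e₁' = []` and `e₂'' = []`, then `e₁ ~ f₂` and `e₂ ~ f₁`.

Plan for `join_fib`. If `LEq D (fgt J)` lift the labels of `J` to `D`: this gives `J'` with `fgt J' = D` and `JD d₁ d₂ J'` (all conditions are invariant: `Eqv.res`, `oc_eqv`). If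
`LEq D (mir (fgt J))` do this with `mir J` (`Eqv.mir`; deletion and mirror image commute; the counts of crossings of `mir J` are those of `J` with the roles of the two strands exchanged):
this gives `J'` with `fgt J' = D` and `JD (mir d₁) (mir d₂) J'`; `cls (mir d) = cls d`. By `JD.ora` and `JD.oqb` there are `m, n < ncr D` as in `fibre_unique`. Choose such `m`, `n` for each
element of the set; by `fibre_unique` every pair `(m, n)` is chosen at most for two elements `(C₁, C₂)`, `(C₂, C₁)`. (Note that `Prime (mir d)` is needed in the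
second case; it follows from `Eqv.mir`, `Closed.mir` and `mir (a ++ b) = mir a ++ mir b`.)
-/

set_option autoImplicit false

universe u v

namespace Pool.Agent.KL

open Kind

/-- the labels of the over strands at the crossings of `J` -/
def ovl {κ : Type} (J : Wrd (Col κ)) : List κ := (crs [] J).map fun x => x.1

/-! ### Two labellings of the same diagram -/

/-- the first label -/
def jfc1 (x : Col (JC × JC)) : Col JC := Prod.fst (α := JC) (β := JC) x

/-- the second label -/
def jfc2 (x : Col (JC × JC)) : Col JC := Prod.snd (α := JC) (β := JC) x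

/-- a pair of labels -/
def jfmk (x y : Col JC) : Col (JC × JC) := Prod.mk (α := JC) (β := JC) x y

/-- the first label as a homomorphism of rules -/
def jf1 : RHom (Col (JC × JC)) (Col JC) := ⟨jfc1, fun _ => rfl, fun _ _ => rfl⟩

/-- the second label as a homomorphism of rules -/
def jf2 : RHom (Col (JC × JC)) (Col JC) := ⟨jfc2, fun _ => rfl, fun _ _ => rfl⟩

theorem jf_ext {x y : Col (JC × JC)} (h : jfc1 x = jfc1 y) (h' : jfc2 x = jfc2 y) : x = y := Prod.ext h h'

theorem jfib_zipA {k k' : Kind (Col JC)} {i : ℕ} {s : List (Col (JC × JC))} {t t' : List (Col JC)}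
    (hk : kmap (fun _ => ()) k = kmap (fun _ => ()) k') (h : App k i (s.map jfc1) t)
    (h' : App k' i (s.map jfc2) t') : ∃ m u, kmap jfc1 m = k ∧ kmap jfc2 m = k' ∧ u.map jfc1 = t ∧
      u.map jfc2 = t' ∧ App m i s u := by
  induction i generalizing s t t' with
  | zero =>
    cases k with
    | cup x =>
      cases k' with
      | cup y =>
        rw [app_cup] at h h'
        refine ⟨cup (jfmk x y), jfmk x y :: bar (jfmk x y) :: s, rfl, rfl, ?_, ?_, App.cup _ _⟩
        · rw [h]
          rfl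
        · rw [h']
          rfl
      | cap => cases hk
      | pos => cases hk
      | neg => cases hk
    | cap =>
      cases k' with
      | cup y => cases hk
      | cap =>
        rcases s with _ | ⟨a, _ | ⟨b, s⟩⟩
        · exact absurd h not_app_cap
        · exact absurd h not_app_cap'
        · simp only [List.map_cons] at h h'
          rw [app_cap] at h h'
          have hb : b = bar a := jf_ext h.1 h'.1
          refine ⟨cap, s, rfl, rfl, h.2.symm, h'.2.symm, ?_⟩
          rw [hb]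
          exact App.cap _ _
      | pos => cases hk
      | neg => cases hk
    | pos =>
      cases k' with
      | cup y => cases hk
      | cap => cases hk
      | pos =>
        rcases s with _ | ⟨a, _ | ⟨b, s⟩⟩
        · exact absurd h not_app_pos
        · exact absurd h not_app_pos'
        · simp only [List.map_cons] at h h'
          rw [app_pos] at h h'
          refine ⟨pos, act a b :: a :: s, rfl, rfl, ?_, ?_, App.pos _ _ _⟩
          · rw [h]
            rfl
          · rw [h']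
            rfl
      | neg => cases hk
    | neg =>
      cases k' with
      | cup y => cases hk
      | cap => cases hk
      | pos => cases hk
      | neg =>
        rcases s with _ | ⟨a, _ | ⟨b, s⟩⟩
        · exact absurd h not_app_neg
        · exact absurd h not_app_neg'
        · simp only [List.map_cons] at h h'
          rw [app_neg] at h h'
          refine ⟨neg, b :: act (bar b) a :: s, rfl, rfl, ?_, ?_, App.neg _ _ _⟩
          · rw [h]
            rfl
          · rw [h']
            rfl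
  | succ i ih =>
    rcases s with _ | ⟨a, s⟩
    · exact absurd h not_app_succ
    · rw [List.map_cons, app_succ] at h h'
      obtain ⟨t, rfl, h⟩ := h
      obtain ⟨t', rfl, h'⟩ := h'
      obtain ⟨m, u, h1, h2, h3, h4, h5⟩ := ih h h'
      exact ⟨m, a :: u, h1, h2, by rw [List.map_cons, h3], by rw [List.map_cons, h4], App.skip _ h5⟩

theorem jfib_zip {J K : Wrd (Col JC)} (hJK : fgt J = fgt K) {s : List (Col (JC × JC))}
    {t t' : List (Col JC)} (h : Run (s.map jfc1) J t) (h' : Run (s.map jfc2) K t') :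
    ∃ (Z : Wrd (Col (JC × JC))) (u : List (Col (JC × JC))), wmap jfc1 Z = J ∧ wmap jfc2 Z = K ∧
      u.map jfc1 = t ∧ u.map jfc2 = t' ∧ Run s Z u := by
  induction J generalizing K s with
  | nil =>
    have hK : K = [] := fgt_eq_nil hJK.symm
    subst hK
    rw [run_nil] at h h'
    exact ⟨[], s, rfl, rfl, h, h', Run.nil _⟩
  | cons l J ih =>
    obtain ⟨k, i⟩ := l
    rw [fgt_cons] at hJK
    obtain ⟨k', K', rfl, h1, h2⟩ := fgt_eq_cons' hJK.symm
    rw [run_cons] at h h'
    obtain ⟨v, h3, h4⟩ := h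
    obtain ⟨v', h5, h6⟩ := h'
    obtain ⟨m, w, rfl, rfl, rfl, rfl, h7⟩ := jfib_zipA h1.symm h3 h5
    obtain ⟨Z, u, rfl, rfl, rfl, rfl, h8⟩ := ih h2.symm h4 h6
    exact ⟨(m, i) :: Z, u, rfl, rfl, rfl, rfl, Run.cons h7 h8⟩

/-! ### Crossings, deletions: auxiliary facts -/

theorem jfib_crL_wmap {X : Type u} {Y : Type v} [Rule X] [Rule Y] (f : RHom X Y) {k : Kind X} {i : ℕ}
    {s t : List X} (h : App k i s t) :
    crL (kmap f.toFun k) i (s.map f.toFun) = (crL k i s).map fun x => (f.toFun x.1, f.toFun x.2) := by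
  induction h with
  | cup x s => rfl
  | cap x s => rfl
  | pos a b s => rfl
  | neg a b s => rfl
  | skip x h ih => rw [List.map_cons, crL_succ, crL_succ, ih]

theorem jfib_crs_wmap {X : Type u} {Y : Type v} [Rule X] [Rule Y] (f : RHom X Y) {s t : List X}
    {w : Wrd X} (h : Run s w t) :
    crs (s.map f.toFun) (wmap f.toFun w) = (crs s w).map fun x => (f.toFun x.1, f.toFun x.2) := by
  induction h with
  | nil s => rfl
  | cons h _ ih =>
    rw [wmap_cons, crs_cons, crs_cons, jfib_crL_wmap f h, (h.map f).nx, ih, h.nx, List.map_append]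

theorem jfib_resL_congr {X : Type u} [Rule X] {p p' : X → Bool} {k : Kind X} {i : ℕ} {s t : List X}
    (h : App k i s t) (hs : ∀ x ∈ s, p x = p' x) (hk : ∀ x, k = Kind.cup x → p x = p' x) :
    resL p k i s = resL p' k i s := by
  induction h with
  | cup x s => rw [resL_cup, resL_cup, hk x rfl]
  | cap x s => rw [resL_cap, resL_cap, hs x (by simp)]
  | pos a b s => rw [resL_pos, resL_pos, hs a (by simp), hs b (by simp)]
  | neg a b s => rw [resL_neg, resL_neg, hs a (by simp), hs b (by simp)]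
  | skip x h ih =>
    rw [resL_succ, resL_succ, ih (fun y hy => hs y (by simp [hy])) hk, hs x (by simp)]

theorem jfib_res_congr {κ : Type u} {p p' : Col κ → Bool} {s t : List (Col κ)} {w : Wrd (Col κ)}
    (h : Run s w t) (hs : ∀ x ∈ s, p x = p' x) (hw : cups (fun x => p x = p' x) w) :
    res p s w = res p' s w := by
  induction h with
  | nil s => rfl
  | @cons k i s t u w h h' ih =>
    have hk : ∀ x, k = Kind.cup x → p x = p' x := fun x hx => hw x i (by simp [hx])
    rw [res_cons, res_cons, jfib_resL_congr h hs hk, h.nx,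
      ih (h.mem_of (subR_col fun x => p x = p' x) hs hk) (cups_tail hw)]

/-- the labels of the ring -/
theorem jfib_ring {f g : Col (JC × JC) → Col JC} {p : Col JC → Bool} {c₀ : Col JC}
    (hp : ∀ x, p x = true ↔ x = c₀) {Z : Wrd (Col (JC × JC))} (hZ : Run [] Z [])
    (hO : LEq (fgt (res (fun x => p (f x)) [] Z)) O) {x y : Col (JC × JC)}
    (hxy : (x, y) ∈ crs [] Z) (hfx : f x = c₀) (hgx : g x = c₀) :
    cups (fun z : Col (JC × JC) => f z = c₀ → g z = c₀) Z := by
  have hR := hZ.res (keeps_col fun x => p (f x))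
  obtain ⟨c, hc⟩ := O_label hR hO
  have h1 : ∃ i, ((cup x, i) : Ltr (Col (JC × JC))) ∈ Z := by
    by_contra hcon
    have h2 : cups (fun z : Col (JC × JC) => z ≠ x) Z := by
      intro z i hz hzx
      subst hzx
      exact hcon ⟨i, hz⟩
    have h3 := hZ.crs_mem (subR_col fun z : Col (JC × JC) => z ≠ x) (by simp) h2 (x, y) hxy
    exact h3.1 rfl
  obtain ⟨i, hi⟩ := h1
  obtain ⟨j, hj⟩ := mem_res_cup (p := fun x => p (f x)) hZ hi ((hp _).2 hfx)
  have h4 : x = c := hc x j hj
  intro z i' hz hfz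
  obtain ⟨j', hj'⟩ := mem_res_cup (p := fun x => p (f x)) hZ hz ((hp _).2 hfz)
  have h5 : z = c := hc z j' hj'
  rw [h5, ← h4]
  exact hgx

theorem jfib_cups_and {X : Type u} {S T : X → Prop} {w : Wrd X} (h : cups S w) (h' : cups T w) :
    cups (fun x => S x ∧ T x) w := fun x i hx => ⟨h x i hx, h' x i hx⟩

theorem jfib_pr (x : Col JC) : pr x = true ↔ x = JC.r := by
  constructor
  · intro h
    cases x <;> first | rfl | cases h
  · rintro rfl
    rfl

theorem jfib_pq (x : Col JC) : pq x = true ↔ x = JC.q := by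
  constructor
  · intro h
    cases x <;> first | rfl | cases h
  · rintro rfl
    rfl

theorem jfib_p12 (x : Col JC) : p12 x = true ↔ ¬ x = JC.r ∧ ¬ x = JC.q := by
  constructor
  · intro h
    refine ⟨?_, ?_⟩
    · rintro rfl
      cases h
    · rintro rfl
      cases h
  · rintro ⟨h1, h2⟩
    cases x with
    | a => rfl
    | b => rfl
    | c => rfl
    | d => rfl
    | r => exact absurd rfl h1
    | q => exact absurd rfl h2

theorem jfib_ovl_get {κ : Type} {J : Wrd (Col κ)} {m : ℕ} {x : κ} (h : (ovl J)[m]? = some x) :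
    ∃ z : Col κ × Col κ, (crs [] J)[m]? = some z ∧ z.1 = x := by
  have h2 : (List.map (fun x : Col κ × Col κ => x.1) (crs [] J))[m]? = some (x : Col κ) := h
  rw [List.getElem?_map] at h2
  cases hm : (crs [] J)[m]? with
  | none => rw [hm] at h2; simp at h2
  | some z =>
    rw [hm] at h2
    exact ⟨z, rfl, Option.some.inj h2⟩

theorem jfib_p12_or (x : Col JC) (h : p12 x = true) : (p1 x = true ∧ p2 x = false) ∨ (p1 x = false ∧ p2 x = true) := by
  cases x <;> simp_all [p12, p1, p2]

theorem jfib_p1_of {x : Col JC} (h : p2 x = true) : p1 x = false := by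
  cases x <;> simp_all [p1, p2]

theorem jfib_p2_of {x : Col JC} (h : p1 x = true) : p2 x = false := by
  cases x <;> simp_all [p1, p2]

/-- a decomposition of the lifted word -/
theorem jfib_split {f : RHom (Col (JC × JC)) (Col JC)} {E : Wrd (Col (JC × JC))} (hE : Run [] E [])
    {z₁ z₂ : Wrd (Col JC)} (h₁ : Run [] z₁ []) (c₁ : cups (fun x => p1 x = true) z₁)
    (c₂ : cups (fun x => p2 x = true) z₂) (h : Eqv [] (wmap f.toFun E) (z₁ ++ z₂)) :
    ∃ e₁ e₂ : Wrd (Col (JC × JC)), Run [] e₁ [] ∧ Run [] e₂ [] ∧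
      cups (fun x => p1 (f.toFun x) = true) e₁ ∧ cups (fun x => p2 (f.toFun x) = true) e₂ ∧
      Eqv [] E (e₁ ++ e₂) ∧ fgt e₁ = fgt z₁ ∧ fgt e₂ = fgt z₂ := by
  obtain ⟨v, hv1, hv2, hv3⟩ := Eqv.lift f hE h
  obtain ⟨e₁, e₂, rfl, rfl, rfl⟩ := wmap_eq_append.1 hv1
  have hc : Closed (fgt e₁) := by
    have := h₁.closed
    rwa [fgt_wmap] at this
  obtain ⟨r1, r2⟩ := hv3.split_closed hc
  exact ⟨e₁, e₂, r1, r2, cups_wmap.1 c₁, cups_wmap.1 c₂, hv2, (fgt_wmap _ _).symm, (fgt_wmap _ _).symm⟩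

/-- a fixed diagram `D` with the positions `m`, `n` of a crossing at which the first ring is over and of a crossing at which the second ring is over: the
unordered pair of the two links is determined -/
theorem fibre_unique (D : Wrd Unit) (m n : ℕ) {z₁ z₂ y₁ y₂ : Wrd Unit} (hz₁ : Prime z₁) (hz₂ : Prime z₂) (hy₁ : Prime y₁)
    (hy₂ : Prime y₂) {J K : Wrd (Col JC)} (hJ : JD z₁ z₂ J) (hK : JD y₁ y₂ K) (hJD : fgt J = D) (hKD : fgt K = D)
    (hJr : (ovl J)[m]? = some JC.r) (hJq : (ovl J)[n]? = some JC.q) (hKr : (ovl K)[m]? = some JC.r)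
    (hKq : (ovl K)[n]? = some JC.q) : (LEq z₁ y₁ ∧ LEq z₂ y₂) ∨ (LEq z₁ y₂ ∧ LEq z₂ y₁) := by
  obtain ⟨Z, u, hZ1, hZ2, hu, -, hZ⟩ := jfib_zip (hJD.trans hKD.symm) (s := []) hJ.run hK.run
  have hu0 : u = [] := by simpa using hu
  subst hu0
  have c1 : crs [] J = (crs [] Z).map fun x => (jfc1 x.1, jfc1 x.2) := by
    rw [← hZ1]
    exact jfib_crs_wmap jf1 hZ
  have c2 : crs [] K = (crs [] Z).map fun x => (jfc2 x.1, jfc2 x.2) := by
    rw [← hZ2]
    exact jfib_crs_wmap jf2 hZ
  have r1 : ∀ p : Col JC → Bool, res p [] J = wmap jfc1 (res (fun x => p (jfc1 x)) [] Z) := by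
    intro p
    rw [← hZ1]
    exact res_wmap jf1 p hZ
  have r2 : ∀ p : Col JC → Bool, res p [] K = wmap jfc2 (res (fun x => p (jfc2 x)) [] Z) := by
    intro p
    rw [← hZ2]
    exact res_wmap jf2 p hZ
  -- the crossings of the rings
  have hcross : ∀ (m : ℕ) (x₀ : JC), (ovl J)[m]? = some x₀ → (ovl K)[m]? = some x₀ →
      ∃ x y, (x, y) ∈ crs [] Z ∧ jfc1 x = x₀ ∧ jfc2 x = x₀ := by
    intro m x₀ h h'
    obtain ⟨z, k1, k2⟩ := jfib_ovl_get h
    obtain ⟨z', k3, k4⟩ := jfib_ovl_get h'
    rw [c1, List.getElem?_map] at k1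
    rw [c2, List.getElem?_map] at k3
    cases hm : (crs [] Z)[m]? with
    | none => rw [hm] at k1; simp at k1
    | some w =>
      rw [hm] at k1 k3
      obtain ⟨x, y⟩ := w
      have k5 := Option.some.inj k1
      have k6 := Option.some.inj k3
      refine ⟨x, y, List.mem_of_getElem? hm, ?_, ?_⟩
      · rw [← k2, ← k5]
      · rw [← k4, ← k6]
  obtain ⟨x, y, hxy, hx1, hx2⟩ := hcross m JC.r hJr hKr
  obtain ⟨x', y', hxy', hx1', hx2'⟩ := hcross n JC.q hJq hKq
  have hO1 : LEq (fgt (res (fun x => pr (jfc1 x)) [] Z)) O := by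
    have := hJ.ringr
    rwa [r1, fgt_wmap] at this
  have hO2 : LEq (fgt (res (fun x => pr (jfc2 x)) [] Z)) O := by
    have := hK.ringr
    rwa [r2, fgt_wmap] at this
  have hO3 : LEq (fgt (res (fun x => pq (jfc1 x)) [] Z)) O := by
    have := hJ.ringq
    rwa [r1, fgt_wmap] at this
  have hO4 : LEq (fgt (res (fun x => pq (jfc2 x)) [] Z)) O := by
    have := hK.ringq
    rwa [r2, fgt_wmap] at this
  have l1 := jfib_ring (g := jfc2) jfib_pr hZ hO1 hxy hx1 hx2
  have l2 := jfib_ring (g := jfc1) jfib_pr hZ hO2 hxy hx2 hx1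
  have l3 := jfib_ring (g := jfc2) jfib_pq hZ hO3 hxy' hx1' hx2'
  have l4 := jfib_ring (g := jfc1) jfib_pq hZ hO4 hxy' hx2' hx1'
  have hp12 : cups (fun z : Col (JC × JC) => p12 (jfc1 z) = p12 (jfc2 z)) Z := by
    intro z i hz
    rw [Bool.eq_iff_iff, jfib_p12, jfib_p12]
    have a1 : jfc1 z = JC.r → jfc2 z = JC.r := l1 z i hz
    have a2 : jfc2 z = JC.r → jfc1 z = JC.r := l2 z i hz
    have a3 : jfc1 z = JC.q → jfc2 z = JC.q := l3 z i hz
    have a4 : jfc2 z = JC.q → jfc1 z = JC.q := l4 z i hz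
    constructor
    · rintro ⟨h5, h6⟩
      exact ⟨fun h => h5 (a2 h), fun h => h6 (a4 h)⟩
    · rintro ⟨h5, h6⟩
      exact ⟨fun h => h5 (a1 h), fun h => h6 (a3 h)⟩
  have hEE : res (fun x => p12 (jfc1 x)) [] Z = res (fun x => p12 (jfc2 x)) [] Z :=
    jfib_res_congr hZ (by simp) hp12
  set E := res (fun x => p12 (jfc1 x)) [] Z with hEdef
  have hE : Run [] E [] := hZ.res (keeps_col fun x => p12 (jfc1 x))
  have hEc : cups (fun x : Col (JC × JC) => p12 (jfc2 x) = true) E := by
    rw [hEE]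
    exact cups_mono (cups_res hZ (S := fun _ => True) fun _ _ _ => trivial) fun x hx => hx.2
  obtain ⟨w₁, w₂, hw₁, hw₂, cw₁, cw₂, hJe, hzw₁, hzw₂⟩ := hJ.split
  obtain ⟨v₁, v₂, hv₁, hv₂, cv₁, cv₂, hKe, hyv₁, hyv₂⟩ := hK.split
  rw [r1] at hJe
  rw [r2, ← hEE] at hKe
  obtain ⟨e₁, e₂, re₁, re₂, ce₁, ce₂, hEe, fe₁, fe₂⟩ := jfib_split (f := jf1) hE hw₁ cw₁ cw₂ hJe
  obtain ⟨g₁, g₂, rg₁, rg₂, cg₁, cg₂, hEg, fg₁, fg₂⟩ := jfib_split (f := jf2) hE hv₁ cv₁ cv₂ hKe
  have hz₁e : LEq z₁ (fgt e₁) := by rw [fe₁]; exact hzw₁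
  have hz₂e : LEq z₂ (fgt e₂) := by rw [fe₂]; exact hzw₂
  have hy₁g : LEq y₁ (fgt g₁) := by rw [fg₁]; exact hyv₁
  have hy₂g : LEq y₂ (fgt g₂) := by rw [fg₂]; exact hyv₂
  have heg : Eqv [] (e₁ ++ e₂) (g₁ ++ g₂) := hEe.symm.trans hEg
  have hce : cups (fun x : Col (JC × JC) => p12 (jfc2 x) = true) (e₁ ++ e₂) :=
    Eqv.cups (subR_col _) hEe hE (by simp) hEc
  rw [cups_append] at hce
  have he₁0 : e₁ ≠ [] := by
    rintro rfl
    exact hz₁.ne_nil hz₁e
  have he₂0 : e₂ ≠ [] := by
    rintro rfl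
    exact hz₂.ne_nil hz₂e
  -- deletion of the second link
  have hd1 : Eqv [] (res (fun x => p1 (jfc2 x)) [] e₁ ++ res (fun x => p1 (jfc2 x)) [] e₂) g₁ := by
    have h1 := heg.res (keeps_col fun x => p1 (jfc2 x)) (re₁.append re₂)
    rw [res_append _ re₁, res_append _ rg₁] at h1
    have h2 : res (fun x => p1 (jfc2 x)) [] g₁ = g₁ := res_all (keeps_col _) rg₁ (by simp) cg₁
    have h3 : res (fun x => p1 (jfc2 x)) [] g₂ = [] :=
      res_none (keeps_col _) rg₂ (by simp) (cups_mono cg₂ fun x hx => jfib_p1_of hx)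
    rw [h2, h3, List.append_nil] at h1
    exact h1
  have hd2 : Eqv [] (res (fun x => p2 (jfc2 x)) [] e₁ ++ res (fun x => p2 (jfc2 x)) [] e₂) g₂ := by
    have h1 := heg.res (keeps_col fun x => p2 (jfc2 x)) (re₁.append re₂)
    rw [res_append _ re₁, res_append _ rg₁] at h1
    have h2 : res (fun x => p2 (jfc2 x)) [] g₂ = g₂ := res_all (keeps_col _) rg₂ (by simp) cg₂
    have h3 : res (fun x => p2 (jfc2 x)) [] g₁ = [] :=
      res_none (keeps_col _) rg₁ (by simp) (cups_mono cg₁ fun x hx => jfib_p2_of hx)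
    rw [h2, h3, List.nil_append] at h1
    exact h1
  have hsp1 : res (fun x => p1 (jfc2 x)) [] e₁ = [] ∨ res (fun x => p1 (jfc2 x)) [] e₂ = [] := by
    have h1 := hd1.forget
    rw [fgt_append] at h1
    have h2 := (hy₁.leq hy₁g).split (re₁.res (keeps_col fun x => p1 (jfc2 x))).closed
      (re₂.res (keeps_col fun x => p1 (jfc2 x))).closed (LEq.symm h1)
    exact h2.imp fgt_eq_nil fgt_eq_nil
  have hsp2 : res (fun x => p2 (jfc2 x)) [] e₁ = [] ∨ res (fun x => p2 (jfc2 x)) [] e₂ = [] := by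
    have h1 := hd2.forget
    rw [fgt_append] at h1
    have h2 := (hy₂.leq hy₂g).split (re₁.res (keeps_col fun x => p2 (jfc2 x))).closed
      (re₂.res (keeps_col fun x => p2 (jfc2 x))).closed (LEq.symm h1)
    exact h2.imp fgt_eq_nil fgt_eq_nil
  -- not both parts vanish
  have hnb : ∀ e : Wrd (Col (JC × JC)), Run [] e [] → e ≠ [] →
      cups (fun x : Col (JC × JC) => p12 (jfc2 x) = true) e →
      res (fun x => p1 (jfc2 x)) [] e = [] → res (fun x => p2 (jfc2 x)) [] e = [] → False := by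
    intro e he he0 hc h1 h2
    apply he0
    refine nil_of_cups he ?_
    have h3 := cups_of_res_nil he h1
    have h4 := cups_of_res_nil he h2
    intro z i hz
    have h5 : p12 (jfc2 z) = true := hc z i hz
    have h6 : p1 (jfc2 z) = false := h3 z i hz
    have h7 : p2 (jfc2 z) = false := h4 z i hz
    rcases jfib_p12_or _ h5 with h8 | h8
    · rw [h8.1] at h6
      cases h6
    · rw [h8.2] at h7
      cases h7
  have hall1 : ∀ e : Wrd (Col (JC × JC)), Run [] e [] →
      cups (fun x : Col (JC × JC) => p12 (jfc2 x) = true) e → res (fun x => p2 (jfc2 x)) [] e = [] →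
      res (fun x => p1 (jfc2 x)) [] e = e := by
    intro e he hc h2
    have h4 := cups_of_res_nil he h2
    refine res_all (keeps_col _) he (by simp) ?_
    intro z i hz
    have h5 : p12 (jfc2 z) = true := hc z i hz
    have h7 : p2 (jfc2 z) = false := h4 z i hz
    rcases jfib_p12_or _ h5 with h8 | h8
    · exact h8.1
    · rw [h8.2] at h7
      cases h7
  have hall2 : ∀ e : Wrd (Col (JC × JC)), Run [] e [] →
      cups (fun x : Col (JC × JC) => p12 (jfc2 x) = true) e → res (fun x => p1 (jfc2 x)) [] e = [] →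
      res (fun x => p2 (jfc2 x)) [] e = e := by
    intro e he hc h2
    have h4 := cups_of_res_nil he h2
    refine res_all (keeps_col _) he (by simp) ?_
    intro z i hz
    have h5 : p12 (jfc2 z) = true := hc z i hz
    have h7 : p1 (jfc2 z) = false := h4 z i hz
    rcases jfib_p12_or _ h5 with h8 | h8
    · rw [h8.1] at h7
      cases h7
    · exact h8.2
  rcases hsp1 with h1 | h1
  · rcases hsp2 with h2 | h2
    · exact absurd h2 fun h2 => hnb e₁ re₁ he₁0 hce.1 h1 h2
    · right
      rw [h1, hall1 e₂ re₂ hce.2 h2, List.nil_append] at hd1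
      rw [h2, hall2 e₁ re₁ hce.1 h1, List.append_nil] at hd2
      exact ⟨(hz₁e.trans hd2.forget).trans hy₂g.symm, (hz₂e.trans hd1.forget).trans hy₁g.symm⟩
  · rcases hsp2 with h2 | h2
    · left
      rw [h1, hall1 e₁ re₁ hce.1 h2, List.append_nil] at hd1
      rw [h2, hall2 e₂ re₂ hce.2 h1, List.nil_append] at hd2
      exact ⟨(hz₁e.trans hd1.forget).trans hy₁g.symm, (hz₂e.trans hd2.forget).trans hy₂g.symm⟩
    · exact absurd h2 fun h2 => hnb e₂ re₂ he₂0 hce.2 h1 h2

/-! ### Invariance of `JD` -/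

theorem jfib_eqv {d₁ d₂ : Wrd Unit} {J J' : Wrd (Col JC)} (hJ : JD d₁ d₂ J) (h : Eqv [] J J') :
    JD d₁ d₂ J' := by
  have hr : ∀ p : Col JC → Bool, Eqv [] (res p [] J') (res p [] J) := fun p =>
    (h.res (keeps_col p) hJ.run).symm
  have ho : ∀ x y : JC, x ≠ y → oc x y J % 2 = 1 → oc x y J' % 2 = 1 := fun x y hxy h1 => by
    rw [← oc_eqv hxy hJ.run h]
    exact h1
  obtain ⟨z₁, z₂, h1, h2, h3, h4, h5, h6, h7⟩ := hJ.split
  exact
    { run := h.run.1 hJ.run
      split := ⟨z₁, z₂, h1, h2, h3, h4, (hr p12).trans h5, h6, h7⟩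
      ringr := LEq.trans (hr pr).forget hJ.ringr
      ringq := LEq.trans (hr pq).forget hJ.ringq
      ora := ho _ _ (by decide) hJ.ora
      oar := ho _ _ (by decide) hJ.oar
      orc := ho _ _ (by decide) hJ.orc
      ocr := ho _ _ (by decide) hJ.ocr
      oqb := ho _ _ (by decide) hJ.oqb
      obq := ho _ _ (by decide) hJ.obq
      oqd := ho _ _ (by decide) hJ.oqd
      odq := ho _ _ (by decide) hJ.odq }

/-! ### Mirror images -/

theorem jfib_resL_mir {κ : Type u} {p : Col κ → Bool} {k : Kind (Col κ)} {i : ℕ} {s t : List (Col κ)}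
    (h : App k i s t) : resL p (kmir k) i s = mir (resL p k i s) := by
  induction h with
  | cup x s =>
    rw [kmir_cup, resL_cup]
    split <;> rfl
  | cap x s =>
    rw [kmir_cap, resL_cap]
    split <;> rfl
  | pos a b s =>
    rw [kmir_pos, resL_pos, resL_neg]
    split <;> rfl
  | neg a b s =>
    rw [kmir_neg, resL_pos, resL_neg]
    split <;> rfl
  | skip x h ih =>
    rw [resL_succ, resL_succ, ih]
    split
    · rw [mir_sh]
    · rfl

theorem jfib_res_mir {κ : Type u} {p : Col κ → Bool} {s t : List (Col κ)} {w : Wrd (Col κ)}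
    (h : Run s w t) : res p s (mir w) = mir (res p s w) := by
  induction h with
  | nil s => rfl
  | cons h _ ih => rw [mir_cons, res_cons, res_cons, jfib_resL_mir h, h.mir.nx, ih, h.nx, mir_append]

theorem jfib_crL_mir {κ : Type u} {k : Kind (Col κ)} {i : ℕ} {s t : List (Col κ)}
    (h : App k i s t) : crL (kmir k) i s = (crL k i s).map Prod.swap := by
  induction h with
  | cup x s => rfl
  | cap x s => rfl
  | pos a b s => rfl
  | neg a b s => rfl
  | skip x h ih => rw [crL_succ, crL_succ, ih]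

theorem jfib_crs_mir {κ : Type u} {s t : List (Col κ)} {w : Wrd (Col κ)}
    (h : Run s w t) : crs s (mir w) = (crs s w).map Prod.swap := by
  induction h with
  | nil s => rfl
  | cons h _ ih => rw [mir_cons, crs_cons, crs_cons, jfib_crL_mir h, h.mir.nx, ih, h.nx, List.map_append]

theorem jfib_oc_mir {κ : Type} [DecidableEq κ] {w : Wrd (Col κ)} (h : Run [] w []) (x y : κ) :
    oc x y (mir w) = oc y x w := by
  rw [oc, oc, cnt, cnt, jfib_crs_mir h, List.countP_map]
  congr 1
  funext z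
  exact Bool.and_comm _ _

theorem jfib_mir_O : mir O = O := rfl

theorem jfib_mir {d₁ d₂ : Wrd Unit} {J : Wrd (Col JC)} (hJ : JD d₁ d₂ J) :
    JD (mir d₁) (mir d₂) (mir J) := by
  obtain ⟨z₁, z₂, h1, h2, h3, h4, h5, h6, h7⟩ := hJ.split
  have hring : ∀ p : Col JC → Bool, LEq (fgt (res p [] J)) O → LEq (fgt (res p [] (mir J))) O := by
    intro p hp
    rw [jfib_res_mir hJ.run, fgt_mir]
    exact hp.mir
  exact
    { run := hJ.run.mir
      split := ⟨mir z₁, mir z₂, h1.mir, h2.mir, cups_mir.2 h3, cups_mir.2 h4, by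
        rw [jfib_res_mir hJ.run, ← mir_append]
        exact h5.mir, by rw [fgt_mir]; exact h6.mir, by rw [fgt_mir]; exact h7.mir⟩
      ringr := hring pr hJ.ringr
      ringq := hring pq hJ.ringq
      ora := by rw [jfib_oc_mir hJ.run]; exact hJ.oar
      oar := by rw [jfib_oc_mir hJ.run]; exact hJ.ora
      orc := by rw [jfib_oc_mir hJ.run]; exact hJ.ocr
      ocr := by rw [jfib_oc_mir hJ.run]; exact hJ.orc
      oqb := by rw [jfib_oc_mir hJ.run]; exact hJ.obq
      obq := by rw [jfib_oc_mir hJ.run]; exact hJ.oqb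
      oqd := by rw [jfib_oc_mir hJ.run]; exact hJ.odq
      odq := by rw [jfib_oc_mir hJ.run]; exact hJ.oqd }

theorem jfib_leq_mir {d e : Wrd Unit} (h : LEq (mir d) e) : LEq d (mir e) := by
  have := h.mir
  rwa [mir_mir] at this

theorem jfib_mir_clo (T : Wrd Unit) : mir (clo T) = clo (mir T) := by
  simp [clo]

theorem jfib_prime_mir {d : Wrd Unit} (h : Prime d) : Prime (mir d) where
  closed := h.closed.mir
  ne_nil h' := h.ne_nil (jfib_leq_mir h')
  ne_O h' := h.ne_O (jfib_leq_mir h')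
  nonsplit a b ha hb ha' hb' h' := by
    have h1 := jfib_leq_mir h'
    rw [mir_append] at h1
    refine h.nonsplit (mir a) (mir b) ha.mir hb.mir ?_ ?_ h1
    · intro h2
      apply ha'
      rw [← mir_mir a, h2, mir_nil]
    · intro h2
      apply hb'
      rw [← mir_mir b, h2, mir_nil]
  nonsum S T hS hT h' := by
    have h1 := jfib_leq_mir h'
    rw [jfib_mir_clo, mir_append] at h1
    have h2 := h.nonsum (mir S) (mir T) (Run.mir hS) (Run.mir hT) h1
    rcases h2 with h2 | h2
    · left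
      rw [← jfib_mir_clo] at h2
      have h3 := LEq.mir h2
      rwa [mir_mir, jfib_mir_O] at h3
    · right
      rw [← jfib_mir_clo] at h2
      have h3 := LEq.mir h2
      rwa [mir_mir, jfib_mir_O] at h3

theorem jfib_pos {J : Wrd (Col JC)} (hJ : Run [] J []) {x y : JC} (h : oc x y J % 2 = 1) :
    ∃ m < ncr J, (ovl J)[m]? = some x := by
  have h1 : 0 < oc x y J := by omega
  rw [oc, cnt, List.countP_pos_iff] at h1
  obtain ⟨z, hz, hz'⟩ := h1
  have h2 : z.1 = x := by
    simp only [Bool.and_eq_true, decide_eq_true_eq] at hz'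
    exact hz'.1
  have h3 : x ∈ ovl J := List.mem_map.2 ⟨z, hz, h2⟩
  obtain ⟨m, hm⟩ := List.mem_iff_getElem?.1 h3
  refine ⟨m, ?_, hm⟩
  have h4 : (ovl J).length = ncr J := (List.length_map _).trans hJ.length_crs
  rw [← h4]
  exact (List.getElem?_eq_some_iff.1 hm).1

theorem join_fib (D : Wrd Unit) : Set.encard {P : Set (Wrd Unit) × Set (Wrd Unit) | ∃ d₁ d₂ J, Prime d₁ ∧ Prime d₂ ∧
    JD d₁ d₂ J ∧ Same D (fgt J) ∧ P = (cls d₁, cls d₂)} ≤ 2 * (ncr D : ℕ∞) ^ 2 := by
  classical
  set N := ncr D with hN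
  let T : ℕ × ℕ → Set (Set (Wrd Unit) × Set (Wrd Unit)) := fun q =>
    {P | ∃ d₁ d₂ J, Prime d₁ ∧ Prime d₂ ∧ JD d₁ d₂ J ∧ fgt J = D ∧ (ovl J)[q.1]? = some JC.r ∧
      (ovl J)[q.2]? = some JC.q ∧ P = (cls d₁, cls d₂)}
  have hcls : ∀ {d e : Wrd Unit}, LEq d e → cls d = cls e := fun h => cls_eq.2 (Or.inl h)
  have hT : ∀ q, Set.encard (T q) ≤ 2 := by
    intro q
    rcases (T q).eq_empty_or_nonempty with h | ⟨P, d₁, d₂, J, h1, h2, h3, h4, h5, h6, rfl⟩
    · rw [h, Set.encard_empty]
      exact zero_le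
    · have hsub : T q ⊆ {(cls d₁, cls d₂), (cls d₂, cls d₁)} := by
        rintro _ ⟨e₁, e₂, K, k1, k2, k3, k4, k5, k6, rfl⟩
        rcases fibre_unique D q.1 q.2 k1 k2 h1 h2 k3 h3 k4 h4 k5 k6 h5 h6 with h7 | h7
        · left
          rw [hcls h7.1, hcls h7.2]
        · right
          rw [hcls h7.1, hcls h7.2]
          rfl
      refine (Set.encard_le_encard hsub).trans ((Set.encard_insert_le _ _).trans ?_)
      rw [Set.encard_singleton]
      exact le_of_eq one_add_one_eq_two
  have hsub : {P : Set (Wrd Unit) × Set (Wrd Unit) | ∃ d₁ d₂ J, Prime d₁ ∧ Prime d₂ ∧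
      JD d₁ d₂ J ∧ Same D (fgt J) ∧ P = (cls d₁, cls d₂)} ⊆
      ⋃ q ∈ Finset.range N ×ˢ Finset.range N, T q := by
    rintro _ ⟨d₁, d₂, J, h1, h2, h3, h4, rfl⟩
    have key : ∃ e₁ e₂ J', Prime e₁ ∧ Prime e₂ ∧ JD e₁ e₂ J' ∧ fgt J' = D ∧ cls e₁ = cls d₁ ∧
        cls e₂ = cls d₂ := by
      rcases h4 with h4 | h4
      · obtain ⟨J', k1, k2, -⟩ := LEq.lift h3.run h4.symm
        exact ⟨d₁, d₂, J', h1, h2, jfib_eqv h3 k2, k1, rfl, rfl⟩
      · have h5 : LEq (fgt (mir J)) D := by
          rw [fgt_mir]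
          exact h4.symm
        obtain ⟨J', k1, k2, -⟩ := LEq.lift h3.run.mir h5
        exact ⟨mir d₁, mir d₂, J', jfib_prime_mir h1, jfib_prime_mir h2, jfib_eqv (jfib_mir h3) k2, k1,
          cls_eq.2 (Same.mir d₁).symm, cls_eq.2 (Same.mir d₂).symm⟩
    obtain ⟨e₁, e₂, J', k1, k2, k3, k4, k5, k6⟩ := key
    obtain ⟨m, hm, hm'⟩ := jfib_pos k3.run k3.ora
    obtain ⟨n, hn, hn'⟩ := jfib_pos k3.run k3.oqb
    have hJN : ncr J' = N := by rw [← ncr_fgt, k4]
    rw [hJN] at hm hn
    rw [Set.mem_iUnion₂]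
    refine ⟨(m, n), Finset.mem_product.2 ⟨Finset.mem_range.2 hm, Finset.mem_range.2 hn⟩, ?_⟩
    exact ⟨e₁, e₂, J', k1, k2, k3, k4, hm', hn', by rw [k5, k6]⟩
  refine (Set.encard_le_encard hsub).trans ?_
  refine (Finset.set_encard_biUnion_le _ _).trans ?_
  refine (Finset.sum_le_sum fun q _ => hT q).trans ?_
  rw [Finset.sum_const, Finset.card_product, Finset.card_range, nsmul_eq_mul, mul_comm, sq]
  push_cast
  exact le_rfl

end Pool.Agent.KL
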