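import Pool.Agent.Lib_MP_7c418e_gt.JTool

/-!
# Joined links are prime
-/

set_option autoImplicit false
set_option linter.unusedVariables false
set_option linter.constructorNameAsVariable false

universe u v

namespace Pool.Agent.KL

open Kind

/-- an odd count of crossings uses the labels -/
theorem used1 {κ : Type} [DecidableEq κ] {p : Col κ → Bool} {x y : κ} {s t : List (Col κ)} {w : Wrd (Col κ)}
    (h : Run s w t) (hs : ∀ z ∈ s, p z = false) (hx : p x = true) (ho : oct x y s w % 2 = 1) : ¬ no p w := by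
  intro hn
  rw [oct_zero1 h hs hn hx] at ho
  omega

theorem used2 {κ : Type} [DecidableEq κ] {p : Col κ → Bool} {x y : κ} {s t : List (Col κ)} {w : Wrd (Col κ)}
    (h : Run s w t) (hs : ∀ z ∈ s, p z = false) (hy : p y = true) (ho : oct x y s w % 2 = 1) : ¬ no p w := by
  intro hn
  rw [oct_zero2 h hs hn hy] at ho
  omega

theorem join_two {d₁ d₂ : Wrd Unit} {J : Wrd (Col JC)} (hJ : JD d₁ d₂ J) : Two (fgt J) := by
  refine two_of_label hJ.run pr ?_ ?_
  · exact used1 (x := JC.r) (y := JC.a) hJ.run (by simp) rfl hJ.ora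
  · intro h
    have h1 : no p1 J := cups_mono h fun x hx => by cases x <;> first | rfl | cases hx
    exact used2 (p := p1) (x := JC.r) (y := JC.a) hJ.run (by simp) rfl hJ.ora h1

theorem all_cases (x : Col JC) (h1 : p1 x = false) (h2 : p2 x = false) (h3 : pr x = false) (h4 : pq x = false) : False := by
  cases x
  · cases h1
  · cases h1
  · cases h2
  · cases h2
  · cases h3
  · cases h4

theorem no_all {w : Wrd (Col JC)} (h1 : no p1 w) (h2 : no p2 w) (h3 : no pr w) (h4 : no pq w) : cups (fun _ => False) w :=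
  fun x i hx => all_cases x (h1 x i hx) (h2 x i hx) (h3 x i hx) (h4 x i hx)

/-- one part of a split word contains everything -/
theorem join_side {d₁ d₂ : Wrd Unit} (h₂ : Prime d₂) {A B : Wrd (Col JC)} (hA : Run [] A []) (hB : Run [] B [])
    (orc : (oc JC.r JC.c A + oc JC.r JC.c B) % 2 = 1)
    (ora : (oc JC.r JC.a A + oc JC.r JC.a B) % 2 = 1) (oqd : (oc JC.q JC.d A + oc JC.q JC.d B) % 2 = 1)
    (e1 : no p1 B) (e2 : no p2 A ∨ no p2 B) (e3 : no pr A ∨ no pr B) (e4 : no pq A ∨ no pq B) : B = [] := by
  have h1 : oc JC.r JC.a B = 0 := oct_zero2 (p := p1) hB (by simp) e1 rfl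
  have h2 : ¬ no pr A := used1 (x := JC.r) (y := JC.a) hA (by simp) rfl (by rw [oct_nil]; omega)
  have h3 : no pr B := e3.resolve_left h2
  have h4 : oc JC.r JC.c B = 0 := oct_zero1 (p := pr) hB (by simp) h3 rfl
  have h5 : ¬ no p2 A := used2 (x := JC.r) (y := JC.c) hA (by simp) rfl (by rw [oct_nil]; omega)
  have h6 : no p2 B := e2.resolve_left h5
  have h7 : oc JC.q JC.d B = 0 := oct_zero2 (p := p2) hB (by simp) h6 rfl
  have h8 : ¬ no pq A := used1 (x := JC.q) (y := JC.d) hA (by simp) rfl (by rw [oct_nil]; omega)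
  exact nil_of_cups hB (no_all e1 h6 h3 (e4.resolve_left h8))

/-- one of two parts of a split link which is not split is empty -/
theorem part_closed {e : Wrd Unit} {p : Col JC → Bool} {A B : Wrd (Col JC)} (hA : Run [] A []) (hB : Run [] B [])
    (hs : ∀ a b, Closed a → Closed b → LEq e (a ++ b) → a = [] ∨ b = []) (h : LEq e (fgt (res p [] (A ++ B)))) :
    no p A ∨ no p B := by
  rw [res_append p hA, fgt_append] at h
  rcases hs _ _ (Run.closed (hA.res (keeps_col p))) (Run.closed (hB.res (keeps_col p))) h with h1 | h1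
  · left
    exact no_of_res hA (fgt_eq_nil h1)
  · right
    exact no_of_res hB (fgt_eq_nil h1)

theorem join_nonsplit {d₁ d₂ : Wrd Unit} (h₁ : Prime d₁) (h₂ : Prime d₂) {A B : Wrd (Col JC)} (hA : Run [] A [])
    (hB : Run [] B []) (hJ : JD d₁ d₂ (A ++ B)) : A = [] ∨ B = [] := by
  have e1 := part_closed hA hB (fun a b ha hb h => h₁.split ha hb h) hJ.first
  have e2 := part_closed hA hB (fun a b ha hb h => h₂.split ha hb h) hJ.second
  have e3 := part_closed hA hB (fun a b ha hb h => O_nonsplit ha hb h) hJ.ringr.symm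
  have e4 := part_closed hA hB (fun a b ha hb h => O_nonsplit ha hb h) hJ.ringq.symm
  have o1 : (oc JC.r JC.c A + oc JC.r JC.c B) % 2 = 1 := by
    have := hJ.orc
    rwa [← oct_nil, oct_append hA] at this
  have o2 : (oc JC.r JC.a A + oc JC.r JC.a B) % 2 = 1 := by
    have := hJ.ora
    rwa [← oct_nil, oct_append hA] at this
  have o3 : (oc JC.q JC.d A + oc JC.q JC.d B) % 2 = 1 := by
    have := hJ.oqd
    rwa [← oct_nil, oct_append hA] at this
  rcases e1 with e1 | e1
  · left
    exact join_side (d₁ := d₁) h₂ hB hA (by omega) (by omega) (by omega) e1 e2.symm e3.symm e4.symm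
  · right
    exact join_side (d₁ := d₁) h₂ hA hB o1 o2 o3 e1 e2 e3 e4

/-- the statements about the two tangles of a connected sum which are used below -/
structure Sum (x : Col JC) (S T : Wrd (Col JC)) : Prop where
  hS : Run [x] S [x]
  hT : Run [x] T [x]
  ora : (oct JC.r JC.a [x] S + oct JC.r JC.a [x] T) % 2 = 1
  orc : (oct JC.r JC.c [x] S + oct JC.r JC.c [x] T) % 2 = 1
  oqb : (oct JC.q JC.b [x] S + oct JC.q JC.b [x] T) % 2 = 1
  oqd : (oct JC.q JC.d [x] S + oct JC.q JC.d [x] T) % 2 = 1
  part : ∀ p, p = p1 ∨ p = p2 ∨ p = pr ∨ p = pq → p x = false → no p S ∨ no p T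

theorem Sum.symm {x : Col JC} {S T : Wrd (Col JC)} (h : Sum x S T) : Sum x T S where
  hS := h.hT
  hT := h.hS
  ora := by have := h.ora; omega
  orc := by have := h.orc; omega
  oqb := by have := h.oqb; omega
  oqd := by have := h.oqd; omega
  part p hp hx := (h.part p hp hx).symm

/-- everything except the part of the label `x` is in `S` -/
theorem tangle_all {p : Col JC → Bool} {x : Col JC} {T : Wrd (Col JC)} (hT : Run [x] T [x]) (hx : p x = true)
    (h : cups (fun y => p y = true) T) : res p [x] T = T := by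
  refine res_all (keeps_col p) hT ?_ h
  intro y hy
  rw [List.mem_singleton] at hy
  rw [hy]
  exact hx

theorem sf {p : Col JC → Bool} {x : Col JC} (h : p x = false) : ∀ z ∈ [x], p z = false := by
  intro z hz
  rw [List.mem_singleton] at hz
  rw [hz]
  exact h

theorem Sum.ring_r {S T : Wrd (Col JC)} (h : Sum JC.r S T) (e1 : no p1 T) : cups (fun y => pr y = true) T := by
  have h1 : oct JC.q JC.b [JC.r] T = 0 := oct_zero2 (p := p1) h.hT (sf rfl) e1 rfl
  have h2 : ¬ no pq S := used1 (x := JC.q) (y := JC.b) h.hS (sf rfl) rfl (by have := h.oqb; omega)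
  have h3 : no pq T := (h.part pq (by simp) rfl).resolve_left h2
  have h4 : oct JC.q JC.d [JC.r] T = 0 := oct_zero1 (p := pq) h.hT (sf rfl) h3 rfl
  have h5 : ¬ no p2 S := used2 (x := JC.q) (y := JC.d) h.hS (sf rfl) rfl (by have := h.oqd; omega)
  have h6 : no p2 T := (h.part p2 (by simp) rfl).resolve_left h5
  intro y i hy
  by_contra h7
  exact all_cases y (e1 y i hy) (h6 y i hy) (by simpa using h7) (h3 y i hy)

theorem Sum.ring_q {S T : Wrd (Col JC)} (h : Sum JC.q S T) (e1 : no p1 T) : cups (fun y => pq y = true) T := by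
  have h1 : oct JC.r JC.a [JC.q] T = 0 := oct_zero2 (p := p1) h.hT (sf rfl) e1 rfl
  have h2 : ¬ no pr S := used1 (x := JC.r) (y := JC.a) h.hS (sf rfl) rfl (by have := h.ora; omega)
  have h3 : no pr T := (h.part pr (by simp) rfl).resolve_left h2
  have h4 : oct JC.r JC.c [JC.q] T = 0 := oct_zero1 (p := pr) h.hT (sf rfl) h3 rfl
  have h5 : ¬ no p2 S := used2 (x := JC.r) (y := JC.c) h.hS (sf rfl) rfl (by have := h.orc; omega)
  have h6 : no p2 T := (h.part p2 (by simp) rfl).resolve_left h5
  intro y i hy
  by_contra h7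
  exact all_cases y (e1 y i hy) (h6 y i hy) (h3 y i hy) (by simpa using h7)

/-- the connecting strand belongs to the first link and `T` contributes a trivial part -/
theorem Sum.first {x : Col JC} {S T : Wrd (Col JC)} (h : Sum x S T) (hx : p1 x = true) (hx2 : p2 x = false) (hxr : pr x = false)
    (hxq : pq x = false) (hO : LEq (clo (fgt (res p1 [x] T))) O) : cups (fun y => p1 y = true) T := by
  rcases h.part pr (by simp) hxr with e | e
  · -- the ring `r` is in `T`
    exfalso
    have h1 : oct JC.r JC.c [x] S = 0 := oct_zero1 (p := pr) h.hS (sf hxr) e rfl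
    have h2 : ¬ no p2 T := used2 (x := JC.r) (y := JC.c) h.hT (sf hx2) rfl (by have := h.orc; omega)
    have h3 : no p2 S := (h.part p2 (by simp) hx2).resolve_right h2
    have h4 : oct JC.q JC.d [x] S = 0 := oct_zero2 (p := p2) h.hS (sf hx2) h3 rfl
    have h5 : ¬ no pq T := used1 (x := JC.q) (y := JC.d) h.hT (sf hxq) rfl (by have := h.oqd; omega)
    have h6 : no pq S := (h.part pq (by simp) hxq).resolve_right h5
    have h7 : oct JC.r JC.a [x] S = 0 := oct_zero1 (p := pr) h.hS (sf hxr) e rfl
    have h8 : oct JC.q JC.b [x] S = 0 := oct_zero1 (p := pq) h.hS (sf hxq) h6 rfl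
    -- both labels `a` and `b` occur in `T`
    have hr : Run [x] (res p1 [x] T) [x] := by
      have := h.hT.res (keeps_col p1)
      simpa [hx] using this
    have hc := run_clox hr
    obtain ⟨c, hc⟩ := O_label hc (by rw [fgt_clox]; exact hO)
    rw [clox, cups_cons_cup, cups_append] at hc
    obtain ⟨hxc, hc, -⟩ := hc
    have key : ∀ z : Col JC, p1 z = true → z ≠ x → no (fun y => decide (y = z)) T := by
      intro z hz hzx y i hy
      by_contra hcon
      have h9 : y = z := by simpa using hcon
      subst h9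
      obtain ⟨j, hj⟩ := mem_res_cup h.hT hy hz
      have h10 := hc y j hj
      exact hzx (h10.trans hxc.symm)
    have ha := h.ora
    have hb := h.oqb
    by_cases hxa : x = JC.a
    · have h9 := key JC.b rfl (by rw [hxa]; intro h; cases h)
      have h10 : oct JC.q JC.b [x] T = 0 := oct_zero2 (p := fun y => decide (y = JC.b)) h.hT
        (sf (by rw [hxa]; rfl)) h9 (by simp)
      omega
    · have h9 := key JC.a rfl (fun h => hxa h.symm)
      have h10 : oct JC.r JC.a [x] T = 0 := oct_zero2 (p := fun y => decide (y = JC.a)) h.hT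
        (sf (by simpa using hxa)) h9 (by simp)
      omega
  · have h1 : oct JC.r JC.c [x] T = 0 := oct_zero1 (p := pr) h.hT (sf hxr) e rfl
    have h2 : ¬ no p2 S := used2 (x := JC.r) (y := JC.c) h.hS (sf hx2) rfl (by have := h.orc; omega)
    have h3 : no p2 T := (h.part p2 (by simp) hx2).resolve_left h2
    have h4 : oct JC.q JC.d [x] T = 0 := oct_zero2 (p := p2) h.hT (sf hx2) h3 rfl
    have h5 : ¬ no pq S := used1 (x := JC.q) (y := JC.d) h.hS (sf hxq) rfl (by have := h.oqd; omega)
    have h6 : no pq T := (h.part pq (by simp) hxq).resolve_left h5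
    intro y i hy
    by_contra h7
    exact all_cases y (by simpa using h7) (h3 y i hy) (e y i hy) (h6 y i hy)

/-- the connecting strand belongs to the second link and `T` contributes a trivial part -/
theorem Sum.second {x : Col JC} {S T : Wrd (Col JC)} (h : Sum x S T) (hx : p2 x = true) (hx1 : p1 x = false) (hxr : pr x = false)
    (hxq : pq x = false) (hO : LEq (clo (fgt (res p2 [x] T))) O) : cups (fun y => p2 y = true) T := by
  rcases h.part pr (by simp) hxr with e | e
  · -- the ring `r` is in `T`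
    exfalso
    have h1 : oct JC.r JC.a [x] S = 0 := oct_zero1 (p := pr) h.hS (sf hxr) e rfl
    have h2 : ¬ no p1 T := used2 (x := JC.r) (y := JC.a) h.hT (sf hx1) rfl (by have := h.ora; omega)
    have h3 : no p1 S := (h.part p1 (by simp) hx1).resolve_right h2
    have h4 : oct JC.q JC.b [x] S = 0 := oct_zero2 (p := p1) h.hS (sf hx1) h3 rfl
    have h5 : ¬ no pq T := used1 (x := JC.q) (y := JC.b) h.hT (sf hxq) rfl (by have := h.oqb; omega)
    have h6 : no pq S := (h.part pq (by simp) hxq).resolve_right h5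
    have h7 : oct JC.r JC.c [x] S = 0 := oct_zero1 (p := pr) h.hS (sf hxr) e rfl
    have h8 : oct JC.q JC.d [x] S = 0 := oct_zero1 (p := pq) h.hS (sf hxq) h6 rfl
    -- both labels `c` and `d` occur in `T`
    have hr : Run [x] (res p2 [x] T) [x] := by
      have := h.hT.res (keeps_col p2)
      simpa [hx] using this
    have hc := run_clox hr
    obtain ⟨c, hc⟩ := O_label hc (by rw [fgt_clox]; exact hO)
    rw [clox, cups_cons_cup, cups_append] at hc
    obtain ⟨hxc, hc, -⟩ := hc
    have key : ∀ z : Col JC, p2 z = true → z ≠ x → no (fun y => decide (y = z)) T := by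
      intro z hz hzx y i hy
      by_contra hcon
      have h9 : y = z := by simpa using hcon
      subst h9
      obtain ⟨j, hj⟩ := mem_res_cup h.hT hy hz
      have h10 := hc y j hj
      exact hzx (h10.trans hxc.symm)
    have ha := h.orc
    have hb := h.oqd
    by_cases hxa : x = JC.c
    · have h9 := key JC.d rfl (by rw [hxa]; intro h; cases h)
      have h10 : oct JC.q JC.d [x] T = 0 := oct_zero2 (p := fun y => decide (y = JC.d)) h.hT
        (sf (by rw [hxa]; rfl)) h9 (by simp)
      omega
    · have h9 := key JC.c rfl (fun h => hxa h.symm)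
      have h10 : oct JC.r JC.c [x] T = 0 := oct_zero2 (p := fun y => decide (y = JC.c)) h.hT
        (sf (by simpa using hxa)) h9 (by simp)
      omega
  · have h1 : oct JC.r JC.a [x] T = 0 := oct_zero1 (p := pr) h.hT (sf hxr) e rfl
    have h2 : ¬ no p1 S := used2 (x := JC.r) (y := JC.a) h.hS (sf hx1) rfl (by have := h.ora; omega)
    have h3 : no p1 T := (h.part p1 (by simp) hx1).resolve_left h2
    have h4 : oct JC.q JC.b [x] T = 0 := oct_zero2 (p := p1) h.hT (sf hx1) h3 rfl
    have h5 : ¬ no pq S := used1 (x := JC.q) (y := JC.b) h.hS (sf hxq) rfl (by have := h.oqb; omega)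
    have h6 : no pq T := (h.part pq (by simp) hxq).resolve_left h5
    intro y i hy
    by_contra h7
    exact all_cases y (h3 y i hy) (by simpa using h7) (e y i hy) (h6 y i hy)

theorem join_sum (hN : NoInv) {d₁ d₂ : Wrd Unit} (h₁ : Prime d₁) (h₂ : Prime d₂) {x : Col JC} {S T : Wrd (Col JC)}
    (hS : Run [x] S [x]) (hT : Run [x] T [x]) (hJ : JD d₁ d₂ (clox x (S ++ T))) :
    LEq (clo (fgt S)) O ∨ LEq (clo (fgt T)) O := by
  have hST := hS.append hT
  have tan : ∀ (p : Col JC → Bool) {T : Wrd (Col JC)}, Run [x] T [x] → p x = true → Tan (fgt (res p [x] T)) := by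
    intro p T h hx
    have h1 := (h.res (keeps_col p)).forget
    have h2 : Run [()] (fgt (res p [x] T)) [()] := by simpa [hx] using h1
    exact h2
  have clz : ∀ (p : Col JC → Bool) {T : Wrd (Col JC)}, Run [x] T [x] → p x = false → Closed (fgt (res p [x] T)) := by
    intro p T h hx
    have h1 := (h.res (keeps_col p)).forget
    have h2 : Run [] (fgt (res p [x] T)) [] := by simpa [hx] using h1
    exact h2
  have hres : ∀ p : Col JC → Bool, fgt (res p [] (clox x (S ++ T))) =
      if p x then clo (fgt (res p [x] S) ++ fgt (res p [x] T)) else fgt (res p [x] S) ++ fgt (res p [x] T) := by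
    intro p
    rw [res_clox p hST, res_append p hS]
    split
    · rw [fgt_clox, fgt_append]
    · rw [fgt_append]
  have part0 : ∀ (e : Wrd Unit) (p : Col JC → Bool), p x = false →
      (∀ a b, Closed a → Closed b → LEq e (a ++ b) → a = [] ∨ b = []) → LEq e (fgt (res p [] (clox x (S ++ T)))) →
      no p S ∨ no p T := by
    intro e p hx hs h
    rw [hres p, hx] at h
    rcases hs _ _ (clz p hS hx) (clz p hT hx) h with h1 | h1
    · left
      exact no_of_res hS (fgt_eq_nil h1)
    · right
      exact no_of_res hT (fgt_eq_nil h1)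
  have hsum : Sum x S T := by
    refine ⟨hS, hT, ?_, ?_, ?_, ?_, ?_⟩
    · have := hJ.ora
      rwa [oct_clox hST, oct_append hS] at this
    · have := hJ.orc
      rwa [oct_clox hST, oct_append hS] at this
    · have := hJ.oqb
      rwa [oct_clox hST, oct_append hS] at this
    · have := hJ.oqd
      rwa [oct_clox hST, oct_append hS] at this
    · rintro p (rfl | rfl | rfl | rfl) hx
      · exact part0 d₁ p1 hx (fun a b ha hb h => h₁.split ha hb h) hJ.first
      · exact part0 d₂ p2 hx (fun a b ha hb h => h₂.split ha hb h) hJ.second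
      · exact part0 O pr hx (fun a b ha hb h => O_nonsplit ha hb h) hJ.ringr.symm
      · exact part0 O pq hx (fun a b ha hb h => O_nonsplit ha hb h) hJ.ringq.symm
  -- conclusion from a set of labels
  have fin : ∀ (p : Col JC → Bool) {T : Wrd (Col JC)}, Run [x] T [x] → p x = true → cups (fun y => p y = true) T →
      LEq (clo (fgt (res p [x] T))) O → LEq (clo (fgt T)) O := by
    intro p T hT hx h1 h2
    rwa [tangle_all hT hx h1] at h2
  have hf : p1 x = true ∧ p2 x = false ∧ pr x = false ∧ pq x = false ∨ p1 x = false ∧ p2 x = true ∧ pr x = false ∧ pq x = false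
      ∨ x = JC.r ∨ x = JC.q := by
    cases x
    · left; exact ⟨rfl, rfl, rfl, rfl⟩
    · left; exact ⟨rfl, rfl, rfl, rfl⟩
    · right; left; exact ⟨rfl, rfl, rfl, rfl⟩
    · right; left; exact ⟨rfl, rfl, rfl, rfl⟩
    · right; right; left; rfl
    · right; right; right; rfl
  rcases hf with ⟨f1, f2, f3, f4⟩ | ⟨f1, f2, f3, f4⟩ | rfl | rfl
  · have h3 := hJ.first
    rw [hres p1, f1] at h3
    rcases h₁.nonsum _ _ (tan p1 hS f1) (tan p1 hT f1) h3 with h4 | h4
    · left
      exact fin p1 hS f1 (hsum.symm.first f1 f2 f3 f4 h4) h4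
    · right
      exact fin p1 hT f1 (hsum.first f1 f2 f3 f4 h4) h4
  · have h3 := hJ.second
    rw [hres p2, f2] at h3
    rcases h₂.nonsum _ _ (tan p2 hS f2) (tan p2 hT f2) h3 with h4 | h4
    · left
      exact fin p2 hS f2 (hsum.symm.second f2 f1 f3 f4 h4) h4
    · right
      exact fin p2 hT f2 (hsum.second f2 f1 f3 f4 h4) h4
  · have h3 := hJ.ringr
    rw [hres pr] at h3
    have h4 := hN _ _ (tan pr hS rfl) (tan pr hT rfl) h3
    rcases hsum.part p1 (by simp) rfl with e | e
    · left
      exact fin pr hS rfl (hsum.symm.ring_r e) h4.1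
    · right
      exact fin pr hT rfl (hsum.ring_r e) h4.2
  · have h3 := hJ.ringq
    rw [hres pq] at h3
    have h4 := hN _ _ (tan pq hS rfl) (tan pq hT rfl) h3
    rcases hsum.part p1 (by simp) rfl with e | e
    · left
      exact fin pq hS rfl (hsum.symm.ring_q e) h4.1
    · right
      exact fin pq hT rfl (hsum.ring_q e) h4.2

theorem join_prime (hN : NoInv) {d₁ d₂ : Wrd Unit} (h₁ : Prime d₁) (h₂ : Prime d₂) {J : Wrd (Col JC)}
    (hJ : JD d₁ d₂ J) : Prime (fgt J) where
  closed := Run.closed hJ.run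
  ne_nil h := by
    have h1 : Two ([] : Wrd Unit) := (join_two hJ).leq h
    rw [two_iff] at h1
    obtain ⟨w, h2, h3, h4, h5⟩ := h1
    have h6 := fgt_eq_nil h2
    subst h6
    exact h4 cups_nil
  ne_O h := not_two_O ((join_two hJ).leq h)
  nonsplit a b ha hb ha0 hb0 h := by
    obtain ⟨J', h1, h2⟩ := hJ.lift h
    obtain ⟨A, B, rfl, rfl, rfl⟩ := fgt_eq_append h1
    obtain ⟨hA, hB⟩ := Run.split_closed h2.run ha
    rcases join_nonsplit h₁ h₂ hA hB h2 with rfl | rfl
    · exact ha0 rfl
    · exact hb0 rfl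
  nonsum S T hS hT h := by
    obtain ⟨J', h1, h2⟩ := hJ.lift h
    obtain ⟨x, y, S', T', rfl, rfl, rfl, h3, h4⟩ := clo_lift_append hS hT h2.run h1
    have h5 := tan_col h3
    subst h5
    exact join_sum hN h₁ h₂ h3 h4 h2

end Pool.Agent.KL
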