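import Pool.Agent.Lib_MP_7c418e_gt.KRing
import Pool.Agent.Lib_MP_7c418e_gt.JEx

/-!
# A prime link obtained from a prime knot by adding a ring: existence
-/

set_option autoImplicit false
set_option linter.unusedVariables false
set_option linter.unusedSectionVars false
set_option linter.unusedSimpArgs false

universe u v w

namespace Pool.Agent.KL

open Kind

/-! ### The ring -/

/-- both directions -/
def pm1 (n : Multiplicative ℤ) : Prop := n = Multiplicative.ofAdd 1 ∨ n = Multiplicative.ofAdd (-1)

theorem pm1_inv {n : Multiplicative ℤ} (h : pm1 n) : pm1 n⁻¹ := by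
  rcases h with rfl | rfl
  · right; rfl
  · left; rfl

/-- the first component of the labels is `1` or `-1` -/
def PM {G : Type} {Y : Type} (z : TR (HG G) Y) : Prop := ∀ k : HG G, z = kn k → pm1 k.1

section

variable {G : Type} [Group G]

theorem subR_PM {Y : Type} [MulAction (HG G) Y] : SubR (PM (G := G) (Y := Y)) where
  sbar z hz := by
    rcases TR.cases z with ⟨g, rfl⟩ | ⟨t, rfl⟩
    · intro k hk
      rw [bar_kn] at hk
      rw [← kn_inj hk, Prod.fst_inv]
      exact pm1_inv (hz g rfl)
    · intro k hk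
      exact absurd hk.symm kn_ne_ri
  sact a z ha hz := by
    rcases TR.cases a with ⟨a, rfl⟩ | ⟨a, rfl⟩
    · rcases TR.cases z with ⟨g, rfl⟩ | ⟨t, rfl⟩
      · intro k hk
        rw [act_kn_kn] at hk
        rw [← kn_inj hk, Prod.fst_mul, Prod.fst_mul, Prod.fst_inv, mul_comm a.1, mul_inv_cancel_right]
        exact hz g rfl
      · intro k hk
        exact absurd hk.symm kn_ne_ri
    · exact hz

theorem subR_cj : SubR (fun z : Cj (HG G) => pm1 z.1) where
  sbar z hz := pm1_inv hz
  sact a z ha hz := by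
    change pm1 (a.1 * z.1 * a.1⁻¹)
    rw [mul_comm a.1, mul_inv_cancel_right]
    exact hz

theorem subR_zp {Y : Type} [MulAction (HG G) Y] (h : HG G) :
    SubR (fun z : TR (HG G) Y => ∀ k : HG G, z = kn k → k ∈ Subgroup.zpowers h) where
  sbar z hz := by
    rcases TR.cases z with ⟨g, rfl⟩ | ⟨t, rfl⟩
    · intro k hk
      rw [bar_kn] at hk
      rw [← kn_inj hk]
      exact Subgroup.inv_mem _ (hz g rfl)
    · intro k hk
      exact absurd hk.symm kn_ne_ri
  sact a z ha hz := by
    rcases TR.cases a with ⟨a, rfl⟩ | ⟨a, rfl⟩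
    · rcases TR.cases z with ⟨g, rfl⟩ | ⟨t, rfl⟩
      · intro k hk
        rw [act_kn_kn] at hk
        rw [← kn_inj hk]
        exact Subgroup.mul_mem _ (Subgroup.mul_mem _ (ha a rfl) (hz g rfl)) (Subgroup.inv_mem _ (ha a rfl))
      · intro k hk
        exact absurd hk.symm kn_ne_ri
    · exact hz

theorem exists_phi {h : HG G} (hh : pm1 h.1) : ∃ φ : Multiplicative ℤ →* HG G, ∀ k ∈ Subgroup.zpowers h, k = φ k.1 := by
  rcases hh with hh | hh
  · refine ⟨zpowersHom _ h, ?_⟩
    rintro k ⟨n, rfl⟩
    have h1 : ((fun x : ℤ => h ^ x) n).1 = Multiplicative.ofAdd n := by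
      change (h ^ n).1 = _
      rw [Prod.pow_fst, hh, ← ofAdd_zsmul, smul_eq_mul, mul_one]
    rw [h1]
    simp
  · refine ⟨zpowersHom _ h⁻¹, ?_⟩
    rintro k ⟨n, rfl⟩
    have h1 : ((fun x : ℤ => h ^ x) n).1 = Multiplicative.ofAdd (-n) := by
      change (h ^ n).1 = _
      rw [Prod.pow_fst, hh, ← ofAdd_zsmul, smul_eq_mul, mul_neg, mul_one]
    rw [h1]
    simp

/-- the strands of the ring can be deleted if its labels are trivial -/
theorem keeps_R : Keeps (fun z : TR (HG G) NY => !(isK z)) where
  kbar z := by rcases z with g | t <;> rfl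
  kact a z := by rcases a with a | a <;> rcases z with g | t <;> rfl
  ktriv a z ha hz := by
    rcases a with a | a
    · rcases z with g | t
      · cases hz
      · rfl
    · rfl

/-- if the part of the knot in a tangle is trivial then the labels of the knot in this tangle are in a cyclic subgroup -/
theorem im_of_trivial {g : HG G} {S : Wrd (TR (HG G) NY)} (hS : Run [kn g] S [kn g])
    (hO : LEq (clo (fgt (res isK [kn g] S))) O) (h1 : PM (kn g : TR (HG G) NY)) (h2 : cups PM S) :
    ∃ φ : Multiplicative ℤ →* HG G, g = φ g.1 ∧ cups (RD.Im φ) S := by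
  have h3 : Run [kn g] (res isK [kn g] S) [(kn g : TR (HG G) NY)] := hS.res keeps_K
  have h4 := run_clox h3
  obtain ⟨v, h5, h6, h7⟩ := LEq.lift h4 (v := O) (by rw [fgt_clox]; exact hO)
  obtain ⟨k, v', rfl, h8, h9⟩ := fgt_eq_cons' h5
  obtain ⟨z, rfl, -⟩ := kmap_eq_cup.1 h8
  obtain ⟨k', v'', rfl, h10, h11⟩ := fgt_eq_cons' h9
  have h12 := fgt_eq_nil h11
  subst h12
  have h13 : k' = cap := kmap_eq_cap.1 h10
  subst h13
  have hK : cups (fun z : TR (HG G) NY => isK z = true) (clox (kn g) (res isK [kn g] S)) := by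
    rw [clox, cups_cons_cup, cups_append, cups_cons (by simp)]
    refine ⟨rfl, ?_, cups_nil⟩
    exact cups_mono (cups_res (S := fun _ => True) hS (fun _ _ _ => trivial)) fun z hz => hz.2
  have hz1 := Eqv.cups (keeps_K.subR true) h6 h4 (by simp) hK z 0 (by simp)
  have hPM : cups PM (clox (kn g) (res isK [kn g] S)) := by
    rw [clox, cups_cons_cup, cups_append, cups_cons (by simp)]
    refine ⟨h1, ?_, cups_nil⟩
    exact cups_mono (cups_res hS h2) fun z hz => hz.1
  have hz2 := Eqv.cups subR_PM h6 h4 (by simp) hPM z 0 (by simp)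
  obtain ⟨h, rfl⟩ : ∃ h, z = kn h := by
    rcases TR.cases z with h | ⟨t, rfl⟩
    · exact h
    · cases hz1
  obtain ⟨φ, hφ⟩ := exists_phi (hz2 h rfl)
  have h14 : cups (fun z : TR (HG G) NY => ∀ k : HG G, z = kn k → k ∈ Subgroup.zpowers h) (clox (kn g) (res isK [kn g] S)) := by
    refine Eqv.cups (subR_zp h) h6.symm h7 (by simp) ?_
    rw [cups_cons_cup, cups_cons (by simp)]
    refine ⟨?_, cups_nil⟩
    intro k hk
    rw [← kn_inj hk]
    exact Subgroup.mem_zpowers h
  rw [clox, cups_cons_cup, cups_append] at h14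
  refine ⟨φ, hφ g (h14.1 g rfl), ?_⟩
  intro z i hz k hk
  subst hk
  obtain ⟨j, hj⟩ := mem_res_cup hS hz (p := isK) rfl
  exact hφ k (h14.2.1 _ j hj k rfl)

theorem col_of_isK {x y : TR (HG G) NY} {T : Wrd (TR (HG G) NY)} (h : Run [x] T [y]) : isK y = isK x :=
  tan_col (κ := Bool) (h.map (colK (H := HG G) (Y := NY)))

namespace RD

variable (D : RD G)

theorem res_K : res isK [] (D.J (Y := NY) ()) = wmap (ktH (G := G) NY).toFun (D.u ++ D.v) := by
  have key : ∀ (w : Wrd (Cj (HG G))), cups (fun z => isK z = true) (wmap (ktH (G := G) NY).toFun w) := by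
    intro w
    rw [cups_wmap]
    intro z i _
    rfl
  have hlev : ∀ z ∈ D.lev NY, isK z = true := Run.mem_of_cups (keeps_K.subR true) (D.run_u NY) (by simp) (key D.u)
  have h1 := D.run_u NY
  have h2 := D.run_r (Y := NY) (t := ()) rfl
  have h3 : res isK (D.lev NY) (sh D.a.length (rgb D.c (ri ()))) = [] := by
    have h4 : Run [kt NY D.x, kt NY D.y] (rgb D.c (ri ())) [kt NY D.x, kt NY D.y] := run_rgb rfl
    have h5 := h4.res_mid isK (D.a.map (kt NY)) (D.b.map (kt NY))
    have h6 : D.a.map (kt NY) ++ [kt NY D.x, kt NY D.y] ++ D.b.map (kt NY) = D.lev NY := by simp [lev]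
    rw [h6, List.length_map] at h5
    rw [h5]
    have h7 : res isK [kt NY D.x, kt NY D.y] (rgb D.c (ri ())) = [] := res_rgb_K
    rw [h7]
    rfl
  rw [J, res_append isK h1, res_append isK h2, h3, res_all keeps_K h1 (by simp) (key D.u), List.nil_append,
    res_all keeps_K (D.run_v NY) hlev (key D.v), wmap_append]

theorem res_R : res (fun z : TR (HG G) NY => !(isK z)) [] (D.J (Y := NY) ()) = [(cup (ri ()), 0), (cap, 0)] := by
  have key : ∀ (w : Wrd (Cj (HG G))), cups (fun z : TR (HG G) NY => (!(isK z)) = false) (wmap (ktH (G := G) NY).toFun w) := by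
    intro w
    rw [cups_wmap]
    intro z i _
    rfl
  have hlev : ∀ z ∈ D.lev NY, (!(isK z)) = false :=
    Run.mem_of_cups (keeps_R.subR false) (D.run_u NY) (by simp) (key D.u)
  have hlev' : ∀ z ∈ D.a.map (kt NY), (!(isK z)) = false := fun z hz => hlev z (by simp only [lev, List.mem_append]; exact Or.inl hz)
  have h1 := D.run_u NY
  have h2 := D.run_r (Y := NY) (t := ()) rfl
  have h3 : res (fun z : TR (HG G) NY => !(isK z)) (D.lev NY) (sh D.a.length (rgb D.c (ri ()))) = [(cup (ri ()), 0), (cap, 0)] := by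
    have h4 : Run [kt NY D.x, kt NY D.y] (rgb D.c (ri ())) [kt NY D.x, kt NY D.y] := run_rgb rfl
    have h5 := h4.res_mid (fun z : TR (HG G) NY => !(isK z)) (D.a.map (kt NY)) (D.b.map (kt NY))
    have h6 : D.a.map (kt NY) ++ [kt NY D.x, kt NY D.y] ++ D.b.map (kt NY) = D.lev NY := by simp [lev]
    rw [h6, List.length_map] at h5
    rw [h5]
    have h7 : res (fun z : TR (HG G) NY => !(isK z)) [kt NY D.x, kt NY D.y] (rgb D.c (ri ())) = [(cup (ri ()), 0), (cap, 0)] := res_rgb_R
    rw [h7]
    have h8 : (D.a.map (kt NY)).filter (fun z : TR (HG G) NY => !(isK z)) = [] := by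
      rw [List.filter_eq_nil_iff]
      intro z hz
      rw [hlev' z hz]
      simp
    rw [h8]
    simp
  rw [J, res_append _ h1, res_append _ h2, h3, res_none keeps_R h1 (by simp) (key D.u), List.nil_append,
    res_none keeps_R (D.run_v NY) hlev (key D.v)]
  rfl

theorem prime (hN : NoInv) {d : Wrd Unit} (hd : Prime d) (e : fgt (D.u ++ D.v) = d)
    (hPM : cups (fun z : Cj (HG G) => pm1 z.1) (D.u ++ D.v)) (h2 : Two (fgt (D.J (Y := NY) ()))) :
    Prime (fgt (D.J (Y := NY) ())) := by
  have hJ := D.run_JN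
  have eK : fgt (res isK [] (D.J (Y := NY) ())) = d := by rw [D.res_K, fgt_wmap, e]
  have eR : fgt (res (fun z : TR (HG G) NY => !(isK z)) [] (D.J (Y := NY) ())) = O := by rw [D.res_R]; rfl
  have hPMJ : cups PM (D.J (Y := NY) ()) := by
    rw [cups_append] at hPM
    rw [J, cups_append, cups_append]
    refine ⟨?_, ?_, ?_⟩
    · rw [cups_wmap]
      refine cups_mono hPM.1 fun z hz => ?_
      intro k hk
      rw [← kn_inj (H := HG G) hk]
      exact hz
    · rw [cups_sh]
      intro z i hz k hk
      subst hk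
      exfalso
      unfold rgb rgp rga at hz
      split at hz
      · simp [kn_ne_ri] at hz
      · simp [kn_ne_ri] at hz
    · rw [cups_wmap]
      refine cups_mono hPM.2 fun z hz => ?_
      intro k hk
      rw [← kn_inj (H := HG G) hk]
      exact hz
  refine ⟨Run.closed hJ, ?_, fun h => not_two_O (h2.leq h), ?_, ?_⟩
  · intro h
    have h3 := h2.leq h
    rw [two_iff] at h3
    obtain ⟨w, h4, h5, h6, h7⟩ := h3
    have h8 := fgt_eq_nil h4
    subst h8
    exact h6 cups_nil
  · intro a b ha hb ha0 hb0 h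
    obtain ⟨K, h3, h4, h5⟩ := LEq.lift hJ h
    obtain ⟨A, B, rfl, rfl, rfl⟩ := fgt_eq_append h3
    obtain ⟨hA, hB⟩ := Run.split_closed h5 ha
    have h6 := (h4.res keeps_K hJ).forget
    rw [List.filter_nil, List.map_nil, eK, res_append isK hA, fgt_append] at h6
    have h7 := (h4.res keeps_R hJ).forget
    rw [List.filter_nil, List.map_nil, eR, res_append _ hA, fgt_append] at h7
    have h8 := hd.split (Run.closed (hA.res keeps_K)) (Run.closed (hB.res keeps_K)) h6
    have h9 := O_nonsplit (Run.closed (hA.res keeps_R)) (Run.closed (hB.res keeps_R)) h7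
    have c1 : fgt (res isK [] A) = [] → cups (fun z => isK z = false) A := fun h => cups_of_res_nil hA (fgt_eq_nil h)
    have c2 : fgt (res isK [] B) = [] → cups (fun z => isK z = false) B := fun h => cups_of_res_nil hB (fgt_eq_nil h)
    have c3 : fgt (res (fun z : TR (HG G) NY => !(isK z)) [] A) = [] → cups (fun z => isK z = true) A := fun h =>
      cups_mono (cups_of_res_nil hA (fgt_eq_nil h)) fun z hz => by simpa using hz
    have c4 : fgt (res (fun z : TR (HG G) NY => !(isK z)) [] B) = [] → cups (fun z => isK z = true) B := fun h =>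
      cups_mono (cups_of_res_nil hB (fgt_eq_nil h)) fun z hz => by simpa using hz
    rcases h8 with h8 | h8 <;> rcases h9 with h9 | h9
    · apply ha0
      rw [nil_of_cups hA fun z i hz => by
        have q1 : isK z = false := c1 h8 z i hz
        have q2 : isK z = true := c3 h9 z i hz
        rw [q1] at q2
        cases q2]
      rfl
    · exact D.no_split hA hB h4 (Or.inr ⟨c1 h8, c4 h9⟩)
    · exact D.no_split hA hB h4 (Or.inl ⟨c3 h9, c2 h8⟩)
    · apply hb0
      rw [nil_of_cups hB fun z i hz => by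
        have q1 : isK z = false := c2 h8 z i hz
        have q2 : isK z = true := c4 h9 z i hz
        rw [q1] at q2
        cases q2]
      rfl
  · intro S T hS hT h
    obtain ⟨K, h3, h4, h5⟩ := LEq.lift hJ h
    obtain ⟨x, y, S', T', rfl, rfl, rfl, rS, rT⟩ := clo_lift_append hS hT h5 h3
    have rST := rS.append rT
    have h6 := (h4.res keeps_K hJ).forget
    rw [List.filter_nil, List.map_nil, eK, res_clox isK rST, res_append isK rS] at h6
    have h7 := (h4.res keeps_R hJ).forget
    rw [List.filter_nil, List.map_nil, eR, res_clox _ rST, res_append _ rS] at h7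
    have hPM' : cups PM (clox x (S' ++ T')) := Eqv.cups subR_PM h4 hJ (by simp) hPMJ
    rw [clox, cups_cons_cup, cups_append, cups_append] at hPM'
    obtain ⟨pmx, ⟨pmS, pmT⟩, -⟩ := hPM'
    rcases TR.cases x with ⟨g, rfl⟩ | ⟨t, rfl⟩
    · -- the connecting strand belongs to the knot
      obtain ⟨g', rfl⟩ : ∃ g', y = kn g' := by
        have := col_of_isK rS
        rcases TR.cases y with h | ⟨t, rfl⟩
        · exact h
        · cases this
      have hg : g' = g := by
        have h8 := rS.prodK
        change g * 1 = g' * 1 at h8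
        rw [mul_one, mul_one] at h8
        exact h8.symm
      subst hg
      simp only [isK_kn, if_true, Bool.not_true, Bool.false_eq_true, if_false, fgt_clox, fgt_append] at h6 h7
      have tS : Tan (fgt (res isK [kn g'] S')) := by
        have h8 := (rS.res keeps_K).forget
        have h9 : Run [()] (fgt (res isK [kn g'] S')) [()] := h8
        exact h9
      have tT : Tan (fgt (res isK [kn g'] T')) := by
        have h8 := (rT.res keeps_K).forget
        have h9 : Run [()] (fgt (res isK [kn g'] T')) [()] := h8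
        exact h9
      have cS : Closed (fgt (res (fun z : TR (HG G) NY => !(isK z)) [kn g'] S')) := (rS.res keeps_R).forget
      have cT : Closed (fgt (res (fun z : TR (HG G) NY => !(isK z)) [kn g'] T')) := (rT.res keeps_R).forget
      have fin : ∀ {T : Wrd (TR (HG G) NY)}, Run [kn g'] T [kn g'] → cups (fun z => isK z = true) T →
          LEq (clo (fgt (res isK [kn g'] T))) O → LEq (clo (fgt T)) O := by
        intro T hT h1 h2
        rwa [res_all keeps_K hT (by simp) h1] at h2
      rcases O_nonsplit cS cT h7 with h8 | h8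
      · have h9 : cups (fun z => isK z = true) S' :=
          cups_mono (cups_of_res_nil rS (fgt_eq_nil h8)) fun z hz => by simpa using hz
        rcases hd.nonsum _ _ tS tT h6 with h10 | h10
        · left
          exact fin rS h9 h10
        · exfalso
          obtain ⟨φ, hφ, hφ2⟩ := im_of_trivial rT h10 pmx pmT
          exact D.no_sum φ hφ rS rT h4 (Or.inl h9) (Or.inr hφ2)
      · have h9 : cups (fun z => isK z = true) T' :=
          cups_mono (cups_of_res_nil rT (fgt_eq_nil h8)) fun z hz => by simpa using hz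
        rcases hd.nonsum _ _ tS tT h6 with h10 | h10
        · exfalso
          obtain ⟨φ, hφ, hφ2⟩ := im_of_trivial rS h10 pmx pmS
          exact D.no_sum φ hφ rS rT h4 (Or.inr hφ2) (Or.inl h9)
        · right
          exact fin rT h9 h10
    · -- the connecting strand belongs to the ring
      obtain ⟨t', rfl⟩ : ∃ t', y = ri t' := by
        have := col_of_isK rS
        rcases TR.cases y with ⟨g, rfl⟩ | h
        · cases this
        · exact h
      have ht : t' = t := Subsingleton.elim (α := Unit) _ _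
      subst ht
      simp only [isK_ri, if_true, Bool.not_false, Bool.false_eq_true, if_false, fgt_clox, fgt_append] at h6 h7
      have tS : Tan (fgt (res (fun z : TR (HG G) NY => !(isK z)) [ri t'] S')) := by
        have h8 := (rS.res keeps_R).forget
        have h9 : Run [()] (fgt (res (fun z : TR (HG G) NY => !(isK z)) [ri t'] S')) [()] := h8
        exact h9
      have tT : Tan (fgt (res (fun z : TR (HG G) NY => !(isK z)) [ri t'] T')) := by
        have h8 := (rT.res keeps_R).forget
        have h9 : Run [()] (fgt (res (fun z : TR (HG G) NY => !(isK z)) [ri t'] T')) [()] := h8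
        exact h9
      have cS : Closed (fgt (res isK [ri t'] S')) := (rS.res keeps_K).forget
      have cT : Closed (fgt (res isK [ri t'] T')) := (rT.res keeps_K).forget
      have h8 := hN _ _ tS tT h7.symm
      have fin : ∀ {T : Wrd (TR (HG G) NY)}, Run [ri t'] T [ri t'] → cups (fun z => isK z = false) T →
          LEq (clo (fgt (res (fun z : TR (HG G) NY => !(isK z)) [ri t'] T))) O → LEq (clo (fgt T)) O := by
        intro T hT h1 h2
        rwa [res_all keeps_R hT (by simp) (cups_mono h1 fun z hz => by simp [hz])] at h2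
      rcases hd.split cS cT h6 with h9 | h9
      · left
        exact fin rS (cups_of_res_nil rS (fgt_eq_nil h9)) h8.1
      · right
        exact fin rT (cups_of_res_nil rT (fgt_eq_nil h9)) h8.2

end RD

end

/-! ### Noncommuting labels -/

/-- a label up to inversion -/
def colS {H : Type} [Group H] (x : Cj H) : Col (Set (Cj H)) := ({x, x⁻¹} : Set (Cj H))

theorem colS_bar {H : Type} [Group H] (x : Cj H) : colS (bar x : Cj H) = colS x := by
  change ({x⁻¹, x⁻¹⁻¹} : Set (Cj H)) = {x, x⁻¹}
  rw [inv_inv, Set.pair_comm]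

/-- if the labels at all crossings commute then the labels up to inversion are constant along the components -/
theorem run_comm {H : Type} [Group H] {s t : List (Cj H)} {w : Wrd (Cj H)} (h : Run s w t)
    (hc : ∀ z ∈ crs s w, z.1 * z.2 = z.2 * z.1) :
    Run (s.map (colS (H := H))) (wmap (colS (H := H)) w) (t.map (colS (H := H))) := by
  induction h with
  | nil s => exact Run.nil _
  | @cons k i s t u w h h' ih =>
    rw [crs_cons, h.nx] at hc
    refine Run.cons ?_ (ih fun z hz => hc z (List.mem_append_right _ hz))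
    have hc' : ∀ z ∈ crL k i s, z.1 * z.2 = z.2 * z.1 := fun z hz => hc z (List.mem_append_left _ hz)
    clear hc ih h'
    induction h with
    | cup x s =>
      simp only [kmap_cup, List.map_cons, colS_bar]
      exact App.cup (X := Col (Set (Cj H))) _ _
    | cap x s =>
      simp only [kmap_cap, List.map_cons, colS_bar]
      exact App.cap (X := Col (Set (Cj H))) _ _
    | pos a b s =>
      have h1 : a * b = b * a := hc' (a, b) (by simp)
      have h2 : (act a b : Cj H) = b := by
        change a * b * a⁻¹ = b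
        rw [h1, mul_inv_cancel_right]
      rw [h2]
      exact App.pos (X := Col (Set (Cj H))) _ _ _
    | neg a b s =>
      have h1 : b * a = a * b := hc' (b, a) (by simp)
      have h2 : (act (bar b) a : Cj H) = a := by
        change b⁻¹ * a * b⁻¹⁻¹ = a
        rw [inv_inv, mul_assoc, ← h1, inv_mul_cancel_left]
      rw [h2]
      exact App.neg (X := Col (Set (Cj H))) _ _ _
    | skip x h ih => exact App.skip _ (ih hc')

/-- there is a crossing with noncommuting labels -/
theorem exists_noncomm {H : Type} [Group H] {w : Wrd (Cj H)} (h : Run [] w []) (h2 : ¬ Two (fgt w)) {x y : Cj H} {i j : ℕ}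
    (hx : (cup x, i) ∈ w) (hy : (cup y, j) ∈ w) (hxy : x * y ≠ y * x) :
    ∃ (u v : Wrd (Cj H)) (a b : List (Cj H)) (x y : Cj H), w = u ++ v ∧ Run [] u (a ++ x :: y :: b) ∧
      Run (a ++ x :: y :: b) v [] ∧ x * y ≠ y * x := by
  classical
  by_contra hcon
  have h3 : ∀ z ∈ crs [] w, z.1 * z.2 = z.2 * z.1 := by
    intro z hz
    by_contra hne
    have h4 : 1 ≤ cnt (fun a b : Cj H => decide (a * b ≠ b * a)) [] w := by
      rw [cnt, Nat.one_le_iff_ne_zero, Ne, List.countP_eq_zero]
      intro h5
      exact h5 z hz (by simpa using hne)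
    obtain ⟨u, v, a, b, x, y, e, r1, r2, h5⟩ := exists_crossing h h4
    refine hcon ⟨u, v, a, b, x, y, e, r1, r2, ?_⟩
    rcases h5 with h5 | h5
    · simpa using h5
    · have h6 : y * x ≠ x * y := by simpa using h5
      exact h6.symm
  have h4 := run_comm h h3
  have hw : w ≠ [] := by
    rintro rfl
    simp at hx
  obtain ⟨c, hc⟩ := label_of_not_two (w := wmap (colS (H := H)) w) h4
    (fun h => hw (wmap_eq_nil.1 h)) (by rw [fgt_wmap]; exact h2)
  rw [cups_wmap] at hc
  have h5 := (hc x i hx).trans (hc y j hy).symm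
  have h6 : y ∈ ({x, x⁻¹} : Set (Cj H)) := by
    have h7 : y ∈ ({y, y⁻¹} : Set (Cj H)) := by simp
    change ({x, x⁻¹} : Set (Cj H)) = {y, y⁻¹} at h5
    rw [h5]
    exact h7
  apply hxy
  rcases h6 with h6 | h6
  · rw [h6]
  · rw [Set.mem_singleton_iff] at h6
    rw [h6, mul_inv_cancel, inv_mul_cancel]

/-- the data of the ring exist -/
theorem exists_RD {d : Wrd Unit} (hd : Prime d) (h2 : ¬ Two d) (hA : NonAb d) :
    ∃ (G : Type) (_ : Group G) (D : RD G), fgt (D.u ++ D.v) = d ∧ cups (fun z : Cj (HG G) => pm1 z.1) (D.u ++ D.v) := by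
  obtain ⟨G, iG, w, rfl, hw, x, y, ⟨i, hx⟩, ⟨j, hy⟩, hxy⟩ := hA
  obtain ⟨o, ho, hro⟩ := exists_orientation hd.closed
  obtain ⟨z, hz1, hz2, hz3⟩ := Run.zip_closed hw hro ho.symm
  let sg : Or → Multiplicative ℤ := fun b => if b = true then Multiplicative.ofAdd 1 else Multiplicative.ofAdd (-1)
  have sgb : ∀ b : Or, sg (bar b) = (sg b)⁻¹ := by
    intro b
    cases b <;> rfl
  let f : RHom (Pr (Cj G) Or) (Cj (HG G)) :=
    { toFun := fun z => (sg z.2, z.1)
      map_bar := fun z => Prod.ext (sgb z.2) rfl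
      map_act := fun a z => by
        refine Prod.ext ?_ rfl
        change sg z.2 = sg a.2 * sg z.2 * (sg a.2)⁻¹
        rw [mul_comm (sg a.2), mul_inv_cancel_right] }
  have hW := hz3.map f
  have hcupW : ∀ {x : Cj G} {i : ℕ}, (cup x, i) ∈ w → ∃ n : Multiplicative ℤ, ((cup ((n, x) : HG G), i) : Ltr (Cj (HG G))) ∈ wmap f.toFun z := by
    intro x i hx
    rw [← hz1, wmap, List.mem_map] at hx
    obtain ⟨⟨k, i'⟩, h3, h4⟩ := hx
    simp only [Prod.mk.injEq] at h4
    obtain ⟨h4, rfl⟩ := h4
    obtain ⟨p, rfl, h5⟩ := kmap_eq_cup.1 h4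
    refine ⟨sg p.2, ?_⟩
    rw [wmap, List.mem_map]
    refine ⟨_, h3, ?_⟩
    simp only [Prod.mk.injEq, and_true, kmap_cup, cup.injEq]
    exact Prod.ext rfl h5
  obtain ⟨n, hx'⟩ := hcupW hx
  obtain ⟨m, hy'⟩ := hcupW hy
  have hfgt : fgt (wmap f.toFun z) = fgt w := by
    rw [fgt_wmap, ← hz1, fgt_wmap]
  have hPM : cups (fun z : Cj (HG G) => pm1 z.1) (wmap f.toFun z) := by
    rw [cups_wmap]
    intro p i _
    change pm1 (sg p.2)
    rcases hb : p.2 with _ | _
    · right; rfl
    · left; rfl
  obtain ⟨u, v, a, b, x', y', e, r1, r2, h3⟩ := exists_noncomm (H := HG G) hW (by rw [hfgt]; exact h2) hx' hy' (by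
    intro h4
    exact hxy (congrArg Prod.snd h4))
  rw [e] at hPM hfgt
  have hlev := Run.mem_of_cups subR_cj r1 (by simp) (cups_append.1 hPM).1
  have px : pm1 x'.1 := hlev x' (by simp)
  have py : pm1 y'.1 := hlev y' (by simp)
  refine ⟨G, iG, ⟨u, v, a, b, x', y', decide (x'.1 ≠ y'.1), r1, r2, h3, ?_⟩, hfgt, hPM⟩
  have h4 : x'.1 = y'.1 ∨ x'.1 * y'.1 = 1 := by
    rcases px with px | px <;> rcases py with py | py
    · left; rw [px, py]
    · right; rw [px, py]; rfl
    · right; rw [px, py]; rfl
    · left; rw [px, py]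
  by_cases h5 : x'.1 = y'.1
  · have h6 : decide (x'.1 ≠ y'.1) = false := by simp [h5]
    rw [h6]
    change x'.1 * (y'.1)⁻¹ = 1
    rw [h5, mul_inv_cancel]
  · have h6 : decide (x'.1 ≠ y'.1) = true := by simp [h5]
    rw [h6]
    exact h4.resolve_left h5

theorem ring_exists (hN : NoInv) {d : Wrd Unit} (hd : Prime d) (h2 : ¬ Two d) (hA : NonAb d) :
    ∃ J : Wrd (Col Bool), KD d J ∧ Prime (fgt J) ∧ Two (fgt J) ∧ ncr J ≤ ncr d + 4 := by
  obtain ⟨G, iG, D, e, hPM⟩ := exists_RD hd h2 hA
  have hJ := D.run_JN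
  have hfgt : fgt (wmap (colK (H := HG G) (Y := NY)).toFun (D.J (Y := NY) ())) = fgt (D.J (Y := NY) ()) := fgt_wmap _ _
  have hring : ((cup (ri ()), D.a.length) : Ltr (TR (HG G) NY)) ∈ D.J (Y := NY) () := by
    rw [RD.J, List.mem_append, List.mem_append]
    right; left
    rw [sh, List.mem_map]
    refine ⟨(cup (ri ()), 0), ?_, by simp⟩
    unfold rgb rgp rga
    split <;> simp
  have hu : ∃ (g : HG G) (i : ℕ), ((cup (kn g), i) : Ltr (TR (HG G) NY)) ∈ D.J (Y := NY) () := by
    have h3 : D.u ≠ [] := by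
      intro h3
      have h4 := D.hu
      rw [h3, run_nil] at h4
      have := congrArg List.length h4
      simp at this
    rcases hw : D.u with _ | ⟨⟨k, i⟩, w⟩
    · exact absurd hw h3
    · have h4 := D.hu
      rw [hw] at h4
      cases h4 with
      | cons h5 h6 =>
        have h7 := h5.le
        cases k with
        | cup z =>
          refine ⟨z, i, ?_⟩
          rw [RD.J, List.mem_append, hw]
          left
          simp [kt]
        | cap => simp at h7
        | pos => simp at h7
        | neg => simp at h7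
  have htwo : Two (fgt (D.J (Y := NY) ())) := by
    have h3 : Two (fgt (wmap (colK (H := HG G) (Y := NY)).toFun (D.J (Y := NY) ()))) := by
      refine ⟨_, rfl, hJ.map colK, ?_, ?_⟩
      · obtain ⟨g, i, hg⟩ := hu
        refine ⟨i, ?_⟩
        rw [wmap, List.mem_map]
        exact ⟨_, hg, rfl⟩
      · refine ⟨D.a.length, ?_⟩
        rw [wmap, List.mem_map]
        exact ⟨_, hring, rfl⟩
    rwa [hfgt] at h3
  refine ⟨wmap (colK (H := HG G) (Y := NY)).toFun (D.J (Y := NY) ()), ⟨hJ.map colK, ?_, ?_⟩, ?_, ?_, ?_⟩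
  · have h3 := res_wmap (colK (H := HG G) (Y := NY)) (fun x : Col Bool => x) hJ
    rw [List.map_nil] at h3
    rw [h3, fgt_wmap]
    have h4 := D.res_K
    change LEq d (fgt (res isK [] (D.J (Y := NY) ())))
    rw [h4, fgt_wmap, e]
    exact LEq.refl _
  · have h3 := res_wmap (colK (H := HG G) (Y := NY)) (fun x : Col Bool => !x) hJ
    rw [List.map_nil] at h3
    rw [h3, fgt_wmap]
    change LEq (fgt (res (fun z : TR (HG G) NY => !(isK z)) [] (D.J (Y := NY) ()))) O
    rw [D.res_R]
    exact LEq.refl _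
  · rw [hfgt]
    exact D.prime hN hd e hPM htwo
  · rw [hfgt]
    exact htwo
  · rw [ncr_wmap, RD.J, ncr_append, ncr_append, ncr_sh, ncr_rgb, ncr_wmap, ncr_wmap, ← e, ncr_fgt, ncr_append]
    omega

end Pool.Agent.KL
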