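import Pool.Agent.Lib_MP_7c418e_gt.JDef

/-!
# How many knots give the same link with a ring
-/

set_option autoImplicit false

universe u v

namespace Pool.Agent.KL

open Kind

/-- the crossing number of the knot is at most that of the link with the ring: lift the labels to a minimal diagram and delete the ring (`Run.crs_res`, `Run.length_crs` for the number of crossings) -/
theorem ring_cr {d : Wrd Unit} {J : Wrd (Col Bool)} (hJ : KD d J) : cr d ≤ cr (fgt J) := by
  obtain ⟨e, he, hn⟩ := cr_spec (fgt J)
  obtain ⟨v, h1, h2, h3⟩ := LEq.lift hJ.run he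
  have h4 := h2.res (keeps_col (fun x : Col Bool => x)) hJ.run
  have h5 : LEq d (fgt (res (fun x : Col Bool => x) [] v)) := hJ.knot.trans (Run.leq h4)
  rw [← hn, ← h1, ncr_fgt]
  refine (cr_le h5).trans ?_
  rw [ncr_fgt]
  have h6 := (h3.res (keeps_col (fun x : Col Bool => x))).length_crs
  have h7 := h3.crs_res (keeps_col (fun x : Col Bool => x))
  simp only [List.filter_nil] at h6 h7
  rw [← h6, h7, ← h3.length_crs]
  exact List.length_filter_le _ _

private theorem resL_kmir {p : Col Bool → Bool} {k : Kind (Col Bool)} {i : ℕ} {s t : List (Col Bool)} (h : App k i s t) :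
    resL p (kmir k) i s = mir (resL p k i s) := by
  induction h with
  | cup x s => simp only [kmir_cup, resL_cup]; split <;> rfl
  | cap x s => simp only [kmir_cap, resL_cap]; split <;> rfl
  | pos a b s => simp only [kmir_pos, resL_pos, resL_neg]; split <;> rfl
  | neg a b s => simp only [kmir_neg, resL_pos, resL_neg]; split <;> rfl
  | skip x h ih =>
    rw [resL_succ, resL_succ, ih]
    split
    · rw [mir_sh]
    · rfl

private theorem res_mir {p : Col Bool → Bool} {s t : List (Col Bool)} {w : Wrd (Col Bool)} (h : Run s w t) :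
    res p s (mir w) = mir (res p s w) := by
  induction h with
  | nil s => rfl
  | cons h _ ih =>
    rw [mir_cons, res_cons, res_cons, resL_kmir h, h.mir.nx, h.nx, ih, mir_append]

private def zf {κ μ : Type} (x : Col (κ × μ)) : Col κ := (show κ × μ from x).1
private def zg {κ μ : Type} (x : Col (κ × μ)) : Col μ := (show κ × μ from x).2
private def zp {κ μ : Type} (x : Col κ) (y : Col μ) : Col (κ × μ) := ((x, y) : κ × μ)
private theorem zf_zp {κ μ : Type} (x : Col κ) (y : Col μ) : zf (zp x y) = x := rfl
private theorem zg_zp {κ μ : Type} (x : Col κ) (y : Col μ) : zg (zp x y) = y := rfl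
private theorem zext {κ μ : Type} {x y : Col (κ × μ)} (h : zf x = zf y) (h' : zg x = zg y) : x = y := Prod.ext h h'
private def ng (x : Col Bool) : Col Bool := !(show Bool from x)

private theorem zipApp {κ μ : Type} {k : Kind (Col κ)} {i : ℕ} {s t : List (Col κ)} (h : App k i s t) :
    ∀ {k' : Kind (Col μ)} {s' t' : List (Col μ)} (_ : App k' i s' t') (_ : kmap (fun _ => ()) k = kmap (fun _ => ()) k')
    (r : List (Col (κ × μ))) (_ : r.map zf = s) (_ : r.map zg = s'),
    ∃ (k'' : Kind (Col (κ × μ))) (r' : List (Col (κ × μ))), kmap zf k'' = k ∧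
      kmap zg k'' = k' ∧ r'.map zf = t ∧ r'.map zg = t' ∧ App k'' i r r' := by
  induction h with
  | cup x s =>
    intro k' s' t' h' hk r hr hr'
    cases k' with
    | cup x' =>
      rw [app_cup] at h'
      subst h'
      exact ⟨cup (zp x x'), zp x x' :: zp x x' :: r, rfl, rfl,
        by rw [List.map_cons, List.map_cons, hr, zf_zp, bar_col], by rw [List.map_cons, List.map_cons, hr', zg_zp, bar_col],
        App.cup _ _⟩
    | cap => cases hk
    | pos => cases hk
    | neg => cases hk
  | cap x s =>
    intro k' s' t' h' hk r hr hr'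
    cases k' with
    | cup x' => cases hk
    | cap =>
      rcases r with _ | ⟨a, _ | ⟨b, r⟩⟩
      · cases hr
      · cases hr
      · rw [List.map_cons, List.map_cons] at hr hr'
        rw [List.cons.injEq, List.cons.injEq] at hr
        obtain ⟨h1, h2, h3⟩ := hr
        rw [← hr', app_cap] at h'
        obtain ⟨h4, h5⟩ := h'
        rw [bar_col] at h2 h4
        have hab : a = b := zext (h1.trans h2.symm) h4.symm
        subst hab
        exact ⟨cap, r, rfl, rfl, h3, h5.symm, App.cap a r⟩
    | pos => cases hk
    | neg => cases hk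
  | pos x y s =>
    intro k' s' t' h' hk r hr hr'
    cases k' with
    | cup x' => cases hk
    | cap => cases hk
    | pos =>
      rcases r with _ | ⟨a, _ | ⟨b, r⟩⟩
      · cases hr
      · cases hr
      · rw [List.map_cons, List.map_cons] at hr hr'
        rw [List.cons.injEq, List.cons.injEq] at hr
        obtain ⟨h1, h2, h3⟩ := hr
        rw [← hr', app_pos] at h'
        rw [act_col] at h' ⊢
        exact ⟨pos, b :: a :: r, rfl, rfl, by rw [List.map_cons, List.map_cons, h1, h2, h3], by rw [h', List.map_cons, List.map_cons],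
          App.pos a b r⟩
    | neg => cases hk
  | neg x y s =>
    intro k' s' t' h' hk r hr hr'
    cases k' with
    | cup x' => cases hk
    | cap => cases hk
    | pos => cases hk
    | neg =>
      rcases r with _ | ⟨a, _ | ⟨b, r⟩⟩
      · cases hr
      · cases hr
      · rw [List.map_cons, List.map_cons] at hr hr'
        rw [List.cons.injEq, List.cons.injEq] at hr
        obtain ⟨h1, h2, h3⟩ := hr
        rw [← hr', app_neg] at h'
        rw [act_col] at h' ⊢
        exact ⟨neg, b :: a :: r, rfl, rfl, by rw [List.map_cons, List.map_cons, h1, h2, h3], by rw [h', List.map_cons, List.map_cons],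
          App.neg a b r⟩
  | skip x h ih =>
    intro k' s' t' h' hk r hr hr'
    rcases r with _ | ⟨a, r⟩
    · cases hr
    · rw [List.map_cons] at hr hr'
      rw [List.cons.injEq] at hr
      rw [← hr', app_succ] at h'
      obtain ⟨t0, rfl, h0⟩ := h'
      obtain ⟨k'', r', h1, h2, h3, h4, h5⟩ := ih h0 hk r hr.2 rfl
      exact ⟨k'', a :: r', h1, h2, by rw [List.map_cons, h3, hr.1], by rw [List.map_cons, h4], App.skip a h5⟩

private theorem zipRun {κ μ : Type} {s t : List (Col κ)} {w : Wrd (Col κ)} (h : Run s w t) :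
    ∀ {s' t' : List (Col μ)} {w' : Wrd (Col μ)} (_ : Run s' w' t') (_ : fgt w = fgt w')
    (r : List (Col (κ × μ))) (_ : r.map zf = s) (_ : r.map zg = s'),
    ∃ (z : Wrd (Col (κ × μ))) (r' : List (Col (κ × μ))), wmap zf z = w ∧
      wmap zg z = w' ∧ r'.map zf = t ∧ r'.map zg = t' ∧ Run r z r' := by
  induction h with
  | nil s =>
    intro s' t' w' h' hw r hr hr'
    have h1 : w' = [] := fgt_eq_nil hw.symm
    subst h1
    rw [run_nil] at h'
    exact ⟨[], r, rfl, rfl, hr, hr'.trans h', Run.nil r⟩
  | @cons k i s t u w h _ ih =>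
    intro s' t' w' h' hw r hr hr'
    rcases w' with _ | ⟨⟨k', i'⟩, w'⟩
    · simp at hw
    · rw [fgt_cons, fgt_cons] at hw
      simp only [List.cons.injEq, Prod.mk.injEq] at hw
      obtain ⟨⟨h1, rfl⟩, h2⟩ := hw
      rw [run_cons] at h'
      obtain ⟨v, h4, h5⟩ := h'
      obtain ⟨k'', r', h6, h7, h8, h9, h10⟩ := zipApp h h4 h1 r hr hr'
      obtain ⟨z, r'', h11, h12, h13, h14, h15⟩ := ih h5 h2 r' h8 h9
      exact ⟨(k'', i) :: z, r'', by rw [wmap_cons, h6, h11], by rw [wmap_cons, h7, h12], h13, h14, Run.cons h10 h15⟩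

private theorem wmap_congr_cups {X Y : Type} {f g : X → Y} {w : Wrd X} (h : cups (fun x => f x = g x) w) : wmap f w = wmap g w := by
  induction w with
  | nil => rfl
  | cons l w ih =>
    obtain ⟨k, i⟩ := l
    rw [wmap_cons, wmap_cons, ih (cups_tail h)]
    cases k with
    | cup x => rw [kmap_cup, kmap_cup, h x i (by simp)]
    | cap => rfl
    | pos => rfl
    | neg => rfl

/-- normalised elements of the fibre -/
private structure NK (D d : Wrd Unit) (J : Wrd (Col Bool)) : Prop where
  ne : ¬ LEq d []
  ntwo : ¬ Two d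
  kd : KD d J
  fg : fgt J = D

private theorem nk_of {D d : Wrd Unit} {J : Wrd (Col Bool)} (h1 : Prime d) (h2 : ¬ Two d) (h3 : KD d J) (h4 : Same D (fgt J)) :
    ∃ d' J', NK D d' J' ∧ cls d = cls d' := by
  have key : ∀ {d : Wrd Unit} {J : Wrd (Col Bool)}, ¬ LEq d [] → ¬ Two d → KD d J → LEq D (fgt J) → ∃ J', NK D d J' := by
    intro d J h1 h2 h3 h4
    obtain ⟨v, h5, h6, h7⟩ := LEq.lift h3.run h4.symm
    refine ⟨v, h1, h2, ⟨h7, ?_, ?_⟩, h5⟩
    · exact h3.knot.trans (Run.leq (h6.res (keeps_col (fun x : Col Bool => x)) h3.run))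
    · exact (Run.leq (h6.res (keeps_col (fun x : Col Bool => !x)) h3.run)).symm.trans h3.ring
  rcases h4 with h4 | h4
  · obtain ⟨J', hJ'⟩ := key h1.ne_nil h2 h3 h4
    exact ⟨d, J', hJ', rfl⟩
  · suffices hs : ∃ J', NK D (mir d) J' by
      obtain ⟨J', hJ'⟩ := hs
      exact ⟨mir d, J', hJ', cls_eq.2 (Same.mir d)⟩
    refine key (d := mir d) (J := mir J) ?_ ?_ ?_ ?_
    · intro h
      have h' := h.mir
      rw [mir_mir] at h'
      exact h1.ne_nil h'
    · intro h
      have h' := h.mir
      rw [mir_mir] at h'
      exact h2 h'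
    · refine ⟨h3.run.mir, ?_, ?_⟩
      · rw [res_mir h3.run, fgt_mir]
        exact h3.knot.mir
      · rw [res_mir h3.run, fgt_mir]
        exact h3.ring.mir
    · rw [fgt_mir]
      exact h4

private theorem res_ne_nil_true {d : Wrd Unit} {J : Wrd (Col Bool)} (h : KD d J) (hd : ¬ LEq d []) :
    res (fun x : Col Bool => x) [] J ≠ [] := by
  intro h0
  have := h.knot
  rw [h0] at this
  exact hd this

private theorem res_ne_nil_false {d : Wrd Unit} {J : Wrd (Col Bool)} (h : KD d J) :
    res (fun x : Col Bool => !x) [] J ≠ [] := by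
  intro h0
  have h1 := h.ring
  rw [h0] at h1
  have h2 := nil_leq h1.symm
  exact absurd h2 (by simp [O])

private theorem nk_cmp {D d e : Wrd Unit} {J K : Wrd (Col Bool)} (hJ : NK D d J) (hK : NK D e K) :
    K = J ∨ K = wmap ng J := by
  obtain ⟨Z, r', hZ1, hZ2, h1, -, hZ⟩ := zipRun hJ.kd.run hK.kd.run (hJ.fg.trans hK.fg.symm) [] rfl rfl
  have h2 : r' = [] := List.map_eq_nil_iff.1 h1
  subst h2
  let f1 : RHom (Col (Bool × Bool)) (Col Bool) := ⟨zf, fun _ => rfl, fun _ _ => rfl⟩
  -- the part with first label true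
  have hA : wmap zf (res (fun x : Col (Bool × Bool) => (zf x : Bool)) [] Z) = res (fun x : Col Bool => x) [] J := by
    have := res_wmap f1 (fun x : Col Bool => x) hZ
    rw [← hZ1]
    exact this.symm
  have hB : wmap zf (res (fun x : Col (Bool × Bool) => !(zf x : Bool)) [] Z) = res (fun x : Col Bool => !x) [] J := by
    have := res_wmap f1 (fun x : Col Bool => !x) hZ
    rw [← hZ1]
    exact this.symm
  generalize hAdef : res (fun x : Col (Bool × Bool) => (zf x : Bool)) [] Z = A at hA
  generalize hBdef : res (fun x : Col (Bool × Bool) => !(zf x : Bool)) [] Z = B at hB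
  have hAr : Run [] A [] := by
    rw [← hAdef]
    exact hZ.res (keeps_col _)
  have hBr : Run [] B [] := by
    rw [← hBdef]
    exact hZ.res (keeps_col _)
  have hAf : LEq d (fgt A) := by
    have := hJ.kd.knot
    rw [← hA, fgt_wmap] at this
    exact this
  have hBf : LEq (fgt B) O := by
    have := hJ.kd.ring
    rw [← hB, fgt_wmap] at this
    exact this
  have hA0 : A ≠ [] := by
    intro h0
    apply hJ.ne
    rw [h0] at hAf
    exact hAf
  obtain ⟨c, hc⟩ : ∃ c : Col (Bool × Bool), cups (fun x : Col (Bool × Bool) => x = c) A :=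
    label_of_not_two hAr hA0 (fun h => hJ.ntwo (Two.leq hAf.symm h))
  obtain ⟨c', hc'⟩ : ∃ c : Col (Bool × Bool), cups (fun x : Col (Bool × Bool) => x = c) B := O_label hBr hBf
  have hZc1 : ∀ x i, ((cup x, i) : Ltr (Col (Bool × Bool))) ∈ Z → (zf x : Bool) = true → x = c := by
    intro x i hx hx1
    obtain ⟨j, hj⟩ := mem_res_cup (p := fun x : Col (Bool × Bool) => (zf x : Bool)) hZ hx hx1
    rw [hAdef] at hj
    exact hc x j hj
  have hZc2 : ∀ x i, ((cup x, i) : Ltr (Col (Bool × Bool))) ∈ Z → (zf x : Bool) = false → x = c' := by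
    intro x i hx hx1
    obtain ⟨j, hj⟩ := mem_res_cup (p := fun x : Col (Bool × Bool) => !(zf x : Bool)) hZ hx (by rw [hx1]; rfl)
    rw [hBdef] at hj
    exact hc' x j hj
  -- both labels are used in K
  have hK1 : ¬ cups (fun x : Col Bool => x = true) K := fun h =>
    res_ne_nil_false hK.kd (res_none (keeps_col _) hK.kd.run (by simp) (cups_mono h fun x hx => by rw [hx]; rfl))
  have hK2 : ¬ cups (fun x : Col Bool => x = false) K := fun h =>
    res_ne_nil_true hK.kd hK.ne (res_none (keeps_col _) hK.kd.run (by simp) (cups_mono h fun x hx => by rw [hx]))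
  have hcc : zg c ≠ zg c' := by
    intro hcc
    have h3 : cups (fun x : Col Bool => x = zg c) K := by
      rw [← hZ2, cups_wmap]
      intro x i hx
      rcases Bool.eq_false_or_eq_true (zf x) with hx1 | hx1
      · rw [hZc1 x i hx hx1]
      · rw [hZc2 x i hx hx1, hcc]
    rcases Bool.eq_false_or_eq_true (zg c) with h4 | h4
    · rw [h4] at h3
      exact hK1 h3
    · rw [h4] at h3
      exact hK2 h3
  have hcc' : zg c' = ng (zg c) := by
    have key : ∀ a b : Bool, a ≠ b → b = !a := by decide
    exact key _ _ hcc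
  rcases Bool.eq_false_or_eq_true (zg c) with h4 | h4
  · left
    rw [← hZ1, ← hZ2]
    apply wmap_congr_cups
    intro x i hx
    rcases Bool.eq_false_or_eq_true (zf x) with hx1 | hx1
    · rw [hx1, hZc1 x i hx hx1, h4]
    · rw [hx1, hZc2 x i hx hx1, hcc', h4]
      rfl
  · right
    rw [← hZ1, ← hZ2]
    have h5 : wmap ng (wmap zf Z) = wmap (fun x : Col (Bool × Bool) => ng (zf x)) Z := by
      simp only [wmap, List.map_map]
      apply List.map_congr_left
      rintro ⟨k, i⟩ -
      cases k <;> rfl
    rw [h5]
    apply wmap_congr_cups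
    intro x i hx
    rcases Bool.eq_false_or_eq_true (zf x) with hx1 | hx1
    · rw [hx1, hZc1 x i hx hx1, h4]
      rfl
    · rw [hx1, hZc2 x i hx hx1, hcc', h4]

/-- a link with a ring comes from at most two knots (modulo mirror images). Paper proof: as in `join_fib` (see `JFib.lean`), for `Same D (fgt J)` lift the labels of `J` (or of `mir J`) to `D`, this gives `J'` with
`fgt J' = D` and `KD d J'` or `KD (mir d) J'`; `cls (mir d) = cls d`. Let `J'`, `K'` be two such labelled words with `fgt = D` for the knots `d`, `e`, zip them: `Z : Wrd (Col (Bool × Bool))`.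
The part of `Z` with first label `true` is a diagram of `d`, which has not two components, so its second labels are constant (`label_of_not_two`); the part with first label `false` is a
diagram of the trivial knot, so its second labels are constant (`O_label`). If the labels were equal or exchanged: the labels of `K'` are those of `J'` or exchanged, since
both labels `true`, `false` are used in `K'`. In the first case `LEq d e`. So fix one element of the set, `J'` for `d`; every other element has `cls e = cls d`
or comes from the exchanged labels, and then its class is `cls (fgt (res (!·) [] J'))`. -/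
theorem ring_fib (D : Wrd Unit) : Set.encard {C : Set (Wrd Unit) | ∃ d J, Prime d ∧ ¬ Two d ∧ KD d J ∧ Same D (fgt J) ∧
    C = cls d} ≤ 2 := by
  set S : Set (Set (Wrd Unit)) := {C | ∃ d J, Prime d ∧ ¬ Two d ∧ KD d J ∧ Same D (fgt J) ∧ C = cls d} with hS
  rcases S.eq_empty_or_nonempty with h0 | ⟨C₀, d, J, h1, h2, h3, h4, -⟩
  · rw [h0, Set.encard_empty]
    exact bot_le
  · obtain ⟨d', J', hJ', -⟩ := nk_of h1 h2 h3 h4
    have hsub : S ⊆ {cls d', cls (fgt (res (fun x : Col Bool => !x) [] J'))} := by
      rintro C ⟨e, K, g1, g2, g3, g4, rfl⟩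
      obtain ⟨e', K', hK', he⟩ := nk_of g1 g2 g3 g4
      rw [he]
      rcases nk_cmp hJ' hK' with h | h
      · left
        rw [cls_eq]
        left
        have := hK'.kd.knot
        rw [h] at this
        exact this.trans hJ'.kd.knot.symm
      · right
        rw [Set.mem_singleton_iff, cls_eq]
        left
        have g5 := hK'.kd.knot
        let f : RHom (Col Bool) (Col Bool) := ⟨ng, fun _ => rfl, fun _ _ => rfl⟩
        have g6 : res (fun x : Col Bool => x) [] (wmap ng J') = wmap ng (res (fun x : Col Bool => !x) [] J') :=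
          res_wmap f (fun x : Col Bool => x) hJ'.kd.run
        rw [h, g6, fgt_wmap] at g5
        exact g5
    refine (Set.encard_le_encard hsub).trans ((Set.encard_insert_le _ _).trans ?_)
    rw [Set.encard_singleton]
    norm_num

end Pool.Agent.KL
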