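import Mathlib

/-!
# Sequences which are supermultiplicative up to a polynomial factor and a shift
-/

set_option autoImplicit false

namespace Pool.Agent.KL

open Filter Topology ENNReal

/-- exponentials beat quadratic polynomials -/
theorem lim_poly {ρ : ℝ} (hρ : 1 < ρ) (C : ℝ) :
    ∀ᶠ n : ℕ in atTop, C * ((n : ℝ) + 8) ^ 2 ≤ ρ ^ n := by
  have h1 := tendsto_pow_const_div_const_pow_of_one_lt 2 hρ
  have h2 : (0 : ℝ) < 1 / (81 * (|C| + 1)) := by positivity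
  filter_upwards [h1.eventually (gt_mem_nhds h2), eventually_ge_atTop 1] with n hn hn1
  have hρn : 0 < ρ ^ n := by positivity
  have hn1' : (1 : ℝ) ≤ n := by exact_mod_cast hn1
  rw [div_lt_iff₀ hρn, div_mul_eq_mul_div, one_mul, lt_div_iff₀ (by positivity)] at hn
  have h4 : ((n : ℝ) + 8) ^ 2 ≤ 81 * (n : ℝ) ^ 2 := by nlinarith
  have h5 : C * ((n : ℝ) + 8) ^ 2 ≤ |C| * (81 * (n : ℝ) ^ 2) :=
    (mul_le_mul_of_nonneg_right (le_abs_self C) (by positivity)).trans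
      (mul_le_mul_of_nonneg_left h4 (abs_nonneg C))
  nlinarith [sq_nonneg (n : ℝ)]

/-- equal blocks -/
theorem lim_block {b : ℕ → ℝ≥0∞}
    (hb : ∀ m n, b m * b n ≤ 2 * ((m + n : ℕ) : ℝ≥0∞) ^ 2 * b (m + n)) (m : ℕ) (hm : 1 ≤ m) :
    ∀ q : ℕ, 1 ≤ q → b m ^ q * ((q ^ 2 * (72 * m ^ 2) : ℕ) : ℝ≥0∞) ≤
      ((72 * m ^ 2 : ℕ) : ℝ≥0∞) ^ q * b (q * m) := by
  intro q
  induction q using Nat.strong_induction_on with
  | _ q ih =>
    intro hq
    rcases Nat.eq_or_lt_of_le hq with h1 | h1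
    · subst h1
      simp only [pow_one, one_pow, one_mul]
      exact le_of_eq (mul_comm _ _)
    · obtain ⟨q1, q2, hq12, hq1, hq2, h3, h4⟩ : ∃ q1 q2 : ℕ, q1 + q2 = q ∧ 1 ≤ q1 ∧ 1 ≤ q2 ∧
          q ≤ 3 * q1 ∧ q ≤ 2 * q2 := ⟨q / 2, q - q / 2, by omega, by omega, by omega, by omega,
            by omega⟩
      have i1 := ih q1 (by omega) hq1
      have i2 := ih q2 (by omega) hq2
      have i3 := mul_le_mul' i1 i2
      have i4 := hb (q1 * m) (q2 * m)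
      have e1 : q1 * m + q2 * m = q * m := by rw [← add_mul, hq12]
      rw [e1] at i4
      have hc0 : ((2 * (q * m) ^ 2 : ℕ) : ℝ≥0∞) ≠ 0 := by
        rw [Nat.cast_ne_zero]
        positivity
      have hct : ((2 * (q * m) ^ 2 : ℕ) : ℝ≥0∞) ≠ ⊤ := ENNReal.natCast_ne_top _
      rw [← ENNReal.mul_le_mul_iff_right hc0 hct]
      have hnat : 2 * (q * m) ^ 2 * (q ^ 2 * (72 * m ^ 2)) ≤
          q1 ^ 2 * (72 * m ^ 2) * (q2 ^ 2 * (72 * m ^ 2)) := by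
        have e2 : q * q ≤ 6 * (q1 * q2) := by
          have := Nat.mul_le_mul h3 h4
          calc q * q ≤ 3 * q1 * (2 * q2) := this
            _ = 6 * (q1 * q2) := by ring
        have e3 : (q * q) * (q * q) ≤ (6 * (q1 * q2)) * (6 * (q1 * q2)) := Nat.mul_le_mul e2 e2
        calc 2 * (q * m) ^ 2 * (q ^ 2 * (72 * m ^ 2))
            = 144 * m ^ 4 * ((q * q) * (q * q)) := by ring
          _ ≤ 144 * m ^ 4 * ((6 * (q1 * q2)) * (6 * (q1 * q2))) := Nat.mul_le_mul_left _ e3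
          _ = q1 ^ 2 * (72 * m ^ 2) * (q2 ^ 2 * (72 * m ^ 2)) := by ring
      calc ((2 * (q * m) ^ 2 : ℕ) : ℝ≥0∞) * (b m ^ q * ((q ^ 2 * (72 * m ^ 2) : ℕ) : ℝ≥0∞))
          = b m ^ q * ((2 * (q * m) ^ 2 * (q ^ 2 * (72 * m ^ 2)) : ℕ) : ℝ≥0∞) := by
            rw [Nat.cast_mul (2 * (q * m) ^ 2)]
            ring
        _ ≤ b m ^ q * ((q1 ^ 2 * (72 * m ^ 2) * (q2 ^ 2 * (72 * m ^ 2)) : ℕ) : ℝ≥0∞) := by
            have h5 : ((2 * (q * m) ^ 2 * (q ^ 2 * (72 * m ^ 2)) : ℕ) : ℝ≥0∞) ≤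
                ((q1 ^ 2 * (72 * m ^ 2) * (q2 ^ 2 * (72 * m ^ 2)) : ℕ) : ℝ≥0∞) := by
              exact_mod_cast hnat
            exact mul_le_mul' le_rfl h5
        _ = b m ^ q1 * ((q1 ^ 2 * (72 * m ^ 2) : ℕ) : ℝ≥0∞) *
              (b m ^ q2 * ((q2 ^ 2 * (72 * m ^ 2) : ℕ) : ℝ≥0∞)) := by
            rw [Nat.cast_mul (q1 ^ 2 * (72 * m ^ 2)), ← hq12, pow_add]
            ring
        _ ≤ ((72 * m ^ 2 : ℕ) : ℝ≥0∞) ^ q1 * b (q1 * m) *
              (((72 * m ^ 2 : ℕ) : ℝ≥0∞) ^ q2 * b (q2 * m)) := i3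
        _ = ((72 * m ^ 2 : ℕ) : ℝ≥0∞) ^ q * (b (q1 * m) * b (q2 * m)) := by
            rw [← hq12, pow_add]
            ring
        _ ≤ ((72 * m ^ 2 : ℕ) : ℝ≥0∞) ^ q * (2 * ((q * m : ℕ) : ℝ≥0∞) ^ 2 * b (q * m)) :=
            mul_le_mul' le_rfl i4
        _ = ((2 * (q * m) ^ 2 : ℕ) : ℝ≥0∞) * (((72 * m ^ 2 : ℕ) : ℝ≥0∞) ^ q * b (q * m)) := by
            push_cast
            ring

/-- the main step: if `t ^ n ≤ a n` for infinitely many `n` then `s ^ n ≤ a n` for all large `n`,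
for every `s < t` -/
theorem lim_core {a : ℕ → ℝ≥0∞} (h01 : ∀ n, a n = 0 ∨ 1 ≤ a n)
    (h : ∀ m n, a m * a n ≤ 2 * ((m + n + 8 : ℕ) : ℝ≥0∞) ^ 2 * a (m + n + 8)) (h2 : 1 ≤ a 2)
    (h5 : 1 ≤ a 5) {s t : NNReal} (hs : 0 < s) (hst : s < t)
    (hf : ∃ᶠ n : ℕ in atTop, (t : ℝ≥0∞) ^ n ≤ a n) :
    ∀ᶠ n : ℕ in atTop, (s : ℝ≥0∞) ^ n ≤ a n := by
  classical
  obtain ⟨u, hsu, hut⟩ := exists_between hst
  have hu : 0 < u := hs.trans hsu
  -- the shifted sequence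
  let b : ℕ → ℝ≥0∞ := fun n => if n < 8 then 0 else a (n - 8)
  have hb0 : ∀ n, n < 8 → b n = 0 := fun n hn => if_pos hn
  have hb1 : ∀ n, b (n + 8) = a n := by
    intro n
    have h1 : ¬ (n + 8 < 8) := by omega
    have h3 : b (n + 8) = a (n + 8 - 8) := if_neg h1
    rw [h3, Nat.add_sub_cancel]
  have hb : ∀ m n, b m * b n ≤ 2 * ((m + n : ℕ) : ℝ≥0∞) ^ 2 * b (m + n) := by
    intro m n
    by_cases hm : m < 8
    · rw [hb0 m hm, zero_mul]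
      exact zero_le
    · by_cases hn : n < 8
      · rw [hb0 n hn, mul_zero]
        exact zero_le
      · obtain ⟨m', rfl⟩ : ∃ m', m = m' + 8 := ⟨m - 8, by omega⟩
        obtain ⟨n', rfl⟩ : ∃ n', n = n' + 8 := ⟨n - 8, by omega⟩
        have e1 : m' + 8 + (n' + 8) = (m' + n' + 8) + 8 := by ring
        rw [hb1, hb1, e1, hb1]
        refine (h m' n').trans ?_
        refine mul_le_mul' (mul_le_mul' le_rfl (pow_le_pow_left' ?_ 2)) le_rfl
        exact_mod_cast (by omega : m' + n' + 8 ≤ m' + n' + 8 + 8)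
  have hb01 : ∀ n, b n = 0 ∨ 1 ≤ b n := by
    intro n
    by_cases hn : n < 8
    · exact Or.inl (hb0 n hn)
    · obtain ⟨n', rfl⟩ : ∃ n', n = n' + 8 := ⟨n - 8, by omega⟩
      rw [hb1]
      exact h01 n'
  have hpos : ∀ m n, 1 ≤ b m → 1 ≤ b n → 1 ≤ b (m + n) := by
    intro m n hm hn
    rcases hb01 (m + n) with h1 | h1
    · exfalso
      have h3 := hb m n
      rw [h1, mul_zero] at h3
      have h4 : (1 : ℝ≥0∞) ≤ b m * b n := one_le_mul hm hn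
      exact absurd (h4.trans h3) (by norm_num)
    · exact h1
  have hb10 : 1 ≤ b 10 := by
    have := hb1 2
    norm_num at this
    rw [this]
    exact h2
  have hb13 : 1 ≤ b 13 := by
    have := hb1 5
    norm_num at this
    rw [this]
    exact h5
  have hmul10 : ∀ i, 1 ≤ i → 1 ≤ b (10 * i) := by
    intro i hi
    induction i, hi using Nat.le_induction with
    | base => simpa using hb10
    | succ i hi ih =>
      have e1 : 10 * (i + 1) = 10 * i + 10 := by ring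
      rw [e1]
      exact hpos _ _ ih hb10
  have hadd13 : ∀ j n, 1 ≤ b n → 1 ≤ b (n + 13 * j) := by
    intro j
    induction j with
    | zero => intro n hn; simpa using hn
    | succ j ih =>
      intro n hn
      have e1 : n + 13 * (j + 1) = (n + 13 * j) + 13 := by ring
      rw [e1]
      exact hpos _ _ (ih n hn) hb13
  have hlarge : ∀ n, 130 ≤ n → 1 ≤ b n := by
    intro n hn
    obtain ⟨i, j, hi, hij⟩ : ∃ i j, 1 ≤ i ∧ n = 10 * i + 13 * j :=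
      ⟨(n - 13 * (7 * n % 10)) / 10, 7 * n % 10, by omega, by omega⟩
    rw [hij]
    exact hadd13 j _ (hmul10 i hi)
  -- a good block
  have hE1 : ∀ᶠ n : ℕ in atTop, 72 * ((n : ℝ) + 8) ^ 2 * (u : ℝ) ^ (n + 8) ≤ (t : ℝ) ^ n := by
    have hρ : (1 : ℝ) < t / u := by
      rw [one_lt_div (by exact_mod_cast hu)]
      exact_mod_cast hut
    filter_upwards [lim_poly hρ (72 * (u : ℝ) ^ 8)] with n hn
    have hun : (0 : ℝ) < (u : ℝ) ^ n := pow_pos (by exact_mod_cast hu) n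
    rw [div_pow, le_div_iff₀ hun] at hn
    calc 72 * ((n : ℝ) + 8) ^ 2 * (u : ℝ) ^ (n + 8)
        = 72 * (u : ℝ) ^ 8 * ((n : ℝ) + 8) ^ 2 * (u : ℝ) ^ n := by ring
      _ ≤ (t : ℝ) ^ n := hn
  obtain ⟨n₀, hn₀, hn₀'⟩ := (hf.and_eventually hE1).exists
  set m := n₀ + 8 with hm
  have hm1 : 1 ≤ m := by omega
  have hbm : ((72 * m ^ 2 : ℕ) : ℝ≥0∞) * (u : ℝ≥0∞) ^ m ≤ b m := by
    have h1 : (72 * (m : NNReal) ^ 2) * u ^ m ≤ t ^ n₀ := by
      rw [← NNReal.coe_le_coe]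
      push_cast
      rw [hm]
      push_cast
      exact hn₀'
    rw [hb1]
    refine le_trans ?_ hn₀
    have h3 : (((72 * (m : NNReal) ^ 2) * u ^ m : NNReal) : ℝ≥0∞) ≤ ((t ^ n₀ : NNReal) : ℝ≥0∞) := by
      exact_mod_cast h1
    push_cast at h3 ⊢
    exact h3
  have hq : ∀ q, 1 ≤ q → (u : ℝ≥0∞) ^ (q * m) ≤ b (q * m) := by
    intro q hq
    have h1 := lim_block hb m hm1 q hq
    have hA0 : ((72 * m ^ 2 : ℕ) : ℝ≥0∞) ^ q ≠ 0 := by
      apply pow_ne_zero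
      rw [Nat.cast_ne_zero]
      positivity
    have hAt : ((72 * m ^ 2 : ℕ) : ℝ≥0∞) ^ q ≠ ⊤ := ENNReal.pow_ne_top (ENNReal.natCast_ne_top _)
    rw [← ENNReal.mul_le_mul_iff_right hA0 hAt]
    calc ((72 * m ^ 2 : ℕ) : ℝ≥0∞) ^ q * (u : ℝ≥0∞) ^ (q * m)
        = (((72 * m ^ 2 : ℕ) : ℝ≥0∞) * (u : ℝ≥0∞) ^ m) ^ q := by
          rw [mul_pow, ← pow_mul, mul_comm m q]
      _ ≤ b m ^ q := pow_le_pow_left' hbm q
      _ ≤ b m ^ q * ((q ^ 2 * (72 * m ^ 2) : ℕ) : ℝ≥0∞) := by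
          refine le_mul_of_one_le_right zero_le ?_
          have h3 : 1 ≤ q ^ 2 * (72 * m ^ 2) := Nat.one_le_iff_ne_zero.2 (by positivity)
          exact_mod_cast h3
      _ ≤ _ := h1
  -- the end
  set K : ℝ := (max 1 (u : ℝ)) ^ (130 + m) with hK
  have hK1 : 1 ≤ K := one_le_pow₀ (le_max_left _ _)
  have hE2 : ∀ᶠ n : ℕ in atTop,
      2 * K * ((n : ℝ) + 8) ^ 2 * (s : ℝ) ^ n ≤ (u : ℝ) ^ (n + 8) := by
    have hρ : (1 : ℝ) < u / s := by
      rw [one_lt_div (by exact_mod_cast hs)]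
      exact_mod_cast hsu
    filter_upwards [lim_poly hρ (2 * K / (u : ℝ) ^ 8)] with n hn
    have hsn : (0 : ℝ) < (s : ℝ) ^ n := pow_pos (by exact_mod_cast hs) n
    have hu8 : (0 : ℝ) < (u : ℝ) ^ 8 := pow_pos (by exact_mod_cast hu) 8
    rw [div_pow, le_div_iff₀ hsn, div_mul_eq_mul_div, div_mul_eq_mul_div, div_le_iff₀ hu8] at hn
    rw [pow_add]
    exact hn
  filter_upwards [hE2, eventually_ge_atTop (130 + m)] with n hn hnm
  obtain ⟨q, r, hq1, hr, hr', hN⟩ : ∃ q r, 1 ≤ q ∧ 130 ≤ r ∧ r ≤ 130 + m ∧ n + 8 = q * m + r := by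
    refine ⟨(n + 8 - 130) / m, (n + 8 - 130) % m + 130, ?_, by omega, ?_, ?_⟩
    · rw [Nat.one_le_div_iff (by omega)]
      omega
    · have := Nat.mod_lt (n + 8 - 130) (show 0 < m by omega)
      omega
    · have := Nat.div_add_mod (n + 8 - 130) m
      rw [mul_comm] at this
      omega
  have h1 := hb (q * m) r
  rw [← hN, hb1] at h1
  have h3 : (u : ℝ≥0∞) ^ (q * m) ≤ 2 * ((n + 8 : ℕ) : ℝ≥0∞) ^ 2 * a n :=
    ((hq q hq1).trans (le_mul_of_one_le_right zero_le (hlarge r hr))).trans h1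
  -- real inequality for the powers
  have hcmp : 2 * ((n : ℝ) + 8) ^ 2 * (s : ℝ) ^ n ≤ (u : ℝ) ^ (q * m) := by
    have hur : (u : ℝ) ^ r ≤ K := by
      calc (u : ℝ) ^ r ≤ (max 1 (u : ℝ)) ^ r := pow_le_pow_left₀ (by positivity) (le_max_right _ _) r
        _ ≤ K := pow_le_pow_right₀ (le_max_left _ _) hr'
    have e1 : (u : ℝ) ^ (n + 8) ≤ (u : ℝ) ^ (q * m) * K := by
      rw [hN, pow_add]
      exact mul_le_mul_of_nonneg_left hur (by positivity)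
    have e2 : K * (2 * ((n : ℝ) + 8) ^ 2 * (s : ℝ) ^ n) ≤ K * (u : ℝ) ^ (q * m) := by
      calc K * (2 * ((n : ℝ) + 8) ^ 2 * (s : ℝ) ^ n)
          = 2 * K * ((n : ℝ) + 8) ^ 2 * (s : ℝ) ^ n := by ring
        _ ≤ (u : ℝ) ^ (n + 8) := hn
        _ ≤ (u : ℝ) ^ (q * m) * K := e1
        _ = K * (u : ℝ) ^ (q * m) := mul_comm _ _
    exact le_of_mul_le_mul_left e2 (by linarith)
  have hc0 : 2 * ((n + 8 : ℕ) : ℝ≥0∞) ^ 2 ≠ 0 := by
    refine mul_ne_zero (by norm_num) (pow_ne_zero _ ?_)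
    rw [Nat.cast_ne_zero]
    omega
  have hct : 2 * ((n + 8 : ℕ) : ℝ≥0∞) ^ 2 ≠ ⊤ :=
    ENNReal.mul_ne_top (by norm_num) (ENNReal.pow_ne_top (ENNReal.natCast_ne_top _))
  rw [← ENNReal.mul_le_mul_iff_right hc0 hct]
  refine le_trans ?_ h3
  have h6 : (2 * ((n : NNReal) + 8) ^ 2 * s ^ n : NNReal) ≤ u ^ (q * m) := by
    rw [← NNReal.coe_le_coe]
    push_cast
    exact hcmp
  have h7 : ((2 * ((n : NNReal) + 8) ^ 2 * s ^ n : NNReal) : ℝ≥0∞) ≤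
      ((u ^ (q * m) : NNReal) : ℝ≥0∞) := by exact_mod_cast h6
  push_cast at h7 ⊢
  exact h7

/-- growth rates exist. Paper proof. Let `b n = a (n - 8)` for `n ≥ 8` (and only such `n` are used below); then `b m * b n ≤ 2 * (m + n - 8) ^ 2 * b (m + n) ≤
2 * (m + n) ^ 2 * b (m + n)`, and `b 10 ≥ 1`, `b 13 ≥ 1`, so `b n ≥ 1` for all large `n` (all large `n` are of the form `10 * i + 13 * j` with `i + j ≥ 1`, and `b m, b n > 0`
implies `b (m + n) > 0`; positive values are `≥ 1`). Fix `m ≥ 8` with `b m ≥ 1`. Blocks of equal length: for all `q ≥ 1`,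
`b m ^ q ≤ A ^ q * b (q * m)` with `A = 2 * m ^ 2 * (16 / 3) ^ 4` or any similar constant `A = c * m ^ 2`: prove by strong induction on `q ≥ 1` the stronger statement
`b m ^ q * B * q ^ 4 ≤ A ^ q * b (q * m)` (with `A = B`), splitting `q = q₁ + q₂` with `q₁ = q / 2`, `q₂ = q - q₁`, so `q₁ * q₂ ≥ 3 / 16 * q ^ 2` for `q ≥ 2`; the loss
in one merge is `2 * (q * m) ^ 2`, and `q₁ ^ 4 * q₂ ^ 4` is much larger than `q ^ 2 * q ^ 4` up to a constant. For large `n` write `n = q * m + r` with `r` in a fixed bounded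
range `[R, R + m)` in which all `b r ≥ 1`; then `b n ≥ b (q * m) / (2 * n ^ 2)`, hence `liminf b n ^ (1 / n) ≥ (b m / A) ^ (1 / m)`, and
`A ^ (1 / m) = (c * m ^ 2) ^ (1 / m) → 1` as `m → ∞`, so `liminf ≥ limsup` (also when the values are infinite). Finally go back from `b` to `a`: `a n = b (n + 8)` and
`(n + 8) / n → 1`. Feel free to organise the proof differently. -/
theorem growth_exists (a : ℕ → ℝ≥0∞) (h01 : ∀ n, a n = 0 ∨ 1 ≤ a n)
    (h : ∀ m n, a m * a n ≤ 2 * ((m + n + 8 : ℕ) : ℝ≥0∞) ^ 2 * a (m + n + 8)) (h2 : 1 ≤ a 2) (h5 : 1 ≤ a 5) :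
    ∃ μ : ℝ≥0∞, Tendsto (fun n : ℕ => a n ^ (1 / (n : ℝ))) atTop (𝓝 μ) := by
  refine ⟨limsup (fun n : ℕ => a n ^ (1 / (n : ℝ))) atTop,
    tendsto_of_le_liminf_of_limsup_le ?_ le_rfl⟩
  refine le_of_forall_lt fun l hl => ?_
  obtain ⟨s, hls, hs⟩ := ENNReal.lt_iff_exists_nnreal_btwn.1 hl
  obtain ⟨t, hst, ht⟩ := ENNReal.lt_iff_exists_nnreal_btwn.1 hs
  have hst' : s < t := by exact_mod_cast hst
  have hs0 : 0 < s := by
    have h1 : (0 : ℝ≥0∞) < s := (zero_le : (0 : ℝ≥0∞) ≤ l).trans_lt hls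
    exact_mod_cast h1
  have hf : ∃ᶠ n : ℕ in atTop, (t : ℝ≥0∞) < a n ^ (1 / (n : ℝ)) :=
    frequently_lt_of_lt_limsup (by isBoundedDefault) ht
  have hf' : ∃ᶠ n : ℕ in atTop, (t : ℝ≥0∞) ^ n ≤ a n := by
    refine (hf.and_eventually (eventually_ge_atTop 1)).mono fun n hn => ?_
    obtain ⟨hn, hn1⟩ := hn
    have hn0 : (n : ℝ) ≠ 0 := by
      rw [Nat.cast_ne_zero]
      omega
    have h1 : (t : ℝ≥0∞) ^ n ≤ (a n ^ (1 / (n : ℝ))) ^ n := pow_le_pow_left' hn.le n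
    have h3 : (a n ^ (1 / (n : ℝ))) ^ n = a n := by
      rw [← ENNReal.rpow_natCast, ← ENNReal.rpow_mul, one_div, inv_mul_cancel₀ hn0,
        ENNReal.rpow_one]
    rwa [h3] at h1
  have he := lim_core h01 h h2 h5 hs0 hst' hf'
  refine lt_of_lt_of_le hls ?_
  refine le_liminf_of_le (by isBoundedDefault) ?_
  filter_upwards [he, eventually_ge_atTop 1] with n hn hn1
  have hn0 : (n : ℝ) ≠ 0 := by
    rw [Nat.cast_ne_zero]
    omega
  have h1 : ((s : ℝ≥0∞) ^ n) ^ (1 / (n : ℝ)) ≤ a n ^ (1 / (n : ℝ)) :=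
    ENNReal.rpow_le_rpow hn (by positivity)
  have h3 : ((s : ℝ≥0∞) ^ n) ^ (1 / (n : ℝ)) = s := by
    rw [← ENNReal.rpow_natCast, ← ENNReal.rpow_mul, one_div, mul_inv_cancel₀ hn0,
      ENNReal.rpow_one]
  rwa [h3] at h1

end Pool.Agent.KL
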