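import Mathlib

/-!
# Comparison of growth rates
-/

set_option autoImplicit false

namespace Pool.Agent.KL

open Filter Topology ENNReal

private theorem lim2_const (C : ℝ≥0∞) (h1 : 1 ≤ C) (h2 : C ≠ ∞) :
    Tendsto (fun n : ℕ => C ^ (1 / (n : ℝ))) atTop (𝓝 1) := by
  have hc1 : 0 < C.toReal := ENNReal.toReal_pos (ne_of_gt (lt_of_lt_of_le zero_lt_one h1)) h2
  have e : (fun n : ℕ => C ^ (1 / (n : ℝ))) =
      fun n : ℕ => ENNReal.ofReal (C.toReal ^ (1 / (n : ℝ))) := by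
    funext n
    rw [← ENNReal.ofReal_rpow_of_pos hc1, ENNReal.ofReal_toReal h2]
  rw [e]
  have h3 : Tendsto (fun n : ℕ => C.toReal ^ (1 / (n : ℝ))) atTop (𝓝 (C.toReal ^ (0 : ℝ))) :=
    ((Real.continuous_const_rpow hc1.ne').tendsto 0).comp tendsto_one_div_atTop_nhds_zero_nat
  rw [Real.rpow_zero] at h3
  have h4 := ENNReal.tendsto_ofReal h3
  rwa [ENNReal.ofReal_one] at h4

/-- comparison of growth rates. Paper proof: the lower bound is monotonicity of rpow. For the upper bound let `ν > μ` (nothing to do if `μ = ∞`), `ν < ∞`. Then `a n ≤ ν ^ n` for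
all large `n`, so `l n ≤ 5 * K * max 1 ν ^ 4 * ν ^ n` and `(5 * K * max 1 ν ^ 4) ^ (1 / n) → 1`, so `limsup ≤ ν`. -/
theorem growth_compare (a l : ℕ → ℝ≥0∞) (K : ℝ≥0∞) (hK : K ≠ ∞) (μ : ℝ≥0∞)
    (ha : Tendsto (fun n : ℕ => a n ^ (1 / (n : ℝ))) atTop (𝓝 μ))
    (h1 : ∀ n, a n ≤ l n) (h2 : ∀ n, l n ≤ K * ∑ j ∈ Finset.range 5, a (n + j)) :
    Tendsto (fun n : ℕ => l n ^ (1 / (n : ℝ))) atTop (𝓝 μ) := by
  rw [tendsto_order]
  constructor
  · intro b hb
    filter_upwards [(tendsto_order.1 ha).1 b hb] with n hn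
    exact hn.trans_le (ENNReal.rpow_le_rpow (h1 n) (by positivity))
  · intro b hb
    obtain ⟨ν, hν1, hν2⟩ := exists_between hb
    have hν : ν ≠ ∞ := (hν2.trans_le le_top).ne
    obtain ⟨C, hCdef⟩ : ∃ C : ℝ≥0∞, C = 1 + 5 * K * (max 1 ν) ^ 4 := ⟨_, rfl⟩
    have hC1 : 1 ≤ C := by
      rw [hCdef]
      exact le_self_add
    have hmax : max 1 ν ≠ ∞ := (max_lt ENNReal.one_lt_top (lt_top_iff_ne_top.2 hν)).ne
    have hC : C ≠ ∞ := by
      rw [hCdef]
      exact ENNReal.add_ne_top.2 ⟨ENNReal.one_ne_top, ENNReal.mul_ne_top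
        (ENNReal.mul_ne_top (by norm_num) hK) (ENNReal.pow_ne_top hmax)⟩
    have hlim : Tendsto (fun n : ℕ => C ^ (1 / (n : ℝ)) * ν) atTop (𝓝 (1 * ν)) :=
      ENNReal.Tendsto.mul_const (lim2_const C hC1 hC) (Or.inl one_ne_zero)
    rw [one_mul] at hlim
    have hev0 : ∀ᶠ n : ℕ in atTop, a n ≤ ν ^ n := by
      filter_upwards [(tendsto_order.1 ha).2 ν hν1, eventually_ge_atTop 1] with n hn1 hn2
      have hn0 : n ≠ 0 := by omega
      have h3 : (a n ^ (1 / (n : ℝ))) ^ n ≤ ν ^ n := pow_le_pow_left' hn1.le n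
      rwa [one_div, ENNReal.rpow_inv_natCast_pow hn0] at h3
    obtain ⟨n₀, hn₀⟩ := eventually_atTop.1 hev0
    filter_upwards [(tendsto_order.1 hlim).2 b hν2, eventually_ge_atTop (n₀ + 1)] with n hn1 hn2
    have hn0 : n ≠ 0 := by omega
    refine lt_of_le_of_lt ?_ hn1
    have h3 : l n ≤ C * ν ^ n := by
      refine (h2 n).trans ?_
      have h4 : ∑ j ∈ Finset.range 5, a (n + j) ≤ ∑ _j ∈ Finset.range 5, (max 1 ν) ^ 4 * ν ^ n := by
        refine Finset.sum_le_sum fun j hj => ?_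
        have hj' : j ≤ 4 := by
          have := Finset.mem_range.1 hj
          omega
        refine (hn₀ (n + j) (by omega)).trans ?_
        rw [pow_add, mul_comm]
        refine mul_le_mul' ?_ le_rfl
        calc ν ^ j ≤ (max 1 ν) ^ j := pow_le_pow_left' (le_max_right 1 ν) j
          _ ≤ (max 1 ν) ^ 4 := pow_le_pow_right' (le_max_left 1 ν) hj'
      rw [Finset.sum_const, Finset.card_range, nsmul_eq_mul] at h4
      calc K * ∑ j ∈ Finset.range 5, a (n + j) ≤ K * (((5 : ℕ) : ℝ≥0∞) * ((max 1 ν) ^ 4 * ν ^ n)) :=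
            mul_le_mul' le_rfl h4
        _ = (5 * K * (max 1 ν) ^ 4) * ν ^ n := by
            push_cast
            ring
        _ ≤ C * ν ^ n := by
            refine mul_le_mul' ?_ le_rfl
            rw [hCdef]
            exact le_add_self
    calc l n ^ (1 / (n : ℝ)) ≤ (C * ν ^ n) ^ (1 / (n : ℝ)) :=
          ENNReal.rpow_le_rpow h3 (by positivity)
      _ = C ^ (1 / (n : ℝ)) * ν := by
          rw [ENNReal.mul_rpow_of_nonneg _ _ (by positivity), one_div,
            ENNReal.pow_rpow_inv_natCast hn0]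

end Pool.Agent.KL
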