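import Pool.Agent.Lib_MP_7c418e_gt.WhiteL

/-!
# The Whitehead link is prime and has crossing number five

`Prime` by `prime_of_two_trivial` and `white_nonsplit`, with the labels `true`, `true`, `false` at the three cups; deleting the second component gives
`[cu 0, cu 2, po 1, ca 0, ca 0] ~ O` (second zigzag move after `[cu 2, po 1] ~ [cu 1, ne 2]`-type slides and the first Reidemeister move), deleting the first component gives `[cu 0, ca 0] = O`.
`cr white = 5` by `white_lower`.
-/

set_option autoImplicit false

universe u v

namespace Pool.Agent.KL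

open Kind

theorem exists_five (hN : NoInv) : ∃ d, Prime d ∧ Two d ∧ cr d = 5 := by
  refine ⟨white, ?_, ?_, ?_⟩
  · have h := prime_of_two_trivial hN whiteC_run whiteC_red_O (by rw [whiteC_blu]; exact LEq.refl _) white_nonsplit
    rwa [whiteC_fgt] at h
  · refine ⟨whiteC, whiteC_fgt, whiteC_run, ⟨0, ?_⟩, ⟨1, ?_⟩⟩
    · simp [whiteC]
    · simp [whiteC]
  · apply le_antisymm
    · exact (cr_le (LEq.refl white)).trans (le_of_eq rfl)
    · exact le_cr fun e he => white_lower he

end Pool.Agent.KL
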