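import Pool.Agent.Lib_MP_7c418e_gt.JCr
import Pool.Agent.Lib_MP_7c418e_gt.JPrime
import Pool.Agent.Lib_MP_7c418e_gt.JFib
import Pool.Agent.Lib_MP_7c418e_gt.JEx
import Pool.Agent.Lib_MP_7c418e_gt.Dich
import Pool.Agent.Lib_MP_7c418e_gt.KEx
import Pool.Agent.Lib_MP_7c418e_gt.KFib
import Pool.Agent.Lib_MP_7c418e_gt.Hopf
import Pool.Agent.Lib_MP_7c418e_gt.White
import Pool.Agent.Lib_MP_7c418e_gt.Lim
import Pool.Agent.Lib_MP_7c418e_gt.Lim2

/-!
# Counting

All imported theorems may be used (they are being proved in the imported files). `lnum2_mul_le`: if `¬ NoInv` then `lnum2 = 0` by `at_most_one_prime`. Otherwise choose for every class counted by `lnum2 m` and `lnum2 n` a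
diagram with the minimal number of crossings (`cr_spec`, `Prime.leq`, `Two.leq`), join them (`join_exists`), the result is prime (`join_prime`), has two components (`join_two`) and crossing number
`m + n + 8` (`join_cr_le` and `ncr J = m + n + 8`), and apply `encard_le_mul` with `join_fib`, with a representative `D` of the class with `ncr D = m + n + 8` (classes are equal iff the diagrams
are `Same`, `cls_eq`; `Set.encard` of a product). `lnum_le`: a class counted by `lnum n` is counted by `lnum2 n` or has a representative `d` with `¬ Two d`, `NonAb d`; take `ring_exists` for a minimal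
diagram, `n ≤ cr (fgt J) ≤ n + 4` by `ring_cr`, and use `ring_fib` (`NonAb` must be transported to the minimal diagram: `LEq.lift` with `X = Cj G`; the labels `x`, `y` which do not commute must still
be found: if all cup labels of the new word commute with each other then use `Eqv.cups` with the centralizer-like subgroup, i.e. the subgroup generated by the cup labels of the new word is abelian).
-/

set_option autoImplicit false

universe u v

namespace Pool.Agent.KL

open Kind Filter Topology ENNReal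

/-- counting a set with the help of a map with small fibres -/
theorem encard_le_mul {α β : Type*} {A : Set α} {B : Set β} (f : α → β) (hf : ∀ x ∈ A, f x ∈ B) (k : ℕ)
    (hk : ∀ y ∈ B, {x ∈ A | f x = y}.encard ≤ k) : A.encard ≤ k * B.encard := by
  classical
  by_cases hB : B.Finite
  · have key : ∀ t : Finset β, (∀ y ∈ t, {x ∈ A | f x = y}.encard ≤ k) →
        {x ∈ A | f x ∈ t}.encard ≤ k * (t.card : ℕ∞) := by
      intro t
      induction t using Finset.induction_on with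
      | empty => intro _; simp
      | insert a t ha ih =>
        intro h
        have h1 : {x ∈ A | f x ∈ insert a t} ⊆ {x ∈ A | f x = a} ∪ {x ∈ A | f x ∈ t} := by
          rintro x ⟨hx, hx'⟩
          rcases Finset.mem_insert.1 hx' with hx' | hx'
          · exact Or.inl ⟨hx, hx'⟩
          · exact Or.inr ⟨hx, hx'⟩
        have h2 := ih fun y hy => h y (Finset.mem_insert_of_mem hy)
        have h3 := h a (Finset.mem_insert_self a t)
        calc {x ∈ A | f x ∈ insert a t}.encard ≤ ({x ∈ A | f x = a} ∪ {x ∈ A | f x ∈ t}).encard :=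
              Set.encard_le_encard h1
          _ ≤ {x ∈ A | f x = a}.encard + {x ∈ A | f x ∈ t}.encard := Set.encard_union_le _ _
          _ ≤ k + k * (t.card : ℕ∞) := add_le_add h3 h2
          _ = k * ((insert a t).card : ℕ∞) := by
              rw [Finset.card_insert_of_notMem ha, Nat.cast_add, mul_add, Nat.cast_one, mul_one, add_comm]
    have h1 := key hB.toFinset fun y hy => hk y (by simpa using hy)
    have h2 : {x ∈ A | f x ∈ hB.toFinset} = A := by
      ext x
      simp only [Set.Finite.mem_toFinset, Set.mem_ofPred_eq, and_iff_left_iff_imp]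
      exact fun hx => hf x hx
    rw [h2] at h1
    rwa [hB.encard_eq_coe_toFinset_card]
  · have hB' : B.encard = ⊤ := Set.encard_eq_top_iff.2 hB
    rw [hB']
    by_cases hk0 : k = 0
    · have : A = ∅ := by
        rw [Set.eq_empty_iff_forall_notMem]
        intro x hx
        have h1 := hk (f x) (hf x hx)
        rw [hk0, Nat.cast_zero, nonpos_iff_eq_zero, Set.encard_eq_zero, Set.eq_empty_iff_forall_notMem] at h1
        exact h1 x ⟨hx, rfl⟩
      rw [this]
      simp
    · rw [ENat.mul_top (by exact_mod_cast hk0)]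
      exact le_top

/-- if the trivial knot were invertible there would be no prime links with two components -/
theorem lnum2_zero (hN : ¬ NoInv) (n : ℕ) : lnum2 n = 0 := by
  obtain ⟨d₀, hd₀⟩ := at_most_one_prime hN
  rw [lnum2, Set.encard_eq_zero, Set.eq_empty_iff_forall_notMem]
  rintro C ⟨d, h1, h2, -⟩
  exact (hd₀ d h1).2 h2

/-- a joined link for a pair of classes -/
theorem join_class (hN : NoInv) {m n : ℕ} {P : Set (Wrd Unit) × Set (Wrd Unit)}
    (h1 : ∃ d, Prime d ∧ Two d ∧ cr d = m ∧ P.1 = cls d) (h2 : ∃ d, Prime d ∧ Two d ∧ cr d = n ∧ P.2 = cls d) :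
    ∃ d₁ d₂ J, Prime d₁ ∧ Prime d₂ ∧ JD d₁ d₂ J ∧ P = (cls d₁, cls d₂) ∧ Prime (fgt J) ∧ Two (fgt J) ∧
      cr (fgt J) = m + n + 8 := by
  obtain ⟨a, ha1, ha2, ha3, ha4⟩ := h1
  obtain ⟨b, hb1, hb2, hb3, hb4⟩ := h2
  obtain ⟨d₁, h3, h4⟩ := cr_spec a
  obtain ⟨d₂, h5, h6⟩ := cr_spec b
  have h7 := ha1.leq h3
  have h8 := hb1.leq h5
  obtain ⟨J, hJ, hJ2⟩ := join_exists h7 h8 (ha2.leq h3) (hb2.leq h5)
  refine ⟨d₁, d₂, J, h7, h8, hJ, ?_, join_prime hN h7 h8 hJ, join_two hJ, ?_⟩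
  · ext1
    · exact ha4.trans (cls_eq.2 (Or.inl h3))
    · exact hb4.trans (cls_eq.2 (Or.inl h5))
  · apply le_antisymm
    · have h9 := cr_le (LEq.refl (fgt J))
      have h10 : ncr (fgt J) = ncr J := by rw [fgt_eq, ncr_wmap]
      rw [h10, hJ2, h4, h6, ha3, hb3] at h9
      exact h9
    · refine le_cr fun e he => ?_
      have h9 := join_cr_le hJ he
      rwa [← cr_leq h3, ← cr_leq h5, ha3, hb3] at h9

theorem lnum2_mul_le (m n : ℕ) : lnum2 m * lnum2 n ≤ 2 * ((m + n + 8 : ℕ) : ℕ∞) ^ 2 * lnum2 (m + n + 8) := by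
  classical
  by_cases hN : NoInv
  · let A : Set (Set (Wrd Unit) × Set (Wrd Unit)) :=
      {C | ∃ d, Prime d ∧ Two d ∧ cr d = m ∧ C = cls d} ×ˢ {C | ∃ d, Prime d ∧ Two d ∧ cr d = n ∧ C = cls d}
    have hA : A.encard = lnum2 m * lnum2 n := Set.encard_prod
    have hex : ∀ P : Set (Wrd Unit) × Set (Wrd Unit), P ∈ A → ∃ C : Set (Wrd Unit), ∃ d₁ d₂ J, Prime d₁ ∧ Prime d₂ ∧
        JD d₁ d₂ J ∧ P = (cls d₁, cls d₂) ∧ Prime (fgt J) ∧ Two (fgt J) ∧ cr (fgt J) = m + n + 8 ∧ C = cls (fgt J) := by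
      intro P hP
      obtain ⟨d₁, d₂, J, h1, h2, h3, h4, h5, h6, h7⟩ := join_class hN hP.1 hP.2
      exact ⟨_, d₁, d₂, J, h1, h2, h3, h4, h5, h6, h7, rfl⟩
    let f : Set (Wrd Unit) × Set (Wrd Unit) → Set (Wrd Unit) := fun P => if h : P ∈ A then (hex P h).choose else ∅
    have hf : ∀ P, P ∈ A → ∃ d₁ d₂ J, Prime d₁ ∧ Prime d₂ ∧
        JD d₁ d₂ J ∧ P = (cls d₁, cls d₂) ∧ Prime (fgt J) ∧ Two (fgt J) ∧ cr (fgt J) = m + n + 8 ∧ f P = cls (fgt J) := by
      intro P hP
      have h1 : f P = (hex P hP).choose := dif_pos hP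
      rw [h1]
      exact (hex P hP).choose_spec
    have h1 := encard_le_mul (A := A) (B := {C | ∃ d, Prime d ∧ Two d ∧ cr d = m + n + 8 ∧ C = cls d}) f
      (by
        intro P hP
        obtain ⟨d₁, d₂, J, -, -, -, -, h5, h6, h7, h8⟩ := hf P hP
        exact ⟨fgt J, h5, h6, h7, h8⟩) (2 * (m + n + 8) ^ 2)
      (by
        rintro y ⟨D₀, hD1, hD2, hD3, rfl⟩
        obtain ⟨D, hD4, hD5⟩ := cr_spec D₀
        refine le_trans (Set.encard_le_encard ?_) (le_trans (join_fib D) ?_)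
        · rintro P ⟨hP, hP'⟩
          obtain ⟨d₁, d₂, J, h1, h2, h3, h4, h5, h6, h7, h8⟩ := hf P hP
          refine ⟨d₁, d₂, J, h1, h2, h3, ?_, h4⟩
          rw [h8] at hP'
          have h9 : Same D₀ (fgt J) := cls_eq.1 hP'.symm
          exact (Same.symm (Or.inl hD4)).trans h9
        · rw [hD5, hD3]
          push_cast
          exact le_refl _)
    rw [hA] at h1
    refine h1.trans (le_of_eq ?_)
    rw [lnum2]
    push_cast
    rfl
  · rw [lnum2_zero hN m, zero_mul]
    exact bot_le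

theorem lnum2_le (n : ℕ) : lnum2 n ≤ lnum n := by
  apply Set.encard_le_encard
  rintro C ⟨d, h1, h2, h3, h4⟩
  exact ⟨d, h1, Or.inl h2, h3, h4⟩

/-- having noncommuting meridians does not depend on the diagram -/
theorem NonAb.leq {d e : Wrd Unit} (h : LEq d e) (hd : NonAb d) : NonAb e := by
  obtain ⟨G, hG, w, rfl, hw, x, y, ⟨i, hx⟩, ⟨j, hy⟩, hxy⟩ := hd
  obtain ⟨v, h1, h2, h3⟩ := LEq.lift hw h
  refine ⟨G, hG, v, h1, h3, ?_⟩
  by_contra hc
  push Not at hc
  let K : Set (Cj G) := {x | ∃ i, ((cup x, i) : Ltr (Cj G)) ∈ v}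
  have hcomm : ∀ x ∈ K, ∀ y ∈ K, x * y = y * x := by
    rintro x ⟨i, hx⟩ y ⟨j, hy⟩
    exact hc x y ⟨i, hx⟩ ⟨j, hy⟩
  let H : Subgroup (Cj G) := Subgroup.closure K
  have hS : SubR (fun x : Cj G => x ∈ H) := by
    refine ⟨fun x hx => H.inv_mem hx, fun a x ha hx => ?_⟩
    exact H.mul_mem (H.mul_mem ha hx) (H.inv_mem ha)
  have hv : cups (fun x : Cj G => x ∈ H) v := fun x i hx => Subgroup.subset_closure ⟨i, hx⟩
  have hw2 : cups (fun x : Cj G => x ∈ H) w := Eqv.cups hS h2.symm h3 (by simp) hv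
  have hHcomm : ∀ a ∈ H, ∀ b ∈ H, a * b = b * a := by
    have e1 : ∀ b ∈ H, ∀ a ∈ K, a * b = b * a := by
      intro b hb a ha
      have h4 : H ≤ Subgroup.centralizer {a} := by
        rw [Subgroup.closure_le]
        intro c hc
        rw [SetLike.mem_coe, Subgroup.mem_centralizer_iff]
        rintro z rfl
        exact hcomm z ha c hc
      exact Subgroup.mem_centralizer_iff.1 (h4 hb) a rfl
    intro a ha b hb
    have h5 : H ≤ Subgroup.centralizer {b} := by
      rw [Subgroup.closure_le]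
      intro c hc
      rw [SetLike.mem_coe, Subgroup.mem_centralizer_iff]
      rintro z rfl
      exact (e1 z hb c hc).symm
    exact (Subgroup.mem_centralizer_iff.1 (h5 ha) b rfl).symm
  exact hxy (hHcomm x (hw2 x i hx) y (hw2 y j hy))

/-- in the case `NoInv` -/
theorem lnum_le (hN : NoInv) (n : ℕ) : lnum n ≤ 3 * ∑ j ∈ Finset.range 5, lnum2 (n + j) := by
  classical
  let A : Set (Set (Wrd Unit)) := {C | ∃ d, Prime d ∧ ¬ Two d ∧ NonAb d ∧ cr d = n ∧ C = cls d}
  let S : ℕ → Set (Set (Wrd Unit)) := fun k => {C | ∃ d, Prime d ∧ Two d ∧ cr d = k ∧ C = cls d}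
  let B : Set (Set (Wrd Unit)) := ⋃ j ∈ Finset.range 5, S (n + j)
  have h1 : lnum n ≤ lnum2 n + A.encard := by
    refine le_trans (Set.encard_le_encard ?_) (Set.encard_union_le _ _)
    rintro C ⟨d, h1, h2, h3, h4⟩
    by_cases h5 : Two d
    · exact Or.inl ⟨d, h1, h5, h3, h4⟩
    · exact Or.inr ⟨d, h1, h5, h2.resolve_left h5, h3, h4⟩
  have hex : ∀ C ∈ A, ∃ C' : Set (Wrd Unit), ∃ d J, Prime d ∧ ¬ Two d ∧ KD d J ∧ C = cls d ∧ Prime (fgt J) ∧ Two (fgt J) ∧
      n ≤ cr (fgt J) ∧ cr (fgt J) < n + 5 ∧ C' = cls (fgt J) := by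
    rintro C ⟨d₀, h1, h2, h3, h4, rfl⟩
    obtain ⟨d, h5, h6⟩ := cr_spec d₀
    have h7 := h1.leq h5
    have h8 : ¬ Two d := fun h => h2 (h.leq h5.symm)
    obtain ⟨J, hJ1, hJ2, hJ3, hJ4⟩ := ring_exists hN h7 h8 (h3.leq h5)
    refine ⟨_, d, J, h7, h8, hJ1, cls_eq.2 (Or.inl h5), hJ2, hJ3, ?_, ?_, rfl⟩
    · have h9 := ring_cr hJ1
      rw [← cr_leq h5, h4] at h9
      exact h9
    · have h9 := cr_le (LEq.refl (fgt J))
      have h10 : ncr (fgt J) = ncr J := by rw [fgt_eq, ncr_wmap]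
      rw [h10] at h9
      rw [h6, h4] at hJ4
      omega
  let f : Set (Wrd Unit) → Set (Wrd Unit) := fun C => if h : C ∈ A then (hex C h).choose else ∅
  have hf : ∀ C ∈ A, ∃ d J, Prime d ∧ ¬ Two d ∧ KD d J ∧ C = cls d ∧ Prime (fgt J) ∧ Two (fgt J) ∧
      n ≤ cr (fgt J) ∧ cr (fgt J) < n + 5 ∧ f C = cls (fgt J) := by
    intro C hC
    have h1 : f C = (hex C hC).choose := dif_pos hC
    rw [h1]
    exact (hex C hC).choose_spec
  have h2 := encard_le_mul (A := A) (B := B) f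
    (by
      intro C hC
      obtain ⟨d, J, -, -, -, -, h5, h6, h7, h8, h9⟩ := hf C hC
      refine Set.mem_biUnion (x := cr (fgt J) - n) (by simp only [Finset.coe_range, Set.mem_Iio]; omega) ?_
      exact ⟨fgt J, h5, h6, by omega, h9⟩) 2
    (by
      intro y hy
      have hy' : ∃ D, y = cls D := by
        simp only [B, S, Set.mem_iUnion, Set.mem_ofPred_eq] at hy
        obtain ⟨j, -, D, -, -, -, hD⟩ := hy
        exact ⟨D, hD⟩
      obtain ⟨D, rfl⟩ := hy'
      refine le_trans (Set.encard_le_encard ?_) (ring_fib D)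
      rintro C ⟨hC, hC'⟩
      obtain ⟨d, J, h1, h2, h3, h4, -, -, -, -, h9⟩ := hf C hC
      rw [h9] at hC'
      exact ⟨d, J, h1, h2, h3, cls_eq.1 hC'.symm, h4⟩)
  have h3 : B.encard ≤ ∑ j ∈ Finset.range 5, lnum2 (n + j) :=
    Finset.set_encard_biUnion_le (Finset.range 5) fun j => S (n + j)
  have h4 : lnum2 n ≤ ∑ j ∈ Finset.range 5, lnum2 (n + j) := by
    have := Finset.single_le_sum (f := fun j => lnum2 (n + j)) (s := Finset.range 5)
      (fun j _ => bot_le) (Finset.mem_range.2 (show 0 < 5 by norm_num))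
    simpa using this
  calc lnum n ≤ lnum2 n + A.encard := h1
    _ ≤ ∑ j ∈ Finset.range 5, lnum2 (n + j) + 2 * ∑ j ∈ Finset.range 5, lnum2 (n + j) := by
        refine add_le_add h4 (h2.trans ?_)
        exact mul_le_mul' (le_of_eq (by norm_num)) h3
    _ = 3 * ∑ j ∈ Finset.range 5, lnum2 (n + j) := by ring

/-- in the case `¬ NoInv` -/
theorem lnum_zero (hN : ¬ NoInv) : ∃ n₀, ∀ n, n₀ ≤ n → lnum n = 0 := by
  obtain ⟨d₀, hd₀⟩ := at_most_one_prime hN
  refine ⟨cr d₀ + 1, fun n hn => ?_⟩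
  rw [lnum, Set.encard_eq_zero, Set.eq_empty_iff_forall_notMem]
  rintro C ⟨d, h1, -, h3, -⟩
  have := cr_leq (hd₀ d h1).1
  omega

theorem limit_exists : ∃ μ : ℝ≥0∞, Tendsto (fun n : ℕ => ((lnum n : ℕ∞) : ℝ≥0∞) ^ (1 / (n : ℝ))) atTop (𝓝 μ) ∧
    Tendsto (fun n : ℕ => ((lnum2 n : ℕ∞) : ℝ≥0∞) ^ (1 / (n : ℝ))) atTop (𝓝 μ) := by
  by_cases hN : NoInv
  · have h2 : 1 ≤ lnum2 2 := by
      obtain ⟨d, h1, h2, h3⟩ := exists_two hN
      rw [lnum2, Set.one_le_encard_iff_nonempty]
      exact ⟨_, d, h1, h2, h3, rfl⟩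
    have h5 : 1 ≤ lnum2 5 := by
      obtain ⟨d, h1, h2, h3⟩ := exists_five hN
      rw [lnum2, Set.one_le_encard_iff_nonempty]
      exact ⟨_, d, h1, h2, h3, rfl⟩
    have hone : ∀ m : ℕ∞, 1 ≤ m → (1 : ℝ≥0∞) ≤ (m : ℝ≥0∞) := by
      intro m hm
      rw [← ENat.toENNReal_one]
      exact ENat.toENNReal_le.2 hm
    obtain ⟨μ, hμ⟩ := growth_exists (fun n => ((lnum2 n : ℕ∞) : ℝ≥0∞))
      (by
        intro n
        by_cases h0 : lnum2 n = 0
        · left
          rw [h0, ENat.toENNReal_zero]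
        · right
          exact hone _ (Order.one_le_iff_pos.2 (pos_iff_ne_zero.2 h0)))
      (by
        intro m n
        have h := ENat.toENNReal_le.2 (lnum2_mul_le m n)
        rw [ENat.toENNReal_mul, ENat.toENNReal_mul, ENat.toENNReal_mul, ENat.toENNReal_pow, ENat.toENNReal_coe,
          ENat.toENNReal_ofNat] at h
        exact h)
      (hone _ h2) (hone _ h5)
    refine ⟨μ, growth_compare (fun n => ((lnum2 n : ℕ∞) : ℝ≥0∞)) (fun n => ((lnum n : ℕ∞) : ℝ≥0∞)) 3
      (by norm_num) μ hμ ?_ ?_, hμ⟩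
    · intro n
      exact ENat.toENNReal_le.2 (lnum2_le n)
    · intro n
      have h := ENat.toENNReal_le.2 (lnum_le hN n)
      rw [ENat.toENNReal_mul, ENat.toENNReal_ofNat] at h
      refine h.trans (le_of_eq ?_)
      simp only [Finset.sum_range_succ, Finset.sum_range_zero, ENat.toENNReal_add, ENat.toENNReal_zero]
  · obtain ⟨n₀, hn₀⟩ := lnum_zero hN
    have key : ∀ a : ℕ → ℕ∞, (∀ n, n₀ ≤ n → a n = 0) →
        Tendsto (fun n : ℕ => ((a n : ℕ∞) : ℝ≥0∞) ^ (1 / (n : ℝ))) atTop (𝓝 0) := by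
      intro a ha
      refine Tendsto.congr' ?_ tendsto_const_nhds
      filter_upwards [eventually_ge_atTop n₀, eventually_gt_atTop 0] with n h1 h2
      rw [ha n h1, ENat.toENNReal_zero, ENNReal.zero_rpow_of_pos]
      have : (0 : ℝ) < n := by exact_mod_cast h2
      positivity
    exact ⟨0, key _ hn₀, key _ fun n _ => lnum2_zero hN n⟩

end Pool.Agent.KL
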