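import Pool.Agent.Lib_MP_7c418e_gt.Final

/-!
# The inequality for all prime links
-/

set_option autoImplicit false
set_option linter.unusedVariables false

universe u v

namespace Pool.Agent.KL

open Kind

/-- directions to powers of one group element -/
noncomputable def orPow {G : Type} [Group G] (y : Or) (x : Cj G) : RHom Or (Cj G) where
  toFun b := if b = y then x else x⁻¹
  map_bar b := by
    change (if (bar b : Or) = y then x else x⁻¹) = (if b = y then x else x⁻¹)⁻¹
    by_cases h : b = y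
    · have h1 : ¬ (bar b : Or) = y := by
        rw [h]
        rcases or_cases y with rfl | rfl <;> decide
      rw [if_pos h, if_neg h1]
    · have h1 : (bar b : Or) = y := by
        revert h
        rcases or_cases y with rfl | rfl <;> rcases or_cases b with rfl | rfl <;> decide
      rw [if_neg h, if_pos h1, inv_inv]
  map_act a b := by
    change (if b = y then x else x⁻¹) = (if a = y then x else x⁻¹) * (if b = y then x else x⁻¹) * (if a = y then x else x⁻¹)⁻¹
    by_cases h : a = y <;> by_cases h' : b = y <;> simp [h, h']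

theorem not_nonab_O : ¬ NonAb O := by
  rintro ⟨G, iG, w, hw, hr, x, y, ⟨i, hx⟩, ⟨j, hy⟩, hxy⟩
  obtain ⟨k1, w1, rfl, e1, f1⟩ := fgt_eq_cons' hw
  obtain ⟨z, rfl, -⟩ := kmap_eq_cup.1 e1
  obtain ⟨k2, w2, rfl, e2, f2⟩ := fgt_eq_cons' f1
  obtain rfl : k2 = cap := kmap_eq_cap.1 e2
  obtain rfl := fgt_eq_nil f2
  simp only [List.mem_cons, Prod.mk.injEq, cup.injEq, reduceCtorEq, false_and, List.not_mem_nil, or_false] at hx hy
  exact hxy (by rw [hx.1, hy.1])

/-- the group of a connected sum is not abelian if the group of a summand is not abelian -/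
theorem nonab_clo {S T : Wrd Unit} (hS : Tan S) (hT : Tan T) (h : NonAb (clo S)) : NonAb (clo (S ++ T)) := by
  obtain ⟨G, iG, w, hw, hr, x, y, ⟨i, hx⟩, ⟨j, hy⟩, hxy⟩ := h
  obtain ⟨z, S', rfl, rfl, h1⟩ := clo_lift hS hr hw
  have hcT : Closed (clo T) := by
    have h2 : Run [] (clox () T) [] := run_clox hT
    exact h2
  obtain ⟨o, ho, hro⟩ := exists_orientation hcT
  obtain ⟨q, T', rfl, rfl, h2⟩ := clo_lift hT hro ho
  have h3 := h2.map (orPow q z)
  have h4 : (orPow q z).toFun q = z := if_pos rfl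
  rw [List.map_cons, List.map_nil, h4] at h3
  have h5 := run_clox (h1.append h3)
  have hmem : ∀ {p : Cj G} {i : ℕ}, ((cup p, i) : Ltr (Cj G)) ∈ clox z S' →
      ((cup p, i) : Ltr (Cj G)) ∈ clox z (S' ++ wmap (orPow q z).toFun T') := by
    intro p i hp
    simp only [clox, List.mem_cons, List.mem_append] at hp ⊢
    tauto
  refine ⟨G, iG, clox z (S' ++ wmap (orPow q z).toFun T'), ?_, h5, x, y, ⟨i, hmem hx⟩, ⟨j, hmem hy⟩, hxy⟩
  rw [fgt_clox, fgt_append, fgt_wmap]

/-- in the case `¬ NoInv` -/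
theorem no_nonab_prime (h : ¬ NoInv) {d : Wrd Unit} (hd : Prime d) : ¬ NonAb d := by
  unfold NoInv at h
  push Not at h
  obtain ⟨S, T, hS, hT, h1, h2⟩ := h
  have h3 : ¬ LEq (clo T) O := by
    intro h3
    apply h2 _ h3
    exact (sum_trivial_right hT hS h3).symm.trans h1
  obtain ⟨D, hD, h4⟩ := exists_tangle hd.closed (prime_ne_nil hd)
  have h5 : LEq (clo (D ++ (S ++ T))) (clo D) := sum_trivial_right (hS.append hT) hD h1
  rw [← List.append_assoc] at h5
  have h6 : LEq d (clo ((D ++ S) ++ T)) := h4.trans h5.symm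
  have h7 : LEq (clo (D ++ S)) O := (hd.nonsum _ _ (hD.append hS) hT h6).resolve_right h3
  intro h8
  exact not_nonab_O (NonAb.leq h7 (nonab_clo hD hS (NonAb.leq h4 h8)))

theorem lnum_eq_zero (hN : ¬ NoInv) (n : ℕ) : lnum n = 0 := by
  rw [lnum, Set.encard_eq_zero, Set.eq_empty_iff_forall_notMem]
  rintro C ⟨d, h1, h2, -, -⟩
  obtain ⟨d₀, hd₀⟩ := at_most_one_prime hN
  exact h2.elim (hd₀ d h1).2 (no_nonab_prime hN h1)

theorem lnum_mul_le (m n : ℕ) : lnum m * lnum n ≤ 90 * ((m + n + 16 : ℕ) : ℕ∞) ^ 2 * ∑ k ∈ Finset.range 9, lnum2 (m + n + 8 + k) := by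
  by_cases hN : NoInv
  · have h1 : ∀ i ∈ Finset.range 5, ∀ j ∈ Finset.range 5, lnum2 (m + i) * lnum2 (n + j) ≤
        2 * ((m + n + 16 : ℕ) : ℕ∞) ^ 2 * lnum2 (m + n + 8 + (i + j)) := by
      intro i hi j hj
      rw [Finset.mem_range] at hi hj
      have h2 := lnum2_mul_le (m + i) (n + j)
      have h3 : m + i + (n + j) + 8 = m + n + 8 + (i + j) := by ring
      rw [h3] at h2
      refine h2.trans (mul_le_mul' (mul_le_mul' le_rfl ?_) le_rfl)
      have h4 : ((m + n + 8 + (i + j) : ℕ) : ℕ∞) ≤ ((m + n + 16 : ℕ) : ℕ∞) := by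
        exact_mod_cast (show m + n + 8 + (i + j) ≤ m + n + 16 by omega)
      exact pow_le_pow_left' h4 2
    have h2 : ∀ i ∈ Finset.range 5, ∑ j ∈ Finset.range 5, lnum2 (m + n + 8 + (i + j)) ≤
        ∑ k ∈ Finset.range 9, lnum2 (m + n + 8 + k) := by
      intro i hi
      rw [Finset.mem_range] at hi
      have h3 : ∑ j ∈ Finset.range 5, lnum2 (m + n + 8 + (i + j)) = ∑ k ∈ (Finset.range 5).map (addLeftEmbedding i), lnum2 (m + n + 8 + k) := by
        rw [Finset.sum_map]
        rfl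
      rw [h3]
      refine Finset.sum_le_sum_of_subset ?_
      intro k hk
      rw [Finset.mem_map] at hk
      obtain ⟨j, hj, rfl⟩ := hk
      rw [Finset.mem_range] at hj ⊢
      change i + j < 9
      omega
    calc lnum m * lnum n ≤ (3 * ∑ i ∈ Finset.range 5, lnum2 (m + i)) * (3 * ∑ j ∈ Finset.range 5, lnum2 (n + j)) :=
          mul_le_mul' (lnum_le hN m) (lnum_le hN n)
      _ = 9 * ∑ i ∈ Finset.range 5, ∑ j ∈ Finset.range 5, lnum2 (m + i) * lnum2 (n + j) := by
          rw [← Finset.sum_mul_sum]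
          ring
      _ ≤ 9 * ∑ i ∈ Finset.range 5, ∑ j ∈ Finset.range 5, 2 * ((m + n + 16 : ℕ) : ℕ∞) ^ 2 * lnum2 (m + n + 8 + (i + j)) := by
          refine mul_le_mul' le_rfl (Finset.sum_le_sum fun i hi => Finset.sum_le_sum fun j hj => h1 i hi j hj)
      _ ≤ 9 * ∑ i ∈ Finset.range 5, 2 * ((m + n + 16 : ℕ) : ℕ∞) ^ 2 * ∑ k ∈ Finset.range 9, lnum2 (m + n + 8 + k) := by
          refine mul_le_mul' le_rfl (Finset.sum_le_sum fun i hi => ?_)
          rw [← Finset.mul_sum]
          exact mul_le_mul' le_rfl (h2 i hi)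
      _ = 90 * ((m + n + 16 : ℕ) : ℕ∞) ^ 2 * ∑ k ∈ Finset.range 9, lnum2 (m + n + 8 + k) := by
          rw [Finset.sum_const, Finset.card_range, nsmul_eq_mul]
          push_cast
          ring
  · rw [lnum_eq_zero hN, zero_mul]
    exact bot_le

end Pool.Agent.KL
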