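import Pool.Agent.Lib_MP_7c418e_gt.JTool

/-!
# The crossing number of a joined link
-/

set_option autoImplicit false

universe u v

namespace Pool.Agent.KL

open Kind

/-- the kind of a pair of colours -/
def pk (x y : JC) (z : Col JC × Col JC) : Bool := decide (z.1 = x) && decide (z.2 = y)

theorem count_le (L : List (Col JC × Col JC)) :
    (L.countP fun z => p1 z.1 && p1 z.2) + (L.countP fun z => p2 z.1 && p2 z.2) + L.countP (pk JC.r JC.a) +
    L.countP (pk JC.a JC.r) + L.countP (pk JC.r JC.c) + L.countP (pk JC.c JC.r) + L.countP (pk JC.q JC.b) +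
    L.countP (pk JC.b JC.q) + L.countP (pk JC.q JC.d) + L.countP (pk JC.d JC.q) ≤ L.length := by
  induction L with
  | nil => simp
  | cons z L ih =>
    obtain ⟨x, y⟩ := z
    simp only [List.countP_cons, List.length_cons]
    have key : (if (p1 x && p1 y) = true then 1 else 0) + (if (p2 x && p2 y) = true then 1 else 0) +
        (if pk JC.r JC.a (x, y) = true then 1 else 0) + (if pk JC.a JC.r (x, y) = true then 1 else 0) +
        (if pk JC.r JC.c (x, y) = true then 1 else 0) + (if pk JC.c JC.r (x, y) = true then 1 else 0) +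
        (if pk JC.q JC.b (x, y) = true then 1 else 0) + (if pk JC.b JC.q (x, y) = true then 1 else 0) +
        (if pk JC.q JC.d (x, y) = true then 1 else 0) + (if pk JC.d JC.q (x, y) = true then 1 else 0) ≤ 1 := by
      cases x <;> cases y <;> decide
    omega

/-- every diagram of a joined link has at least `cr d₁ + cr d₂ + 8` crossings: lift the colours to the diagram, count the crossings within
the first link, within the second link and the eight odd numbers of crossings between the rings and the links -/
theorem join_cr_le {d₁ d₂ e : Wrd Unit} {J : Wrd (Col JC)} (hJ : JD d₁ d₂ J) (he : LEq (fgt J) e) :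
    cr d₁ + cr d₂ + 8 ≤ ncr e := by
  obtain ⟨J', rfl, hJ'⟩ := hJ.lift he
  rw [ncr_fgt, ← hJ'.run.length_crs]
  have h1 : cr d₁ ≤ (crs [] J').countP fun z => p1 z.1 && p1 z.2 := by
    have h2 := cr_le hJ'.first
    have h3 := hJ'.run.crs_res (keeps_col p1)
    have h4 := (hJ'.run.res (keeps_col p1)).length_crs
    rw [List.filter_nil] at h3 h4
    rw [ncr_fgt, ← h4, h3, ← List.countP_eq_length_filter] at h2
    exact h2
  have h2 : cr d₂ ≤ (crs [] J').countP fun z => p2 z.1 && p2 z.2 := by
    have h2 := cr_le hJ'.second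
    have h3 := hJ'.run.crs_res (keeps_col p2)
    have h4 := (hJ'.run.res (keeps_col p2)).length_crs
    rw [List.filter_nil] at h3 h4
    rw [ncr_fgt, ← h4, h3, ← List.countP_eq_length_filter] at h2
    exact h2
  have h3 := count_le (crs [] J')
  have e1 := hJ'.ora
  have e2 := hJ'.oar
  have e3 := hJ'.orc
  have e4 := hJ'.ocr
  have e5 := hJ'.oqb
  have e6 := hJ'.obq
  have e7 := hJ'.oqd
  have e8 := hJ'.odq
  change (crs [] J').countP (pk _ _) % 2 = 1 at e1 e2 e3 e4 e5 e6 e7 e8
  omega

end Pool.Agent.KL
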