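import Pool.Agent.Lib_MP_7c418e_gt.Basic

/-!
# Joining two links by two rings: definitions
-/

set_option autoImplicit false

universe u v

namespace Pool.Agent.KL

open Kind

/-- colours of the parts of a joined link: `a`, `b` for the first link, `c`, `d` for the second link, `r` and `q` for the two rings;
the ring `r` links `a` and `c`, the ring `q` links `b` and `d` -/
inductive JC
  | a | b | c | d | r | q
  deriving DecidableEq

/-- the first link -/
def p1 : Col JC → Bool := fun x => match x with | JC.a => true | JC.b => true | _ => false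
/-- the second link -/
def p2 : Col JC → Bool := fun x => match x with | JC.c => true | JC.d => true | _ => false
/-- both links, without the rings -/
def p12 : Col JC → Bool := fun x => p1 x || p2 x
/-- the first ring -/
def pr : Col JC → Bool := fun x => match x with | JC.r => true | _ => false
/-- the second ring -/
def pq : Col JC → Bool := fun x => match x with | JC.q => true | _ => false

/-- the number of crossings at which a strand of colour `x` is over a strand of colour `y` -/
def oc {κ : Type} [DecidableEq κ] (x y : κ) (w : Wrd (Col κ)) : ℕ :=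
  cnt (fun u v : Col κ => decide (u = x) && decide (v = y)) [] w

/-- `J` is a labelled diagram of a link obtained by joining the links with the diagrams `d₁` and `d₂` -/
structure JD (d₁ d₂ : Wrd Unit) (J : Wrd (Col JC)) : Prop where
  run : Run [] J []
  split : ∃ z₁ z₂ : Wrd (Col JC), Run [] z₁ [] ∧ Run [] z₂ [] ∧ cups (fun x => p1 x = true) z₁ ∧
    cups (fun x => p2 x = true) z₂ ∧ Eqv [] (res p12 [] J) (z₁ ++ z₂) ∧ LEq d₁ (fgt z₁) ∧ LEq d₂ (fgt z₂)
  ringr : LEq (fgt (res pr [] J)) O
  ringq : LEq (fgt (res pq [] J)) O
  ora : oc JC.r JC.a J % 2 = 1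
  oar : oc JC.a JC.r J % 2 = 1
  orc : oc JC.r JC.c J % 2 = 1
  ocr : oc JC.c JC.r J % 2 = 1
  oqb : oc JC.q JC.b J % 2 = 1
  obq : oc JC.b JC.q J % 2 = 1
  oqd : oc JC.q JC.d J % 2 = 1
  odq : oc JC.d JC.q J % 2 = 1

/-- `J` is a labelled diagram of the link consisting of a knot with the diagram `d` (label `true`) and a ring -/
structure KD (d : Wrd Unit) (J : Wrd (Col Bool)) : Prop where
  run : Run [] J []
  knot : LEq d (fgt (res (fun x : Col Bool => x) [] J))
  ring : LEq (fgt (res (fun x : Col Bool => !x) [] J)) O

theorem pairs_oc {κ : Type} [DecidableEq κ] {x y : κ} (h : x ≠ y) :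
    Pairs (X := Col κ) fun u v => decide (u = x) && decide (v = y) where
  bar1 _ _ := rfl
  bar2 _ _ := rfl
  act1 _ _ _ := rfl
  act2 _ _ _ := rfl
  self z := by
    by_cases h1 : z = x
    · subst h1
      have : ¬ (z = y) := h
      simp [this]
    · simp [h1]

/-- the parities of the crossing counts are invariant -/
theorem oc_eqv {κ : Type} [DecidableEq κ] {x y : κ} (h : x ≠ y) {w w' : Wrd (Col κ)} (hw : Run [] w []) (he : Eqv [] w w') :
    oc x y w % 2 = oc x y w' % 2 := he.cnt (pairs_oc h) hw

end Pool.Agent.KL
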