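import Pool.Agent.Lib_MP_7c418e_gt.KTor

/-!
# A prime link obtained from a prime knot by adding a ring

Let `d` be a diagram of a prime knot with labels in a group `G` which do not all commute, and let `H = ℤ × G` (the first component is the orientation). There is
a crossing with noncommuting labels `x`, `y`. Add a ring around these two strands, with holonomy `h = x * y` or `h = x * y⁻¹` whose first component is trivial. The link
`J` of the knot and the ring has no labels with the given labels of the knot and with labels of the ring in the `H`-set `H`, because `h ≠ 1`. If `J` were split, or a sum in which the part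
of the knot in the tangle with the ring is trivial, then there would be such labels.
-/

set_option autoImplicit false
set_option linter.unusedVariables false
set_option linter.unusedSectionVars false
set_option linter.unusedSimpArgs false

universe u v w

namespace Pool.Agent.KL

open Kind

/-! ### The two kinds of rings -/

/-- the ring -/
def rgb {X : Type u} (b : Bool) (x : X) : Wrd X := if b then rgp x else rga x

/-- the holonomy around the ring -/
def hl {H : Type u} [Group H] (b : Bool) (x y : H) : H := if b then x * y else x * y⁻¹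

section

variable {H : Type u} {Y : Type v} [Group H] [MulAction H Y]

theorem hol_b {b : Bool} {x y : H} {t : Y} {s u : List (TR H Y)} (h : Run (kn x :: kn y :: s) (rgb b (ri t)) u) :
    hl b x y • t = t := by
  cases b
  · exact hol_a h
  · exact hol_p h

theorem run_rgb {b : Bool} {x y : H} {t : Y} (h : hl b x y • t = t) :
    Run [kn x, kn y] (rgb b (ri t)) [(kn x : TR H Y), kn y] := by
  cases b
  · exact run_rga h
  · exact run_rgp h

theorem wmap_rgb {X : Type u} {Z : Type v} (f : X → Z) (b : Bool) (x : X) : wmap f (rgb b x) = rgb b (f x) := by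
  cases b <;> rfl

theorem ncr_rgb {X : Type u} (b : Bool) (x : X) : ncr (rgb b x) = 4 := by cases b <;> rfl

theorem rgb_of_wmap {X : Type u} {Z : Type v} {f : X → Z} {b : Bool} {z : Z} {r : Wrd X} (h : wmap f r = rgb b z) :
    ∃ x, f x = z ∧ r = rgb b x := by
  cases b
  · unfold rgb rga at h
    simp only [Bool.false_eq_true, if_false, wmap_eq_cons, wmap_eq_nil, kmap_eq_cup, kmap_eq_cap, kmap_eq_pos, kmap_eq_neg] at h
    obtain ⟨_, _, rfl, ⟨x, rfl, hx⟩, _, _, rfl, rfl, _, _, rfl, rfl, _, _, rfl, rfl, _, _, rfl, rfl, _, _, rfl, rfl, rfl⟩ := h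
    exact ⟨x, hx, rfl⟩
  · unfold rgb rgp at h
    simp only [if_true, wmap_eq_cons, wmap_eq_nil, kmap_eq_cup, kmap_eq_cap, kmap_eq_pos, kmap_eq_neg] at h
    obtain ⟨_, _, rfl, ⟨x, rfl, hx⟩, _, _, rfl, rfl, _, _, rfl, rfl, _, _, rfl, rfl, _, _, rfl, rfl, _, _, rfl, rfl, rfl⟩ := h
    exact ⟨x, hx, rfl⟩

theorem res_rgb_K {b : Bool} {x y : H} {t : Y} : res isK [(kn x : TR H Y), kn y] (rgb b (ri t)) = [] := by
  cases b
  · simp [rgb, rga]
  · simp [rgb, rgp]

theorem res_rgb_R {b : Bool} {x y : H} {t : Y} : res (fun z : TR H Y => !(isK z)) [(kn x : TR H Y), kn y] (rgb b (ri t)) =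
    [(cup (ri t), 0), (cap, 0)] := by
  cases b
  · simp [rgb, rga]
  · simp [rgb, rgp]

end

/-! ### Sets on which the group acts -/

/-- one point -/
def NY : Type := Unit

instance (H : Type u) [Group H] : MulAction H NY where
  smul _ t := t
  one_smul _ := rfl
  mul_smul _ _ _ := rfl

/-- the group `ℤ × G` -/
abbrev HG (G : Type u) : Type u := Multiplicative ℤ × G

/-- the integers, with the action of the first component -/
def ZY : Type := Multiplicative ℤ

instance (G : Type u) [Group G] : MulAction (HG G) ZY where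
  smul h n := (h.1 * (show Multiplicative ℤ from n) : Multiplicative ℤ)
  one_smul n := one_mul (show Multiplicative ℤ from n)
  mul_smul a b n := mul_assoc a.1 b.1 (show Multiplicative ℤ from n)

theorem smul_ZY {G : Type u} [Group G] (h : HG G) (n : Multiplicative ℤ) : h • (show ZY from n) = (show ZY from (h.1 * n)) := rfl

section Main

variable {G : Type} [Group G]

/-- forget the label of the ring -/
def toN (Y : Type) [MulAction (HG G) Y] : RHom (TR (HG G) Y) (TR (HG G) NY) :=
  chY (H := HG G) (Y := Y) (Z := NY) (fun _ => ()) fun _ _ => rfl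

/-- the labels of the knot -/
def kt (Y : Type) (g : Cj (HG G)) : TR (HG G) Y := kn (H := HG G) g

/-- the labels of the knot -/
def ktH (Y : Type) [MulAction (HG G) Y] : RHom (Cj (HG G)) (TR (HG G) Y) := ⟨kt Y, fun _ => rfl, fun _ _ => rfl⟩

@[simp] theorem ktH_toFun (Y : Type) [MulAction (HG G) Y] : (ktH (G := G) Y).toFun = kt Y := rfl

@[simp] theorem toN_kn (Y : Type) [MulAction (HG G) Y] (g : HG G) : (toN Y).toFun (kn g) = kn g := rfl
@[simp] theorem toN_ri (Y : Type) [MulAction (HG G) Y] (t : Y) : (toN (G := G) Y).toFun (ri t) = ri () := rfl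

theorem toN_eq_kn {Y : Type} [MulAction (HG G) Y] {z : TR (HG G) Y} {g : HG G} (h : (toN Y).toFun z = kn g) : z = kn g := by
  rcases TR.cases z with ⟨k, rfl⟩ | ⟨t, rfl⟩
  · rw [toN_kn] at h
    rw [kn_inj h]
  · exact absurd h.symm kn_ne_ri

variable (G) in
/-- the data of the ring: a labelled diagram `u ++ v` of the knot and the level where the ring is inserted -/
structure RD where
  (u v : Wrd (Cj (HG G)))
  (a b : List (Cj (HG G)))
  (x y : Cj (HG G))
  (c : Bool)
  hu : Run [] u (a ++ x :: y :: b)
  hv : Run (a ++ x :: y :: b) v []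
  hxy : x * y ≠ y * x
  h1 : (hl (H := HG G) c x y).1 = 1

namespace RD

variable (D : RD G)

/-- the link with labels; the ring has the label `t` -/
def J {Y : Type} [MulAction (HG G) Y] (t : Y) : Wrd (TR (HG G) Y) :=
  wmap (ktH (G := G) Y).toFun D.u ++ (sh D.a.length (rgb D.c (ri t)) ++ wmap (ktH (G := G) Y).toFun D.v)

/-- the level with the ring -/
def lev (Y : Type) : List (TR (HG G) Y) := D.a.map (kt Y) ++ kt Y D.x :: kt Y D.y :: D.b.map (kt Y)

theorem run_u (Y : Type) [MulAction (HG G) Y] : Run [] (wmap (ktH (G := G) Y).toFun D.u) (D.lev Y) := by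
  have := D.hu.map (ktH (G := G) Y)
  simpa [lev] using this

theorem run_v (Y : Type) [MulAction (HG G) Y] : Run (D.lev Y) (wmap (ktH (G := G) Y).toFun D.v) [] := by
  have := D.hv.map (ktH (G := G) Y)
  simpa [lev] using this

theorem run_r {Y : Type} [MulAction (HG G) Y] {t : Y} (h : hl (H := HG G) D.c D.x D.y • t = t) :
    Run (D.lev Y) (sh D.a.length (rgb D.c (ri t))) (D.lev Y) := by
  have h2 : Run [kt Y D.x, kt Y D.y] (rgb D.c (ri t)) [kt Y D.x, kt Y D.y] := run_rgb h
  have := h2.mid (D.a.map (kt Y)) (D.b.map (kt Y))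
  simpa [lev] using this

theorem run_J {Y : Type} [MulAction (HG G) Y] {t : Y} (h : hl (H := HG G) D.c D.x D.y • t = t) : Run [] (D.J t) [] :=
  (D.run_u Y).append ((D.run_r h).append (D.run_v Y))

theorem run_JN : Run [] (D.J (Y := NY) ()) [] := D.run_J rfl

theorem run_JZ : Run [] (D.J (Y := ZY) (show ZY from (1 : Multiplicative ℤ))) [] := by
  refine D.run_J ?_
  rw [smul_ZY, D.h1, one_mul]

theorem map_J {Y : Type} [MulAction (HG G) Y] (t : Y) : wmap (toN (G := G) Y).toFun (D.J t) = D.J (Y := NY) () := by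
  have e : ∀ w : Wrd (Cj (HG G)), wmap (toN (G := G) Y).toFun (wmap (ktH (G := G) Y).toFun w) =
      wmap (ktH (G := G) NY).toFun w := by
    intro w
    rw [wmap, wmap, wmap, List.map_map]
    apply List.map_congr_left
    rintro ⟨k, i⟩ _
    cases k <;> rfl
  rw [J, J, wmap_append, wmap_append, wmap_sh, wmap_rgb, e, e]
  rfl

/-- there are no labels of the ring in the `H`-set `H` -/
theorem no_T {J' : Wrd (TR (HG G) (HG G))} (h : wmap (toN (G := G) (HG G)).toFun J' = D.J (Y := NY) ()) : ¬ Run [] J' [] := by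
  intro hr
  obtain ⟨u', w', rfl, hu', hw'⟩ := wmap_eq_append.1 h
  obtain ⟨r', v', rfl, hr', hv'⟩ := wmap_eq_append.1 hw'
  obtain ⟨r'', rfl, hr''⟩ := wmap_eq_sh.1 hr'
  obtain ⟨z, hz, rfl⟩ := rgb_of_wmap hr''
  have hz' : ∃ t : HG G, z = ri t := by
    rcases TR.cases z with ⟨k, rfl⟩ | ⟨t, rfl⟩
    · exact absurd hz kn_ne_ri
    · exact ⟨t, rfl⟩
  obtain ⟨t, rfl⟩ := hz'
  obtain ⟨s, h1, h2⟩ := hr.of_append
  have h3 : D.lev NY = s.map (toN (G := G) (HG G)).toFun := by
    refine h1.of_map (toN (G := G) (HG G)) ?_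
    rw [hu']
    exact D.run_u NY
  obtain ⟨s1, s2, rfl, h4, h5⟩ := List.map_eq_append_iff.1 h3.symm
  obtain ⟨x', s3, rfl, h6, h7⟩ := List.map_eq_cons_iff.1 h5
  obtain ⟨y', s4, rfl, h8, h9⟩ := List.map_eq_cons_iff.1 h7
  have hx : x' = kn (H := HG G) D.x := toN_eq_kn h6
  have hy : y' = kn (H := HG G) D.y := toN_eq_kn h8
  subst hx hy
  obtain ⟨s5, h10, h11⟩ := h2.of_append
  have hl1 : D.a.length = s1.length := by
    have := congrArg List.length h4
    simpa using this.symm
  rw [hl1] at h10
  obtain ⟨s6, -, h12⟩ := Run.left_inv s1 h10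
  have h13 := hol_b h12
  have h14 : hl (H := HG G) D.c D.x D.y = 1 := by
    rw [smul_eq_mul] at h13
    exact mul_eq_right.1 h13
  apply D.hxy
  unfold hl at h14
  split at h14
  · have h15 : D.y = D.x⁻¹ := (mul_eq_one_iff_inv_eq.1 h14).symm
    rw [h15]
    group
  · have h15 : D.x = D.y := by
      have := mul_inv_eq_one.1 h14
      exact this
    rw [h15]

/-- there is no equivalent word with labels in the `H`-set `H` -/
theorem no_T' {w : Wrd (TR (HG G) (HG G))} (hw : Run [] w []) (h : Eqv [] (D.J (Y := NY) ()) (wmap (toN (G := G) (HG G)).toFun w)) :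
    False := by
  obtain ⟨J', h1, -, h2⟩ := Eqv.lift (toN (G := G) (HG G)) hw h.symm
  exact D.no_T h1 h2

/-- labels of the ring constant, not linked with the knot -/
def F0 : TR (HG G) NY → TR (HG G) (HG G) := Sum.map id fun _ => 1

theorem toN_F0 (w : Wrd (TR (HG G) NY)) : wmap (toN (G := G) (HG G)).toFun (wmap F0 w) = w := by
  rw [wmap, wmap, List.map_map]
  conv_rhs => rw [← List.map_id w]
  apply List.map_congr_left
  rintro ⟨k, i⟩ _
  cases k with
  | cup z => rcases z with g | t <;> rfl
  | cap => rfl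
  | pos => rfl
  | neg => rfl

theorem F0_K {A : Wrd (TR (HG G) NY)} {s t : List (TR (HG G) NY)} (h : Run s A t) (hs : ∀ z ∈ s, isK z = true)
    (hA : cups (fun z => isK z = true) A) : Run (s.map F0) (wmap F0 A) (t.map F0) := by
  refine Run.map_on (S := fun z => isK z = true) F0 ?_ ?_ (keeps_K.subR true) h hs hA
  · intro z hz
    rcases z with g | t
    · rfl
    · cases hz
  · intro a z ha hz
    rcases a with a | a
    · rcases z with g | t
      · rfl
      · cases hz
    · cases ha

theorem F0_R {A : Wrd (TR (HG G) NY)} (h : Run [] A []) (hA : cups (fun z => isK z = false) A) :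
    Run [] (wmap F0 A) [] := by
  refine Run.map_on (S := fun z => isK z = false) F0 ?_ ?_ (keeps_K.subR false) h (by simp) hA
  · intro z hz
    rcases z with g | t
    · cases hz
    · rfl
  · intro a z ha hz
    rcases a with a | a
    · cases ha
    · rcases z with g | t
      · cases hz
      · rfl

/-- the link is not split -/
theorem no_split {A B : Wrd (TR (HG G) NY)} (hA : Run [] A []) (hB : Run [] B []) (h : Eqv [] (D.J (Y := NY) ()) (A ++ B))
    (h1 : cups (fun z => isK z = true) A ∧ cups (fun z => isK z = false) B ∨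
      cups (fun z => isK z = false) A ∧ cups (fun z => isK z = true) B) : False := by
  refine D.no_T' (w := wmap F0 A ++ wmap F0 B) ?_ ?_
  · rcases h1 with ⟨h1, h2⟩ | ⟨h1, h2⟩
    · exact (F0_K hA (by simp) h1).append (F0_R hB h2)
    · exact (F0_R hA h1).append (F0_K hB (by simp) h2)
  · rw [wmap_append, toN_F0, toN_F0]
    exact h

/-- labels of the ring in `H` from labels in `ℤ` -/
def F1 (φ : Multiplicative ℤ →* HG G) : TR (HG G) ZY → TR (HG G) (HG G) := Sum.map id fun n => φ n

theorem toN_F1 (φ : Multiplicative ℤ →* HG G) (w : Wrd (TR (HG G) ZY)) :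
    wmap (toN (G := G) (HG G)).toFun (wmap (F1 φ) w) = wmap (toN (G := G) ZY).toFun w := by
  rw [wmap, wmap, wmap, List.map_map]
  apply List.map_congr_left
  rintro ⟨k, i⟩ _
  cases k with
  | cup z => rcases z with g | t <;> rfl
  | cap => rfl
  | pos => rfl
  | neg => rfl

/-- the labels of the knot are in the image of `φ` -/
def Im (φ : Multiplicative ℤ →* HG G) {Y : Type} (z : TR (HG G) Y) : Prop := ∀ k : HG G, z = kn k → k = φ k.1

theorem subR_Im (φ : Multiplicative ℤ →* HG G) {Y : Type} [MulAction (HG G) Y] : SubR (Im φ (Y := Y)) where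
  sbar z hz := by
    rcases TR.cases z with ⟨g, rfl⟩ | ⟨t, rfl⟩
    · intro k hk
      rw [bar_kn] at hk
      have h1 := kn_inj hk
      have h2 := hz g rfl
      rw [← h1, Prod.fst_inv, map_inv, ← h2]
    · intro k hk
      exact absurd hk.symm kn_ne_ri
  sact a z ha hz := by
    rcases TR.cases a with ⟨a, rfl⟩ | ⟨a, rfl⟩
    · rcases TR.cases z with ⟨g, rfl⟩ | ⟨t, rfl⟩
      · intro k hk
        rw [act_kn_kn] at hk
        have h1 := kn_inj hk
        have h2 := hz g rfl
        have h3 := ha a rfl
        rw [← h1, Prod.fst_mul, Prod.fst_mul, Prod.fst_inv, map_mul, map_mul, map_inv, ← h2, ← h3]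
      · intro k hk
        exact absurd hk.symm kn_ne_ri
    · exact hz

theorem F1_run (φ : Multiplicative ℤ →* HG G) {A : Wrd (TR (HG G) ZY)} {s t : List (TR (HG G) ZY)} (h : Run s A t)
    (hs : ∀ z ∈ s, Im φ z) (hA : cups (Im φ) A) : Run (s.map (F1 φ)) (wmap (F1 φ) A) (t.map (F1 φ)) := by
  refine Run.map_on (S := Im φ) (F1 φ) ?_ ?_ (subR_Im φ) h hs hA
  · intro z hz
    rcases z with g | t <;> rfl
  · intro a z ha hz
    rcases a with a | a
    · rcases z with g | t
      · rfl
      · have h1 := ha a rfl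
        refine congrArg Sum.inr ?_
        change φ (a.1 * (show Multiplicative ℤ from t)) = a * φ (show Multiplicative ℤ from t)
        rw [map_mul, ← h1]
    · rfl

theorem F1_run' (φ : Multiplicative ℤ →* HG G) {A : Wrd (TR (HG G) ZY)} {s t : List (TR (HG G) ZY)} (h : Run s A t)
    (hs : ∀ z ∈ s, isK z = true) (hA : cups (fun z => isK z = true) A) :
    Run (s.map (F1 φ)) (wmap (F1 φ) A) (t.map (F1 φ)) := by
  refine Run.map_on (S := fun z => isK z = true) (F1 φ) ?_ ?_ (keeps_K.subR true) h hs hA
  · intro z hz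
    rcases z with g | t <;> rfl
  · intro a z ha hz
    rcases a with a | a
    · rcases z with g | t
      · rfl
      · cases hz
    · cases ha

/-- no decomposition as a sum in which, in each of the two tangles, there is no ring or the labels of the knot are in the image of `φ` -/
theorem no_sum (φ : Multiplicative ℤ →* HG G) {g : HG G} (hg : g = φ g.1) {S T : Wrd (TR (HG G) NY)} (hS : Run [kn g] S [kn g])
    (hT : Run [kn g] T [kn g]) (h : Eqv [] (D.J (Y := NY) ()) (clox (kn g) (S ++ T)))
    (h1 : cups (fun z => isK z = true) S ∨ cups (Im φ) S) (h2 : cups (fun z => isK z = true) T ∨ cups (Im φ) T) : False := by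
  -- lift the labels of the ring in `ℤ`
  obtain ⟨K, h3, h4, h5⟩ := Eqv.lift (toN (G := G) ZY) (v := clox (kn g) (S ++ T)) D.run_JZ (by
    rw [D.map_J]
    exact h)
  rw [clox, wmap_eq_cons] at h3
  obtain ⟨k', K', rfl, h6, h7⟩ := h3
  obtain ⟨z, rfl, h8⟩ := kmap_eq_cup.1 h6
  have hz := toN_eq_kn h8
  subst hz
  obtain ⟨ST', C', rfl, h9, h10⟩ := wmap_eq_append.1 h7
  obtain ⟨S', T', rfl, h11, h12⟩ := wmap_eq_append.1 h9
  obtain ⟨k', C'', rfl, h13, h14⟩ := wmap_eq_cons.1 h10
  have h15 := wmap_eq_nil.1 h14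
  subst h15
  have h16 := kmap_eq_cap.1 h13
  subst h16
  have h17 : Run [kn g, bar (kn g)] (S' ++ T' ++ [(cap, 0)]) ([] : List (TR (HG G) ZY)) := by
    rw [run_cons] at h5
    obtain ⟨t, h18, h19⟩ := h5
    rw [app_cup] at h18
    subst h18
    exact h19
  -- the labels above `S'`
  have key : ∀ (A : Wrd (TR (HG G) ZY)) (A0 : Wrd (TR (HG G) NY)) (t : List (TR (HG G) ZY)), wmap (toN (G := G) ZY).toFun A = A0 →
      Run [kn g] A0 [kn g] → Run ([kn g] ++ [kn g⁻¹]) A t → Run [kn g] A [kn g] ∧ t = [kn g] ++ [kn g⁻¹] := by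
    intro A A0 t hA0 hr hA
    -- the word acts on the first strand only
    have gen : ∀ (A : Wrd (TR (HG G) ZY)) (s : List (TR (HG G) ZY)) (m : List (TR (HG G) NY)) (t : List (TR (HG G) ZY)),
        Run (s.map (toN (G := G) ZY).toFun) (wmap (toN (G := G) ZY).toFun A) m → Run (s ++ [kn g⁻¹]) A t →
        ∃ u, t = u ++ [kn g⁻¹] ∧ Run s A u := by
      intro A
      induction A with
      | nil =>
        intro s m t _ h
        rw [run_nil] at h
        exact ⟨s, h.symm, Run.nil s⟩
      | cons l A ih =>
        obtain ⟨k, i⟩ := l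
        intro s m t h h'
        rw [wmap_cons] at h
        cases h with
        | cons g1 g2 =>
          cases h' with
          | cons k1 k2 =>
            have h13 : i + k.win ≤ s.length := by
              have := g1.le
              simpa using this
            obtain ⟨u, rfl, h14⟩ := App.right_inv h13 k1
            have h15 := h14.map (toN (G := G) ZY)
            have h16 := g1.det h15
            subst h16
            obtain ⟨v, rfl, h17⟩ := ih u m t g2 k2
            exact ⟨v, rfl, Run.cons h14 h17⟩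
    obtain ⟨u, rfl, hu⟩ := gen A [kn g] [kn g] t (by rw [hA0]; exact hr) hA
    have h18 := hu.map (toN (G := G) ZY)
    rw [hA0] at h18
    have h19 := h18.det hr
    obtain ⟨z, u', rfl, h20, h21⟩ := List.map_eq_cons_iff.1 h19
    have h22 := toN_eq_kn h20
    subst h22
    have h23 : u' = [] := by simpa using h21
    subst h23
    exact ⟨hu, rfl⟩
  obtain ⟨t, h18, h19⟩ := h17.of_append
  obtain ⟨t', h20, h21⟩ := h18.of_append
  obtain ⟨r1, rfl⟩ := key S' S t' h11 hS h20
  obtain ⟨r2, rfl⟩ := key T' T t h12 hT h21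
  -- labels in `H`
  have hgen : ∀ {A : Wrd (TR (HG G) ZY)} {A0 : Wrd (TR (HG G) NY)}, wmap (toN (G := G) ZY).toFun A = A0 → Run [kn g] A [kn g] →
      (cups (fun z => isK z = true) A0 ∨ cups (Im φ) A0) → Run [(kn g : TR (HG G) (HG G))] (wmap (F1 φ) A) [kn g] := by
    intro A A0 hA0 hr hc
    rcases hc with hc | hc
    · rw [← hA0, cups_wmap] at hc
      refine F1_run' φ hr ?_ ?_
      · intro z hz
        rw [List.mem_singleton] at hz
        rw [hz]
        rfl
      · exact cups_mono hc fun z hz => by rcases z with k | t <;> exact hz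
    · rw [← hA0, cups_wmap] at hc
      refine F1_run φ hr ?_ ?_
      · intro z hz k hk
        rw [List.mem_singleton] at hz
        rw [hz] at hk
        rw [← kn_inj hk]
        exact hg
      · refine cups_mono hc fun z hz => ?_
        intro k hk
        exact hz k (by rw [hk]; rfl)
  have r3 := run_clox ((hgen h11 r1 h1).append (hgen h12 r2 h2))
  refine D.no_T' r3 ?_
  have h22 : wmap (toN (G := G) (HG G)).toFun (clox (kn g) (wmap (F1 φ) S' ++ wmap (F1 φ) T')) = clox (kn g) (S ++ T) := by
    simp only [clox, wmap_cons, wmap_append, toN_F1, h11, h12]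
    rfl
  rw [h22]
  exact h

end RD

end Main

end Pool.Agent.KL
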