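import Pool.Agent.Lib_MP_7c418e_gt.Basic

/-!
# Orientations
-/

set_option autoImplicit false

universe u v

namespace Pool.Agent.KL

open Kind

/-- labels by orientations: `true` for strands which go up -/
def Or : Type := Bool

instance : DecidableEq Or := inferInstanceAs (DecidableEq Bool)

instance : Rule Or where
  bar x := !x
  act _ x := x
  bar_bar x := Bool.not_not x
  act_self _ := rfl
  act_bar _ _ := rfl
  bar_act _ _ := rfl
  act_act _ _ _ := rfl

/-- names with a direction -/
def OrE : Type := ℕ × Bool

instance : DecidableEq OrE := inferInstanceAs (DecidableEq (ℕ × Bool))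

instance : Rule OrE where
  bar x := (x.1, !x.2)
  act _ x := x
  bar_bar x := Prod.ext rfl (Bool.not_not x.2)
  act_self _ := rfl
  act_bar _ _ := rfl
  bar_act _ _ := rfl
  act_act _ _ _ := rfl

theorem orE_bar_ne (x : OrE) : bar x ≠ x := by
  intro h
  have h1 : (!x.2) = x.2 := congrArg Prod.snd h
  cases h2 : x.2 <;> rw [h2] at h1 <;> exact absurd h1 (by decide)

theorem orE_bar_inj {x y : OrE} (h : bar x = bar y) : x = y := by
  rw [← bar_bar x, h, bar_bar]

/-- the direction -/
def orDir : RHom OrE Or := ⟨fun x => x.2, fun _ => rfl, fun _ _ => rfl⟩

/-- the homomorphism that sends `f` to `bar e` and `bar f` to `e` -/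
def orGlue (e f : OrE) : RHom OrE OrE where
  toFun x := if x = f then bar e else if x = bar f then e else x
  map_bar x := by
    by_cases h1 : x = f
    · subst h1
      rw [if_neg (orE_bar_ne x), if_pos rfl, if_pos rfl, bar_bar]
    · by_cases h2 : x = bar f
      · subst h2
        rw [bar_bar, if_pos rfl, if_neg (orE_bar_ne f), if_pos rfl]
      · have h3 : bar x ≠ f := fun h => h2 (by rw [← h, bar_bar])
        have h4 : bar x ≠ bar f := fun h => h1 (orE_bar_inj h)
        rw [if_neg h3, if_neg h4, if_neg h1, if_neg h2]
  map_act _ _ := rfl

/-- splitting a list at a position -/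
theorem or_split {X : Type u} (t : List X) {i : ℕ} (h : i + 2 ≤ t.length) :
    ∃ (a b : List X) (e f : X), t = a ++ e :: f :: b ∧ a.length = i := by
  have h1 : (t.drop i).length = t.length - i := List.length_drop
  match h2 : t.drop i with
  | [] =>
    rw [h2] at h1
    simp at h1
    omega
  | [e] =>
    rw [h2] at h1
    simp at h1
    omega
  | e :: f :: b =>
    refine ⟨t.take i, b, e, f, ?_, ?_⟩
    · rw [← h2, List.take_append_drop]
    · rw [List.length_take]
      omega

theorem or_len {X : Type u} [Rule X] {w : Wrd X} {t : List X} {s : List Unit} (h : Run [] w t)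
    (h' : Run [] (fgt w) s) : t.length = s.length := by
  have h1 := h.map (fgtHom (X := X))
  rw [List.map_nil] at h1
  have h2 : wmap (fgtHom (X := X)).toFun w = fgt w := (fgt_eq w).symm
  rw [h2] at h1
  have h3 := h1.det h'
  rw [← h3, List.length_map]

/-- the claim of the paper proof -/
theorem or_claim (d : Wrd Unit) : ∀ s, Run [] d s → ∃ (w : Wrd OrE) (t : List OrE), fgt w = d ∧
    Run [] w t ∧ t.Nodup ∧ ∀ e ∈ t, bar e ∈ t := by
  induction d using List.reverseRecOn with
  | nil =>
    intro s _
    exact ⟨[], [], rfl, Run.nil _, List.nodup_nil, fun e he => absurd he (by simp)⟩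
  | append_singleton d l ih =>
    intro s hs
    obtain ⟨k, i⟩ := l
    obtain ⟨s', h1, h2⟩ := Run.of_append hs
    rw [run_one] at h2
    obtain ⟨w, t, hw, hr, hn, hb⟩ := ih s' h1
    have hlen : t.length = s'.length := or_len hr (by rw [hw]; exact h1)
    have hle := h2.le
    cases k with
    | cup x =>
      simp only [win_cup, add_zero] at hle
      -- a new name
      obtain ⟨N, hN⟩ : ∃ N : ℕ, ∀ e ∈ t, e.1 < N := by
        refine ⟨(t.map fun e => e.1).sum + 1, fun e he => ?_⟩
        have : e.1 ≤ (t.map fun e => e.1).sum :=
          List.single_le_sum (fun _ _ => Nat.zero_le _) _ (List.mem_map.2 ⟨e, he, rfl⟩)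
        omega
      let x' : OrE := (N, false)
      have hx1 : x' ∉ t := fun h => lt_irrefl N (hN x' h)
      have hx2 : bar x' ∉ t := fun h => lt_irrefl N (hN (bar x') h)
      have happ : App (cup x') i t (t.take i ++ x' :: bar x' :: t.drop i) := by
        have h3 := (App.cup x' (t.drop i)).left (t.take i)
        rw [List.take_append_drop, List.length_take, zero_add, min_eq_left (by omega)] at h3
        exact h3
      have hperm : (t.take i ++ x' :: bar x' :: t.drop i).Perm (x' :: bar x' :: t) := by
        have h3 : (t.take i ++ x' :: bar x' :: t.drop i).Perm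
            (x' :: bar x' :: (t.take i ++ t.drop i)) := by
          refine List.perm_middle.trans (List.Perm.cons _ ?_)
          exact List.perm_middle
        rwa [List.take_append_drop] at h3
      refine ⟨w ++ [(cup x', i)], _, ?_, hr.append (run_one.2 happ), ?_, ?_⟩
      · rw [fgt_append, hw]
        rfl
      · rw [hperm.nodup_iff]
        refine List.nodup_cons.2 ⟨?_, List.nodup_cons.2 ⟨hx2, hn⟩⟩
        rw [List.mem_cons]
        rintro (h | h)
        · exact orE_bar_ne x' h.symm
        · exact hx1 h
      · intro e he
        rw [hperm.mem_iff] at he ⊢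
        rw [List.mem_cons, List.mem_cons] at he ⊢
        rcases he with rfl | rfl | he
        · exact Or.inr (Or.inl rfl)
        · exact Or.inl (bar_bar _)
        · exact Or.inr (Or.inr (hb e he))
    | cap =>
      simp only [win_cap] at hle
      obtain ⟨a, b, e, f, rfl, ha⟩ := or_split t (i := i) (by omega)
      -- the elements of the list
      have hmem : ∀ g, g ∈ a ++ e :: f :: b ↔ g = e ∨ g = f ∨ g ∈ a ++ b := by
        intro g
        simp only [List.mem_append, List.mem_cons]
        tauto
      have hperm : (a ++ e :: f :: b).Perm (e :: f :: (a ++ b)) :=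
        List.perm_middle.trans (List.Perm.cons _ List.perm_middle)
      rw [hperm.nodup_iff, List.nodup_cons, List.nodup_cons] at hn
      obtain ⟨hn1, hn2, hn3⟩ := hn
      have hef : e ≠ f := fun h => hn1 (by rw [h]; exact List.mem_cons_self)
      have hea : e ∉ a ++ b := fun h => hn1 (List.mem_cons_of_mem _ h)
      by_cases hfe : f = bar e
      · -- nothing to change
        subst hfe
        refine ⟨w ++ [(cap, i)], a ++ b, ?_, hr.append (run_one.2 ?_), hn3, ?_⟩
        · rw [fgt_append, hw]
          rfl
        · have h3 := (App.cap e b).left a
          rw [zero_add, ha] at h3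
          exact h3
        · intro g hg
          have h3 := hb g ((hmem g).2 (Or.inr (Or.inr hg)))
          rcases (hmem _).1 h3 with h4 | h4 | h4
          · exfalso
            apply hn2
            rw [← h4, bar_bar]
            exact hg
          · exact absurd (orE_bar_inj h4 ▸ hg) hea
          · exact h4
      · have hef' : e ≠ bar f := fun h => hfe (by rw [h, bar_bar])
        have hbe : bar e ∈ a ++ b := by
          rcases (hmem _).1 (hb e ((hmem e).2 (Or.inl rfl))) with h4 | h4 | h4
          · exact absurd h4 (orE_bar_ne e)
          · exact absurd h4.symm hfe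
          · exact h4
        have hbf : bar f ∈ a ++ b := by
          rcases (hmem _).1 (hb f ((hmem f).2 (Or.inr (Or.inl rfl)))) with h4 | h4 | h4
          · exact absurd h4.symm hef'
          · exact absurd h4 (orE_bar_ne f)
          · exact h4
        let φ := orGlue e f
        have hφf : φ.toFun f = bar e := if_pos rfl
        have hφbf : φ.toFun (bar f) = e := by
          change (if bar f = f then bar e else if bar f = bar f then e else bar f) = e
          rw [if_neg (orE_bar_ne f), if_pos rfl]
        have hφ : ∀ g, g ≠ f → g ≠ bar f → φ.toFun g = g := by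
          intro g h3 h4
          change (if g = f then bar e else if g = bar f then e else g) = g
          rw [if_neg h3, if_neg h4]
        have hφe : φ.toFun e = e := hφ e hef hef'
        have hφbe : φ.toFun (bar e) = bar e :=
          hφ _ (fun h => hfe h.symm) (fun h => hef (orE_bar_inj h))
        have hrun := hr.map φ
        rw [List.map_nil, List.map_append, List.map_cons, List.map_cons, hφe, hφf] at hrun
        refine ⟨wmap φ.toFun w ++ [(cap, i)], (a ++ b).map φ.toFun, ?_,
          hrun.append (run_one.2 ?_), ?_, ?_⟩
        · rw [fgt_append, fgt_wmap, hw]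
          rfl
        · have h3 := (App.cap e (b.map φ.toFun)).left (a.map φ.toFun)
          rw [zero_add, List.length_map, ha] at h3
          rw [List.map_append]
          exact h3
        · refine List.Nodup.map_on ?_ hn3
          intro g hg g' hg' hgg
          have hgf : g ≠ f := fun h => hn2 (h ▸ hg)
          have hgf' : g' ≠ f := fun h => hn2 (h ▸ hg')
          have hge : g ≠ e := fun h => hea (h ▸ hg)
          have hge' : g' ≠ e := fun h => hea (h ▸ hg')
          by_cases h3 : g = bar f
          · by_cases h4 : g' = bar f
            · rw [h3, h4]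
            · rw [h3, hφbf, hφ g' hgf' h4] at hgg
              exact absurd hgg.symm hge'
          · by_cases h4 : g' = bar f
            · rw [h4, hφbf, hφ g hgf h3] at hgg
              exact absurd hgg hge
            · rwa [hφ g hgf h3, hφ g' hgf' h4] at hgg
        · intro h hh
          obtain ⟨g, hg, rfl⟩ := List.mem_map.1 hh
          rw [← φ.map_bar]
          rcases (hmem _).1 (hb g ((hmem g).2 (Or.inr (Or.inr hg)))) with h4 | h4 | h4
          · rw [h4, hφe]
            exact List.mem_map.2 ⟨_, hbf, hφbf⟩
          · rw [h4, hφf]
            exact List.mem_map.2 ⟨_, hbe, hφbe⟩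
          · exact List.mem_map.2 ⟨_, h4, rfl⟩
    | pos =>
      simp only [win_pos] at hle
      obtain ⟨a, b, e, f, rfl, ha⟩ := or_split t (i := i) (by omega)
      have hperm : (a ++ f :: e :: b).Perm (a ++ e :: f :: b) :=
        List.Perm.append_left a (List.Perm.swap _ _ _)
      refine ⟨w ++ [(pos, i)], a ++ f :: e :: b, ?_, hr.append (run_one.2 ?_), ?_, ?_⟩
      · rw [fgt_append, hw]
        rfl
      · have h3 := (App.pos e f b).left a
        rw [zero_add, ha] at h3
        exact h3
      · rwa [hperm.nodup_iff]
      · intro g hg
        rw [hperm.mem_iff] at hg ⊢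
        exact hb g hg
    | neg =>
      simp only [win_neg] at hle
      obtain ⟨a, b, e, f, rfl, ha⟩ := or_split t (i := i) (by omega)
      have hperm : (a ++ f :: e :: b).Perm (a ++ e :: f :: b) :=
        List.Perm.append_left a (List.Perm.swap _ _ _)
      refine ⟨w ++ [(neg, i)], a ++ f :: e :: b, ?_, hr.append (run_one.2 ?_), ?_, ?_⟩
      · rw [fgt_append, hw]
        rfl
      · have h3 := (App.neg e f b).left a
        rw [zero_add, ha] at h3
        exact h3
      · rwa [hperm.nodup_iff]
      · intro g hg
        rw [hperm.mem_iff] at hg ⊢
        exact hb g hg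

/-- all components of a link can be oriented. Paper proof: use labels in `E = ℕ × Bool` with `bar (n, b) = (n, !b)` and trivial `act` (a name and a direction). Claim: for every
`d` with `Run [] d s` there are a labelled word `w` (labels in `E`) and a list `t` with `fgt w = d`, `Run [] w t`, `t.Nodup` and `∀ e ∈ t, bar e ∈ t`.
Induction on `d` from the end (`List.reverseRecOn`): a minimum gets a new name; a crossing permutes `t`; for a maximum at positions `i`, `i + 1` with labels `e`, `f`: if `f = bar e` nothing has to
be changed; otherwise relabel everything by the homomorphism of rules `φ : E → E` which sends `f` to `bar e` and `bar f` to `e` and fixes all other labels (`Run.map`); after the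
maximum the remaining list (the image of `t` without the two entries) has again no duplicates and is closed under `bar` (it
contains `bar e` at the old place and `e` at the place of `bar f`). For `s = []` compose with `E → Or`, `(n, b) ↦ b`. -/
theorem exists_orientation {d : Wrd Unit} (hd : Closed d) : ∃ w : Wrd Or, fgt w = d ∧ Run [] w [] := by
  obtain ⟨w, t, hw, hr, _, _⟩ := or_claim d [] hd
  have hlen : t.length = 0 := or_len hr (s := []) (by rw [hw]; exact hd)
  have ht : t = [] := List.length_eq_zero_iff.1 hlen
  subst ht
  refine ⟨wmap orDir.toFun w, by rw [fgt_wmap, hw], hr.map orDir⟩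

end Pool.Agent.KL
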