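import Pool.Agent.Lib_MP_7c418e_gt.JTool
import Pool.Agent.Lib_MP_7c418e_gt.Ori

/-!
# Labels of a knot in a group and of a ring in a set on which the group acts
-/

set_option autoImplicit false
set_option linter.unusedVariables false
set_option linter.unusedSectionVars false

universe u v w

namespace Pool.Agent.KL

open Kind

/-! ### Zipping labelled words -/

/-- pairs of labels -/
def Pr (X : Type u) (Y : Type v) : Type (max u v) := X × Y

instance {X : Type u} {Y : Type v} [Rule X] [Rule Y] : Rule (Pr X Y) where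
  bar z := (bar z.1, bar z.2)
  act a z := (act a.1 z.1, act a.2 z.2)
  bar_bar z := Prod.ext (bar_bar z.1) (bar_bar z.2)
  act_self z := Prod.ext (act_self z.1) (act_self z.2)
  act_bar a z := Prod.ext (act_bar a.1 z.1) (act_bar a.2 z.2)
  bar_act a z := Prod.ext (bar_act a.1 z.1) (bar_act a.2 z.2)
  act_act a b z := Prod.ext (act_act a.1 b.1 z.1) (act_act a.2 b.2 z.2)

section Zip

variable {X : Type u} {Y : Type v} [Rule X] [Rule Y]

def prFst : RHom (Pr X Y) X := ⟨Prod.fst, fun _ => rfl, fun _ _ => rfl⟩
def prSnd : RHom (Pr X Y) Y := ⟨Prod.snd, fun _ => rfl, fun _ _ => rfl⟩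

/-- pairs of labels -/
def zp (s : List X) (s' : List Y) : List (Pr X Y) := List.zip s s'

theorem App.zip {k : Kind X} {k' : Kind Y} {i : ℕ} {s t : List X} {s' t' : List Y} (h : App k i s t) (h' : App k' i s' t')
    (hk : kmap (fun _ => ()) k = kmap (fun _ => ()) k') (hs : s.length = s'.length) :
    ∃ (k'' : Kind (Pr X Y)), kmap prFst.toFun k'' = k ∧ kmap prSnd.toFun k'' = k' ∧
      App k'' i (zp s s') (zp t t') ∧ t.length = t'.length := by
  induction h generalizing s' t' with
  | cup x s =>
    cases h' with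
    | cup y s' => exact ⟨Kind.cup (x, y), rfl, rfl, App.cup (X := Pr X Y) (x, y) _, by simpa using hs⟩
    | cap y s' => simp at hk
    | pos a b s' => simp at hk
    | neg a b s' => simp at hk
  | cap x s =>
    cases h' with
    | cup y s' => simp at hk
    | cap y s' => exact ⟨Kind.cap, rfl, rfl, App.cap (X := Pr X Y) (x, y) _, by simpa using hs⟩
    | pos a b s' => simp at hk
    | neg a b s' => simp at hk
  | pos a b s =>
    cases h' with
    | cup y s' => simp at hk
    | cap y s' => simp at hk
    | pos a' b' s' => exact ⟨Kind.pos, rfl, rfl, App.pos (X := Pr X Y) (a, a') (b, b') _, by simpa using hs⟩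
    | neg a b s' => simp at hk
  | neg a b s =>
    cases h' with
    | cup y s' => simp at hk
    | cap y s' => simp at hk
    | pos a b s' => simp at hk
    | neg a' b' s' => exact ⟨Kind.neg, rfl, rfl, App.neg (X := Pr X Y) (a, a') (b, b') _, by simpa using hs⟩
  | skip x h ih =>
    cases h' with
    | skip y h' =>
      obtain ⟨k'', h1, h2, h3, h4⟩ := ih h' hk (by simpa using hs)
      exact ⟨k'', h1, h2, App.skip (X := Pr X Y) (x, y) h3, by simpa using h4⟩

/-- two labelled words with the same diagram can be combined -/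
theorem Run.zip {w : Wrd X} {w' : Wrd Y} {s t : List X} {s' t' : List Y} (h : Run s w t) (h' : Run s' w' t')
    (hw : fgt w = fgt w') (hs : s.length = s'.length) :
    ∃ z : Wrd (Pr X Y), wmap prFst.toFun z = w ∧ wmap prSnd.toFun z = w' ∧
      Run (zp s s') z (zp t t') ∧ t.length = t'.length := by
  induction h generalizing w' s' with
  | nil s =>
    have := fgt_eq_nil hw.symm
    subst this
    rw [run_nil] at h'
    subst h'
    exact ⟨[], rfl, rfl, Run.nil _, hs⟩
  | @cons k i s t u w h _ ih =>
    rw [fgt_cons] at hw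
    obtain ⟨k', v', rfl, h1, h2⟩ := fgt_eq_cons' hw.symm
    cases h' with
    | cons g g' =>
      obtain ⟨k'', h3, h4, h5, h6⟩ := h.zip g h1.symm hs
      obtain ⟨z, h7, h8, h9, h10⟩ := ih g' h2.symm h6
      exact ⟨(k'', i) :: z, by rw [wmap_cons, h3, h7], by rw [wmap_cons, h4, h8], Run.cons h5 h9, h10⟩

theorem Run.zip_closed {w : Wrd X} {w' : Wrd Y} (h : Run [] w []) (h' : Run [] w' []) (hw : fgt w = fgt w') :
    ∃ z : Wrd (Pr X Y), wmap prFst.toFun z = w ∧ wmap prSnd.toFun z = w' ∧ Run [] z [] := by
  obtain ⟨z, h1, h2, h3, -⟩ := h.zip h' hw rfl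
  exact ⟨z, h1, h2, h3⟩

end Zip

/-! ### Maps which are homomorphisms on the used labels -/

section MapOn

variable {X : Type u} {Y : Type v} [Rule X] [Rule Y]

theorem App.map_on {S : X → Prop} (f : X → Y) (h1 : ∀ x, S x → f (bar x) = bar (f x))
    (h2 : ∀ a x, S a → S x → f (act a x) = act (f a) (f x)) (hS : SubR S) {k : Kind X} {i : ℕ} {s t : List X}
    (h : App k i s t) (hs : ∀ x ∈ s, S x) (hk : ∀ x, k = Kind.cup x → S x) : App (kmap f k) i (s.map f) (t.map f) := by
  induction h with
  | cup x s => simp only [kmap_cup, List.map_cons, h1 x (hk x rfl)]; exact App.cup _ _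
  | cap x s => simp only [kmap_cap, List.map_cons, h1 x (hs x (by simp))]; exact App.cap _ _
  | pos a b s => simp only [kmap_pos, List.map_cons, h2 a b (hs a (by simp)) (hs b (by simp))]; exact App.pos _ _ _
  | neg a b s =>
    simp only [kmap_neg, List.map_cons, h2 (bar b) a (hS.sbar _ (hs b (by simp))) (hs a (by simp)), h1 b (hs b (by simp))]
    exact App.neg _ _ _
  | skip x h ih => exact App.skip _ (ih (fun y hy => hs y (by simp [hy])) hk)

theorem Run.map_on {S : X → Prop} (f : X → Y) (h1 : ∀ x, S x → f (bar x) = bar (f x))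
    (h2 : ∀ a x, S a → S x → f (act a x) = act (f a) (f x)) (hS : SubR S) {w : Wrd X} {s t : List X}
    (h : Run s w t) (hs : ∀ x ∈ s, S x) (hw : cups S w) : Run (s.map f) (wmap f w) (t.map f) := by
  induction h with
  | nil s => exact Run.nil _
  | @cons k i s t u w h _ ih =>
    have hk : ∀ x, k = Kind.cup x → S x := fun x hx => hw x i (by simp [hx])
    exact Run.cons (h.map_on f h1 h2 hS hs hk) (ih (h.mem_of hS hs hk) (cups_tail hw))

end MapOn

/-! ### Labels of knots and rings -/

/-- labels in a group `H` (for a knot) or in an `H`-set `Y` (for a ring) -/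
def TR (H : Type u) (Y : Type v) : Type (max u v) := H ⊕ Y

section TR

variable {H : Type u} {Y : Type v} [Group H] [MulAction H Y]

/-- labels of the knot -/
def kn (g : H) : TR H Y := Sum.inl g
/-- labels of the ring -/
def ri (t : Y) : TR H Y := Sum.inr t

theorem kn_inj {g h : H} (e : (kn g : TR H Y) = kn h) : g = h := Sum.inl.inj e
theorem ri_inj {g h : Y} (e : (ri g : TR H Y) = ri h) : g = h := Sum.inr.inj e
theorem kn_ne_ri {g : H} {t : Y} : (kn g : TR H Y) ≠ ri t := Sum.inl_ne_inr

theorem TR.cases (z : TR H Y) : (∃ g, z = kn g) ∨ ∃ t, z = ri t := by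
  rcases z with g | t
  · exact Or.inl ⟨g, rfl⟩
  · exact Or.inr ⟨t, rfl⟩

instance : Rule (TR H Y) where
  bar z := Sum.map (fun g => g⁻¹) id z
  act a z := Sum.elim (fun a => Sum.map (fun b => a * b * a⁻¹) (fun t => a • t) z) (fun _ => z) a
  bar_bar z := by
    rcases z with g | t
    · exact congrArg Sum.inl (inv_inv g)
    · rfl
  act_self z := by
    rcases z with g | t
    · exact congrArg Sum.inl (mul_inv_cancel_right g g)
    · rfl
  act_bar a z := by
    rcases a with a | a <;> rcases z with g | t
    · refine congrArg Sum.inl ?_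
      group
    · rfl
    · rfl
    · rfl
  bar_act a z := by
    rcases a with a | a <;> rcases z with g | t
    · refine congrArg Sum.inl ?_
      group
    · exact congrArg Sum.inr (inv_smul_smul a t)
    · rfl
    · rfl
  act_act a b z := by
    rcases a with a | a <;> rcases b with b | b <;> rcases z with g | t
    · refine congrArg Sum.inl ?_
      group
    · refine congrArg Sum.inr ?_
      simp [mul_smul]
    · rfl
    · rfl
    · rfl
    · rfl
    · rfl
    · rfl

@[simp] theorem bar_kn (g : H) : bar (kn g : TR H Y) = kn g⁻¹ := rfl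
@[simp] theorem bar_ri (t : Y) : bar (ri t : TR H Y) = ri t := rfl
@[simp] theorem act_kn_kn (a b : H) : act (kn a : TR H Y) (kn b) = kn (a * b * a⁻¹) := rfl
@[simp] theorem act_kn_ri (a : H) (t : Y) : act (kn a : TR H Y) (ri t) = ri (a • t) := rfl
@[simp] theorem act_ri (t : Y) (z : TR H Y) : act (ri t) z = z := rfl

/-- the part (knot) -/
def isK : TR H Y → Bool := Sum.isLeft
/-- the part (ring) -/
def isR : TR H Y → Bool := Sum.isRight

@[simp] theorem isK_kn (g : H) : isK (kn g : TR H Y) = true := rfl
@[simp] theorem isK_ri (t : Y) : isK (ri t : TR H Y) = false := rfl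
@[simp] theorem isR_kn (g : H) : isR (kn g : TR H Y) = false := rfl
@[simp] theorem isR_ri (t : Y) : isR (ri t : TR H Y) = true := rfl

theorem keeps_K : Keeps (isK : TR H Y → Bool) where
  kbar z := by rcases z with g | t <;> rfl
  kact a z := by rcases a with a | a <;> rcases z with g | t <;> rfl
  ktriv a z ha hz := by
    rcases a with a | a
    · cases ha
    · rfl

/-- the colouring by knot (`true`) and ring (`false`) -/
def colK : RHom (TR H Y) (Col Bool) where
  toFun z := isK z
  map_bar z := by rcases z with g | t <;> rfl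
  map_act a z := by rcases a with a | a <;> rcases z with g | t <;> rfl

/-- labels of knots -/
def knH : RHom (Cj H) (TR H Y) where
  toFun g := kn g
  map_bar _ := rfl
  map_act _ _ := rfl

/-- change of the set of labels of the ring -/
def chY {Z : Type w} [MulAction H Z] (f : Y → Z) (hf : ∀ (h : H) (y : Y), f (h • y) = h • f y) : RHom (TR H Y) (TR H Z) where
  toFun := Sum.map id f
  map_bar z := by rcases z with g | t <;> rfl
  map_act a z := by
    rcases a with a | a <;> rcases z with g | t
    · rfl
    · exact congrArg Sum.inr (hf a t)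
    · rfl
    · rfl

/-! ### The holonomy around a ring -/

/-- the ring which is over both strands and then under both strands -/
def rgp {X : Type u} (x : X) : Wrd X := [(cup x, 0), (pos, 1), (pos, 2), (pos, 2), (pos, 1), (cap, 0)]
/-- the ring which is over, under, over, under -/
def rga {X : Type u} (x : X) : Wrd X := [(cup x, 0), (pos, 1), (neg, 2), (neg, 2), (pos, 1), (cap, 0)]

theorem hol_p {x y : H} {t : Y} {s u : List (TR H Y)} (h : Run (kn x :: kn y :: s) (rgp (ri t)) u) : (x * y) • t = t := by
  unfold rgp at h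
  rw [run_cons] at h
  obtain ⟨s1, h1, h⟩ := h
  rw [app_cup] at h1
  subst h1
  rw [run_cons] at h
  obtain ⟨s1, h1, h⟩ := h
  rw [app_one] at h1
  obtain ⟨s1, rfl, h1⟩ := h1
  simp only [bar_ri, app_pos, act_ri] at h1
  subst h1
  rw [run_cons] at h
  obtain ⟨s1, h1, h⟩ := h
  rw [app_two] at h1
  obtain ⟨s1, rfl, h1⟩ := h1
  simp only [app_pos, act_ri] at h1
  subst h1
  rw [run_cons] at h
  obtain ⟨s1, h1, h⟩ := h
  rw [app_two] at h1
  obtain ⟨s1, rfl, h1⟩ := h1
  simp only [app_pos, act_kn_ri] at h1
  subst h1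
  rw [run_cons] at h
  obtain ⟨s1, h1, h⟩ := h
  rw [app_one] at h1
  obtain ⟨s1, rfl, h1⟩ := h1
  simp only [app_pos, act_kn_ri] at h1
  subst h1
  rw [run_one] at h
  have h2 := (app_cap.1 h).1
  have h3 := ri_inj h2
  rw [mul_smul]
  exact h3

theorem hol_a {x y : H} {t : Y} {s u : List (TR H Y)} (h : Run (kn x :: kn y :: s) (rga (ri t)) u) : (x * y⁻¹) • t = t := by
  unfold rga at h
  rw [run_cons] at h
  obtain ⟨s1, h1, h⟩ := h
  rw [app_cup] at h1
  subst h1
  rw [run_cons] at h
  obtain ⟨s1, h1, h⟩ := h
  rw [app_one] at h1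
  obtain ⟨s1, rfl, h1⟩ := h1
  simp only [bar_ri, app_pos, act_ri] at h1
  subst h1
  rw [run_cons] at h
  obtain ⟨s1, h1, h⟩ := h
  rw [app_two] at h1
  obtain ⟨s1, rfl, h1⟩ := h1
  simp only [app_neg, bar_kn, act_kn_ri] at h1
  subst h1
  rw [run_cons] at h
  obtain ⟨s1, h1, h⟩ := h
  rw [app_two] at h1
  obtain ⟨s1, rfl, h1⟩ := h1
  simp only [app_neg, bar_ri, act_ri] at h1
  subst h1
  rw [run_cons] at h
  obtain ⟨s1, h1, h⟩ := h
  rw [app_one] at h1
  obtain ⟨s1, rfl, h1⟩ := h1
  simp only [app_pos, act_kn_ri] at h1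
  subst h1
  rw [run_one] at h
  have h2 := (app_cap.1 h).1
  have h3 := ri_inj h2
  rw [mul_smul]
  exact h3

theorem run_rgp {x y : H} {t : Y} (h : (x * y) • t = t) : Run [kn x, kn y] (rgp (ri t)) [(kn x : TR H Y), kn y] := by
  refine Run.cons (App.cup (ri t) _) ?_
  refine Run.cons (App.skip _ (App.pos _ _ _)) ?_
  refine Run.cons (App.skip _ (App.skip _ (App.pos _ _ _))) ?_
  refine Run.cons (App.skip _ (App.skip _ (App.pos _ _ _))) ?_
  refine Run.cons (App.skip _ (App.pos _ _ _)) ?_
  rw [run_one]
  simp only [bar_ri, act_ri, act_kn_ri, app_cap, and_true]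
  rw [← mul_smul, h]

theorem run_rga {x y : H} {t : Y} (h : (x * y⁻¹) • t = t) : Run [kn x, kn y] (rga (ri t)) [(kn x : TR H Y), kn y] := by
  refine Run.cons (App.cup (ri t) _) ?_
  refine Run.cons (App.skip _ (App.pos _ _ _)) ?_
  refine Run.cons (App.skip _ (App.skip _ (App.neg _ _ _))) ?_
  refine Run.cons (App.skip _ (App.skip _ (App.neg _ _ _))) ?_
  refine Run.cons (App.skip _ (App.pos _ _ _)) ?_
  rw [run_one]
  simp only [bar_ri, bar_kn, act_ri, act_kn_ri, app_cap, and_true]
  rw [← mul_smul, h]

/-- the product of the labels of the knot is the same at all levels -/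
def prodK (s : List (TR H Y)) : H := (s.map fun z => Sum.elim id (fun _ => 1) z).prod

theorem App.prodK {k : Kind (TR H Y)} {i : ℕ} {s t : List (TR H Y)} (h : App k i s t) : prodK s = prodK t := by
  induction h with
  | cup x s =>
    rcases x with g | t
    · change _ = g * (g⁻¹ * _)
      rw [mul_inv_cancel_left]
      rfl
    · change _ = 1 * (1 * _)
      rw [one_mul, one_mul]
      rfl
  | cap x s =>
    rcases x with g | t
    · change g * (g⁻¹ * _) = _
      rw [mul_inv_cancel_left]
      rfl
    · change 1 * (1 * _) = _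
      rw [one_mul, one_mul]
      rfl
  | pos a b s =>
    rcases a with a | a <;> rcases b with b | b
    · change a * (b * _) = (a * b * a⁻¹) * (a * _)
      group
    · change a * (1 * _) = 1 * (a * _)
      group
    · change 1 * (b * _) = b * (1 * _)
      group
    · change 1 * (1 * _) = 1 * (1 * _)
      rfl
  | neg a b s =>
    rcases a with a | a <;> rcases b with b | b
    · change a * (b * _) = b * ((b⁻¹ * a * b⁻¹⁻¹) * _)
      group
    · change a * (1 * _) = 1 * (a * _)
      group
    · change 1 * (b * _) = b * (1 * _)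
      group
    · change 1 * (1 * _) = 1 * (1 * _)
      rfl
  | skip x h ih =>
    rcases x with x | x
    · change x * _ = x * _
      exact congrArg _ ih
    · change 1 * _ = 1 * _
      exact congrArg _ ih

theorem Run.prodK {w : Wrd (TR H Y)} {s t : List (TR H Y)} (h : Run s w t) : KL.prodK s = KL.prodK t := by
  induction h with
  | nil s => rfl
  | cons h _ ih => exact h.prodK.trans ih

end TR

end Pool.Agent.KL
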