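import Pool.Agent.Lib_MP_7c418e_gt.JDef

/-!
# A link one part of which is always over the other part is split

Plan. Labels `true` = red, `false` = blue. For a state `s` define the unshuffling braid which moves all red strands to the left, over the blue strands:
`shf [] = []`, `shf (red :: s) = sh 1 (shf s)`, `shf (blue :: s) = sh 1 (shf s) ++ unR (s.count red)` (the blue strand goes to the right under the red strands), so that
`Run s (shf s) (reds ++ blues)`. Main claim, for one letter `App k i s t` which is not a crossing with blue over red:
`Eqv s ((k, i) :: shf t) (shf s ++ k')` where `k' = resL red k i s ++ sh (t.count red) (resL blue k i s)`.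
Proof by induction on `App`:
* `skip red`: from the induction hypothesis with `Eqv.left`.
* `skip blue`: `sh 1 ((k, i) :: shf t) ++ unR (r t) ~ sh 1 (shf s) ++ sh 1 k' ++ unR (r t)`; if `k'` is a red letter use naturality `un_nat` (`sh 1 k' ++ unR (r t) ~ unR (r s) ++ k'`),
  if `k'` is a blue letter (then `r s = r t = r` and its position is `≥ r`) use far commutation (`far_block`); if `k' = []` (crossing of a red and a blue strand) nothing is to be done.
* position `0`, both strands red: far commutation `(k, 0) :: sh 2 (shf s) ~ shf s ++ (k, 0)`.
* position `0`, `pos` with labels (red, blue) or `neg` with labels (blue, red): cancel `pos 0, neg 0` resp. both words are equal up to far commutation of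
  `neg 0` with `sh 2 (shf s)`.
* position `0`, both strands blue (`cup`, `cap`, `pos`, `neg`): by induction on `r` one has for two parallel strands moving to the right under `r` strands
  `[k 0] ++ sh 1 (unR r) ++ unR r ~ sh 1 (unR r) ++ unR r ++ [k r]` (for `cup` the right side is `[cup r]`, for `cap` the left side is `[cap 0]`); the case `r = 1` is the inverse
  form of naturality (`ov_cup`, `ov_cap`, `r3`, `ov_neg` and their mirror images), the induction step uses
  `unR (r + 1) = neg 0 :: sh 1 (unR r)` and far commutation.
Then the claim for words: `Eqv s (w ++ shf t) (shf s ++ res red s w ++ sh (t.count red) (res blue s w))`, up to the commutation of red and blue letters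
(`far_block`), and for `s = t = []` this is `w ~ res red [] w ++ res blue [] w`. All this can be done for labelled words; the theorem below only asks for diagrams.
-/

set_option autoImplicit false
set_option linter.unusedSectionVars false

universe u v

namespace Pool.Agent.KL

open Kind

section

variable {X : Type u} [Rule X] [Inert X]

/-- the unshuffling braid -/
def shf (p : X → Bool) : List X → Wrd X
  | [] => []
  | x :: s => if p x then sh 1 (shf p s) else sh 1 (shf p s) ++ unR (s.filter p).length

theorem shf_red {p : X → Bool} {x : X} (s : List X) (h : p x = true) :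
    shf p (x :: s) = sh 1 (shf p s) := by
  rw [shf, if_pos h]

theorem shf_blue {p : X → Bool} {x : X} (s : List X) (h : p x = false) :
    shf p (x :: s) = sh 1 (shf p s) ++ unR (s.filter p).length := by
  rw [shf, if_neg (by rw [h]; simp)]

theorem run_shf (p : X → Bool) (s : List X) :
    Run s (shf p s) (s.filter p ++ s.filter fun x => !p x) := by
  induction s with
  | nil => exact Run.nil _
  | cons x s ih =>
    have h1 := ih.left [x]
    cases hx : p x with
    | true =>
      rw [shf_red s hx]
      simp only [List.filter_cons, hx, if_true, Bool.not_true]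
      simpa using h1
    | false =>
      rw [shf_blue s hx]
      have h2 := run_unR x (s.filter p) (s.filter fun x => !p x)
      have h3 := Run.append h1 h2
      simp only [List.filter_cons, hx, if_true, Bool.not_false]
      simpa using h3

/-- a word passes under a strand at its right -/
theorem shf_nat1 {s t : List X} {w : Wrd X} (h : Run s w t) (a : X) :
    Eqv (s ++ [a]) (w ++ winv (ovR t.length)) (winv (ovR s.length) ++ sh 1 w) := by
  have h0 := ov_nat h a
  have hrs := (run_ovR' a s).winv (ovR_XW _)
  have h1 := h0.ctx hrs (winv (ovR t.length))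
  have h2 := (word_cancel' (run_ovR' a s) (ovR_XW _)).app_right (w ++ winv (ovR t.length))
  have h3 := (word_cancel (run_ovR' a t) (ovR_XW _)).app_left (hrs.append (h.left [a]))
  have h4 : Eqv (s ++ [a]) (w ++ winv (ovR t.length))
      (winv (ovR s.length) ++ (ovR s.length ++ w) ++ winv (ovR t.length)) := by
    simpa using h2.symm
  have h5 : Eqv (s ++ [a]) (winv (ovR s.length) ++ (sh 1 w ++ ovR t.length) ++
      winv (ovR t.length)) (winv (ovR s.length) ++ sh 1 w) := by
    simpa using h3
  exact h4.trans (h1.symm.trans h5)

/-- `n` strands pass under the strands at their right -/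
def mb (n : ℕ) : ℕ → Wrd X
  | 0 => []
  | r + 1 => winv (ovR n) ++ sh 1 (mb n r)

theorem mb_zero (r : ℕ) : mb 0 r = ([] : Wrd X) := by
  induction r with
  | zero => rfl
  | succ r ih => rw [mb, ih]; rfl

/-- a word passes under the strands at its right -/
theorem shf_nat {s t : List X} {w : Wrd X} (h : Run s w t) (c : List X) :
    Eqv (s ++ c) (w ++ mb t.length c.length) (mb s.length c.length ++ sh c.length w) := by
  induction c with
  | nil =>
    have h0 : Eqv s w w := Eqv.refl s w
    simpa [mb] using h0
  | cons a c ih =>
    have h1 := ((shf_nat1 h a).right c).app_right (sh 1 (mb t.length c.length))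
    have h2 := ih.left [a]
    have hrs := ((run_ovR' a s).winv (ovR_XW _)).right c
    have h3 := Eqv.app_left h2 hrs
    have h4 : Eqv (s ++ a :: c) (winv (ovR s.length) ++ sh 1 w ++ sh 1 (mb t.length c.length))
        (winv (ovR s.length) ++ sh 1 (mb s.length c.length) ++ sh (c.length + 1) w) := by
      rw [add_comm c.length 1]
      simpa [sh_sh] using h3
    have h5 : Eqv (s ++ a :: c) (w ++ winv (ovR t.length) ++ sh 1 (mb t.length c.length))
        (winv (ovR s.length) ++ sh 1 w ++ sh 1 (mb t.length c.length)) := by
      simpa using h1
    have h6 := h5.trans h4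
    rw [List.length_cons, mb, mb]
    simpa using h6

/-- two strands pass under the strands at their right -/
theorem mb_two (a b : X) (c : List X) :
    Eqv (a :: b :: c) (sh 1 (unR c.length) ++ unR c.length) (mb 2 c.length) := by
  induction c with
  | nil => exact Eqv.refl _ _
  | cons x c ih =>
    have h1 : Eqv ([a, x] ++ (b :: c)) ([(neg, 0)] ++ sh [x, a].length (unR c.length))
        (sh [a, x].length (unR c.length) ++ [(neg, 0)]) :=
      far_block (run_one.2 (app_neg_inert.2 rfl)) (run_unR' b c)
    have h2 : Eqv (a :: b :: x :: c) ((neg, 1) :: (sh 2 (unR c.length) ++ [(neg, 0)]))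
        ((neg, 1) :: ([(neg, 0)] ++ sh 2 (unR c.length))) :=
      Eqv.cons (t := a :: x :: b :: c) h1.symm (App.skip _ (app_neg_inert.2 rfl))
    have h3 := h2.app_right (sh 1 (unR c.length))
    have h4 := ih.left [x]
    have h5 : Eqv (a :: b :: x :: c) ([(neg, 1), (neg, 0)] ++
        sh 1 (sh 1 (unR c.length) ++ unR c.length)) ([(neg, 1), (neg, 0)] ++ sh 1 (mb 2 c.length)) := by
      refine Eqv.app_left (t := x :: a :: b :: c) h4 ?_
      rw [run_two]
      exact ⟨a :: x :: b :: c, App.skip _ (app_neg_inert.2 rfl), app_neg_inert.2 rfl⟩
    have h6 : Eqv (a :: b :: x :: c) (sh 1 (unR (c.length + 1)) ++ unR (c.length + 1))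
        ([(neg, 1), (neg, 0)] ++ sh 1 (sh 1 (unR c.length) ++ unR c.length)) := by
      simpa [unR_succ, sh_sh] using h3
    exact h6.trans h5

theorem blue_cup (x : X) (c b : List X) :
    Eqv (c ++ b) ((cup x, 0) :: (sh 1 (unR c.length) ++ unR c.length)) [(cup x, c.length)] := by
  have h1 := (shf_nat (run_one.2 (App.cup x [])) c).right b
  have h2 : Eqv (c ++ b) ((cup x, 0) :: (sh 1 (unR c.length) ++ unR c.length))
      ((cup x, 0) :: mb 2 c.length) :=
    Eqv.cons ((mb_two x (bar x) c).right b) (App.cup x _)
  refine h2.trans ?_
  simpa [mb_zero] using h1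

theorem blue_cap (x : X) (c b : List X) :
    Eqv (x :: bar x :: (c ++ b)) [(cap, 0)]
      (sh 1 (unR c.length) ++ unR c.length ++ [(cap, c.length)]) := by
  have h1 := (shf_nat (run_one.2 (App.cap x [])) c).right b
  have h2 := ((mb_two x (bar x) c).right b).app_right [(cap, c.length)]
  have h3 : Eqv (x :: bar x :: (c ++ b)) [(cap, 0)] (mb 2 c.length ++ [(cap, c.length)]) := by
    simpa [mb_zero] using h1
  exact h3.trans (by simpa using h2.symm)

theorem blue_cross {k : Kind X} {x y x' y' : X} (h : App k 0 [x, y] [x', y']) (c b : List X) :
    Eqv (x :: y :: (c ++ b)) ((k, 0) :: (sh 1 (unR c.length) ++ unR c.length))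
      (sh 1 (unR c.length) ++ unR c.length ++ [(k, c.length)]) := by
  have h1 := (shf_nat (run_one.2 h) c).right b
  have h2 := ((mb_two x y c).right b).app_right [(k, c.length)]
  have h3 : Eqv (x :: y :: (c ++ b)) ((k, 0) :: (sh 1 (unR c.length) ++ unR c.length))
      ((k, 0) :: mb 2 c.length) :=
    Eqv.cons ((mb_two x' y' c).right b) ((h.right c).right b)
  have h4 : Eqv (x :: y :: (c ++ b)) ((k, 0) :: mb 2 c.length)
      (mb 2 c.length ++ [(k, c.length)]) := by
    simpa using h1
  exact h3.trans (h4.trans (by simpa using h2.symm))

/-- the main claim for one letter -/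
theorem letter_over {p : X → Bool} (hp : Keeps p) {k : Kind X} {i : ℕ} {s t : List X}
    (h : App k i s t) (h0 : ∀ z ∈ crL k i s, ¬ (p z.1 = false ∧ p z.2 = true)) :
    Eqv s ((k, i) :: shf p t)
      (shf p s ++ (resL p k i s ++ sh (t.filter p).length (resL (fun x => !p x) k i s))) := by
  have hq : Keeps fun x => !p x :=
    ⟨fun x => by rw [hp.kbar], fun a x => by rw [hp.kact], fun a x _ _ => act_triv a x⟩
  induction h with
  | cup x s =>
    have hc : Eqv ([] ++ s) ([(cup x, 0)] ++ sh [x, bar x].length (shf p s))
        (sh ([] : List X).length (shf p s) ++ [(cup x, 0)]) :=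
      far_block (run_one.2 (App.cup x [])) (run_shf p s)
    simp only [List.length_cons, List.length_nil, zero_add, Nat.reduceAdd, List.nil_append,
      sh_zero] at hc
    cases hx : p x with
    | true =>
      rw [shf_red _ hx, shf_red _ ((hp.kbar x).trans hx), sh_sh]
      simpa [hx] using hc
    | false =>
      rw [shf_blue _ hx, shf_blue _ ((hp.kbar x).trans hx), List.filter_cons, hp.kbar, hx]
      have h1 := hc.app_right (sh 1 (unR (s.filter p).length) ++ unR (s.filter p).length)
      have h2 := Eqv.app_left (blue_cup x (s.filter p) (s.filter fun x => !p x)) (run_shf p s)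
      have h3 := h1.trans (by simpa using h2)
      simpa [sh_sh, List.filter_cons, hp.kbar, hx] using h3
  | cap x s =>
    have hc : Eqv ([x, bar x] ++ s) ([(cap, 0)] ++ sh ([] : List X).length (shf p s))
        (sh [x, bar x].length (shf p s) ++ [(cap, 0)]) :=
      far_block (run_one.2 (App.cap x [])) (run_shf p s)
    simp only [List.length_cons, List.length_nil, zero_add, Nat.reduceAdd, sh_zero] at hc
    cases hx : p x with
    | true =>
      rw [shf_red _ hx, shf_red _ ((hp.kbar x).trans hx), sh_sh]
      simpa [hx] using hc
    | false =>
      rw [shf_blue _ hx, shf_blue _ ((hp.kbar x).trans hx), List.filter_cons, hp.kbar, hx]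
      have h2 := Eqv.app_left (blue_cap x (s.filter p) (s.filter fun x => !p x))
        ((run_shf p s).left [x, bar x])
      have h3 := hc.trans (by simpa using h2)
      simpa [sh_sh, List.filter_cons, hp.kbar, hx] using h3
  | pos a b s =>
    rw [act_triv]
    have hc : Eqv ([a, b] ++ s) ([(pos, 0)] ++ sh [b, a].length (shf p s))
        (sh [a, b].length (shf p s) ++ [(pos, 0)]) :=
      far_block (run_one.2 (app_pos_inert.2 rfl)) (run_shf p s)
    simp only [List.length_cons, List.length_nil, zero_add, Nat.reduceAdd] at hc
    cases ha : p a with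
    | true =>
      cases hb : p b with
      | true =>
        rw [shf_red _ ha, shf_red _ hb, shf_red _ hb, shf_red _ ha, sh_sh]
        simpa [ha, hb] using hc
      | false =>
        rw [shf_blue _ hb, shf_red _ ha, shf_red _ ha, shf_blue _ hb, List.filter_cons, ha]
        have h1 := hc.app_right ((neg, 0) :: sh 1 (unR (s.filter p).length))
        have h2 : Eqv (a :: b :: (s.filter p ++ s.filter fun x => !p x)) [(pos, 0), (neg, 0)] [] :=
          cross_cancel (t := b :: a :: (s.filter p ++ s.filter fun x => !p x))
            (app_pos_inert.2 rfl) (Or.inl rfl)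
        have h3 := Eqv.app_left (h2.app_right (sh 1 (unR (s.filter p).length)))
          ((run_shf p s).left [a, b])
        have h4 := h1.trans (by simpa using h3)
        simpa [sh_sh, List.filter_cons, ha, hb, unR_succ] using h4
    | false =>
      cases hb : p b with
      | true =>
        exact absurd ⟨ha, hb⟩ (h0 (a, b) (by simp))
      | false =>
        rw [shf_blue _ hb, shf_blue _ ha, shf_blue _ ha, shf_blue _ hb, List.filter_cons,
          List.filter_cons, ha, hb]
        have h1 := hc.app_right (sh 1 (unR (s.filter p).length) ++ unR (s.filter p).length)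
        have h2 := Eqv.app_left (blue_cross (x := a) (y := b) (x' := b) (y' := a)
          (app_pos_inert.2 rfl) (s.filter p) (s.filter fun x => !p x)) ((run_shf p s).left [a, b])
        have h3 := h1.trans (by simpa using h2)
        simpa [sh_sh, List.filter_cons, ha, hb] using h3
  | neg a b s =>
    rw [act_triv]
    have hc : Eqv ([a, b] ++ s) ([(neg, 0)] ++ sh [b, a].length (shf p s))
        (sh [a, b].length (shf p s) ++ [(neg, 0)]) :=
      far_block (run_one.2 (app_neg_inert.2 rfl)) (run_shf p s)
    simp only [List.length_cons, List.length_nil, zero_add, Nat.reduceAdd] at hc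
    cases ha : p a with
    | true =>
      cases hb : p b with
      | true =>
        rw [shf_red _ ha, shf_red _ hb, shf_red _ hb, shf_red _ ha, sh_sh]
        simpa [ha, hb] using hc
      | false =>
        exact absurd ⟨hb, ha⟩ (h0 (b, a) (by simp))
    | false =>
      cases hb : p b with
      | true =>
        rw [shf_blue _ ha, shf_red _ hb, shf_red _ hb, shf_blue _ ha, List.filter_cons, hb]
        have h1 := hc.app_right (sh 1 (unR (s.filter p).length))
        simpa [sh_sh, List.filter_cons, ha, hb, unR_succ] using h1
      | false =>
        rw [shf_blue _ hb, shf_blue _ ha, shf_blue _ ha, shf_blue _ hb, List.filter_cons,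
          List.filter_cons, ha, hb]
        have h1 := hc.app_right (sh 1 (unR (s.filter p).length) ++ unR (s.filter p).length)
        have h2 := Eqv.app_left (blue_cross (x := a) (y := b) (x' := b) (y' := a)
          (app_neg_inert.2 rfl) (s.filter p) (s.filter fun x => !p x)) ((run_shf p s).left [a, b])
        have h3 := h1.trans (by simpa using h2)
        simpa [sh_sh, List.filter_cons, ha, hb] using h3
  | @skip x k i s t h ih =>
    have ih' := (ih h0).left [x]
    cases hx : p x with
    | true =>
      rw [shf_red _ hx, shf_red _ hx, resL_succ, resL_succ, List.filter_cons, hx]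
      simp only [List.length_cons, List.length_nil, zero_add, List.singleton_append, sh_cons,
        sh_append, sh_sh] at ih'
      simpa [add_comm] using ih'
    | false =>
      rw [shf_blue _ hx, shf_blue _ hx, resL_succ, resL_succ, List.filter_cons, hx]
      set Kr := resL p k i s with hKr
      set Kb := resL (fun x => !p x) k i s with hKb
      have hr : Run (s.filter p) Kr (t.filter p) := h.res hp
      have hb : Run (s.filter fun x => !p x) Kb (t.filter fun x => !p x) := h.res hq
      -- move the blue letter to the end
      have h1 := far_block (run_unR' x (t.filter p)) hb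
      -- naturality
      have h2 := (un_nat hr x).right (s.filter fun x => !p x)
      have h3 : Eqv (x :: (s.filter p ++ s.filter fun x => !p x))
          (sh 1 Kr ++ (sh ((t.filter p).length + 1) Kb ++ unR (t.filter p).length))
          (sh 1 Kr ++ (unR (t.filter p).length ++ sh ((t.filter p).length + 1) Kb)) := by
        have h4 := (hr.left [x]).right (s.filter fun x => !p x)
        refine Eqv.app_left (t := x :: (t.filter p ++ s.filter fun x => !p x)) ?_ (by simpa using h4)
        simpa using h1.symm
      have h5 : Eqv (x :: (s.filter p ++ s.filter fun x => !p x))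
          (sh 1 Kr ++ unR (t.filter p).length ++ sh ((t.filter p).length + 1) Kb)
          (unR (s.filter p).length ++ Kr ++ sh ((t.filter p).length + 1) Kb) := by
        have := h2.app_right (sh ((t.filter p).length + 1) Kb)
        simpa using this
      have h6 := Eqv.app_left (h3.trans (by simpa using h5)) ((run_shf p s).left [x])
      have h7 := ih'.app_right (unR (t.filter p).length)
      have h8 : Eqv (x :: s) ((k, i + 1) :: (sh 1 (shf p t) ++ unR (t.filter p).length))
          (sh 1 (shf p s) ++ (sh 1 Kr ++ (sh ((t.filter p).length + 1) Kb ++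
            unR (t.filter p).length))) := by
        rw [Nat.add_comm (t.filter p).length 1]
        simpa [sh_sh] using h7
      have h9 := h8.trans (by simpa using h6)
      have e : ∀ n, sh n (sh 1 Kb) = sh (n + 1) Kb := fun n => sh_sh _ _ _
      simpa [e] using h9

/-- the main claim for words -/
theorem word_over {p : X → Bool} (hp : Keeps p) {s t : List X} {w : Wrd X}
    (h : Run s w t) (h0 : ∀ z ∈ crs s w, ¬ (p z.1 = false ∧ p z.2 = true)) :
    Eqv s (w ++ shf p t)
      (shf p s ++ (res p s w ++ sh (t.filter p).length (res (fun x => !p x) s w))) := by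
  have hq : Keeps fun x => !p x :=
    ⟨fun x => by rw [hp.kbar], fun a x => by rw [hp.kact], fun a x _ _ => act_triv a x⟩
  induction h with
  | nil s => simpa using Eqv.refl _ _
  | @cons k i s t u w h h' ih =>
    rw [crs_cons, h.nx] at h0
    have ih' := (ih fun z hz => h0 z (List.mem_append_right _ hz)).cons h
    have h1 := letter_over hp h fun z hz => h0 z (List.mem_append_left _ hz)
    have h2 := h1.app_right (res p t w ++ sh (u.filter p).length (res (fun x => !p x) t w))
    have h3 := far_block (h'.res hp) (h.res hq)
    have h4 := h3.symm.app_right (sh (u.filter p).length (res (fun x => !p x) t w))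
    have h5 : Eqv s (shf p s ++ resL p k i s ++ (sh (t.filter p).length (resL (fun x => !p x) k i s) ++
        res p t w ++ sh (u.filter p).length (res (fun x => !p x) t w)))
        (shf p s ++ resL p k i s ++ (res p t w ++ sh (u.filter p).length
          (resL (fun x => !p x) k i s) ++ sh (u.filter p).length (res (fun x => !p x) t w))) :=
      Eqv.app_left h4 ((run_shf p s).append ((h.res hp).right _))
    rw [res_cons, res_cons, h.nx]
    have h6 := ih'.trans (by simpa using h2)
    have h7 := h6.trans (by simpa using h5)
    simpa using h7

end

/-- the red (`true`) and the blue (`false`) part of a labelled word -/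
abbrev red (s : List (Col Bool)) (w : Wrd (Col Bool)) : Wrd (Col Bool) := res (fun x : Col Bool => x) s w
abbrev blu (s : List (Col Bool)) (w : Wrd (Col Bool)) : Wrd (Col Bool) := res (fun x : Col Bool => !x) s w

theorem nfc : ∀ x : Bool, (!x) = false → x = true := by decide

theorem ntc : ∀ x : Bool, (!x) = true → x = false := by decide

/-- if no blue strand is over a red strand then the link is split -/
theorem over_split {w : Wrd (Col Bool)} (h : Run [] w []) (h0 : oc false true w = 0) :
    LEq (fgt w) (fgt (red [] w) ++ fgt (blu [] w)) := by
  have h1 := word_over (p := fun x : Col Bool => x) (keeps_col _) h (by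
    intro z hz hz'
    rw [oc, cnt, List.countP_eq_zero] at h0
    have := h0 z hz
    apply this
    have e1 : z.1 = (false : Bool) := hz'.1
    have e2 : z.2 = (true : Bool) := hz'.2
    rw [e1, e2]
    rfl)
  have h1' : Eqv [] (w ++ []) ([] ++ (red [] w ++ sh 0 (blu [] w))) := h1
  have h2 : Eqv [] w (red [] w ++ blu [] w) := by
    simpa using h1'
  rw [← fgt_append]
  exact Run.leq h2

theorem crL_wmap {X : Type u} {Y : Type v} [Rule X] [Rule Y] (f : RHom X Y) (k : Kind X) (i : ℕ)
    (s : List X) : crL (kmap f.toFun k) i (s.map f.toFun) =
      (crL k i s).map fun z => (f.toFun z.1, f.toFun z.2) := by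
  induction i generalizing s with
  | zero =>
    rcases s with _ | ⟨a, _ | ⟨b, s⟩⟩ <;> cases k <;> rfl
  | succ i ih =>
    rcases s with _ | ⟨a, s⟩
    · rfl
    · rw [List.map_cons, crL_succ, crL_succ, ih]

theorem crs_wmap {X : Type u} {Y : Type v} [Rule X] [Rule Y] (f : RHom X Y) {s t : List X}
    {w : Wrd X} (h : Run s w t) : crs (s.map f.toFun) (wmap f.toFun w) =
      (crs s w).map fun z => (f.toFun z.1, f.toFun z.2) := by
  induction h with
  | nil s => rfl
  | @cons k i s t u w h h' ih =>
    rw [wmap_cons, crs_cons, crL_wmap, (h.map f).nx, ih, crs_cons, h.nx, List.map_append]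

/-- exchange of the colours -/
def swc : RHom (Col Bool) (Col Bool) := ⟨fun x => (!x : Bool), fun _ => rfl, fun _ _ => rfl⟩

/-- in a diagram of a link which is not split every part goes over the other part (use `over_split`, also for the word with the
colours exchanged; if a part is empty then its label is not used, see `cups_of_res_nil`) -/
theorem over_exists {w : Wrd (Col Bool)} (h : Run [] w []) (h1 : ¬ cups (fun x : Col Bool => x = false) w)
    (h2 : ¬ cups (fun x : Col Bool => x = true) w)
    (hs : ∀ a b, Closed a → Closed b → a ≠ [] → b ≠ [] → ¬ LEq (fgt w) (a ++ b)) :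
    1 ≤ oc true false w ∧ 1 ≤ oc false true w := by
  have key : ∀ w' : Wrd (Col Bool), Run [] w' [] → ¬ cups (fun x : Col Bool => x = false) w' →
      ¬ cups (fun x : Col Bool => x = true) w' → fgt w' = fgt w → 1 ≤ oc false true w' := by
    intro w' h' h1' h2' he
    by_contra h3
    have h4 : oc false true w' = 0 := by omega
    have h5 := over_split h' h4
    rw [he] at h5
    refine hs _ _ (Run.closed (h'.res (keeps_col _))) (Run.closed (h'.res (keeps_col _))) ?_ ?_ h5
    · intro h6
      exact h1' (cups_of_res_nil (p := fun x : Col Bool => x) h' (fgt_eq_nil h6))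
    · intro h6
      have h7 := cups_of_res_nil (p := fun x : Col Bool => !x) h' (fgt_eq_nil h6)
      exact h2' (cups_mono h7 fun x hx => nfc x hx)
  refine ⟨?_, key w h h1 h2 rfl⟩
  have h3 := key (wmap swc.toFun w) (h.map swc) (by
    rw [cups_wmap]
    intro h4
    exact h2 (cups_mono h4 fun x hx => nfc x hx)) (by
    rw [cups_wmap]
    intro h4
    exact h1 (cups_mono h4 fun x hx => ntc x hx)) (fgt_wmap _ _)
  have h4 : oc false true (wmap swc.toFun w) = oc true false w := by
    rw [oc, oc, cnt, cnt]
    have := crs_wmap swc h
    rw [List.map_nil] at this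
    rw [this, List.countP_map]
    congr 1
    funext z
    obtain ⟨z1, z2⟩ := z
    cases z1 <;> cases z2 <;> rfl
  rwa [h4] at h3

end Pool.Agent.KL
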