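import Pool.Agent.Lib_MP_7c418e_gt.Base

/-!
# Labels: homomorphisms, transport of labels along equivalences
-/

set_option autoImplicit false

universe u v

namespace Pool.Agent.KL

open Kind

section

variable {X : Type u} [Rule X]

@[simp] theorem app_cup {x : X} {s t : List X} : App (cup x) 0 s t ↔ t = x :: bar x :: s :=
  ⟨fun h => by cases h; rfl, fun h => h ▸ App.cup x s⟩

@[simp] theorem app_cap {a b : X} {s t : List X} : App cap 0 (a :: b :: s) t ↔ b = bar a ∧ t = s :=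
  ⟨fun h => by cases h; exact ⟨rfl, rfl⟩, fun ⟨h, h'⟩ => by subst h; subst h'; exact App.cap a t⟩

@[simp] theorem app_pos {a b : X} {s t : List X} : App pos 0 (a :: b :: s) t ↔ t = act a b :: a :: s :=
  ⟨fun h => by cases h; rfl, fun h => h ▸ App.pos a b s⟩

@[simp] theorem app_neg {a b : X} {s t : List X} : App neg 0 (a :: b :: s) t ↔ t = b :: act (bar b) a :: s :=
  ⟨fun h => by cases h; rfl, fun h => h ▸ App.neg a b s⟩

@[simp] theorem app_succ {k : Kind X} {i : ℕ} {a : X} {s t : List X} :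
    App k (i + 1) (a :: s) t ↔ ∃ t', t = a :: t' ∧ App k i s t' := by
  constructor
  · intro h
    cases h with
    | skip _ h => exact ⟨_, rfl, h⟩
  · rintro ⟨t', rfl, h⟩
    exact App.skip a h

@[simp] theorem app_one {k : Kind X} {a : X} {s t : List X} :
    App k 1 (a :: s) t ↔ ∃ t', t = a :: t' ∧ App k 0 s t' := app_succ (i := 0)

@[simp] theorem app_two {k : Kind X} {a b : X} {s t : List X} :
    App k 2 (a :: b :: s) t ↔ ∃ t', t = a :: b :: t' ∧ App k 0 s t' := by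
  rw [show (2 : ℕ) = 1 + 1 from rfl, app_succ]
  constructor
  · rintro ⟨t', rfl, h⟩
    rw [app_one] at h
    obtain ⟨t'', rfl, h⟩ := h
    exact ⟨t'', rfl, h⟩
  · rintro ⟨t', rfl, h⟩
    exact ⟨b :: t', rfl, app_one.2 ⟨t', rfl, h⟩⟩

@[simp] theorem not_app_succ {k : Kind X} {i : ℕ} {t : List X} : ¬ App k (i + 1) [] t := fun h => by cases h
@[simp] theorem not_app_cap {t : List X} : ¬ App cap 0 [] t := fun h => by cases h
@[simp] theorem not_app_cap' {a : X} {t : List X} : ¬ App cap 0 [a] t := fun h => by cases h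
@[simp] theorem not_app_pos {t : List X} : ¬ App pos 0 [] t := fun h => by cases h
@[simp] theorem not_app_pos' {a : X} {t : List X} : ¬ App pos 0 [a] t := fun h => by cases h
@[simp] theorem not_app_neg {t : List X} : ¬ App neg 0 [] t := fun h => by cases h
@[simp] theorem not_app_neg' {a : X} {t : List X} : ¬ App neg 0 [a] t := fun h => by cases h
@[simp] theorem not_app_one {k : Kind X} {t : List X} : ¬ App k 1 [] t := fun h => by cases h

end

/-- homomorphisms of rules -/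
structure RHom (X : Type u) (Y : Type v) [Rule X] [Rule Y] where
  toFun : X → Y
  map_bar : ∀ x, toFun (bar x) = bar (toFun x)
  map_act : ∀ a x, toFun (act a x) = act (toFun a) (toFun x)

def kmap {X : Type u} {Y : Type v} (f : X → Y) : Kind X → Kind Y
  | cup x => cup (f x)
  | cap => cap
  | pos => pos
  | neg => neg

def wmap {X : Type u} {Y : Type v} (f : X → Y) (w : Wrd X) : Wrd Y := w.map fun l => (kmap f l.1, l.2)

section

variable {X : Type u} {Y : Type v} (f : X → Y)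

@[simp] theorem wmap_nil : wmap f [] = [] := rfl
@[simp] theorem wmap_cons (k : Kind X) (i : ℕ) (w : Wrd X) : wmap f ((k, i) :: w) = (kmap f k, i) :: wmap f w := rfl
@[simp] theorem wmap_append (w w' : Wrd X) : wmap f (w ++ w') = wmap f w ++ wmap f w' := by simp [wmap]
@[simp] theorem kmap_cup (x : X) : kmap f (cup x) = cup (f x) := rfl
@[simp] theorem kmap_cap : kmap f cap = cap := rfl
@[simp] theorem kmap_pos : kmap f pos = pos := rfl
@[simp] theorem kmap_neg : kmap f neg = neg := rfl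

theorem wmap_sh (i : ℕ) (w : Wrd X) : wmap f (sh i w) = sh i (wmap f w) := by
  simp [wmap, sh, List.map_map, Function.comp_def]

theorem fgt_eq (w : Wrd X) : fgt w = wmap (fun _ => ()) w := by
  unfold fgt wmap
  apply List.map_congr_left
  rintro ⟨k, i⟩ _
  cases k <;> rfl

@[simp] theorem fgt_nil : fgt ([] : Wrd X) = [] := rfl
@[simp] theorem fgt_cons (k : Kind X) (i : ℕ) (w : Wrd X) : fgt ((k, i) :: w) = (kmap (fun _ => ()) k, i) :: fgt w := by
  rw [fgt_eq, fgt_eq, wmap_cons]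
@[simp] theorem fgt_append (w w' : Wrd X) : fgt (w ++ w') = fgt w ++ fgt w' := by simp [fgt]
@[simp] theorem fgt_sh (i : ℕ) (w : Wrd X) : fgt (sh i w) = sh i (fgt w) := by
  rw [fgt_eq, fgt_eq, wmap_sh]

theorem fgt_wmap (w : Wrd X) : fgt (wmap f w) = fgt w := by
  induction w with
  | nil => rfl
  | cons l w ih =>
    obtain ⟨k, i⟩ := l
    rw [wmap_cons, fgt_cons, fgt_cons, ih]
    cases k <;> rfl

theorem ncr_wmap (w : Wrd X) : ncr (wmap f w) = ncr w := by
  induction w with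
  | nil => rfl
  | cons l w ih =>
    obtain ⟨k, i⟩ := l
    rw [wmap_cons, ncr_cons, ncr_cons k, ih]
    cases k <;> rfl

@[simp] theorem ncr_fgt (w : Wrd X) : ncr (fgt w) = ncr w := by rw [fgt_eq, ncr_wmap]

@[simp] theorem kmap_win (k : Kind X) : (kmap f k).win = k.win := by cases k <;> rfl
@[simp] theorem kmap_wout (k : Kind X) : (kmap f k).wout = k.wout := by cases k <;> rfl

end

section

variable {X : Type u} {Y : Type v} [Rule X] [Rule Y]

theorem App.map (f : RHom X Y) {k : Kind X} {i : ℕ} {s t : List X} (h : App k i s t) :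
    App (kmap f.toFun k) i (s.map f.toFun) (t.map f.toFun) := by
  induction h with
  | cup x s => simp only [kmap_cup, List.map_cons, f.map_bar]; exact App.cup _ _
  | cap x s => simp only [kmap_cap, List.map_cons, f.map_bar]; exact App.cap _ _
  | pos a b s => simp only [kmap_pos, List.map_cons, f.map_act]; exact App.pos _ _ _
  | neg a b s => simp only [kmap_neg, List.map_cons, f.map_act, f.map_bar]; exact App.neg _ _ _
  | skip x h ih => exact App.skip _ ih

theorem Run.map (f : RHom X Y) {s t : List X} {w : Wrd X} (h : Run s w t) :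
    Run (s.map f.toFun) (wmap f.toFun w) (t.map f.toFun) := by
  induction h with
  | nil s => exact Run.nil _
  | cons h _ ih => exact Run.cons (h.map f) ih

theorem Rel0.map (f : RHom X Y) {l r : Wrd X} (h : Rel0 l r) : Rel0 (wmap f.toFun l) (wmap f.toFun r) := by
  cases h with
  | zig x => exact Rel0.zig _
  | zag x => exact Rel0.zag _
  | r1a x y => exact Rel0.r1a _ _
  | r1b x y => exact Rel0.r1b _ _
  | r1c => exact Rel0.r1c
  | r1d => exact Rel0.r1d
  | r2a => exact Rel0.r2a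
  | r2b => exact Rel0.r2b
  | r3 => exact Rel0.r3
  | sl1 x y => exact Rel0.sl1 _ _
  | sl2 x y => exact Rel0.sl2 _ _
  | sl3 => exact Rel0.sl3
  | sl4 => exact Rel0.sl4
  | far k m j =>
    have := Rel0.far (kmap f.toFun k) (kmap f.toFun m) j
    simpa using this

theorem Step.map (f : RHom X Y) {s : List X} {w w' : Wrd X} (h : Step s w w') :
    Step (s.map f.toFun) (wmap f.toFun w) (wmap f.toFun w') := by
  obtain ⟨p, q, l, r, i, t, u, h0, rfl, rfl, hp, hl, hr⟩ := h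
  refine ⟨wmap f.toFun p, wmap f.toFun q, wmap f.toFun l, wmap f.toFun r, i, t.map f.toFun, u.map f.toFun,
    h0.map f, ?_, ?_, hp.map f, ?_, ?_⟩
  · simp only [wmap_append, wmap_sh]
  · simp only [wmap_append, wmap_sh]
  · rw [← wmap_sh]
    exact hl.map f
  · rw [← wmap_sh]
    exact hr.map f

theorem Eqv.map (f : RHom X Y) {s : List X} {w w' : Wrd X} (h : Eqv s w w') :
    Eqv (s.map f.toFun) (wmap f.toFun w) (wmap f.toFun w') := by
  induction h with
  | rel _ _ h => exact (h.map f).eqv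
  | refl _ => exact Eqv.refl _ _
  | symm _ _ _ ih => exact ih.symm
  | trans _ _ _ _ _ ih1 ih2 => exact ih1.trans ih2

variable (X) in
/-- forgetting the labels -/
def fgtHom : RHom X Unit := ⟨fun _ => (), fun _ => rfl, fun _ _ => rfl⟩

theorem Run.forget {s t : List X} {w : Wrd X} (h : Run s w t) :
    Run (s.map fun _ => ()) (fgt w) (t.map fun _ => ()) := by
  rw [fgt_eq]
  exact h.map (fgtHom X)

theorem Eqv.forget {s : List X} {w w' : Wrd X} (h : Eqv s w w') :
    Eqv (s.map fun _ => ()) (fgt w) (fgt w') := by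
  rw [fgt_eq, fgt_eq]
  exact h.map (fgtHom X)

end


section Inv

variable {X : Type u} [Rule X]

theorem run_two {k m : Kind X} {i j : ℕ} {t u : List X} :
    Run t [(k, i), (m, j)] u ↔ ∃ v, App k i t v ∧ App m j v u := by
  rw [run_cons]
  simp only [run_one]

theorem run_three {k m n : Kind X} {i j l : ℕ} {t u : List X} :
    Run t [(k, i), (m, j), (n, l)] u ↔ ∃ v w, App k i t v ∧ App m j v w ∧ App n l w u := by
  rw [run_cons]
  simp only [run_two]
  constructor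
  · rintro ⟨v, h, w, h1, h2⟩
    exact ⟨v, w, h, h1, h2⟩
  · rintro ⟨v, w, h, h1, h2⟩
    exact ⟨v, h, w, h1, h2⟩

theorem run_cup {x : X} {t u : List X} : Run t [(cup x, 0)] u ↔ u = x :: bar x :: t := by
  rw [run_one, app_cup]

theorem run_cap {t u : List X} : Run t [(cap, 0)] u ↔ ∃ a, t = a :: bar a :: u := by
  rw [run_one]
  constructor
  · intro h
    cases h
    exact ⟨_, rfl⟩
  · rintro ⟨a, rfl⟩
    exact App.cap a u

theorem run_zig {x : X} {t u : List X} :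
    Run t [(cup x, 0), (cap, 1)] u ↔ ∃ s, t = x :: s ∧ u = x :: s := by
  rw [run_two]
  constructor
  · rintro ⟨v, h1, h2⟩
    rw [app_cup] at h1
    subst h1
    rw [app_one] at h2
    obtain ⟨t', rfl, h2⟩ := h2
    rcases t with _ | ⟨a, t⟩
    · cases h2
    · rw [app_cap] at h2
      obtain ⟨h3, rfl⟩ := h2
      rw [bar_bar] at h3
      subst h3
      exact ⟨t', rfl, rfl⟩
  · rintro ⟨s, rfl, rfl⟩
    exact ⟨_, App.cup x _, App.skip x (app_cap.2 ⟨(bar_bar x).symm, rfl⟩)⟩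

theorem run_zag {x : X} {t u : List X} :
    Run t [(cup x, 1), (cap, 0)] u ↔ ∃ s, t = bar x :: s ∧ u = bar x :: s := by
  rw [run_two]
  constructor
  · rintro ⟨v, h1, h2⟩
    rcases t with _ | ⟨a, t⟩
    · cases h1
    · rw [app_one] at h1
      obtain ⟨t', rfl, h1⟩ := h1
      rw [app_cup] at h1
      subst h1
      rw [app_cap] at h2
      obtain ⟨h3, rfl⟩ := h2
      have h4 : a = bar x := by rw [h3, bar_bar]
      subst h4
      exact ⟨t, rfl, rfl⟩
  · rintro ⟨s, rfl, rfl⟩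
    exact ⟨_, App.skip _ (App.cup x _), app_cap.2 ⟨(bar_bar x).symm, rfl⟩⟩

theorem run_r1a {x : X} {t u : List X} :
    Run t [(cup x, 0), (pos, 0)] u ↔ u = bar x :: x :: t := by
  rw [run_two]
  simp only [app_cup, exists_eq_left, app_pos, act_self_bar]

theorem run_r1b {x : X} {t u : List X} :
    Run t [(cup x, 0), (neg, 0)] u ↔ u = bar x :: x :: t := by
  rw [run_two]
  simp only [app_cup, exists_eq_left, app_neg, bar_bar, act_self]

theorem run_r1c {t u : List X} : Run t [(pos, 0), (cap, 0)] u ↔ ∃ a, t = a :: bar a :: u := by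
  rw [run_two]
  constructor
  · rintro ⟨v, h1, h2⟩
    cases h1
    rename_i a b s
    rw [app_cap] at h2
    obtain ⟨h2, rfl⟩ := h2
    have h3 : act a (bar b) = act a a := by rw [act_bar, ← h2, act_self]
    have h4 := act_inj h3
    refine ⟨a, ?_⟩
    rw [← h4, bar_bar]
  · rintro ⟨a, rfl⟩
    refine ⟨_, App.pos _ _ _, ?_⟩
    rw [act_self_bar, app_cap, bar_bar]
    exact ⟨rfl, rfl⟩

theorem run_r1d {t u : List X} : Run t [(neg, 0), (cap, 0)] u ↔ ∃ a, t = a :: bar a :: u := by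
  rw [run_two]
  constructor
  · rintro ⟨v, h1, h2⟩
    cases h1
    rename_i a b s
    rw [app_cap] at h2
    obtain ⟨h2, rfl⟩ := h2
    have h3 : act (bar b) a = act (bar b) (bar b) := by rw [h2, act_self]
    have h4 := act_inj h3
    refine ⟨a, ?_⟩
    rw [h4, bar_bar]
  · rintro ⟨a, rfl⟩
    refine ⟨_, App.neg _ _ _, ?_⟩
    rw [bar_bar, act_self, app_cap, bar_bar]
    exact ⟨rfl, rfl⟩

theorem run_r2a {t u : List X} : Run t [(pos, 0), (neg, 0)] u ↔ ∃ a b s, t = a :: b :: s ∧ u = a :: b :: s := by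
  rw [run_two]
  constructor
  · rintro ⟨v, h1, h2⟩
    cases h1
    rename_i a b s
    rw [app_neg, bar_act] at h2
    exact ⟨a, b, s, rfl, h2⟩
  · rintro ⟨a, b, s, rfl, rfl⟩
    refine ⟨_, App.pos _ _ _, ?_⟩
    rw [app_neg, bar_act]

theorem run_r2b {t u : List X} : Run t [(neg, 0), (pos, 0)] u ↔ ∃ a b s, t = a :: b :: s ∧ u = a :: b :: s := by
  rw [run_two]
  constructor
  · rintro ⟨v, h1, h2⟩
    cases h1
    rename_i a b s
    rw [app_pos, act_bar_act] at h2
    exact ⟨a, b, s, rfl, h2⟩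
  · rintro ⟨a, b, s, rfl, rfl⟩
    refine ⟨_, App.neg _ _ _, ?_⟩
    rw [app_pos, act_bar_act]

theorem run_r3l {t u : List X} : Run t [(pos, 0), (pos, 1), (pos, 0)] u ↔
    ∃ a b c s, t = a :: b :: c :: s ∧ u = act a (act b c) :: act a b :: a :: s := by
  rw [run_three]
  constructor
  · rintro ⟨v, w, h1, h2, h3⟩
    cases h1
    rename_i a b s
    rw [app_one] at h2
    obtain ⟨t', rfl, h2⟩ := h2
    cases h2
    rename_i c s
    rw [app_pos, ← act_act] at h3
    exact ⟨a, b, c, s, rfl, h3⟩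
  · rintro ⟨a, b, c, s, rfl, rfl⟩
    refine ⟨_, _, App.pos _ _ _, App.skip _ (App.pos _ _ _), ?_⟩
    rw [app_pos, ← act_act]

theorem run_r3r {t u : List X} : Run t [(pos, 1), (pos, 0), (pos, 1)] u ↔
    ∃ a b c s, t = a :: b :: c :: s ∧ u = act a (act b c) :: act a b :: a :: s := by
  rw [run_three]
  constructor
  · rintro ⟨v, w, h1, h2, h3⟩
    rcases t with _ | ⟨a, t⟩
    · cases h1
    rw [app_one] at h1
    obtain ⟨t', rfl, h1⟩ := h1
    cases h1
    rename_i b c s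
    rw [app_pos] at h2
    subst h2
    rw [app_one] at h3
    obtain ⟨t', rfl, h3⟩ := h3
    rw [app_pos] at h3
    subst h3
    exact ⟨a, b, c, s, rfl, rfl⟩
  · rintro ⟨a, b, c, s, rfl, rfl⟩
    exact ⟨_, _, App.skip _ (App.pos _ _ _), App.pos _ _ _, App.skip _ (App.pos _ _ _)⟩

theorem run_sl1l {x : X} {t u : List X} : Run t [(cup x, 0), (pos, 1)] u ↔
    ∃ b s, t = b :: s ∧ u = x :: act (bar x) b :: bar x :: s := by
  rw [run_two]
  constructor
  · rintro ⟨v, h1, h2⟩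
    rw [app_cup] at h1
    subst h1
    rw [app_one] at h2
    obtain ⟨t', rfl, h2⟩ := h2
    cases h2
    exact ⟨_, _, rfl, rfl⟩
  · rintro ⟨b, s, rfl, rfl⟩
    exact ⟨_, App.cup _ _, App.skip _ (App.pos _ _ _)⟩

theorem run_sl1r {y : X} {t u : List X} : Run t [(cup y, 1), (neg, 0)] u ↔
    ∃ b s, t = b :: s ∧ u = y :: act (bar y) b :: bar y :: s := by
  rw [run_two]
  constructor
  · rintro ⟨v, h1, h2⟩
    rcases t with _ | ⟨b, t⟩
    · cases h1
    rw [app_one] at h1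
    obtain ⟨t', rfl, h1⟩ := h1
    rw [app_cup] at h1
    subst h1
    rw [app_neg] at h2
    exact ⟨b, t, rfl, h2⟩
  · rintro ⟨b, s, rfl, rfl⟩
    exact ⟨_, App.skip _ (App.cup _ _), App.neg _ _ _⟩

theorem run_sl2l {x : X} {t u : List X} : Run t [(cup x, 0), (neg, 1)] u ↔
    ∃ b s, t = b :: s ∧ u = x :: b :: act (bar b) (bar x) :: s := by
  rw [run_two]
  constructor
  · rintro ⟨v, h1, h2⟩
    rw [app_cup] at h1
    subst h1
    rw [app_one] at h2
    obtain ⟨t', rfl, h2⟩ := h2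
    cases h2
    exact ⟨_, _, rfl, rfl⟩
  · rintro ⟨b, s, rfl, rfl⟩
    exact ⟨_, App.cup _ _, App.skip _ (App.neg _ _ _)⟩

theorem run_sl2r {y : X} {t u : List X} : Run t [(cup y, 1), (pos, 0)] u ↔
    ∃ b s, t = b :: s ∧ u = act b y :: b :: bar y :: s := by
  rw [run_two]
  constructor
  · rintro ⟨v, h1, h2⟩
    rcases t with _ | ⟨b, t⟩
    · cases h1
    rw [app_one] at h1
    obtain ⟨t', rfl, h1⟩ := h1
    rw [app_cup] at h1
    subst h1
    rw [app_pos] at h2
    exact ⟨b, t, rfl, h2⟩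
  · rintro ⟨b, s, rfl, rfl⟩
    exact ⟨_, App.skip _ (App.cup _ _), App.pos _ _ _⟩

theorem run_sl3l {t u : List X} : Run t [(pos, 1), (cap, 0)] u ↔
    ∃ a b s, t = a :: b :: act (bar b) (bar a) :: s ∧ u = b :: s := by
  rw [run_two]
  constructor
  · rintro ⟨v, h1, h2⟩
    rcases t with _ | ⟨a, t⟩
    · cases h1
    rw [app_one] at h1
    obtain ⟨t', rfl, h1⟩ := h1
    cases h1
    rename_i b c s
    rw [app_cap] at h2
    obtain ⟨h2, rfl⟩ := h2
    refine ⟨a, b, s, ?_, rfl⟩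
    rw [← h2, bar_act]
  · rintro ⟨a, b, s, rfl, rfl⟩
    refine ⟨_, App.skip _ (App.pos _ _ _), ?_⟩
    rw [act_bar_act, app_cap]
    exact ⟨rfl, rfl⟩

theorem run_sl3r {t u : List X} : Run t [(neg, 0), (cap, 1)] u ↔
    ∃ a b s, t = a :: b :: act (bar b) (bar a) :: s ∧ u = b :: s := by
  rw [run_two]
  constructor
  · rintro ⟨v, h1, h2⟩
    cases h1
    rename_i a b s
    rw [app_one] at h2
    obtain ⟨t', rfl, h2⟩ := h2
    cases h2
    refine ⟨a, b, _, ?_, rfl⟩
    rw [act_bar]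
  · rintro ⟨a, b, s, rfl, rfl⟩
    refine ⟨_, App.neg _ _ _, App.skip _ ?_⟩
    rw [app_cap, act_bar]
    exact ⟨rfl, rfl⟩

theorem run_sl4l {t u : List X} : Run t [(neg, 1), (cap, 0)] u ↔
    ∃ a b s, t = a :: b :: bar a :: s ∧ u = act a b :: s := by
  rw [run_two]
  constructor
  · rintro ⟨v, h1, h2⟩
    rcases t with _ | ⟨a, t⟩
    · cases h1
    rw [app_one] at h1
    obtain ⟨t', rfl, h1⟩ := h1
    cases h1
    rename_i b c s
    rw [app_cap] at h2
    obtain ⟨rfl, rfl⟩ := h2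
    refine ⟨a, b, s, rfl, ?_⟩
    rw [bar_bar]
  · rintro ⟨a, b, s, rfl, rfl⟩
    refine ⟨_, App.skip _ (App.neg _ _ _), ?_⟩
    rw [app_cap, bar_bar]
    exact ⟨rfl, rfl⟩

theorem run_sl4r {t u : List X} : Run t [(pos, 0), (cap, 1)] u ↔
    ∃ a b s, t = a :: b :: bar a :: s ∧ u = act a b :: s := by
  rw [run_two]
  constructor
  · rintro ⟨v, h1, h2⟩
    cases h1
    rename_i a b s
    rw [app_one] at h2
    obtain ⟨t', rfl, h2⟩ := h2
    cases h2
    exact ⟨a, b, _, rfl, rfl⟩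
  · rintro ⟨a, b, s, rfl, rfl⟩
    exact ⟨_, App.pos _ _ _, App.skip _ (App.cap _ _)⟩

/-- far commutation of letters -/
theorem app_far {k m : Kind X} {j : ℕ} {t u : List X} :
    (∃ v, App k 0 t v ∧ App m (k.wout + j) v u) ↔ ∃ v, App m (k.win + j) t v ∧ App k 0 v u := by
  cases k with
  | cup x =>
    constructor
    · rintro ⟨v, h1, h2⟩
      rw [app_cup] at h1
      subst h1
      rw [wout_cup, add_comm, show j + 2 = (j + 1) + 1 from rfl, app_succ] at h2
      obtain ⟨t', rfl, h2⟩ := h2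
      rw [app_succ] at h2
      obtain ⟨t', rfl, h2⟩ := h2
      exact ⟨t', by simpa using h2, App.cup x t'⟩
    · rintro ⟨v, h1, h2⟩
      rw [app_cup] at h2
      subst h2
      rw [win_cup, zero_add] at h1
      refine ⟨x :: bar x :: t, App.cup x t, ?_⟩
      rw [wout_cup, add_comm]
      exact App.skip _ (App.skip _ h1)
  | cap =>
    constructor
    · rintro ⟨v, h1, h2⟩
      cases h1
      rename_i a
      rw [wout_cap, zero_add] at h2
      refine ⟨a :: bar a :: u, ?_, App.cap a u⟩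
      rw [win_cap, add_comm]
      exact App.skip _ (App.skip _ h2)
    · rintro ⟨v, h1, h2⟩
      cases h2
      rename_i a
      rw [win_cap, add_comm, show j + 2 = (j + 1) + 1 from rfl] at h1
      rcases t with _ | ⟨b, t⟩
      · cases h1
      rw [app_succ] at h1
      obtain ⟨t', h3, h1⟩ := h1
      rcases t with _ | ⟨c, t⟩
      · cases h1
      rw [app_succ] at h1
      obtain ⟨t'', rfl, h1⟩ := h1
      simp only [List.cons.injEq] at h3
      obtain ⟨rfl, rfl, rfl⟩ := h3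
      exact ⟨t, App.cap _ t, by simpa using h1⟩
  | pos =>
    constructor
    · rintro ⟨v, h1, h2⟩
      cases h1
      rename_i a b s
      rw [wout_pos, add_comm, show j + 2 = (j + 1) + 1 from rfl, app_succ] at h2
      obtain ⟨t', rfl, h2⟩ := h2
      rw [app_succ] at h2
      obtain ⟨t'', rfl, h2⟩ := h2
      refine ⟨a :: b :: t'', ?_, App.pos a b t''⟩
      rw [win_pos, add_comm]
      exact App.skip _ (App.skip _ h2)
    · rintro ⟨v, h1, h2⟩
      cases h2
      rename_i a b s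
      rw [win_pos, add_comm, show j + 2 = (j + 1) + 1 from rfl] at h1
      rcases t with _ | ⟨a', t⟩
      · cases h1
      rw [app_succ] at h1
      obtain ⟨t', h3, h1⟩ := h1
      rcases t with _ | ⟨c, t⟩
      · cases h1
      rw [app_succ] at h1
      obtain ⟨t'', rfl, h1⟩ := h1
      simp only [List.cons.injEq] at h3
      obtain ⟨rfl, rfl, rfl⟩ := h3
      refine ⟨_, App.pos _ _ t, ?_⟩
      rw [wout_pos, add_comm]
      exact App.skip _ (App.skip _ h1)
  | neg =>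
    constructor
    · rintro ⟨v, h1, h2⟩
      cases h1
      rename_i a b s
      rw [wout_neg, add_comm, show j + 2 = (j + 1) + 1 from rfl, app_succ] at h2
      obtain ⟨t', rfl, h2⟩ := h2
      rw [app_succ] at h2
      obtain ⟨t'', rfl, h2⟩ := h2
      refine ⟨a :: b :: t'', ?_, App.neg a b t''⟩
      rw [win_neg, add_comm]
      exact App.skip _ (App.skip _ h2)
    · rintro ⟨v, h1, h2⟩
      cases h2
      rename_i a b s
      rw [win_neg, add_comm, show j + 2 = (j + 1) + 1 from rfl] at h1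
      rcases t with _ | ⟨a', t⟩
      · cases h1
      rw [app_succ] at h1
      obtain ⟨t', h3, h1⟩ := h1
      rcases t with _ | ⟨c, t⟩
      · cases h1
      rw [app_succ] at h1
      obtain ⟨t'', rfl, h1⟩ := h1
      simp only [List.cons.injEq] at h3
      obtain ⟨rfl, rfl, rfl⟩ := h3
      refine ⟨_, App.neg _ _ t, ?_⟩
      rw [wout_neg, add_comm]
      exact App.skip _ (App.skip _ h1)

/-- far commutation of runs -/
theorem run_far {k m : Kind X} {j : ℕ} {t u : List X} :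
    Run t [(k, 0), (m, k.wout + j)] u ↔ Run t [(m, k.win + j), (k, 0)] u := by
  rw [run_two, run_two, app_far]

end Inv

section Lift

variable {X : Type u} {Y : Type v}

theorem wmap_eq_nil {f : X → Y} {w : Wrd X} : wmap f w = [] ↔ w = [] := by simp [wmap]

theorem wmap_eq_cons {f : X → Y} {w : Wrd X} {k : Kind Y} {i : ℕ} {d : Wrd Y} :
    wmap f w = (k, i) :: d ↔ ∃ (k' : Kind X) (w' : Wrd X), w = (k', i) :: w' ∧ kmap f k' = k ∧ wmap f w' = d := by
  cases w with
  | nil => simp [wmap]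
  | cons l w =>
    obtain ⟨k', j⟩ := l
    simp only [wmap_cons, List.cons.injEq, Prod.mk.injEq]
    constructor
    · rintro ⟨⟨h1, h2⟩, h3⟩
      exact ⟨k', w, ⟨⟨rfl, h2⟩, rfl⟩, h1, h3⟩
    · rintro ⟨k'', w', ⟨⟨rfl, h2⟩, rfl⟩, h1, h3⟩
      exact ⟨⟨h1, h2⟩, h3⟩

theorem wmap_eq_append {f : X → Y} {w : Wrd X} {d d' : Wrd Y} :
    wmap f w = d ++ d' ↔ ∃ v v' : Wrd X, w = v ++ v' ∧ wmap f v = d ∧ wmap f v' = d' := by
  rw [wmap, List.map_eq_append_iff]
  constructor
  · rintro ⟨v, v', h1, h2, h3⟩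
    exact ⟨v, v', h1, h2, h3⟩
  · rintro ⟨v, v', h1, h2, h3⟩
    exact ⟨v, v', h1, h2, h3⟩

theorem wmap_eq_sh {f : X → Y} {w : Wrd X} {i : ℕ} {d : Wrd Y} :
    wmap f w = sh i d ↔ ∃ v : Wrd X, w = sh i v ∧ wmap f v = d := by
  constructor
  · intro h
    induction d generalizing w with
    | nil =>
      rw [sh_nil, wmap_eq_nil] at h
      exact ⟨[], by rw [h]; rfl, rfl⟩
    | cons l d ih =>
      obtain ⟨k, j⟩ := l
      rw [sh_cons, wmap_eq_cons] at h
      obtain ⟨k', w', rfl, h1, h2⟩ := h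
      obtain ⟨v, rfl, h3⟩ := ih h2
      exact ⟨(k', j) :: v, by simp, by simp [h1, h3]⟩
  · rintro ⟨v, rfl, rfl⟩
    exact wmap_sh f i v

theorem kmap_eq_cup {f : X → Y} {k : Kind X} {y : Y} : kmap f k = cup y ↔ ∃ x, k = cup x ∧ f x = y := by
  cases k <;> simp [kmap]
theorem kmap_eq_cap {f : X → Y} {k : Kind X} : kmap f k = cap ↔ k = cap := by
  cases k <;> simp [kmap]
theorem kmap_eq_pos {f : X → Y} {k : Kind X} : kmap f k = pos ↔ k = pos := by
  cases k <;> simp [kmap]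
theorem kmap_eq_neg {f : X → Y} {k : Kind X} : kmap f k = neg ↔ k = neg := by
  cases k <;> simp [kmap]

variable [Rule X] [Rule Y]

/-- lifting of a local relation along a homomorphism of rules, from the left side to the right side -/
theorem Rel0.lift (f : RHom X Y) {l r : Wrd Y} (h : Rel0 l r) {l' : Wrd X} (hl : wmap f.toFun l' = l) {t u : List X}
    (hrun : Run t l' u) (hr : Run (t.map f.toFun) r (u.map f.toFun)) :
    ∃ r', wmap f.toFun r' = r ∧ Run t r' u ∧ Rel0 l' r' := by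
  cases h with
  | zig x =>
    rw [wmap_eq_nil] at hl
    subst hl
    rw [run_nil] at hrun
    subst hrun
    rw [run_zig] at hr
    obtain ⟨s, h1, -⟩ := hr
    obtain ⟨a, t', rfl, rfl, h3⟩ := List.map_eq_cons_iff.1 h1
    exact ⟨[(cup a, 0), (cap, 1)], rfl, run_zig.2 ⟨t', rfl, rfl⟩, Rel0.zig a⟩
  | zag x =>
    rw [wmap_eq_nil] at hl
    subst hl
    rw [run_nil] at hrun
    subst hrun
    rw [run_zag] at hr
    obtain ⟨s, h1, -⟩ := hr
    obtain ⟨a, t', rfl, h2, h3⟩ := List.map_eq_cons_iff.1 h1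
    refine ⟨[(cup (bar a), 1), (cap, 0)], ?_, run_zag.2 ⟨t', ?_, ?_⟩, Rel0.zag _⟩
    · simp only [wmap_cons, kmap_cup, kmap_cap, wmap_nil, f.map_bar, h2, bar_bar]
    · rw [bar_bar]
    · rw [bar_bar]
  | r1a x y =>
    simp only [wmap_eq_cons, wmap_eq_nil, kmap_eq_cup, kmap_eq_pos] at hl
    obtain ⟨_, _, rfl, ⟨a, rfl, rfl⟩, _, _, rfl, rfl, rfl⟩ := hl
    rw [run_r1a] at hrun
    subst hrun
    rw [run_cup] at hr
    simp only [List.map_cons, List.cons.injEq] at hr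
    refine ⟨[(cup (bar a), 0)], ?_, ?_, Rel0.r1a _ _⟩
    · simp [hr.1]
    · rw [run_cup, bar_bar]
  | r1b x y =>
    simp only [wmap_eq_cons, wmap_eq_nil, kmap_eq_cup, kmap_eq_neg] at hl
    obtain ⟨_, _, rfl, ⟨a, rfl, rfl⟩, _, _, rfl, rfl, rfl⟩ := hl
    rw [run_r1b] at hrun
    subst hrun
    rw [run_cup] at hr
    simp only [List.map_cons, List.cons.injEq] at hr
    refine ⟨[(cup (bar a), 0)], ?_, ?_, Rel0.r1b _ _⟩
    · simp [hr.1]
    · rw [run_cup, bar_bar]
  | r1c =>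
    simp only [wmap_eq_cons, wmap_eq_nil, kmap_eq_cap, kmap_eq_pos] at hl
    obtain ⟨_, _, rfl, rfl, _, _, rfl, rfl, rfl⟩ := hl
    refine ⟨[(cap, 0)], rfl, ?_, Rel0.r1c⟩
    rw [run_r1c] at hrun
    exact run_cap.2 hrun
  | r1d =>
    simp only [wmap_eq_cons, wmap_eq_nil, kmap_eq_cap, kmap_eq_neg] at hl
    obtain ⟨_, _, rfl, rfl, _, _, rfl, rfl, rfl⟩ := hl
    refine ⟨[(cap, 0)], rfl, ?_, Rel0.r1d⟩
    rw [run_r1d] at hrun
    exact run_cap.2 hrun
  | r2a =>
    simp only [wmap_eq_cons, wmap_eq_nil, kmap_eq_pos, kmap_eq_neg] at hl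
    obtain ⟨_, _, rfl, rfl, _, _, rfl, rfl, rfl⟩ := hl
    refine ⟨[], rfl, ?_, Rel0.r2a⟩
    rw [run_r2a] at hrun
    obtain ⟨a, b, s, rfl, rfl⟩ := hrun
    exact Run.nil _
  | r2b =>
    simp only [wmap_eq_cons, wmap_eq_nil, kmap_eq_pos, kmap_eq_neg] at hl
    obtain ⟨_, _, rfl, rfl, _, _, rfl, rfl, rfl⟩ := hl
    refine ⟨[], rfl, ?_, Rel0.r2b⟩
    rw [run_r2b] at hrun
    obtain ⟨a, b, s, rfl, rfl⟩ := hrun
    exact Run.nil _
  | r3 =>
    simp only [wmap_eq_cons, wmap_eq_nil, kmap_eq_pos] at hl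
    obtain ⟨_, _, rfl, rfl, _, _, rfl, rfl, _, _, rfl, rfl, rfl⟩ := hl
    refine ⟨[(pos, 1), (pos, 0), (pos, 1)], rfl, ?_, Rel0.r3⟩
    rw [run_r3l] at hrun
    exact run_r3r.2 hrun
  | sl1 x y =>
    simp only [wmap_eq_cons, wmap_eq_nil, kmap_eq_cup, kmap_eq_pos] at hl
    obtain ⟨_, _, rfl, ⟨a, rfl, rfl⟩, _, _, rfl, rfl, rfl⟩ := hl
    rw [run_sl1l] at hrun
    obtain ⟨b, s, rfl, rfl⟩ := hrun
    rw [run_sl1r] at hr
    obtain ⟨b', s', h1, h2⟩ := hr
    simp only [List.map_cons, List.cons.injEq] at h2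
    refine ⟨[(cup a, 1), (neg, 0)], ?_, run_sl1r.2 ⟨b, s, rfl, rfl⟩, Rel0.sl1 _ _⟩
    simp [h2.1]
  | sl2 x y =>
    simp only [wmap_eq_cons, wmap_eq_nil, kmap_eq_cup, kmap_eq_neg] at hl
    obtain ⟨_, _, rfl, ⟨a, rfl, rfl⟩, _, _, rfl, rfl, rfl⟩ := hl
    rw [run_sl2l] at hrun
    obtain ⟨b, s, rfl, rfl⟩ := hrun
    rw [run_sl2r] at hr
    obtain ⟨b', s', h1, h2⟩ := hr
    simp only [List.map_cons, List.cons.injEq] at h2 h1
    refine ⟨[(cup (act (bar b) a), 1), (pos, 0)], ?_, run_sl2r.2 ⟨b, s, rfl, ?_⟩, Rel0.sl2 _ _⟩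
    · simp only [wmap_cons, kmap_cup, kmap_pos, wmap_nil, f.map_act, f.map_bar, h2.1, h1.1, bar_act]
    · rw [act_bar_act, act_bar]
  | sl3 =>
    simp only [wmap_eq_cons, wmap_eq_nil, kmap_eq_cap, kmap_eq_pos] at hl
    obtain ⟨_, _, rfl, rfl, _, _, rfl, rfl, rfl⟩ := hl
    refine ⟨[(neg, 0), (cap, 1)], rfl, ?_, Rel0.sl3⟩
    rw [run_sl3l] at hrun
    exact run_sl3r.2 hrun
  | sl4 =>
    simp only [wmap_eq_cons, wmap_eq_nil, kmap_eq_cap, kmap_eq_neg] at hl
    obtain ⟨_, _, rfl, rfl, _, _, rfl, rfl, rfl⟩ := hl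
    refine ⟨[(pos, 0), (cap, 1)], rfl, ?_, Rel0.sl4⟩
    rw [run_sl4l] at hrun
    exact run_sl4r.2 hrun
  | far k m j =>
    simp only [wmap_eq_cons, wmap_eq_nil] at hl
    obtain ⟨k', _, rfl, h1, m', _, rfl, h2, rfl⟩ := hl
    have h3 : k.wout = k'.wout := by rw [← h1, kmap_wout]
    have h5 : k.win = k'.win := by rw [← h1, kmap_win]
    refine ⟨[(m', k'.win + j), (k', 0)], ?_, ?_, ?_⟩
    · simp [h1, h2, h5]
    · rw [h3] at hrun
      exact run_far.1 hrun
    · rw [h3]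
      exact Rel0.far _ _ _

/-- lifting of a local relation along a homomorphism of rules, from the right side to the left side -/
theorem Rel0.lift' (f : RHom X Y) {l r : Wrd Y} (h : Rel0 l r) {r' : Wrd X} (hl : wmap f.toFun r' = r) {t u : List X}
    (hrun : Run t r' u) (hr : Run (t.map f.toFun) l (u.map f.toFun)) :
    ∃ l', wmap f.toFun l' = l ∧ Run t l' u ∧ Rel0 l' r' := by
  cases h with
  | zig x =>
    simp only [wmap_eq_cons, wmap_eq_nil, kmap_eq_cup, kmap_eq_cap] at hl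
    obtain ⟨_, _, rfl, ⟨a, rfl, rfl⟩, _, _, rfl, rfl, rfl⟩ := hl
    rw [run_zig] at hrun
    obtain ⟨s, rfl, rfl⟩ := hrun
    exact ⟨[], rfl, Run.nil _, Rel0.zig a⟩
  | zag x =>
    simp only [wmap_eq_cons, wmap_eq_nil, kmap_eq_cup, kmap_eq_cap] at hl
    obtain ⟨_, _, rfl, ⟨a, rfl, rfl⟩, _, _, rfl, rfl, rfl⟩ := hl
    rw [run_zag] at hrun
    obtain ⟨s, rfl, rfl⟩ := hrun
    exact ⟨[], rfl, Run.nil _, Rel0.zag a⟩
  | r1a x y =>
    simp only [wmap_eq_cons, wmap_eq_nil, kmap_eq_cup] at hl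
    obtain ⟨_, _, rfl, ⟨a, rfl, rfl⟩, rfl⟩ := hl
    rw [run_cup] at hrun
    subst hrun
    rw [run_r1a] at hr
    simp only [List.map_cons, List.cons.injEq] at hr
    refine ⟨[(cup (bar a), 0), (pos, 0)], ?_, ?_, Rel0.r1a _ _⟩
    · simp only [wmap_cons, kmap_cup, kmap_pos, wmap_nil, hr.2.1]
    · rw [run_r1a, bar_bar]
  | r1b x y =>
    simp only [wmap_eq_cons, wmap_eq_nil, kmap_eq_cup] at hl
    obtain ⟨_, _, rfl, ⟨a, rfl, rfl⟩, rfl⟩ := hl
    rw [run_cup] at hrun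
    subst hrun
    rw [run_r1b] at hr
    simp only [List.map_cons, List.cons.injEq] at hr
    refine ⟨[(cup (bar a), 0), (neg, 0)], ?_, ?_, Rel0.r1b _ _⟩
    · simp only [wmap_cons, kmap_cup, kmap_neg, wmap_nil, hr.2.1]
    · rw [run_r1b, bar_bar]
  | r1c =>
    simp only [wmap_eq_cons, wmap_eq_nil, kmap_eq_cap] at hl
    obtain ⟨_, _, rfl, rfl, rfl⟩ := hl
    refine ⟨[(pos, 0), (cap, 0)], rfl, ?_, Rel0.r1c⟩
    rw [run_cap] at hrun
    exact run_r1c.2 hrun
  | r1d =>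
    simp only [wmap_eq_cons, wmap_eq_nil, kmap_eq_cap] at hl
    obtain ⟨_, _, rfl, rfl, rfl⟩ := hl
    refine ⟨[(neg, 0), (cap, 0)], rfl, ?_, Rel0.r1d⟩
    rw [run_cap] at hrun
    exact run_r1d.2 hrun
  | r2a =>
    rw [wmap_eq_nil] at hl
    subst hl
    rw [run_nil] at hrun
    subst hrun
    rw [run_r2a] at hr
    obtain ⟨a, b, s, h1, -⟩ := hr
    obtain ⟨a', t', rfl, h2, h3⟩ := List.map_eq_cons_iff.1 h1
    obtain ⟨b', t'', rfl, h4, h5⟩ := List.map_eq_cons_iff.1 h3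
    exact ⟨[(pos, 0), (neg, 0)], rfl, run_r2a.2 ⟨_, _, _, rfl, rfl⟩, Rel0.r2a⟩
  | r2b =>
    rw [wmap_eq_nil] at hl
    subst hl
    rw [run_nil] at hrun
    subst hrun
    rw [run_r2b] at hr
    obtain ⟨a, b, s, h1, -⟩ := hr
    obtain ⟨a', t', rfl, h2, h3⟩ := List.map_eq_cons_iff.1 h1
    obtain ⟨b', t'', rfl, h4, h5⟩ := List.map_eq_cons_iff.1 h3
    exact ⟨[(neg, 0), (pos, 0)], rfl, run_r2b.2 ⟨_, _, _, rfl, rfl⟩, Rel0.r2b⟩
  | r3 =>
    simp only [wmap_eq_cons, wmap_eq_nil, kmap_eq_pos] at hl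
    obtain ⟨_, _, rfl, rfl, _, _, rfl, rfl, _, _, rfl, rfl, rfl⟩ := hl
    refine ⟨[(pos, 0), (pos, 1), (pos, 0)], rfl, ?_, Rel0.r3⟩
    rw [run_r3r] at hrun
    exact run_r3l.2 hrun
  | sl1 x y =>
    simp only [wmap_eq_cons, wmap_eq_nil, kmap_eq_cup, kmap_eq_neg] at hl
    obtain ⟨_, _, rfl, ⟨a, rfl, rfl⟩, _, _, rfl, rfl, rfl⟩ := hl
    rw [run_sl1r] at hrun
    obtain ⟨b, s, rfl, rfl⟩ := hrun
    rw [run_sl1l] at hr
    obtain ⟨b', s', h1, h2⟩ := hr
    simp only [List.map_cons, List.cons.injEq] at h2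
    refine ⟨[(cup a, 0), (pos, 1)], ?_, run_sl1l.2 ⟨b, s, rfl, rfl⟩, Rel0.sl1 _ _⟩
    simp [h2.1]
  | sl2 x y =>
    simp only [wmap_eq_cons, wmap_eq_nil, kmap_eq_cup, kmap_eq_pos] at hl
    obtain ⟨_, _, rfl, ⟨a, rfl, rfl⟩, _, _, rfl, rfl, rfl⟩ := hl
    rw [run_sl2r] at hrun
    obtain ⟨b, s, rfl, rfl⟩ := hrun
    rw [run_sl2l] at hr
    obtain ⟨b', s', h1, h2⟩ := hr
    simp only [List.map_cons, List.cons.injEq] at h2 h1
    refine ⟨[(cup (act b a), 0), (neg, 1)], ?_, run_sl2l.2 ⟨b, s, rfl, ?_⟩, Rel0.sl2 _ _⟩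
    · simp only [wmap_cons, kmap_cup, kmap_neg, wmap_nil, h2.1]
    · rw [← act_bar, bar_act]
  | sl3 =>
    simp only [wmap_eq_cons, wmap_eq_nil, kmap_eq_cap, kmap_eq_neg] at hl
    obtain ⟨_, _, rfl, rfl, _, _, rfl, rfl, rfl⟩ := hl
    refine ⟨[(pos, 1), (cap, 0)], rfl, ?_, Rel0.sl3⟩
    rw [run_sl3r] at hrun
    exact run_sl3l.2 hrun
  | sl4 =>
    simp only [wmap_eq_cons, wmap_eq_nil, kmap_eq_cap, kmap_eq_pos] at hl
    obtain ⟨_, _, rfl, rfl, _, _, rfl, rfl, rfl⟩ := hl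
    refine ⟨[(neg, 1), (cap, 0)], rfl, ?_, Rel0.sl4⟩
    rw [run_sl4r] at hrun
    exact run_sl4l.2 hrun
  | far k m j =>
    simp only [wmap_eq_cons, wmap_eq_nil] at hl
    obtain ⟨m', _, rfl, h2, k', _, rfl, h1, rfl⟩ := hl
    have h3 : k.wout = k'.wout := by rw [← h1, kmap_wout]
    have h5 : k.win = k'.win := by rw [← h1, kmap_win]
    refine ⟨[(k', 0), (m', k'.wout + j)], ?_, ?_, ?_⟩
    · simp [h1, h2, h3]
    · rw [h5] at hrun
      exact run_far.2 hrun
    · rw [h5]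
      exact Rel0.far _ _ _

/-- the labels above a word are determined by the images under a homomorphism of rules and the labels below -/
theorem Run.of_map (f : RHom X Y) {s : List X} {w : Wrd X} {t' : List Y} {u : List X} (h : Run s w u)
    (h' : Run (s.map f.toFun) (wmap f.toFun w) t') : t' = u.map f.toFun := h'.det (h.map f)

omit [Rule Y] in
theorem Run.le_of_ne_nil {i : ℕ} {t u : List X} {w : Wrd X} (h : Run t (sh i w) u) (hw : w ≠ []) : i ≤ t.length := by
  cases w with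
  | nil => exact absurd rfl hw
  | cons l w =>
    obtain ⟨k, j⟩ := l
    rw [sh_cons] at h
    cases h with
    | cons h _ =>
      have := h.le
      omega

omit [Rule X] in
theorem Rel0.ne_nil {l r : Wrd X} (h : Rel0 l r) : l ≠ [] ∨ r ≠ [] := by
  cases h <;> simp

theorem Step.lift (f : RHom X Y) {s : List X} {w : Wrd X} {v : Wrd Y} {e : List X} (hw : Run s w e)
    (h : Step (s.map f.toFun) (wmap f.toFun w) v) : ∃ v', wmap f.toFun v' = v ∧ Step s w v' := by
  obtain ⟨p, q, l, r, i, t, u, h0, h1, rfl, hp, hl, hr⟩ := h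
  rw [List.append_assoc, wmap_eq_append] at h1
  obtain ⟨p', w', rfl, rfl, h1⟩ := h1
  rw [wmap_eq_append] at h1
  obtain ⟨l', q', rfl, h1, rfl⟩ := h1
  rw [wmap_eq_sh] at h1
  obtain ⟨l', rfl, rfl⟩ := h1
  obtain ⟨t', hp', hw⟩ := hw.of_append
  obtain ⟨u', hl', hq'⟩ := hw.of_append
  have ht : t = t'.map f.toFun := hp'.of_map f hp
  subst ht
  have hu : u = u'.map f.toFun := by
    refine hl'.of_map f ?_
    rw [wmap_sh]
    exact hl
  subst hu
  have hi : i ≤ t'.length := by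
    rcases h0.ne_nil with h2 | h2
    · simpa using hl.le_of_ne_nil h2
    · simpa using hr.le_of_ne_nil h2
  obtain ⟨a, b, rfl, rfl⟩ : ∃ a b, t' = a ++ b ∧ a.length = i :=
    ⟨t'.take i, t'.drop i, (List.take_append_drop i t').symm, by simp [hi]⟩
  obtain ⟨c, rfl, hl''⟩ := Run.left_inv a hl'
  have hr' : Run (b.map f.toFun) r (c.map f.toFun) := by
    have h2 : Run (a.map f.toFun ++ b.map f.toFun) (sh (a.map f.toFun).length r) (a.map f.toFun ++ c.map f.toFun) := by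
      simpa using hr
    obtain ⟨d, h3, h4⟩ := Run.left_inv _ h2
    rw [List.append_cancel_left h3]
    exact h4
  obtain ⟨r', rfl, h5, h6⟩ := h0.lift f rfl hl'' hr'
  refine ⟨p' ++ (sh a.length r' ++ q'), ?_, p', q', l', r', a.length, a ++ b, a ++ c, h6, by simp, by simp, hp', hl', h5.left a⟩
  simp [wmap_sh]

theorem Step.lift' (f : RHom X Y) {s : List X} {w : Wrd X} {v : Wrd Y} {e : List X} (hw : Run s w e)
    (h : Step (s.map f.toFun) v (wmap f.toFun w)) : ∃ v', wmap f.toFun v' = v ∧ Step s v' w := by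
  obtain ⟨p, q, l, r, i, t, u, h0, rfl, h1, hp, hl, hr⟩ := h
  rw [List.append_assoc, wmap_eq_append] at h1
  obtain ⟨p', w', rfl, rfl, h1⟩ := h1
  rw [wmap_eq_append] at h1
  obtain ⟨l', q', rfl, h1, rfl⟩ := h1
  rw [wmap_eq_sh] at h1
  obtain ⟨l', rfl, rfl⟩ := h1
  obtain ⟨t', hp', hw⟩ := hw.of_append
  obtain ⟨u', hl', hq'⟩ := hw.of_append
  have ht : t = t'.map f.toFun := hp'.of_map f hp
  subst ht
  have hu : u = u'.map f.toFun := by
    refine hl'.of_map f ?_
    rw [wmap_sh]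
    exact hr
  subst hu
  have hi : i ≤ t'.length := by
    rcases h0.ne_nil with h2 | h2
    · simpa using hl.le_of_ne_nil h2
    · simpa using hr.le_of_ne_nil h2
  obtain ⟨a, b, rfl, rfl⟩ : ∃ a b, t' = a ++ b ∧ a.length = i :=
    ⟨t'.take i, t'.drop i, (List.take_append_drop i t').symm, by simp [hi]⟩
  obtain ⟨c, rfl, hl''⟩ := Run.left_inv a hl'
  have hr' : Run (b.map f.toFun) l (c.map f.toFun) := by
    have h2 : Run (a.map f.toFun ++ b.map f.toFun) (sh (a.map f.toFun).length l) (a.map f.toFun ++ c.map f.toFun) := by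
      simpa using hl
    obtain ⟨d, h3, h4⟩ := Run.left_inv _ h2
    rw [List.append_cancel_left h3]
    exact h4
  obtain ⟨r', rfl, h5, h6⟩ := h0.lift' f rfl hl'' hr'
  refine ⟨p' ++ (sh a.length r' ++ q'), ?_, p', q', r', l', a.length, a ++ b, a ++ c, h6, by simp, by simp, hp', h5.left a, hl'⟩
  simp [wmap_sh]

/-- lifting of equivalences along a homomorphism of rules -/
theorem Eqv.lift (f : RHom X Y) {s : List X} {w : Wrd X} {v : Wrd Y} {e : List X} (hw : Run s w e)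
    (h : Eqv (s.map f.toFun) (wmap f.toFun w) v) : ∃ v', wmap f.toFun v' = v ∧ Eqv s w v' ∧ Run s v' e := by
  have key : ∀ v₁ v₂ : Wrd Y, Eqv (s.map f.toFun) v₁ v₂ → 
      (∀ w, Run s w e → wmap f.toFun w = v₁ → ∃ v', wmap f.toFun v' = v₂ ∧ Eqv s w v' ∧ Run s v' e) ∧
      (∀ w, Run s w e → wmap f.toFun w = v₂ → ∃ v', wmap f.toFun v' = v₁ ∧ Eqv s w v' ∧ Run s v' e) := by
    intro v₁ v₂ h
    induction h with
    | rel _ _ h =>
      constructor
      · rintro w hw rfl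
        obtain ⟨v', h1, h2⟩ := h.lift f hw
        exact ⟨v', h1, h2.eqv, h2.run.1 hw⟩
      · rintro w hw rfl
        obtain ⟨v', h1, h2⟩ := h.lift' f hw
        exact ⟨v', h1, h2.eqv.symm, h2.run.2 hw⟩
    | refl _ =>
      exact ⟨fun w hw h => ⟨w, h, Eqv.refl _ _, hw⟩, fun w hw h => ⟨w, h, Eqv.refl _ _, hw⟩⟩
    | symm _ _ _ ih => exact ⟨ih.2, ih.1⟩
    | trans _ _ _ _ _ ih1 ih2 =>
      constructor
      · intro w hw h
        obtain ⟨w1, h1, h2, h3⟩ := ih1.1 w hw h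
        obtain ⟨w2, h4, h5, h6⟩ := ih2.1 w1 h3 h1
        exact ⟨w2, h4, h2.trans h5, h6⟩
      · intro w hw h
        obtain ⟨w1, h1, h2, h3⟩ := ih2.2 w hw h
        obtain ⟨w2, h4, h5, h6⟩ := ih1.2 w1 h3 h1
        exact ⟨w2, h4, h2.trans h5, h6⟩
  exact (key _ _ h).1 w hw rfl

/-- lifting of equivalences of diagrams to labelled words -/
theorem Eqv.lift_fgt {s : List X} {w : Wrd X} {v : Wrd Unit} {e : List X} (hw : Run s w e)
    (h : Eqv (s.map fun _ => ()) (fgt w) v) : ∃ v', fgt v' = v ∧ Eqv s w v' ∧ Run s v' e := by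
  rw [fgt_eq] at h
  obtain ⟨v', h1, h2⟩ := Eqv.lift (fgtHom X) hw h
  refine ⟨v', ?_, h2⟩
  rw [fgt_eq]
  exact h1

/-- lifting of isotopies -/
theorem LEq.lift {w : Wrd X} {v : Wrd Unit} (hw : Run [] w []) (h : LEq (fgt w) v) :
    ∃ v', fgt v' = v ∧ Eqv [] w v' ∧ Run [] v' [] := Eqv.lift_fgt hw h

end Lift

end Pool.Agent.KL
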