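import Pool.Agent.Lib_MP_7c418e_gt.Far

/-!
# Strands passing over and under words (labels on which crossings act trivially)
-/

set_option autoImplicit false

universe u v

namespace Pool.Agent.KL

open Kind

/-- crossings do not change the labels -/
class Inert (X : Type u) [Rule X] : Prop where
  act_triv : ∀ a x : X, act a x = x

export Inert (act_triv)

instance : Inert Unit := ⟨fun _ _ => rfl⟩
instance (κ : Type u) : Inert (Col κ) := ⟨fun _ _ => rfl⟩

@[simp] theorem bar_col {κ : Type u} (x : Col κ) : bar x = x := rfl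
@[simp] theorem act_col {κ : Type u} (a x : Col κ) : act a x = x := rfl
@[simp] theorem bar_unit (x : Unit) : bar x = x := rfl
@[simp] theorem act_unit (a x : Unit) : act a x = x := rfl

/-- mirror image of a letter -/
def kmir {X : Type u} : Kind X → Kind X
  | cup x => cup x
  | cap => cap
  | pos => neg
  | neg => pos

section

variable {X : Type u}

@[simp] theorem kmir_cup (x : X) : kmir (cup x) = cup x := rfl
@[simp] theorem kmir_cap : kmir (cap : Kind X) = cap := rfl
@[simp] theorem kmir_pos : kmir (pos : Kind X) = neg := rfl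
@[simp] theorem kmir_neg : kmir (neg : Kind X) = pos := rfl
@[simp] theorem kmir_win (k : Kind X) : (kmir k).win = k.win := by cases k <;> rfl
@[simp] theorem kmir_wout (k : Kind X) : (kmir k).wout = k.wout := by cases k <;> rfl

@[simp] theorem mir_nil : mir ([] : Wrd X) = [] := rfl
@[simp] theorem mir_cons (k : Kind X) (i : ℕ) (w : Wrd X) : mir ((k, i) :: w) = (kmir k, i) :: mir w := by
  simp only [mir, List.map_cons, List.cons.injEq, Prod.mk.injEq, and_true]
  cases k <;> rfl
@[simp] theorem mir_append (w w' : Wrd X) : mir (w ++ w') = mir w ++ mir w' := by simp [mir]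
@[simp] theorem mir_mir (w : Wrd X) : mir (mir w) = w := by
  induction w with
  | nil => rfl
  | cons l w ih =>
    obtain ⟨k, i⟩ := l
    rw [mir_cons, mir_cons, ih]
    cases k <;> rfl
@[simp] theorem mir_sh (i : ℕ) (w : Wrd X) : mir (sh i w) = sh i (mir w) := by
  induction w with
  | nil => rfl
  | cons l w ih =>
    obtain ⟨k, j⟩ := l
    rw [sh_cons, mir_cons, mir_cons, sh_cons, ih]
@[simp] theorem ncr_mir (w : Wrd X) : ncr (mir w) = ncr w := by
  induction w with
  | nil => rfl
  | cons l w ih =>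
    obtain ⟨k, j⟩ := l
    rw [mir_cons, ncr_cons, ncr_cons k, ih]
    cases k <;> rfl
theorem wmap_mir {Y : Type v} (f : X → Y) (w : Wrd X) : wmap f (mir w) = mir (wmap f w) := by
  induction w with
  | nil => rfl
  | cons l w ih =>
    obtain ⟨k, j⟩ := l
    rw [mir_cons, wmap_cons, wmap_cons, mir_cons, ih]
    cases k <;> rfl
@[simp] theorem fgt_mir (w : Wrd X) : fgt (mir w) = mir (fgt w) := by
  rw [fgt_eq, fgt_eq, wmap_mir]

end

variable {X : Type u} [Rule X] [Inert X]

theorem App.mir {k : Kind X} {i : ℕ} {s t : List X} (h : App k i s t) : App (kmir k) i s t := by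
  induction h with
  | cup x s => exact App.cup x s
  | cap x s => exact App.cap x s
  | pos a b s =>
    have := App.neg a b s
    rw [act_triv] at this ⊢
    exact this
  | neg a b s =>
    have := App.pos a b s
    rw [act_triv] at this ⊢
    exact this
  | skip x h ih => exact App.skip x ih

theorem Run.mir {s t : List X} {w : Wrd X} (h : Run s w t) : Run s (mir w) t := by
  induction h with
  | nil s => exact Run.nil s
  | cons h _ ih =>
    rw [mir_cons]
    exact Run.cons h.mir ih

theorem run_mir {s t : List X} {w : Wrd X} : Run s (KL.mir w) t ↔ Run s w t :=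
  ⟨fun h => by simpa using h.mir, fun h => h.mir⟩


theorem app_pos_inert {a b : X} {s t : List X} : App pos 0 (a :: b :: s) t ↔ t = b :: a :: s := by
  rw [app_pos, act_triv]

theorem app_neg_inert {a b : X} {s t : List X} : App neg 0 (a :: b :: s) t ↔ t = b :: a :: s := by
  rw [app_neg, act_triv]

omit [Rule X] [Inert X] in
/-- the letter is a crossing -/
def Kind.isX (k : Kind X) : Prop := k = pos ∨ k = neg

theorem App.cross_inv {k : Kind X} {i : ℕ} {s t : List X} (h : App k i s t) (hk : k.isX) : App (kmir k) i t s := by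
  induction h with
  | cup x s => rcases hk with hk | hk <;> cases hk
  | cap x s => rcases hk with hk | hk <;> cases hk
  | pos a b s => rw [kmir_pos, act_triv, app_neg_inert]
  | neg a b s => rw [kmir_neg, act_triv, app_pos_inert]
  | skip x h ih => exact App.skip x (ih hk)

theorem cross_cancel {k : Kind X} {i : ℕ} {s t : List X} (h : App k i s t) (hk : k.isX) :
    Eqv s [(k, i), (kmir k, i)] [] := by
  induction h with
  | cup x s => rcases hk with hk | hk <;> cases hk
  | cap x s => rcases hk with hk | hk <;> cases hk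
  | pos a b s => exact Rel0.r2a.eqv (t := a :: b :: s) (run_r2a.2 ⟨a, b, s, rfl, rfl⟩) (Run.nil _)
  | neg a b s => exact Rel0.r2b.eqv (t := a :: b :: s) (run_r2b.2 ⟨a, b, s, rfl, rfl⟩) (Run.nil _)
  | skip x h ih =>
    have := (ih hk).left [x]
    simpa using this

/-- inverse of a word consisting of crossings -/
def winv (w : Wrd X) : Wrd X := (mir w).reverse

/-- words consisting of crossings -/
def XW (w : Wrd X) : Prop := ∀ k i, (k, i) ∈ w → k.isX

omit [Rule X] [Inert X] in
theorem winv_cons (k : Kind X) (i : ℕ) (w : Wrd X) : winv ((k, i) :: w) = winv w ++ [(kmir k, i)] := by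
  simp [winv]

omit [Rule X] [Inert X] in
theorem winv_append (w w' : Wrd X) : winv (w ++ w') = winv w' ++ winv w := by
  simp [winv]

omit [Rule X] [Inert X] in
theorem winv_sh (i : ℕ) (w : Wrd X) : winv (sh i w) = sh i (winv w) := by
  rw [winv, winv, mir_sh, sh, sh, List.map_reverse]

omit [Rule X] [Inert X] in
@[simp] theorem winv_nil : winv ([] : Wrd X) = [] := rfl

omit [Rule X] [Inert X] in
theorem winv_winv (w : Wrd X) : winv (winv w) = w := by
  induction w with
  | nil => rfl
  | cons l w ih =>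
    obtain ⟨k, i⟩ := l
    rw [winv_cons, winv_append, winv_cons, ih]
    cases k <;> rfl

omit [Rule X] [Inert X] in
theorem isX_kmir {k : Kind X} (h : k.isX) : (kmir k).isX := by
  rcases h with rfl | rfl
  · right; rfl
  · left; rfl

omit [Rule X] [Inert X] in
theorem XW.cons {k : Kind X} {i : ℕ} {w : Wrd X} (hk : k.isX) (h : XW w) : XW ((k, i) :: w) := by
  intro k' i' h'
  simp only [List.mem_cons, Prod.mk.injEq] at h'
  rcases h' with ⟨rfl, rfl⟩ | h'
  · exact hk
  · exact h _ _ h'

omit [Rule X] [Inert X] in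
theorem XW.nil : XW ([] : Wrd X) := by intro k i h; simp at h

omit [Rule X] [Inert X] in
theorem XW.append {w w' : Wrd X} (h : XW w) (h' : XW w') : XW (w ++ w') := by
  intro k i h''
  rcases List.mem_append.1 h'' with h'' | h''
  · exact h _ _ h''
  · exact h' _ _ h''

omit [Rule X] [Inert X] in
theorem XW.sh {w : Wrd X} (h : XW w) (j : ℕ) : XW (sh j w) := by
  intro k i h'
  simp only [KL.sh, List.mem_map, Prod.mk.injEq, Prod.exists] at h'
  obtain ⟨k', i', h1, rfl, -⟩ := h'
  exact h _ _ h1

omit [Rule X] [Inert X] in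
theorem XW.winv {w : Wrd X} (h : XW w) : XW (winv w) := by
  induction w with
  | nil => exact XW.nil
  | cons l w ih =>
    obtain ⟨k, i⟩ := l
    rw [winv_cons]
    refine XW.append (ih fun k' i' h' => h _ _ (List.mem_cons_of_mem _ h')) ?_
    exact XW.cons (isX_kmir (h k i (by simp))) XW.nil

theorem Run.winv {s t : List X} {w : Wrd X} (h : Run s w t) (hw : XW w) : Run t (winv w) s := by
  induction h with
  | nil s => exact Run.nil s
  | @cons k i s t u w h h' ih =>
    rw [winv_cons]
    exact (ih fun k' i' h' => hw _ _ (List.mem_cons_of_mem _ h')).append (run_one.2 (h.cross_inv (hw k i (by simp))))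

theorem word_cancel {s t : List X} {w : Wrd X} (h : Run s w t) (hw : XW w) : Eqv s (w ++ winv w) [] := by
  induction h with
  | nil s => exact Eqv.refl _ _
  | @cons k i s t u w h h' ih =>
    rw [winv_cons]
    have h1 : Eqv s ((k, i) :: (w ++ KL.winv w) ++ [(kmir k, i)]) ((k, i) :: [] ++ [(kmir k, i)]) :=
      ((ih fun k' i' h' => hw _ _ (List.mem_cons_of_mem _ h')).cons h).app_right _
    have h2 := cross_cancel h (hw k i (by simp))
    simpa using h1.trans h2

theorem word_cancel' {s t : List X} {w : Wrd X} (h : Run s w t) (hw : XW w) : Eqv t (winv w ++ w) [] := by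
  have := word_cancel (h.winv hw) hw.winv
  rwa [winv_winv] at this

/-- equivalent words of crossings have equivalent inverses -/
theorem Eqv.winv {s t : List X} {w w' : Wrd X} (h : Eqv s w w') (hr : Run s w t) (hw : XW w) (hw' : XW w') :
    Eqv t (winv w) (winv w') := by
  have hr' := h.run.1 hr
  have h1 : Eqv t (KL.winv w ++ (w' ++ KL.winv w')) (KL.winv w ++ []) := (word_cancel hr' hw').app_left (hr.winv hw)
  have h2 : Eqv t (KL.winv w ++ w ++ KL.winv w') (KL.winv w ++ w' ++ KL.winv w') := h.ctx (hr.winv hw) _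
  have h3 : Eqv t (KL.winv w ++ w ++ KL.winv w') ([] ++ KL.winv w') := (word_cancel' hr hw).app_right _
  have h4 := (h1.symm.trans (by simpa using h2.symm)).trans (by simpa using h3)
  simpa using h4

theorem r3_eqv (a b c : X) (s : List X) :
    Eqv (a :: b :: c :: s) [(pos, 0), (pos, 1), (pos, 0)] [(pos, 1), (pos, 0), (pos, 1)] :=
  Rel0.r3.eqv (t := act a (act b c) :: act a b :: a :: s) (run_r3l.2 ⟨a, b, c, s, rfl, rfl⟩) (run_r3r.2 ⟨a, b, c, s, rfl, rfl⟩)

theorem run_r3l_inert (a b c : X) (s : List X) : Run (a :: b :: c :: s) [(pos, 0), (pos, 1), (pos, 0)] (c :: b :: a :: s) := by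
  rw [run_r3l]
  exact ⟨a, b, c, s, rfl, by simp [act_triv]⟩

/-- the mirror image of the third Reidemeister move -/
theorem r3n_eqv (a b c : X) (s : List X) :
    Eqv (a :: b :: c :: s) [(neg, 0), (neg, 1), (neg, 0)] [(neg, 1), (neg, 0), (neg, 1)] := by
  have h := (r3_eqv c b a s).winv (run_r3l_inert c b a s)
    (by intro k i h; simp at h; rcases h with h | h | h <;> simp [h, Kind.isX])
    (by intro k i h; simp at h; rcases h with h | h | h <;> simp [h, Kind.isX])
  exact h

/-! ### The mirror image -/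

theorem Rel0.mir {l r : Wrd X} (h : Rel0 l r) {s t : List X} (hl : Run s l t) (hr : Run s r t) :
    Eqv s (KL.mir l) (KL.mir r) := by
  have hl' := hl.mir
  have hr' := hr.mir
  cases h with
  | zig x => exact (Rel0.zig x).eqv hl' hr'
  | zag x => exact (Rel0.zag x).eqv hl' hr'
  | r1a x y => exact (Rel0.r1b x y).eqv hl' hr'
  | r1b x y => exact (Rel0.r1a x y).eqv hl' hr'
  | r1c => exact (Rel0.r1d).eqv hl' hr'
  | r1d => exact (Rel0.r1c).eqv hl' hr'
  | r2a => exact (Rel0.r2b).eqv hl' hr'
  | r2b => exact (Rel0.r2a).eqv hl' hr'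
  | r3 =>
    rw [run_r3l] at hl
    obtain ⟨a, b, c, s, rfl, -⟩ := hl
    exact r3n_eqv a b c s
  | sl1 x y => exact (Rel0.sl2 x y).eqv hl' hr'
  | sl2 x y => exact (Rel0.sl1 x y).eqv hl' hr'
  | sl3 => exact (Rel0.sl4).eqv hl' hr'
  | sl4 => exact (Rel0.sl3).eqv hl' hr'
  | far k m j =>
    have h := Rel0.far (kmir k) (kmir m) j
    rw [kmir_win, kmir_wout] at h
    simp only [mir_cons, mir_nil] at hl' hr' ⊢
    exact h.eqv hl' hr'

theorem Step.mir {s : List X} {w w' : Wrd X} (h : Step s w w') : Eqv s (KL.mir w) (KL.mir w') := by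
  obtain ⟨p, q, l, r, i, t, u, h0, rfl, rfl, hp, hl, hr⟩ := h
  have hi : i ≤ t.length := by
    rcases h0.ne_nil with h2 | h2
    · exact hl.le_of_ne_nil h2
    · exact hr.le_of_ne_nil h2
  obtain ⟨a, b, rfl, rfl⟩ : ∃ a b, t = a ++ b ∧ a.length = i :=
    ⟨t.take i, t.drop i, (List.take_append_drop i t).symm, by simp [hi]⟩
  obtain ⟨c, rfl, hl'⟩ := Run.left_inv a hl
  obtain ⟨c', h1, hr'⟩ := Run.left_inv a hr
  rw [List.append_cancel_left h1] at hl' hl hr
  have h2 := (h0.mir hl' hr').left a
  rw [← mir_sh, ← mir_sh] at h2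
  have h3 := h2.ctx hp.mir (KL.mir q)
  simpa using h3

/-- the mirror images of equivalent words are equivalent -/
theorem Eqv.mir {s : List X} {w w' : Wrd X} (h : Eqv s w w') : Eqv s (KL.mir w) (KL.mir w') := by
  induction h with
  | rel _ _ h => exact h.mir
  | refl _ => exact Eqv.refl _ _
  | symm _ _ _ ih => exact ih.symm
  | trans _ _ _ _ _ ih1 ih2 => exact ih1.trans ih2

/-! ### Strands passing over words -/

/-- the strand at position `0` passes over `n` strands to the right -/
def ovR : ℕ → Wrd X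
  | 0 => []
  | n + 1 => (pos, 0) :: sh 1 (ovR n)

/-- the strand at position `0` passes under `n` strands to the right -/
def unR : ℕ → Wrd X
  | 0 => []
  | n + 1 => (neg, 0) :: sh 1 (unR n)

omit [Rule X] [Inert X] in
@[simp] theorem ovR_zero : ovR 0 = ([] : Wrd X) := rfl
omit [Rule X] [Inert X] in
theorem ovR_succ (n : ℕ) : ovR (n + 1) = ((pos, 0) :: sh 1 (ovR n) : Wrd X) := rfl
omit [Rule X] [Inert X] in
@[simp] theorem unR_zero : unR 0 = ([] : Wrd X) := rfl
omit [Rule X] [Inert X] in
theorem unR_succ (n : ℕ) : unR (n + 1) = ((neg, 0) :: sh 1 (unR n) : Wrd X) := rfl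
omit [Rule X] [Inert X] in
@[simp] theorem ovR_one : ovR 1 = ([(pos, 0)] : Wrd X) := rfl
omit [Rule X] [Inert X] in
@[simp] theorem unR_one : unR 1 = ([(neg, 0)] : Wrd X) := rfl

omit [Rule X] [Inert X] in
theorem mir_ovR (n : ℕ) : mir (ovR n : Wrd X) = unR n := by
  induction n with
  | zero => rfl
  | succ n ih => rw [ovR_succ, mir_cons, mir_sh, ih]; rfl

omit [Rule X] [Inert X] in
theorem mir_unR (n : ℕ) : mir (unR n : Wrd X) = ovR n := by rw [← mir_ovR, mir_mir]

omit [Rule X] [Inert X] in
theorem ovR_XW (n : ℕ) : XW (ovR n : Wrd X) := by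
  induction n with
  | zero => exact XW.nil
  | succ n ih => exact XW.cons (Or.inl rfl) (ih.sh 1)

omit [Rule X] [Inert X] in
theorem unR_XW (n : ℕ) : XW (unR n : Wrd X) := by
  induction n with
  | zero => exact XW.nil
  | succ n ih => exact XW.cons (Or.inr rfl) (ih.sh 1)

theorem run_ovR (a : X) (s b : List X) : Run (a :: (s ++ b)) (ovR s.length) (s ++ a :: b) := by
  induction s with
  | nil => exact Run.nil _
  | cons x s ih =>
    refine Run.cons (t := x :: a :: (s ++ b)) ?_ ?_
    · rw [List.cons_append, app_pos_inert]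
    · simpa using ih.left [x]

theorem run_unR (a : X) (s b : List X) : Run (a :: (s ++ b)) (unR s.length) (s ++ a :: b) := by
  have := (run_ovR a s b).mir
  rwa [mir_ovR] at this

theorem run_ovR' (a : X) (s : List X) : Run (a :: s) (ovR s.length) (s ++ [a]) := by
  simpa using run_ovR a s []

theorem run_unR' (a : X) (s : List X) : Run (a :: s) (unR s.length) (s ++ [a]) := by
  simpa using run_unR a s []

/-- a strand passes over a local minimum -/
theorem ov_cup (a x : X) (s : List X) : Eqv (a :: s) [(cup x, 1), (pos, 0), (pos, 1)] [(cup x, 0)] := by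
  have h1 : Eqv (a :: s) [(cup x, 0), (neg, 1)] [(cup x, 1), (pos, 0)] :=
    (Rel0.sl2 x x).eqv (t := x :: a :: bar x :: s) (run_sl2l.2 ⟨a, s, rfl, by simp [act_triv]⟩)
      (run_sl2r.2 ⟨a, s, rfl, by simp [act_triv]⟩)
  have h2 : Eqv (a :: s) [(cup x, 0), (neg, 1), (pos, 1)] [(cup x, 1), (pos, 0), (pos, 1)] := by
    simpa using h1.app_right [(pos, 1)]
  have h3 : Eqv (a :: s) [(cup x, 0), (neg, 1), (pos, 1)] [(cup x, 0)] := by
    have h4 : Eqv (x :: bar x :: a :: s) [(neg, 1), (pos, 1)] [] := 
      cross_cancel (t := x :: a :: bar x :: s) (App.skip _ (app_neg_inert.2 rfl)) (Or.inr rfl)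
    exact h4.cons (App.cup x _)
  exact h2.symm.trans h3

/-- a strand passes over a local maximum -/
theorem ov_cap (a x : X) (s : List X) :
    Eqv (a :: x :: bar x :: s) [(cap, 1)] [(pos, 0), (pos, 1), (cap, 0)] := by
  have h1 : Eqv (x :: a :: bar x :: s) [(pos, 1), (cap, 0)] [(neg, 0), (cap, 1)] :=
    Rel0.sl3.eqv (t := a :: s) (run_sl3l.2 ⟨x, a, s, by simp [act_triv], rfl⟩)
      (run_sl3r.2 ⟨x, a, s, by simp [act_triv], rfl⟩)
  have h2 : Eqv (a :: x :: bar x :: s) [(pos, 0), (pos, 1), (cap, 0)] [(pos, 0), (neg, 0), (cap, 1)] :=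
    h1.cons (app_pos_inert.2 rfl)
  have h3 : Eqv (a :: x :: bar x :: s) [(pos, 0), (neg, 0), (cap, 1)] [(cap, 1)] := by
    have h4 : Eqv (a :: x :: bar x :: s) [(pos, 0), (neg, 0)] [] :=
      cross_cancel (t := x :: a :: bar x :: s) (app_pos_inert.2 rfl) (Or.inl rfl)
    simpa using h4.app_right [(cap, 1)]
  exact (h2.trans h3).symm

/-- a strand passes over a crossing -/
theorem ov_neg (a b c : X) (s : List X) :
    Eqv (a :: b :: c :: s) [(neg, 1), (pos, 0), (pos, 1)] [(pos, 0), (pos, 1), (neg, 0)] := by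
  have h1 : Eqv (a :: b :: c :: s) ([(neg, 1), (pos, 0), (pos, 1)] ++ [(pos, 0), (neg, 0)]) [(neg, 1), (pos, 0), (pos, 1)] := by
    have h2 : Eqv (c :: b :: a :: s) [(pos, 0), (neg, 0)] [] :=
      cross_cancel (t := b :: c :: a :: s) (app_pos_inert.2 rfl) (Or.inl rfl)
    have h3 : Run (a :: b :: c :: s) [(neg, 1), (pos, 0), (pos, 1)] (c :: b :: a :: s) := by
      rw [run_three]
      exact ⟨a :: c :: b :: s, c :: a :: b :: s, App.skip _ (app_neg_inert.2 rfl), app_pos_inert.2 rfl,
        App.skip _ (app_pos_inert.2 rfl)⟩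
    simpa using h2.app_left h3
  have h2 : Eqv (a :: b :: c :: s) ([(neg, 1)] ++ [(pos, 0), (pos, 1), (pos, 0)] ++ [(neg, 0)])
      ([(neg, 1)] ++ [(pos, 1), (pos, 0), (pos, 1)] ++ [(neg, 0)]) :=
    (r3_eqv a c b s).ctx (run_one.2 (App.skip _ (app_neg_inert.2 rfl))) _
  have h3 : Eqv (a :: b :: c :: s) ([(neg, 1), (pos, 1)] ++ [(pos, 0), (pos, 1), (neg, 0)]) ([] ++ [(pos, 0), (pos, 1), (neg, 0)]) := by
    have h2 : Eqv (a :: b :: c :: s) [(neg, 1), (pos, 1)] [] :=
      cross_cancel (t := a :: c :: b :: s) (App.skip _ (app_neg_inert.2 rfl)) (Or.inr rfl)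
    exact h2.app_right _
  exact h1.symm.trans (by simpa using h2.trans h3)

/-- a strand passes over a letter -/
theorem ov_letter {k : Kind X} {i : ℕ} {s t : List X} (h : App k i s t) (a : X) :
    Eqv (a :: s) ((k, i + 1) :: ovR t.length) (ovR s.length ++ [(k, i)]) := by
  induction h with
  | cup x s =>
    have h1 : Eqv (a :: s) ([(cup x, 1), (pos, 0), (pos, 1)] ++ sh 2 (ovR s.length)) ([(cup x, 0)] ++ sh 2 (ovR s.length)) :=
      (ov_cup a x s).app_right _
    have h2 : Eqv ([] ++ a :: s) ([(cup x, 0)] ++ sh [x, bar x].length (ovR s.length)) (sh ([] : List X).length (ovR s.length) ++ [(cup x, 0)]) :=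
      far_block (run_one.2 (App.cup x [])) (run_ovR' a s)
    simp only [List.length_cons, List.length_nil, zero_add, Nat.reduceAdd, List.nil_append, sh_zero] at h2
    have h3 := h1.trans h2
    simpa [ovR_succ, sh_sh] using h3
  | cap x s =>
    have h1 : Eqv (a :: x :: bar x :: s) ([(cap, 1)] ++ ovR s.length) ([(pos, 0), (pos, 1), (cap, 0)] ++ ovR s.length) :=
      (ov_cap a x s).app_right _
    have h2 : Eqv (a :: x :: bar x :: s) ([(pos, 0), (pos, 1)] ++ ([(cap, 0)] ++ ovR s.length)) ([(pos, 0), (pos, 1)] ++ (sh 2 (ovR s.length) ++ [(cap, 0)])) := by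
      have h3 : Eqv ([x, bar x] ++ a :: s) ([(cap, 0)] ++ sh ([] : List X).length (ovR s.length)) (sh [x, bar x].length (ovR s.length) ++ [(cap, 0)]) :=
        far_block (run_one.2 (App.cap x [])) (run_ovR' a s)
      simp only [List.length_cons, List.length_nil, zero_add, Nat.reduceAdd, sh_zero] at h3
      refine h3.app_left ?_
      rw [run_two]
      exact ⟨_, app_pos_inert.2 rfl, App.skip _ (app_pos_inert.2 rfl)⟩
    have h3 := h1.trans (by simpa using h2)
    simpa [ovR_succ, sh_sh] using h3
  | pos b c s =>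
    rw [act_triv]
    have h1 : Eqv (a :: b :: c :: s) ([(pos, 0), (pos, 1), (pos, 0)] ++ sh 2 (ovR s.length)) ([(pos, 1), (pos, 0), (pos, 1)] ++ sh 2 (ovR s.length)) :=
      (r3_eqv a b c s).app_right _
    have h2 : Eqv (a :: b :: c :: s) ([(pos, 0), (pos, 1)] ++ ([(pos, 0)] ++ sh 2 (ovR s.length))) ([(pos, 0), (pos, 1)] ++ (sh 2 (ovR s.length) ++ [(pos, 0)])) := by
      have h3 : Eqv ([b, c] ++ a :: s) ([(pos, 0)] ++ sh [c, b].length (ovR s.length)) (sh [b, c].length (ovR s.length) ++ [(pos, 0)]) :=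
        far_block (run_one.2 (app_pos_inert.2 rfl)) (run_ovR' a s)
      simp only [List.length_cons, List.length_nil, zero_add, Nat.reduceAdd] at h3
      refine h3.app_left ?_
      rw [run_two]
      exact ⟨_, app_pos_inert.2 rfl, App.skip _ (app_pos_inert.2 rfl)⟩
    have h3 := h1.symm.trans (by simpa using h2)
    simpa [ovR_succ, sh_sh] using h3
  | neg b c s =>
    rw [act_triv]
    have h1 : Eqv (a :: b :: c :: s) ([(neg, 1), (pos, 0), (pos, 1)] ++ sh 2 (ovR s.length)) ([(pos, 0), (pos, 1), (neg, 0)] ++ sh 2 (ovR s.length)) :=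
      (ov_neg a b c s).app_right _
    have h2 : Eqv (a :: b :: c :: s) ([(pos, 0), (pos, 1)] ++ ([(neg, 0)] ++ sh 2 (ovR s.length))) ([(pos, 0), (pos, 1)] ++ (sh 2 (ovR s.length) ++ [(neg, 0)])) := by
      have h3 : Eqv ([b, c] ++ a :: s) ([(neg, 0)] ++ sh [c, b].length (ovR s.length)) (sh [b, c].length (ovR s.length) ++ [(neg, 0)]) :=
        far_block (run_one.2 (app_neg_inert.2 rfl)) (run_ovR' a s)
      simp only [List.length_cons, List.length_nil, zero_add, Nat.reduceAdd] at h3
      refine h3.app_left ?_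
      rw [run_two]
      exact ⟨_, app_pos_inert.2 rfl, App.skip _ (app_pos_inert.2 rfl)⟩
    have h3 := h1.trans (by simpa using h2)
    simpa [ovR_succ, sh_sh] using h3
  | @skip b k i s t h ih =>
    have h1 : Eqv (a :: b :: s) ([(pos, 0)] ++ sh [b, a].length [(k, i)]) (sh [a, b].length [(k, i)] ++ [(pos, 0)]) :=
      far_block (s₁ := [a, b]) (run_one.2 (app_pos_inert.2 rfl)) (run_one.2 h)
    simp only [List.length_cons, List.length_nil, zero_add, Nat.reduceAdd, sh_cons, sh_nil] at h1
    have h2 := h1.app_right (sh 1 (ovR t.length))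
    have h3 : Eqv (a :: b :: s) ((pos, 0) :: sh 1 ((k, i + 1) :: ovR t.length)) ((pos, 0) :: sh 1 (ovR s.length ++ [(k, i)])) := by
      have := ih.left [b]
      exact Eqv.cons this (app_pos_inert.2 rfl)
    have h4 := h2.symm.trans (by simpa using h3)
    simpa [ovR_succ] using h4

/-- naturality: a strand passes over a word -/
theorem ov_nat {s t : List X} {w : Wrd X} (h : Run s w t) (a : X) :
    Eqv (a :: s) (sh 1 w ++ ovR t.length) (ovR s.length ++ w) := by
  induction h with
  | nil s => simpa using Eqv.refl _ _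
  | @cons k i s t u w h h' ih =>
    have h1 : Eqv (a :: s) ((k, i + 1) :: (sh 1 w ++ ovR u.length)) ((k, i + 1) :: (ovR t.length ++ w)) :=
      ih.cons (App.skip a h)
    have h2 : Eqv (a :: s) ((k, i + 1) :: ovR t.length ++ w) (ovR s.length ++ [(k, i)] ++ w) :=
      (ov_letter h a).app_right w
    have h3 := h1.trans (by simpa using h2)
    simpa using h3

/-- naturality: a strand passes under a word -/
theorem un_nat {s t : List X} {w : Wrd X} (h : Run s w t) (a : X) :
    Eqv (a :: s) (sh 1 w ++ unR t.length) (unR s.length ++ w) := by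
  have := (ov_nat h.mir a).mir
  simpa [mir_ovR] using this

/-- strands at the left of a closed word -/
theorem closed_sh {z : Wrd X} (hz : Run [] z []) (a b : List X) : Eqv (a ++ b) (sh a.length z) z := by
  induction a with
  | nil => simpa using Eqv.refl _ _
  | cons x a ih =>
    have h1 : Eqv ((x :: a) ++ b) (sh 1 (sh a.length z)) (sh 1 z) := by
      simpa using ih.left [x]
    have h2 : Eqv ([x] ++ (a ++ b)) (sh 1 z) z := by
      have := (ov_nat hz x).right (a ++ b)
      simpa using this
    rw [sh_sh, add_comm] at h1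
    simpa using h1.trans h2

/-- a closed word can be moved to the beginning -/
theorem closed_move {s t : List X} {a b : List X} {u v z : Wrd X} (hz : Run [] z []) (hu : Run s u (a ++ b)) :
    Eqv s (u ++ sh a.length z ++ v) (z ++ (u ++ v)) := by
  have h1 : Eqv s (u ++ sh a.length z ++ v) (u ++ z ++ v) := (closed_sh hz a b).ctx hu v
  have h2 : Eqv s (u ++ z ++ v) (z ++ u ++ v) := (closed_comm hz hu).symm.app_right v
  simpa using h1.trans h2

end Pool.Agent.KL
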