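import Pool.Agent.Lib_MP_7c418e_gt.Del
import Pool.Agent.Lib_MP_7c418e_gt.Bead

/-!
# Which labels are used; facts on the trivial knot
-/

set_option autoImplicit false
set_option linter.unusedSectionVars false
set_option linter.unusedVariables false
set_option linter.unusedSimpArgs false

universe u v

namespace Pool.Agent.KL

open Kind

/-- all labels of local minima satisfy `S` -/
def cups {X : Type u} (S : X → Prop) (w : Wrd X) : Prop := ∀ x i, ((cup x, i) : Ltr X) ∈ w → S x

section

variable {X : Type u} {S : X → Prop}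

@[simp] theorem cups_nil : cups S [] := by intro x i h; simp at h

theorem cups_append {w w' : Wrd X} : cups S (w ++ w') ↔ cups S w ∧ cups S w' := by
  constructor
  · intro h
    exact ⟨fun x i hx => h x i (List.mem_append_left _ hx), fun x i hx => h x i (List.mem_append_right _ hx)⟩
  · rintro ⟨h, h'⟩ x i hx
    rcases List.mem_append.1 hx with hx | hx
    · exact h x i hx
    · exact h' x i hx

theorem cups_cons_cup {x : X} {i : ℕ} {w : Wrd X} : cups S ((cup x, i) :: w) ↔ S x ∧ cups S w := by
  constructor
  · intro h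
    exact ⟨h x i (by simp), fun y j hy => h y j (List.mem_cons_of_mem _ hy)⟩
  · rintro ⟨h, h'⟩ y j hy
    rcases List.mem_cons.1 hy with hy | hy
    · simp only [Prod.mk.injEq, cup.injEq] at hy
      rw [hy.1]
      exact h
    · exact h' y j hy

theorem cups_cons {k : Kind X} {i : ℕ} {w : Wrd X} (hk : ∀ x, k ≠ cup x) : cups S ((k, i) :: w) ↔ cups S w := by
  constructor
  · intro h y j hy
    exact h y j (List.mem_cons_of_mem _ hy)
  · intro h' y j hy
    rcases List.mem_cons.1 hy with hy | hy
    · simp only [Prod.mk.injEq] at hy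
      exact absurd hy.1.symm (hk y)
    · exact h' y j hy

theorem cups_tail {k : Kind X} {i : ℕ} {w : Wrd X} (h : cups S ((k, i) :: w)) : cups S w :=
  fun y j hy => h y j (List.mem_cons_of_mem _ hy)

theorem cups_sh {w : Wrd X} {i : ℕ} : cups S (sh i w) ↔ cups S w := by
  constructor
  · intro h x j hx
    apply h x (j + i)
    rw [sh, List.mem_map]
    exact ⟨_, hx, rfl⟩
  · intro h x j hx
    rw [sh, List.mem_map] at hx
    obtain ⟨⟨k, j'⟩, h1, h2⟩ := hx
    simp only [Prod.mk.injEq] at h2
    rw [h2.1] at h1
    exact h x j' h1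

theorem cups_mono {S' : X → Prop} {w : Wrd X} (h : cups S w) (hS : ∀ x, S x → S' x) : cups S' w :=
  fun x i hx => hS x (h x i hx)

theorem cups_wmap {Y : Type v} {f : X → Y} {T : Y → Prop} {w : Wrd X} : cups T (wmap f w) ↔ cups (fun x => T (f x)) w := by
  constructor
  · intro h x i hx
    apply h (f x) i
    rw [wmap, List.mem_map]
    exact ⟨_, hx, rfl⟩
  · intro h x i hx
    rw [wmap, List.mem_map] at hx
    obtain ⟨⟨k, j⟩, h1, h2⟩ := hx
    simp only [Prod.mk.injEq] at h2
    obtain ⟨h2, rfl⟩ := h2
    cases k with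
    | cup y =>
      simp only [kmap_cup, cup.injEq] at h2
      rw [← h2]
      exact h y j h1
    | cap => cases h2
    | pos => cases h2
    | neg => cases h2

theorem cups_mir {w : Wrd X} : cups S (mir w) ↔ cups S w := by
  constructor
  · intro h x i hx
    apply h x i
    rw [mir, List.mem_map]
    exact ⟨_, hx, rfl⟩
  · intro h x i hx
    rw [mir, List.mem_map] at hx
    obtain ⟨⟨k, j⟩, h1, h2⟩ := hx
    simp only [Prod.mk.injEq] at h2
    obtain ⟨h2, rfl⟩ := h2
    cases k with
    | cup y =>
      simp only [cup.injEq] at h2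
      rw [← h2]
      exact h y j h1
    | cap => cases h2
    | pos => cases h2
    | neg => cases h2

end

/-- sets of labels closed under the operations -/
structure SubR {X : Type u} [Rule X] (S : X → Prop) : Prop where
  sbar : ∀ x, S x → S (bar x)
  sact : ∀ a x, S a → S x → S (act a x)

theorem subR_col {κ : Type u} (S : Col κ → Prop) : SubR S := ⟨fun _ h => h, fun _ _ _ h => h⟩

section

variable {X : Type u} [Rule X] {S : X → Prop}

/-- the rule on a set of labels closed under the operations -/
@[reducible] def SubR.rule (hS : SubR S) : Rule {x // S x} where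
  bar x := ⟨bar x.1, hS.sbar _ x.2⟩
  act a x := ⟨act a.1 x.1, hS.sact _ _ a.2 x.2⟩
  bar_bar x := Subtype.ext (bar_bar x.1)
  act_self x := Subtype.ext (act_self x.1)
  act_bar a x := Subtype.ext (act_bar a.1 x.1)
  bar_act a x := Subtype.ext (bar_act a.1 x.1)
  act_act a b x := Subtype.ext (act_act a.1 b.1 x.1)

theorem SubR.act_inv (hS : SubR S) {a x : X} (ha : S a) (hx : S (act a x)) : S x := by
  rw [← bar_act a x]
  exact hS.sact _ _ (hS.sbar _ ha) hx

theorem App.lift_sub (hS : SubR S) {k : Kind X} {i : ℕ} {s t : List X} (h : App k i s t) (hs : ∀ x ∈ s, S x)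
    (hk : ∀ x, k = Kind.cup x → S x) : letI := hS.rule
    ∃ (s' t' : List {x // S x}) (k' : Kind {x // S x}), s'.map Subtype.val = s ∧ t'.map Subtype.val = t ∧
      kmap Subtype.val k' = k ∧ App k' i s' t' := by
  let _ := hS.rule
  have lift : ∀ s : List X, (∀ x ∈ s, S x) → ∃ s' : List {x // S x}, s'.map Subtype.val = s := by
    intro s hs
    exact ⟨s.attach.map fun x => ⟨x.1, hs x.1 x.2⟩, by simp [List.map_map, Function.comp_def]⟩
  induction h with
  | cup x s =>
    obtain ⟨s', hs'⟩ := lift s hs
    exact ⟨s', ⟨x, hk x rfl⟩ :: bar ⟨x, hk x rfl⟩ :: s', Kind.cup ⟨x, hk x rfl⟩, hs', by simp only [List.map_cons, hs']; rfl, rfl,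
      App.cup _ _⟩
  | cap x s =>
    obtain ⟨s', hs'⟩ := lift s (fun y hy => hs y (by simp [hy]))
    exact ⟨⟨x, hs x (by simp)⟩ :: bar ⟨x, hs x (by simp)⟩ :: s', s', Kind.cap, by simp only [List.map_cons, hs']; rfl, hs', rfl,
      App.cap _ _⟩
  | pos a b s =>
    obtain ⟨s', hs'⟩ := lift s (fun y hy => hs y (by simp [hy]))
    exact ⟨⟨a, hs a (by simp)⟩ :: ⟨b, hs b (by simp)⟩ :: s', _, Kind.pos, by simp only [List.map_cons, hs'],
      by simp only [List.map_cons, hs']; rfl, rfl, App.pos _ _ _⟩
  | neg a b s =>
    obtain ⟨s', hs'⟩ := lift s (fun y hy => hs y (by simp [hy]))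
    exact ⟨⟨a, hs a (by simp)⟩ :: ⟨b, hs b (by simp)⟩ :: s', _, Kind.neg, by simp only [List.map_cons, hs'],
      by simp only [List.map_cons, hs']; rfl, rfl, App.neg _ _ _⟩
  | skip x h ih =>
    obtain ⟨s', t', k', h1, h2, h3, h4⟩ := ih (fun y hy => hs y (by simp [hy])) hk
    exact ⟨⟨x, hs x (by simp)⟩ :: s', ⟨x, hs x (by simp)⟩ :: t', k', by simp only [List.map_cons, h1],
      by simp only [List.map_cons, h2], h3, App.skip _ h4⟩

theorem Run.lift_sub (hS : SubR S) {s t : List X} {w : Wrd X} (h : Run s w t) (hs : ∀ x ∈ s, S x)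
    (hw : cups S w) : letI := hS.rule
    ∃ (s' t' : List {x // S x}) (w' : Wrd {x // S x}), s'.map Subtype.val = s ∧ t'.map Subtype.val = t ∧
      wmap Subtype.val w' = w ∧ Run s' w' t' := by
  let _ := hS.rule
  have inj : ∀ {a b : List {x // S x}}, a.map Subtype.val = b.map Subtype.val → a = b :=
    fun h => List.map_injective_iff.2 Subtype.val_injective h
  induction h with
  | nil s =>
    refine ⟨s.attach.map fun x => ⟨x.1, hs x.1 x.2⟩, s.attach.map fun x => ⟨x.1, hs x.1 x.2⟩, [], ?_, ?_, rfl, Run.nil _⟩
    all_goals simp [List.map_map, Function.comp_def]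
  | @cons k i s t u w h h' ih =>
    obtain ⟨s', t', k', h1, h2, h3, h4⟩ := h.lift_sub hS hs (fun x hx => hw x i (by simp [hx]))
    have ht : ∀ x ∈ t, S x := by
      intro x hx
      rw [← h2, List.mem_map] at hx
      obtain ⟨y, -, rfl⟩ := hx
      exact y.2
    obtain ⟨t'', u', w', h5, h6, h7, h8⟩ := ih ht (cups_tail hw)
    have h9 : t'' = t' := inj (h5.trans h2.symm)
    subst h9
    exact ⟨s', u', (k', i) :: w', h1, h6, by rw [wmap_cons, h3, h7], Run.cons h4 h8⟩

/-- the set of used labels is contained in a closed set of labels: invariance -/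
theorem Eqv.cups (hS : SubR S) {s t : List X} {w w' : Wrd X} (h : Eqv s w w') (hr : Run s w t) (hs : ∀ x ∈ s, S x)
    (hw : cups S w) : cups S w' := by
  let _ := hS.rule
  obtain ⟨s₀, t₀, w₀, h1, h2, h3, h4⟩ := hr.lift_sub hS hs hw
  subst h1 h2 h3
  let f : RHom {x // S x} X := ⟨Subtype.val, fun _ => rfl, fun _ _ => rfl⟩
  obtain ⟨v, h5, -, -⟩ := Eqv.lift f (v := w') h4 h
  rw [← h5]
  change KL.cups S (wmap Subtype.val v)
  rw [cups_wmap]
  intro x i _
  exact x.2

theorem Run.mem_of_cups (hS : SubR S) {s t : List X} {w : Wrd X} (h : Run s w t) (hs : ∀ x ∈ s, S x)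
    (hw : KL.cups S w) : ∀ x ∈ t, S x := by
  let _ := hS.rule
  obtain ⟨s₀, t₀, w₀, h1, h2, h3, h4⟩ := h.lift_sub hS hs hw
  intro x hx
  rw [← h2, List.mem_map] at hx
  obtain ⟨y, -, rfl⟩ := hx
  exact y.2

theorem App.crL_mem {k : Kind X} {i : ℕ} {s t : List X} (h : App k i s t) (hs : ∀ x ∈ s, S x) :
    ∀ x ∈ crL k i s, S x.1 ∧ S x.2 := by
  induction h with
  | cup x s => intro x hx; simp at hx
  | cap x s => intro x hx; simp at hx
  | pos a b s => intro x hx; simp at hx; rw [hx]; exact ⟨hs a (by simp), hs b (by simp)⟩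
  | neg a b s => intro x hx; simp at hx; rw [hx]; exact ⟨hs b (by simp), hs a (by simp)⟩
  | skip x h ih =>
    rw [crL_succ]
    exact ih fun y hy => hs y (by simp [hy])

theorem App.mem_of (hS : SubR S) {k : Kind X} {i : ℕ} {s t : List X} (h : App k i s t) (hs : ∀ x ∈ s, S x)
    (hk : ∀ x, k = Kind.cup x → S x) : ∀ x ∈ t, S x := by
  let _ := hS.rule
  obtain ⟨s', t', k', h1, h2, h3, h4⟩ := h.lift_sub hS hs hk
  intro x hx
  rw [← h2, List.mem_map] at hx
  obtain ⟨y, -, rfl⟩ := hx
  exact y.2

theorem Run.crs_mem (hS : SubR S) {s t : List X} {w : Wrd X} (h : Run s w t) (hs : ∀ x ∈ s, S x)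
    (hw : KL.cups S w) : ∀ x ∈ crs s w, S x.1 ∧ S x.2 := by
  induction h with
  | nil s => intro x hx; simp at hx
  | @cons k i s t u w h h' ih =>
    intro x hx
    rw [crs_cons, h.nx, List.mem_append] at hx
    rcases hx with hx | hx
    · exact h.crL_mem hs x hx
    · exact ih (h.mem_of hS hs fun x hx => hw x i (by simp [hx])) (cups_tail hw) x hx

/-- there are no crossings of strands with labels which are not used -/
theorem cnt_zero (hS : SubR S) {P : X → X → Bool} {w : Wrd X} {s t : List X} (h : Run s w t) (hs : ∀ x ∈ s, S x)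
    (hw : KL.cups S w) (hP : ∀ x y, S x → S y → P x y = false) : cnt P s w = 0 := by
  rw [cnt, List.countP_eq_zero]
  intro x hx
  have := h.crs_mem hS hs hw x hx
  rw [hP _ _ this.1 this.2]
  simp

end

/-! ### Deletion and used labels -/

section

variable {X : Type u} [Rule X]

theorem App.resL_all {p : X → Bool} {k : Kind X} {i : ℕ} {s t : List X} (h : App k i s t)
    (hs : ∀ x ∈ s, p x = true) (hk : ∀ x, k = Kind.cup x → p x = true) : resL p k i s = [(k, i)] := by
  induction h with
  | cup x s => simp [hk x rfl]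
  | cap x s => simp [hs x (by simp)]
  | pos a b s => simp [hs a (by simp), hs b (by simp)]
  | neg a b s => simp [hs a (by simp), hs b (by simp)]
  | skip x h ih =>
    rw [resL_succ, ih (fun y hy => hs y (by simp [hy])) hk, hs x (by simp)]
    simp

theorem App.resL_none {p : X → Bool} {k : Kind X} {i : ℕ} {s t : List X} (h : App k i s t)
    (hs : ∀ x ∈ s, p x = false) (hk : ∀ x, k = Kind.cup x → p x = false) : resL p k i s = [] := by
  induction h with
  | cup x s => simp [hk x rfl]
  | cap x s => simp [hs x (by simp)]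
  | pos a b s => simp [hs a (by simp), hs b (by simp)]
  | neg a b s => simp [hs a (by simp), hs b (by simp)]
  | skip x h ih =>
    rw [resL_succ, ih (fun y hy => hs y (by simp [hy])) hk, hs x (by simp)]
    simp

theorem Keeps.subR {p : X → Bool} (hp : Keeps p) (b : Bool) : SubR fun x => p x = b :=
  ⟨fun x h => by rw [hp.kbar]; exact h, fun a x _ h => by rw [hp.kact]; exact h⟩

/-- nothing is deleted -/
theorem res_all {p : X → Bool} (hp : Keeps p) {s t : List X} {w : Wrd X} (h : Run s w t)
    (hs : ∀ x ∈ s, p x = true) (hw : cups (fun x => p x = true) w) : res p s w = w := by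
  induction h with
  | nil s => rfl
  | @cons k i s t u w h h' ih =>
    have hk : ∀ x, k = Kind.cup x → p x = true := fun x hx => hw x i (by simp [hx])
    rw [res_cons, h.resL_all hs hk, h.nx, ih (h.mem_of (hp.subR true) hs hk) (cups_tail hw)]
    rfl

/-- everything is deleted -/
theorem res_none {p : X → Bool} (hp : Keeps p) {s t : List X} {w : Wrd X} (h : Run s w t)
    (hs : ∀ x ∈ s, p x = false) (hw : cups (fun x => p x = false) w) : res p s w = [] := by
  induction h with
  | nil s => rfl
  | @cons k i s t u w h h' ih =>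
    have hk : ∀ x, k = Kind.cup x → p x = false := fun x hx => hw x i (by simp [hx])
    rw [res_cons, h.resL_none hs hk, h.nx, ih (h.mem_of (hp.subR false) hs hk) (cups_tail hw)]
    rfl

theorem cups_resL {S : X → Prop} {p : X → Bool} {k : Kind X} {i : ℕ} {s t : List X} (h : App k i s t)
    (hk : ∀ x, k = Kind.cup x → S x) : cups (fun x => S x ∧ p x = true) (resL p k i s) := by
  induction h with
  | cup x s =>
    rw [resL_cup]
    by_cases hx : p x
    · simp only [hx, if_true]
      rw [cups_cons_cup]
      exact ⟨⟨hk x rfl, hx⟩, cups_nil⟩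
    · simp [hx]
  | cap x s =>
    rw [resL_cap]
    by_cases hx : p x
    · simp only [hx, if_true]
      rw [cups_cons (by simp)]
      exact cups_nil
    · simp [hx]
  | pos a b s =>
    rw [resL_pos]
    split
    · rw [cups_cons (by simp)]
      exact cups_nil
    · exact cups_nil
  | neg a b s =>
    rw [resL_neg]
    split
    · rw [cups_cons (by simp)]
      exact cups_nil
    · exact cups_nil
  | skip x h ih =>
    rw [resL_succ]
    split
    · rw [cups_sh]
      exact ih hk
    · exact ih hk

theorem cups_res {S : X → Prop} {p : X → Bool} {s t : List X} {w : Wrd X} (h : Run s w t)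
    (hw : cups S w) : cups (fun x => S x ∧ p x = true) (res p s w) := by
  induction h with
  | nil s => exact cups_nil
  | @cons k i s t u w h h' ih =>
    rw [res_cons, cups_append, h.nx]
    exact ⟨cups_resL h fun x hx => hw x i (by simp [hx]), ih (cups_tail hw)⟩

theorem mem_resL_cup {p : X → Bool} {x : X} {i : ℕ} {s t : List X} (h : App (cup x) i s t) (hx : p x = true) :
    ∃ j, ((cup x, j) : Ltr X) ∈ resL p (cup x) i s := by
  generalize hk : (cup x : Kind X) = k at h
  induction h with
  | cup y s =>
    cases hk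
    exact ⟨0, by simp [hx]⟩
  | cap y s => cases hk
  | pos a b s => cases hk
  | neg a b s => cases hk
  | skip y h ih =>
    obtain ⟨j, hj⟩ := ih hk
    rw [resL_succ]
    by_cases hy : p y
    · simp only [hy, if_true]
      refine ⟨j + 1, ?_⟩
      rw [sh, List.mem_map]
      exact ⟨_, hj, rfl⟩
    · simp only [hy]
      exact ⟨j, hj⟩

/-- a used label which is not deleted remains -/
theorem mem_res_cup {p : X → Bool} {x : X} {s t : List X} {w : Wrd X} (h : Run s w t) {i : ℕ}
    (hi : ((cup x, i) : Ltr X) ∈ w) (hx : p x = true) : ∃ j, ((cup x, j) : Ltr X) ∈ res p s w := by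
  induction h with
  | nil s => simp at hi
  | @cons k i' s t u w h h' ih =>
    rw [res_cons, h.nx]
    rcases List.mem_cons.1 hi with hi | hi
    · simp only [Prod.mk.injEq] at hi
      obtain ⟨rfl, rfl⟩ := hi
      obtain ⟨j, hj⟩ := mem_resL_cup h hx
      exact ⟨j, List.mem_append_left _ hj⟩
    · obtain ⟨j, hj⟩ := ih hi
      exact ⟨j, List.mem_append_right _ hj⟩

theorem cups_of_res_nil {p : X → Bool} {s t : List X} {w : Wrd X} (h : Run s w t) (h0 : res p s w = []) :
    cups (fun x => p x = false) w := by
  intro x i hx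
  by_contra hp
  obtain ⟨j, hj⟩ := mem_res_cup h hx (by simpa using hp)
  rw [h0] at hj
  simp at hj

theorem resL_resL {p q : X → Bool} (hp : Keeps p) {k : Kind X} {i : ℕ} {s t : List X} (h : App k i s t) :
    res q (s.filter p) (resL p k i s) = resL (fun x => q x && p x) k i s := by
  induction h with
  | cup x s =>
    rw [resL_cup, resL_cup]
    by_cases hx : p x <;> simp [hx]
  | cap x s =>
    rw [resL_cap, resL_cap]
    by_cases hx : p x <;> simp [hx]
  | pos a b s =>
    rw [resL_pos, resL_pos]
    by_cases ha : p a <;> by_cases hb : p b <;> simp [ha, hb]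
  | neg a b s =>
    rw [resL_neg, resL_neg]
    by_cases ha : p a <;> by_cases hb : p b <;> simp [ha, hb]
  | @skip x k i s t h ih =>
    rw [resL_succ, resL_succ, ← ih]
    by_cases hx : p x
    · simp only [hx, if_true, List.filter_cons]
      have := res_left q [x] (s.filter p) (resL p k i s)
      simp only [List.length_cons, List.length_nil, zero_add, List.singleton_append] at this
      rw [this]
      by_cases hq : q x <;> simp [hq]
    · simp [hx, List.filter_cons]

theorem res_res {p q : X → Bool} (hp : Keeps p) {s t : List X} {w : Wrd X} (h : Run s w t) :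
    res q (s.filter p) (res p s w) = res (fun x => q x && p x) s w := by
  induction h with
  | nil s => rfl
  | @cons k i s t u w h h' ih =>
    rw [res_cons, res_cons, res_append q (h.res hp), resL_resL hp h, h.nx, ih]

theorem resL_wmap {Y : Type v} [Rule Y] (f : RHom X Y) (p : Y → Bool) (k : Kind X) (i : ℕ) (s : List X) :
    resL p (kmap f.toFun k) i (s.map f.toFun) = wmap f.toFun (resL (fun x => p (f.toFun x)) k i s) := by
  induction i generalizing s with
  | zero =>
    rcases s with _ | ⟨a, _ | ⟨b, s⟩⟩
    · cases k with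
      | cup x => simp only [kmap_cup, resL_cup, List.map_nil]; split <;> rfl
      | cap => rfl
      | pos => rfl
      | neg => rfl
    · cases k with
      | cup x => simp only [kmap_cup, resL_cup, List.map_nil]; split <;> rfl
      | cap => simp only [kmap_cap, resL_cap, List.map_cons]; split <;> rfl
      | pos => rfl
      | neg => rfl
    · cases k with
      | cup x => simp only [kmap_cup, resL_cup, List.map_nil]; split <;> rfl
      | cap => simp only [kmap_cap, resL_cap, List.map_cons]; split <;> rfl
      | pos => simp only [kmap_pos, resL_pos, List.map_cons]; split <;> rfl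
      | neg => simp only [kmap_neg, resL_neg, List.map_cons]; split <;> rfl
  | succ i ih =>
    rcases s with _ | ⟨a, s⟩
    · rfl
    · rw [List.map_cons, resL_succ, resL_succ, ih]
      split
      · rw [wmap_sh]
      · rfl

theorem res_wmap {Y : Type v} [Rule Y] (f : RHom X Y) (p : Y → Bool) {s t : List X} {w : Wrd X} (h : Run s w t) :
    res p (s.map f.toFun) (wmap f.toFun w) = wmap f.toFun (res (fun x => p (f.toFun x)) s w) := by
  induction h with
  | nil s => rfl
  | @cons k i s t u w h h' ih =>
    rw [wmap_cons, res_cons, resL_wmap, (h.map f).nx, ih, res_cons, h.nx, wmap_append]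

end

end Pool.Agent.KL
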