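import Pool.Agent.Lib_MP_7c418e_gt.Ori

/-!
# Connected sums with the trivial knot

Plan. Fix the tangle `V`, let `bd true = V`, `bd false = rotT V` (`Tan (bd x)`; here `x : Or` is the direction of the strand). From `Bead.lean` one has, for every `x : Or` and
`c ∈ {pos, neg}` (states of diagrams, all words `Wrd Unit`; `rotT (rotT V)` never occurs):
* `bd x ++ [(c, 0)] ~ [(c, 0)] ++ sh 1 (bd x)`, `sh 1 (bd x) ++ [(c, 0)] ~ [(c, 0)] ++ bd x` (`tc1`, …, `tc4` for the tangles `V` and `rotT V`),
* `[cu 0] ++ bd x ~ [cu 0] ++ sh 1 (bd (bar x))` (`cup_V`, `cup_R`), `bd x ++ [ca 0] ~ sh 1 (bd (bar x)) ++ [ca 0]` (`cap_V`, `cap_R`),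
* a letter far away commutes with the bead (`tan_far`, `tan_far'`, `far_block`).
For a labelled word `w : Wrd Or` with `Run [] w []` let `Q w` be the statement: for all decompositions `w = p ++ q` with `Run [] p (a ++ x :: b)` we have
`LEq (fgt p ++ sh a.length (bd x) ++ fgt q) (clo V)` (the bead `V` put at any place of the link gives `clo V`). Claims:
(1) `Q [(cup x, 0), (cap, 0)]` for both `x` (`clo_left`, `clo_rotT`, `cup_V`, …).
(2) `Q w → Q w'` if `Step [] w w'` or `Step [] w' w`, hence `Q` is invariant under `Eqv []` on closed words. Write `w = p ++ sh i l ++ q`, `w' = p ++ sh i r ++ q`. If the place in `w'` is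
in `p` or in `q` (including the two ends of the local part) then the local relation can be applied elsewhere (the bead does not change the state)
and the claim follows from `Q w`. If the place is strictly inside the local part `sh i r`, the bead is first moved to one of the
two ends of the local part: at an inner level every strand which is not a leg of the minimum just below it can be moved down through the letter below; a leg of
the minimum below which is not a leg of the maximum above can be moved up; and a strand which is both (only in `zig` and `zag`) is moved through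
the minimum to the other leg of the minimum, and then up. (For `r3` move down through one or two crossings.)
(3) Let `clo U ~ O`. Lift the labels of `[(cup x, 0), (cap, 0)]` (`LEq.lift` with `X = Or`) to a labelled `clo U`: the label of the first strand is `x` or `bar x`; as the labels
can be flipped (homomorphism of rules `Or → Or`, `x ↦ !x`) we may assume that it is `true` (up). Then `Q` for the labelled word and the place after
the first letter gives `sum_trivial_left'`: `[cu 0] ++ V ++ U ++ [ca 0] ~ clo V`, and the place before the last letter gives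
`[cu 0] ++ U ++ V ++ [ca 0] ~ clo V`; there the label of the strand is again `true` by `clo_lift` (`Run [x] T' [x]`).
-/

set_option autoImplicit false

universe u v

namespace Pool.Agent.KL

open Kind

section WD

/-! ### moving a tangle past one letter of a diagram -/

theorem wd_left {T : Wrd Unit} (hT : Tan T) {k : Kind Unit} {n i N : ℕ} (h1 : n < i) (h2 : i + k.win ≤ N) :
    Eqv (U N) (sh n T ++ [(k, i)]) ([(k, i)] ++ sh n T) := by
  obtain ⟨c, rfl⟩ : ∃ c, N = i + (k.win + c) := ⟨N - i - k.win, by omega⟩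
  have hw : Run (U (k.win + c)) [(k, 0)] (U (k.wout + c)) := run_one.2 (app_U.2 ⟨by omega, by omega⟩)
  have := tan_far hT n i h1 hw
  simpa using this

theorem wd_right {T : Wrd Unit} (hT : Tan T) {k : Kind Unit} {m i N : ℕ} (h1 : i + k.win ≤ m) (h2 : m < N) :
    Eqv (U N) (sh m T ++ [(k, i)]) ([(k, i)] ++ sh (m + k.wout - k.win) T) := by
  obtain ⟨c, rfl⟩ : ∃ c, N = m + (c + 1) := ⟨N - m - 1, by omega⟩
  have hw : Run (U m) [(k, i)] (U (m + k.wout - k.win)) := run_one.2 (app_U.2 ⟨h1, by omega⟩)
  exact (tan_far' hT c hw).symm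

theorem wd_mid {v w : Wrd Unit} (h : Eqv (U 2) v w) {i N : ℕ} (h2 : i + 2 ≤ N) : Eqv (U N) (sh i v) (sh i w) := by
  obtain ⟨c, rfl⟩ : ∃ c, N = i + 2 + c := ⟨N - i - 2, by omega⟩
  have h3 := h.mid (U i) (U c)
  rw [U_add, U_add] at h3
  simpa using h3

theorem wd_x1 {T : Wrd Unit} (hT : Tan T) {k : Kind Unit} (hk : k.isX) {i N : ℕ} (h2 : i + 2 ≤ N) :
    Eqv (U N) (sh i T ++ [(k, i)]) ([(k, i)] ++ sh (i + 1) T) := by
  rcases hk with rfl | rfl
  · have := wd_mid (tc3 hT) h2
    simpa [sh_sh] using this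
  · have := wd_mid (tc4 hT) h2
    simpa [sh_sh] using this

theorem wd_x2 {T : Wrd Unit} (hT : Tan T) {k : Kind Unit} (hk : k.isX) {i N : ℕ} (h2 : i + 2 ≤ N) :
    Eqv (U N) (sh (i + 1) T ++ [(k, i)]) ([(k, i)] ++ sh i T) := by
  rcases hk with rfl | rfl
  · have := wd_mid (tc1 hT) h2
    simpa [sh_sh] using this
  · have := wd_mid (tc2 hT) h2
    simpa [sh_sh] using this

/-! ### labels of the strands above and below a letter -/

theorem wd_ll {k : Kind Or} {i : ℕ} {s t : List Or} (h : App k i s t) : ∀ {n : ℕ}, n < i → t[n]? = s[n]? := by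
  induction h with
  | cup x s => intro n hn; omega
  | cap x s => intro n hn; omega
  | pos a b s => intro n hn; omega
  | neg a b s => intro n hn; omega
  | skip x h ih =>
    intro n hn
    cases n with
    | zero => rfl
    | succ n =>
      rw [List.getElem?_cons_succ, List.getElem?_cons_succ]
      exact ih (by omega)

theorem wd_lr {k : Kind Or} {i : ℕ} {s t : List Or} (h : App k i s t) :
    ∀ {m : ℕ}, i + k.win ≤ m → s[m]? = t[m + k.wout - k.win]? := by
  induction h with
  | cup x s => intro m hm; simp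
  | cap x s =>
    intro m hm
    simp only [win_cap] at hm
    obtain ⟨c, rfl⟩ : ∃ c, m = c + 2 := ⟨m - 2, by omega⟩
    simp
  | pos a b s =>
    intro m hm
    simp only [win_pos] at hm
    obtain ⟨c, rfl⟩ : ∃ c, m = c + 2 := ⟨m - 2, by omega⟩
    simp
  | neg a b s =>
    intro m hm
    simp only [win_neg] at hm
    obtain ⟨c, rfl⟩ : ∃ c, m = c + 2 := ⟨m - 2, by omega⟩
    simp
  | @skip x k i s t h ih =>
    intro m hm
    obtain ⟨c, rfl⟩ : ∃ c, m = c + 1 := ⟨m - 1, by omega⟩
    rw [List.getElem?_cons_succ, ih (by omega : i + k.win ≤ c), show c + 1 + k.wout - k.win = (c + k.wout - k.win) + 1 by omega,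
      List.getElem?_cons_succ]

theorem wd_lx {k : Kind Or} {i : ℕ} {s t : List Or} (h : App k i s t) (hk : k.isX) :
    s[i]? = t[i + 1]? ∧ s[i + 1]? = t[i]? := by
  induction h with
  | cup x s => rcases hk with hk | hk <;> cases hk
  | cap x s => rcases hk with hk | hk <;> cases hk
  | pos a b s => exact ⟨rfl, rfl⟩
  | neg a b s => exact ⟨rfl, rfl⟩
  | skip x h ih => exact ih hk

theorem wd_lc {y : Or} {i : ℕ} {s t : List Or} (h : App (cup y) i s t) : t[i]? = some y ∧ t[i + 1]? = some (bar y) := by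
  generalize hk : (cup y : Kind Or) = k at h
  induction h with
  | cup x s =>
    cases hk
    exact ⟨rfl, rfl⟩
  | cap x s => cases hk
  | pos a b s => cases hk
  | neg a b s => cases hk
  | skip x h ih => exact ih hk

theorem wd_lt {s : List Or} {n : ℕ} {x : Or} (h : s[n]? = some x) : n < s.length := by
  by_contra hc
  rw [List.getElem?_eq_none (by omega)] at h
  cases h

/-! ### beads -/

/-- the bead on a strand with direction `x` -/
def bdd (V : Wrd Unit) (x : Or) : Wrd Unit := cond (show Bool from x) V (rotT V)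

theorem or_cases (x : Or) : x = (true : Bool) ∨ x = (false : Bool) := by
  rcases Bool.eq_false_or_eq_true x with h | h
  · exact Or.inl h
  · exact Or.inr h

variable {V : Wrd Unit}

theorem bdd_true : bdd V (true : Bool) = V := rfl
theorem bdd_false : bdd V (false : Bool) = rotT V := rfl

theorem tan_bdd (hV : Tan V) (x : Or) : Tan (bdd V x) := by
  rcases or_cases x with rfl | rfl
  · exact hV
  · exact tan_rotT hV

/-- forget the label of a letter -/
abbrev kf (k : Kind Or) : Kind Unit := kmap (fun _ => ()) k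

theorem isX_kf {k : Kind Or} (h : k.isX) : (kf k).isX := by
  rcases h with rfl | rfl
  · exact Or.inl rfl
  · exact Or.inr rfl

/-- moving a bead down -/
theorem wd_down (hV : Tan V) {k : Kind Or} {i : ℕ} {s t : List Or} (h : App k i s t) {n : ℕ} {x : Or} (hn : t[n]? = some x)
    (hl : ¬ (k.win = 0 ∧ (n = i ∨ n = i + 1))) :
    ∃ m, s[m]? = some x ∧ Eqv (U s.length) ([(kf k, i)] ++ sh n (bdd V x)) (sh m (bdd V x) ++ [(kf k, i)]) := by
  have hb := tan_bdd hV x
  have h1 := h.le
  have h2 := h.length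
  have h3 := wd_lt hn
  by_cases c1 : n < i
  · refine ⟨n, ?_, ?_⟩
    · rw [← wd_ll h c1]
      exact hn
    · exact (wd_left hb c1 (by simpa using h1)).symm
  by_cases c2 : i + k.wout ≤ n
  · have e : n + k.win - k.wout + k.wout - k.win = n := by omega
    refine ⟨n + k.win - k.wout, ?_, ?_⟩
    · rw [wd_lr h (by omega), e]
      exact hn
    · have := wd_right hb (k := kf k) (m := n + k.win - k.wout) (i := i) (N := s.length) (by simp only [kmap_win]; omega) (by omega)
      rw [kmap_wout, kmap_win, e] at this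
      exact this.symm
  have hk : k.isX := by
    cases k with
    | cup y =>
      exfalso
      apply hl
      simp only [wout_cup] at c2
      exact ⟨rfl, by omega⟩
    | cap =>
      simp only [wout_cap] at c2
      omega
    | pos => exact Or.inl rfl
    | neg => exact Or.inr rfl
  have hw : k.win = 2 ∧ k.wout = 2 := by rcases hk with rfl | rfl <;> exact ⟨rfl, rfl⟩
  have hlx := wd_lx h hk
  by_cases c3 : n = i
  · subst c3
    refine ⟨n + 1, ?_, ?_⟩
    · rw [hlx.2]
      exact hn
    · exact (wd_x2 hb (isX_kf hk) (by omega)).symm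
  · have c4 : n = i + 1 := by omega
    subst c4
    refine ⟨i, ?_, ?_⟩
    · rw [hlx.1]
      exact hn
    · exact (wd_x1 hb (isX_kf hk) (by omega)).symm

/-- moving a bead up -/
theorem wd_up (hV : Tan V) {k : Kind Or} {i : ℕ} {s t : List Or} (h : App k i s t) {m : ℕ} {x : Or} (hm : s[m]? = some x)
    (hl : ¬ (k.wout = 0 ∧ (m = i ∨ m = i + 1))) :
    ∃ n, t[n]? = some x ∧ Eqv (U s.length) ([(kf k, i)] ++ sh n (bdd V x)) (sh m (bdd V x) ++ [(kf k, i)]) := by
  have hb := tan_bdd hV x
  have h1 := h.le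
  have h2 := h.length
  have h3 := wd_lt hm
  by_cases c1 : m < i
  · refine ⟨m, ?_, ?_⟩
    · rw [wd_ll h c1]
      exact hm
    · exact (wd_left hb c1 (by simpa using h1)).symm
  by_cases c2 : i + k.win ≤ m
  · refine ⟨m + k.wout - k.win, ?_, ?_⟩
    · rw [← wd_lr h c2]
      exact hm
    · have := wd_right hb (k := kf k) (m := m) (i := i) (N := s.length) (by simp only [kmap_win]; omega) (by omega)
      rw [kmap_wout, kmap_win] at this
      exact this.symm
  have hk : k.isX := by
    cases k with
    | cup y =>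
      simp only [win_cup] at c2
      omega
    | cap =>
      exfalso
      apply hl
      simp only [win_cap] at c2
      exact ⟨rfl, by omega⟩
    | pos => exact Or.inl rfl
    | neg => exact Or.inr rfl
  have hw : k.win = 2 ∧ k.wout = 2 := by rcases hk with rfl | rfl <;> exact ⟨rfl, rfl⟩
  have hlx := wd_lx h hk
  by_cases c3 : m = i
  · subst c3
    refine ⟨m + 1, ?_, ?_⟩
    · rw [← hlx.1]
      exact hm
    · exact (wd_x1 hb (isX_kf hk) (by omega)).symm
  · have c4 : m = i + 1 := by omega
    subst c4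
    refine ⟨i, ?_, ?_⟩
    · rw [← hlx.2]
      exact hm
    · exact (wd_x2 hb (isX_kf hk) (by omega)).symm

theorem wd_cup0 (hV : Tan V) (x : Or) : Eqv (U 0) ([cu 0] ++ bdd V x) ([cu 0] ++ sh 1 (bdd V (bar x))) := by
  rcases or_cases x with rfl | rfl
  · exact cup_V hV
  · exact cup_R hV

theorem wd_cupi (hV : Tan V) (x : Or) {i N : ℕ} (h : i ≤ N) :
    Eqv (U N) ([cu i] ++ sh i (bdd V x)) ([cu i] ++ sh (i + 1) (bdd V (bar x))) := by
  obtain ⟨c, rfl⟩ : ∃ c, N = i + c := ⟨N - i, by omega⟩
  have h3 := (wd_cup0 hV x).mid (U i) (U c)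
  rw [U_add, U_add] at h3
  simpa [sh_sh] using h3

/-- moving a bead through a minimum -/
theorem wd_flip (hV : Tan V) {y : Or} {i : ℕ} {s t : List Or} (h : App (cup y) i s t) {n : ℕ} {x : Or} (hn : t[n]? = some x)
    (hl : n = i ∨ n = i + 1) :
    ∃ n', t[n']? = some (bar x) ∧ (n' = i ∨ n' = i + 1) ∧ n' ≠ n ∧
      Eqv (U s.length) ([(kf (cup y), i)] ++ sh n (bdd V x)) ([(kf (cup y), i)] ++ sh n' (bdd V (bar x))) := by
  have h1 := h.le
  simp only [win_cup] at h1
  obtain ⟨h2, h3⟩ := wd_lc h
  rcases hl with rfl | rfl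
  · have e : x = y := by
      rw [hn] at h2
      exact Option.some.inj h2
    subst e
    exact ⟨n + 1, h3, Or.inr rfl, by omega, wd_cupi hV x (by omega)⟩
  · have e : x = bar y := by
      rw [hn] at h3
      exact Option.some.inj h3
    subst e
    refine ⟨i, ?_, Or.inl rfl, by omega, ?_⟩
    · rw [bar_bar]
      exact h2
    · rw [bar_bar]
      exact (wd_cupi hV y (by omega)).symm

/-! ### beads inside a local part can be moved to the ends -/

/-- every bead inside `R` can be moved to the start or to the end -/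
def Ends (V : Wrd Unit) (t : List Or) (R : Wrd Or) (u : List Or) : Prop :=
  ∀ R1 R2 v n x, R = R1 ++ R2 → Run t R1 v → Run v R2 u → v[n]? = some x →
    (∃ m x', t[m]? = some x' ∧ Eqv (U t.length) (fgt R1 ++ sh n (bdd V x) ++ fgt R2) (sh m (bdd V x') ++ fgt R)) ∨
    ∃ m x', u[m]? = some x' ∧ Eqv (U t.length) (fgt R1 ++ sh n (bdd V x) ++ fgt R2) (fgt R ++ sh m (bdd V x'))

theorem run_fgtU {X : Type u} [Rule X] {s t : List X} {w : Wrd X} (h : Run s w t) : Run (U s.length) (fgt w) (U t.length) := by
  have h1 := h.forget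
  have h2 : ∀ s : List X, (s.map fun _ => ()) = U s.length := by
    intro s
    rw [unit_list (s.map fun _ => ()), List.length_map]
  rwa [h2, h2] at h1

theorem wd_downX (hV : Tan V) {t v : List Or} {R : Wrd Or} (h : Run t R v) (hR : XW R) {n : ℕ} {x : Or} (hn : v[n]? = some x) :
    ∃ m, t[m]? = some x ∧ Eqv (U t.length) (fgt R ++ sh n (bdd V x)) (sh m (bdd V x) ++ fgt R) := by
  induction h with
  | nil s => exact ⟨n, hn, by simpa using Eqv.refl _ _⟩
  | @cons k i t v1 v R h h' ih =>
    obtain ⟨m1, h1, h2⟩ := ih (fun k' i' hk' => hR k' i' (List.mem_cons_of_mem _ hk')) hn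
    have hk : k.isX := hR k i (List.mem_cons_self ..)
    obtain ⟨m, h3, h4⟩ := wd_down hV h h1 (by rintro ⟨hc, -⟩; rcases hk with rfl | rfl <;> cases hc)
    refine ⟨m, h3, ?_⟩
    have h5 : Eqv (U t.length) ([(kf k, i)] ++ (fgt R ++ sh n (bdd V x))) ([(kf k, i)] ++ (sh m1 (bdd V x) ++ fgt R)) :=
      h2.app_left (by simpa using run_fgtU (run_one.2 h))
    have h6 := h4.app_right (fgt R)
    have h7 := h5.trans (by simpa using h6)
    simpa using h7

theorem ends_X (hV : Tan V) {t u : List Or} {R : Wrd Or} (hR : XW R) : Ends V t R u := by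
  intro R1 R2 v n x e h1 h2 hn
  left
  have hR1 : XW R1 := fun k i hk => hR k i (by rw [e]; exact List.mem_append_left _ hk)
  obtain ⟨m, h3, h4⟩ := wd_downX hV h1 hR1 hn
  refine ⟨m, x, h3, ?_⟩
  have h5 := h4.app_right (fgt R2)
  rw [e, fgt_append]
  simpa using h5

theorem ends_nil {t u : List Or} : Ends V t [] u := by
  intro R1 R2 v n x e h1 h2 hn
  obtain ⟨rfl, rfl⟩ := List.append_eq_nil_iff.1 e.symm
  left
  rw [run_nil] at h1
  subst h1
  exact ⟨n, x, hn, by simpa using Eqv.refl _ _⟩

theorem ends_start {t : List Or} {R : Wrd Or} {n : ℕ} {x : Or} (hn : t[n]? = some x) :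
    ∃ m x', t[m]? = some x' ∧ Eqv (U t.length) (fgt ([] : Wrd Or) ++ sh n (bdd V x) ++ fgt R) (sh m (bdd V x') ++ fgt R) :=
  ⟨n, x, hn, by simpa using Eqv.refl _ _⟩

theorem ends_end {t u : List Or} {R : Wrd Or} {n : ℕ} {x : Or} (hn : u[n]? = some x) :
    ∃ m x', u[m]? = some x' ∧ Eqv (U t.length) (fgt R ++ sh n (bdd V x) ++ fgt ([] : Wrd Or)) (fgt R ++ sh m (bdd V x')) :=
  ⟨n, x, hn, by simpa using Eqv.refl _ _⟩

theorem ends_one {t u : List Or} (l : Ltr Or) : Ends V t [l] u := by
  intro R1 R2 v n x e h1 h2 hn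
  cases R1 with
  | nil =>
    rw [run_nil] at h1
    subst h1
    rw [List.nil_append] at e
    subst e
    exact Or.inl (ends_start hn)
  | cons a R1 =>
    simp only [List.cons_append, List.cons.injEq] at e
    obtain ⟨rfl, e⟩ := e
    obtain ⟨rfl, rfl⟩ := List.append_eq_nil_iff.1 e.symm
    rw [run_nil] at h2
    subst h2
    exact Or.inr (ends_end hn)

theorem ends_two (hV : Tan V) {t u : List Or} {k m : Kind Or} {i j : ℕ} (hkm : ¬ (k.win = 0 ∧ m.wout = 0 ∧ i = j)) :
    Ends V t [(k, i), (m, j)] u := by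
  intro R1 R2 v n x e h1 h2 hn
  cases R1 with
  | nil =>
    rw [run_nil] at h1
    subst h1
    rw [List.nil_append] at e
    subst e
    exact Or.inl (ends_start hn)
  | cons a R1 =>
    simp only [List.cons_append, List.cons.injEq] at e
    obtain ⟨rfl, e⟩ := e
    cases R1 with
    | cons b R1 =>
      simp only [List.cons_append, List.cons.injEq] at e
      obtain ⟨rfl, e⟩ := e
      obtain ⟨rfl, rfl⟩ := List.append_eq_nil_iff.1 e.symm
      rw [run_nil] at h2
      subst h2
      exact Or.inr (ends_end hn)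
    | nil =>
      rw [List.nil_append] at e
      subst e
      rw [run_one] at h1 h2
      have hlen : Run (U t.length) [(kf k, i)] (U v.length) := by simpa using run_fgtU (run_one.2 h1)
      by_cases c1 : k.win = 0 ∧ (n = i ∨ n = i + 1)
      · right
        -- `k` is a minimum
        by_cases c2 : m.wout = 0 ∧ (n = j ∨ n = j + 1)
        · have hk : ∃ y, k = cup y := by
            cases k with
            | cup y => exact ⟨y, rfl⟩
            | cap => exact absurd c1.1 (by simp)
            | pos => exact absurd c1.1 (by simp)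
            | neg => exact absurd c1.1 (by simp)
          obtain ⟨y, rfl⟩ := hk
          obtain ⟨n', h3, h4, h5, h6⟩ := wd_flip hV h1 hn c1.2
          have hij : i ≠ j := fun hc => hkm ⟨c1.1, c2.1, hc⟩
          obtain ⟨l, h7, h8⟩ := wd_up hV h2 h3 (by rintro ⟨-, hc⟩; omega)
          refine ⟨l, bar x, h7, ?_⟩
          have h9 := h6.app_right [(kf m, j)]
          have h10 := h8.symm.app_left hlen
          have h11 := h9.trans (by simpa using h10)
          simpa using h11
        · obtain ⟨l, h7, h8⟩ := wd_up hV h2 hn c2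
          refine ⟨l, x, h7, ?_⟩
          have h10 := h8.symm.app_left hlen
          simpa using h10
      · left
        obtain ⟨l, h7, h8⟩ := wd_down hV h1 hn c1
        refine ⟨l, x, h7, ?_⟩
        have h9 := h8.app_right [(kf m, j)]
        simpa using h9

/-! ### the bead can be put at any place -/

/-- the bead at any place gives `clo V` -/
def BQ (V : Wrd Unit) (w : Wrd Or) : Prop :=
  ∀ p q t n x, w = p ++ q → Run [] p t → t[n]? = some x → Eqv ([] : List Unit) (fgt p ++ sh n (bdd V x) ++ fgt q) (clo V)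

theorem bq_local (hV : Tan V) {p0 q0 L R : Wrd Or} {t u : List Or} (hp : Run [] p0 t) (hL : Run t L u) (hR : Run t R u)
    (hE : Eqv (U t.length) (fgt L) (fgt R)) (hends : Ends V t R u) (hq : BQ V (p0 ++ L ++ q0)) : BQ V (p0 ++ R ++ q0) := by
  have hpU := run_fgtU hp
  have hLU := run_fgtU hL
  intro p q v n x e hv hn
  have hn' := wd_lt hn
  have hbd : Run (U v.length) (sh n (bdd V x)) (U v.length) := tan_sh (tan_bdd hV x) n _ hn'
  have hvU := run_fgtU hv
  rw [List.append_assoc, List.append_eq_append_iff] at e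
  rcases e with ⟨p1, rfl, e⟩ | ⟨p1, rfl, rfl⟩
  · -- `p = p0 ++ p1`
    rw [List.append_eq_append_iff] at e
    rcases e with ⟨p2, rfl, rfl⟩ | ⟨R2, rfl, rfl⟩
    · -- `p1 = R ++ p2`, the place is in `q0`
      obtain ⟨v1, h1, h2⟩ := hv.of_append
      obtain ⟨v2, h3, h4⟩ := h2.of_append
      have e1 := h1.det hp
      subst e1
      have e2 := h3.det hR
      subst e2
      have h5 := hq (p0 ++ (L ++ p2)) q v n x (by simp) (hp.append (hL.append h4)) hn
      have h6 : Eqv [] (fgt p0 ++ fgt R ++ (fgt p2 ++ sh n (bdd V x) ++ fgt q)) (fgt p0 ++ fgt L ++ (fgt p2 ++ sh n (bdd V x) ++ fgt q)) :=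
        hE.symm.ctx hpU _
      have h7 := h6.trans (by simpa using h5)
      simpa using h7
    · -- inside
      obtain ⟨v1, h1, h2⟩ := hv.of_append
      have e1 := h1.det hp
      subst e1
      obtain ⟨v2, h3, h4⟩ := hR.of_append
      have e2 := h3.det h2
      subst e2
      rcases hends p1 R2 v2 n x rfl h2 h4 hn with ⟨m, x', h5, h6⟩ | ⟨m, x', h5, h6⟩
      · have h7 := hq p0 (L ++ q0) _ m x' (by simp) hp h5
        have hbd' : Run (U v1.length) (sh m (bdd V x')) (U v1.length) := tan_sh (tan_bdd hV x') m _ (wd_lt h5)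
        have h8 : Eqv [] (fgt p0 ++ (fgt p1 ++ sh n (bdd V x) ++ fgt R2) ++ fgt q0) (fgt p0 ++ (sh m (bdd V x') ++ fgt (p1 ++ R2)) ++ fgt q0) :=
          h6.ctx hpU _
        have h9 : Eqv [] ((fgt p0 ++ sh m (bdd V x')) ++ fgt (p1 ++ R2) ++ fgt q0) ((fgt p0 ++ sh m (bdd V x')) ++ fgt L ++ fgt q0) :=
          hE.symm.ctx (hpU.append hbd') _
        have h10 := h8.trans ((by simpa using h9 : Eqv [] _ _).trans (by simpa using h7))
        simpa using h10
      · have h7 := hq (p0 ++ L) q0 _ m x' rfl (hp.append hL) h5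
        have h8 : Eqv [] (fgt p0 ++ (fgt p1 ++ sh n (bdd V x) ++ fgt R2) ++ fgt q0) (fgt p0 ++ (fgt (p1 ++ R2) ++ sh m (bdd V x')) ++ fgt q0) :=
          h6.ctx hpU _
        have h9 : Eqv [] (fgt p0 ++ fgt (p1 ++ R2) ++ (sh m (bdd V x') ++ fgt q0)) (fgt p0 ++ fgt L ++ (sh m (bdd V x') ++ fgt q0)) :=
          hE.symm.ctx hpU _
        have h10 := h8.trans ((by simpa using h9 : Eqv [] _ _).trans (by simpa using h7))
        simpa using h10
  · -- `p0 = p ++ p1`
    obtain ⟨v1, h1, h2⟩ := hp.of_append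
    have e1 := h1.det hv
    subst e1
    have h5 := hq p (p1 ++ L ++ q0) _ n x (by simp) hv hn
    have h6 : Eqv [] ((fgt p ++ sh n (bdd V x) ++ fgt p1) ++ fgt R ++ fgt q0) ((fgt p ++ sh n (bdd V x) ++ fgt p1) ++ fgt L ++ fgt q0) :=
      hE.symm.ctx ((hvU.append hbd).append (run_fgtU h2)) _
    have h7 := h6.trans (by simpa using h5)
    simpa using h7

theorem rel_ends (hV : Tan V) {l r : Wrd Or} (h : Rel0 l r) (i : ℕ) (t u : List Or) : Ends V t (sh i l) u ∧ Ends V t (sh i r) u := by
  cases h with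
  | zig x => exact ⟨ends_nil, ends_two hV (by simp)⟩
  | zag x => exact ⟨ends_nil, ends_two hV (by simp)⟩
  | r1a x y => exact ⟨ends_two hV (by simp), ends_one _⟩
  | r1b x y => exact ⟨ends_two hV (by simp), ends_one _⟩
  | r1c => exact ⟨ends_two hV (by simp), ends_one _⟩
  | r1d => exact ⟨ends_two hV (by simp), ends_one _⟩
  | r2a => exact ⟨ends_two hV (by simp), ends_nil⟩
  | r2b => exact ⟨ends_two hV (by simp), ends_nil⟩
  | r3 =>
    constructor
    · exact ends_X hV (XW.sh (XW.cons (Or.inl rfl) (XW.cons (Or.inl rfl) (XW.cons (Or.inl rfl) XW.nil))) i)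
    · exact ends_X hV (XW.sh (XW.cons (Or.inl rfl) (XW.cons (Or.inl rfl) (XW.cons (Or.inl rfl) XW.nil))) i)
  | sl1 x y => exact ⟨ends_two hV (by simp), ends_two hV (by simp)⟩
  | sl2 x y => exact ⟨ends_two hV (by simp), ends_two hV (by simp)⟩
  | sl3 => exact ⟨ends_two hV (by simp), ends_two hV (by simp)⟩
  | sl4 => exact ⟨ends_two hV (by simp), ends_two hV (by simp)⟩
  | far k m j =>
    constructor
    · refine ends_two hV ?_
      rintro ⟨h1, h2, h3⟩
      cases k <;> simp at h1 h3
    · refine ends_two hV ?_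
      rintro ⟨h1, h2, h3⟩
      cases k <;> simp at h2 h3

theorem step_fgt {t : List Or} {w w' : Wrd Or} (h : Eqv t w w') : Eqv (U t.length) (fgt w) (fgt w') := by
  have h1 := h.forget
  rwa [unit_list (t.map fun _ => ()), List.length_map] at h1

theorem bq_step (hV : Tan V) {w w' : Wrd Or} (h : Step [] w w') : BQ V w ↔ BQ V w' := by
  obtain ⟨p, q, l, r, i, t, u, h0, rfl, rfl, hp, hl, hr⟩ := h
  have hE : Eqv t (sh i l) (sh i r) := Step.eqv ⟨[], [], l, r, i, t, u, h0, by simp, by simp, Run.nil _, hl, hr⟩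
  obtain ⟨e1, e2⟩ := rel_ends hV h0 i t u
  exact ⟨bq_local hV hp hl hr (step_fgt hE) e2, bq_local hV hp hr hl (step_fgt hE.symm) e1⟩

theorem bq_eqv (hV : Tan V) {w w' : Wrd Or} (h : Eqv [] w w') : BQ V w ↔ BQ V w' := by
  induction h with
  | rel _ _ h => exact bq_step hV h
  | refl _ => exact Iff.rfl
  | symm _ _ _ ih => exact ih.symm
  | trans _ _ _ _ _ ih1 ih2 => exact ih1.trans ih2

theorem bq_base (hV : Tan V) (x : Or) : BQ V [(cup x, 0), (cap, 0)] := by
  have hclo : Eqv (U 0) ([cu 0] ++ bdd V x ++ [ca 0]) (clo V) := by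
    rcases or_cases x with rfl | rfl
    · rw [bdd_true]
      exact Eqv.of_eq (by simp [clo])
    · rw [bdd_false]
      have h : Eqv (U 0) (clo (rotT V)) (clo V) := clo_rotT hV
      simpa [clo] using h
  intro p q t n y e hp hn
  cases p with
  | nil =>
    rw [run_nil] at hp
    subst hp
    simp at hn
  | cons a p =>
    simp only [List.cons_append, List.cons.injEq] at e
    obtain ⟨rfl, e⟩ := e
    cases p with
    | cons b p =>
      simp only [List.cons_append, List.cons.injEq] at e
      obtain ⟨rfl, e⟩ := e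
      obtain ⟨rfl, rfl⟩ := List.append_eq_nil_iff.1 e.symm
      have h1 := hp.det (t' := []) (by
        rw [run_cons]
        refine ⟨_, App.cup _ _, ?_⟩
        rw [run_one]
        exact App.cap _ _)
      subst h1
      simp at hn
    | nil =>
      rw [List.nil_append] at e
      subst e
      rw [run_one, app_cup] at hp
      subst hp
      match n, hn with
      | 0, hn =>
        have e1 : x = y := by simpa using hn
        subst e1
        simpa using hclo
      | 1, hn =>
        have e1 : bar x = y := by simpa using hn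
        subst e1
        have h1 := (wd_cup0 hV x).symm.app_right [ca 0]
        have h2 : Eqv (U 0) _ _ := h1.trans hclo
        simpa using h2
      | n + 2, hn => simp at hn

/-- up -/
abbrev upO : Or := (true : Bool)

/-- exchange of the directions -/
def flipH : RHom Or Or := ⟨fun x => bar x, fun _ => rfl, fun _ _ => rfl⟩

theorem wd_main {T : Wrd Unit} (hT : Tan T) (hV : Tan V) (h : LEq (clo T) O) :
    ∃ T' : Wrd Or, fgt T' = T ∧ Run [upO] T' [upO] ∧ BQ V (clox upO T') := by
  have h0 : Run [] ([(cup upO, 0), (cap, 0)] : Wrd Or) [] := by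
    rw [run_cons]
    refine ⟨_, App.cup _ _, ?_⟩
    rw [run_one]
    exact App.cap _ _
  obtain ⟨v, h1, h2, h3⟩ := LEq.lift (w := ([(cup upO, 0), (cap, 0)] : Wrd Or)) h0 (v := clo T) h.symm
  obtain ⟨y, T', rfl, h4, h5⟩ := clo_lift hT h3 h1
  rcases or_cases y with rfl | rfl
  · exact ⟨T', h4, h5, (bq_eqv hV h2).1 (bq_base hV _)⟩
  · refine ⟨wmap flipH.toFun T', ?_, ?_, ?_⟩
    · rw [fgt_wmap, h4]
    · exact h5.map flipH
    · have h6 := h2.map flipH
      have h7 := (bq_eqv hV h6).1 (bq_base hV _)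
      have e : flipH.toFun (false : Bool) = upO := rfl
      simpa [clox, e] using h7

theorem wd_right' {T : Wrd Unit} (hT : Tan T) (hV : Tan V) (h : LEq (clo T) O) : LEq (clo (V ++ T)) (clo V) := by
  obtain ⟨T', rfl, h1, h2⟩ := wd_main hT hV h
  have h3 := h2 [(cup upO, 0)] (T' ++ [(cap, 0)]) _ 0 upO (by simp [clox]) (run_one.2 (App.cup _ _)) rfl
  rw [bdd_true] at h3
  have h4 : Eqv [] (clo (V ++ fgt T')) (clo V) := by simpa [clo] using h3
  exact h4

theorem wd_left' {T : Wrd Unit} (hT : Tan T) (hV : Tan V) (h : LEq (clo T) O) : LEq (clo (T ++ V)) (clo V) := by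
  obtain ⟨T', rfl, h1, h2⟩ := wd_main hT hV h
  have h4 : Run [] ((cup upO, 0) :: T') ([upO] ++ [bar upO]) := by
    rw [run_cons]
    exact ⟨_, App.cup _ _, h1.right [bar upO]⟩
  have h3 := h2 ((cup upO, 0) :: T') [(cap, 0)] _ 0 upO (by simp [clox]) h4 rfl
  rw [bdd_true] at h3
  have h5 : Eqv [] (clo (fgt T' ++ V)) (clo V) := by simpa [clo] using h3
  exact h5

end WD

theorem sum_trivial_right {U V : Wrd Unit} (hU : Tan U) (hV : Tan V) (h : LEq (clo U) O) : LEq (clo (V ++ U)) (clo V) :=
  wd_right' hU hV h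

theorem sum_trivial_left {U V : Wrd Unit} (hU : Tan U) (hV : Tan V) (h : LEq (clo U) O) : LEq (clo (U ++ V)) (clo V) :=
  wd_left' hU hV h

end Pool.Agent.KL
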