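import Pool.Agent.Lib_MP_7c418e_gt.Hopf

/-!
# The Whitehead link: labels, it is not split
-/

set_option autoImplicit false

universe u v

namespace Pool.Agent.KL

open Kind

/-- Fox colourings -/
def Fox (R : Type u) : Type u := R

instance (R : Type u) [AddCommGroup R] : AddCommGroup (Fox R) := inferInstanceAs (AddCommGroup R)

instance (R : Type u) [AddCommGroup R] : Rule (Fox R) where
  bar x := x
  act a x := a + a - x
  bar_bar _ := rfl
  act_self x := by abel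
  act_bar _ _ := rfl
  bar_act a x := by abel
  act_act a b x := by abel

/-- the Whitehead link -/
def white : Wrd Unit := [cu 0, cu 2, cu 1, ne 2, po 3, po 3, ne 2, ca 1, po 1, ca 0, ca 0]

theorem wd_three {X : Type u} [Rule X] {k : Kind X} {a b c : X} {s t : List X} :
    App k 3 (a :: b :: c :: s) t ↔ ∃ t', t = a :: b :: c :: t' ∧ App k 0 s t' := by
  rw [show (3 : ℕ) = 2 + 1 from rfl, app_succ]
  constructor
  · rintro ⟨t', rfl, h⟩
    rw [app_two] at h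
    obtain ⟨t'', rfl, h⟩ := h
    exact ⟨t'', rfl, h⟩
  · rintro ⟨t', rfl, h⟩
    exact ⟨_, rfl, app_two.2 ⟨t', rfl, h⟩⟩

/-- the rule of the Fox colourings -/
def wd_fx (a b : ℤ) : ℤ := a + a - b

theorem wd_arith (x y z : ℤ) (h1 : wd_fx (wd_fx (wd_fx x z) y) (wd_fx x z) = z)
    (h2 : wd_fx (wd_fx (wd_fx (wd_fx (wd_fx x z) y) (wd_fx x z)) x) (wd_fx (wd_fx x z) y) = x)
    (h3 : y = wd_fx (wd_fx (wd_fx (wd_fx x z) y) (wd_fx x z)) x) : y = x ∧ z = x := by
  unfold wd_fx at h1 h2 h3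
  omega

/-- Fox colourings of the Whitehead link by integers are constant -/
theorem white_fox {w : Wrd (Fox ℤ)} (h : Run [] w []) (hw : fgt w = white) : ∃ c : Fox ℤ, cups (fun x => x = c) w := by
  obtain ⟨k1, w1, rfl, e1, f1⟩ := fgt_eq_cons' hw
  obtain ⟨x, rfl, -⟩ := kmap_eq_cup.1 e1
  obtain ⟨k2, w2, rfl, e2, f2⟩ := fgt_eq_cons' f1
  obtain ⟨y, rfl, -⟩ := kmap_eq_cup.1 e2
  obtain ⟨k3, w3, rfl, e3, f3⟩ := fgt_eq_cons' f2
  obtain ⟨z, rfl, -⟩ := kmap_eq_cup.1 e3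
  obtain ⟨k4, w4, rfl, e4, f4⟩ := fgt_eq_cons' f3
  obtain rfl := kmap_eq_neg.1 e4
  obtain ⟨k5, w5, rfl, e5, f5⟩ := fgt_eq_cons' f4
  obtain rfl := kmap_eq_pos.1 e5
  obtain ⟨k6, w6, rfl, e6, f6⟩ := fgt_eq_cons' f5
  obtain rfl := kmap_eq_pos.1 e6
  obtain ⟨k7, w7, rfl, e7, f7⟩ := fgt_eq_cons' f6
  obtain rfl := kmap_eq_neg.1 e7
  obtain ⟨k8, w8, rfl, e8, f8⟩ := fgt_eq_cons' f7
  obtain rfl := kmap_eq_cap.1 e8
  obtain ⟨k9, w9, rfl, e9, f9⟩ := fgt_eq_cons' f8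
  obtain rfl := kmap_eq_pos.1 e9
  obtain ⟨k10, w10, rfl, e10, f10⟩ := fgt_eq_cons' f9
  obtain rfl := kmap_eq_cap.1 e10
  obtain ⟨k11, w11, rfl, e11, f11⟩ := fgt_eq_cons' f10
  obtain rfl := kmap_eq_cap.1 e11
  obtain rfl := fgt_eq_nil f11
  simp only [run_cons, run_nil, app_cup, app_two, app_one, wd_three, app_neg, app_pos, app_cap,
    exists_eq_left, ↓existsAndEq, and_true, true_and] at h
  obtain ⟨h1, h2, h3⟩ := h
  obtain ⟨h4, h5⟩ := wd_arith x y z h1 h2 h3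
  have h4' : y = x := h4
  have h5' : z = x := h5
  subst h4'
  subst h5'
  refine ⟨z, fun t i ht => ?_⟩
  simp only [List.mem_cons, Prod.mk.injEq, cup.injEq, reduceCtorEq, false_and, List.not_mem_nil,
    or_false] at ht
  rcases ht with ht | ht | ht <;> exact ht.1

theorem wd_sub (c : Fox ℤ) : SubR (fun x : Fox ℤ => x = c) := by
  refine ⟨fun x h => h, fun a x ha hx => ?_⟩
  change a + a - x = c
  rw [ha, hx]
  abel

/-- every diagram of the Whitehead link has only constant Fox colourings by integers (lift the labels to `white`) -/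
theorem white_fox' {w : Wrd (Fox ℤ)} (h : Run [] w []) (hw : LEq white (fgt w)) : ∃ c : Fox ℤ, cups (fun x => x = c) w := by
  obtain ⟨v, h1, h2, h3⟩ := LEq.lift h hw.symm
  obtain ⟨c, hc⟩ := white_fox h3 h1
  exact ⟨c, Eqv.cups (wd_sub c) h2.symm h3 (by simp) hc⟩

/-- constant Fox colourings -/
def wd_cst (c : Fox ℤ) : RHom Unit (Fox ℤ) := ⟨fun _ => c, fun _ => rfl, fun _ _ => by
  change c = c + c - c
  abel⟩

theorem wd_cups (c : Fox ℤ) (d : Wrd Unit) : cups (fun x : Fox ℤ => x = c) (wmap (wd_cst c).toFun d) := by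
  rw [cups_wmap]
  intro x i _
  rfl

theorem wd_fgt (c : Fox ℤ) (d : Wrd Unit) : fgt (wmap (wd_cst c).toFun d) = d := by
  rw [fgt_wmap, fgt_eq]
  induction d with
  | nil => rfl
  | cons l d ih =>
    obtain ⟨k, i⟩ := l
    rw [wmap_cons, ih]
    cases k <;> rfl

/-- the Whitehead link is not split: otherwise there are Fox colourings which are constant `0` on one part and constant `1` on the other part -/
theorem white_nonsplit : ∀ a b, Closed a → Closed b → a ≠ [] → b ≠ [] → ¬ LEq white (a ++ b) := by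
  intro a b ha hb ha0 hb0 h
  have r0 : Run [] (wmap (wd_cst (0 : ℤ)).toFun a) [] := Run.map (wd_cst (0 : ℤ)) ha
  have r1 : Run [] (wmap (wd_cst (1 : ℤ)).toFun b) [] := Run.map (wd_cst (1 : ℤ)) hb
  have h2 : LEq white (fgt (wmap (wd_cst (0 : ℤ)).toFun a ++ wmap (wd_cst (1 : ℤ)).toFun b)) := by
    rw [fgt_append, wd_fgt, wd_fgt]
    exact h
  obtain ⟨c, hc⟩ := white_fox' (r0.append r1) h2
  rw [cups_append] at hc
  have h5 : ∀ {w : Wrd (Fox ℤ)} (x : Fox ℤ), Run [] w [] → w ≠ [] → cups (fun y : Fox ℤ => y = x) w →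
      cups (fun y : Fox ℤ => y = c) w → x = c := by
    intro w x hw hw0 h6 h7
    obtain ⟨y, w', rfl, -⟩ := Closed.head hw hw0
    have h8 := h6 y 0 (by simp)
    have h9 := h7 y 0 (by simp)
    rw [← h8, ← h9]
  have h3 : wmap (wd_cst (0 : ℤ)).toFun a ≠ [] := fun h => ha0 (by rw [← wd_fgt (0 : ℤ) a, h]; rfl)
  have h4 : wmap (wd_cst (1 : ℤ)).toFun b ≠ [] := fun h => hb0 (by rw [← wd_fgt (1 : ℤ) b, h]; rfl)
  have h6 := h5 (0 : ℤ) r0 h3 (wd_cups _ a) hc.1
  have h7 := h5 (1 : ℤ) r1 h4 (wd_cups _ b) hc.2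
  rw [← h6] at h7
  have h8 : (1 : ℤ) = 0 := h7
  omega

end Pool.Agent.KL
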