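import Pool.Agent.Lib_MP_7c418e_gt.WhiteDef

/-!
# The Whitehead link has no diagram with at most four crossings

Plan. There are labels of `white` in `Fox (ZMod 8)`: the cups have the labels `0, 2, 1` (first component even, second component odd); the pairs (over, under) at
the crossings are `(0, 1), (7, 2), (4, 7), (1, 0), (2, 4)`. The map `ZMod 8 → Bool`, parity, is a homomorphism of rules `Fox (ZMod 8) → Col Bool`.
Let `e` be a diagram of the Whitehead link with at most 4 crossings; lift the labels in `Fox (ZMod 8)` to `e`. By `over_exists` (with `white_nonsplit`) for the parity colours there is a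
crossing of each kind (even over odd, odd over even); both numbers are even (they are even for `white`, `oc_eqv`), so both are `2` and there are no
self-crossings. Claim: among the even labels which occur (in the states of) the labelled word `e` there is exactly one which is `0` mod `4` and
one which is `2` mod `4`, and the same for the odd labels (`1` and `3` mod `4`). Indeed at a crossing where an odd label `a` is over an even label `b` the labels of the under strand are
`b` and `2 * a - b`, which are different mod `4`. Suppose `p` occurs and let `c p` be the number of crossings at which one of the two labels of the under strand is `p` (they are different).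
`c p` is even (parity of the number of strands with label `p` in the states), and not `0` (otherwise `p` or not `p` is a colouring of the diagram by two colours; on the
component of the parity of `p`, a trivial knot, it is constant by `O_label`, so all labels on it are `p`, but there is a crossing at which the under strand has this parity). If `p ≠ p'` both occur and are equal
mod `4` then the crossings counted in `c p` and in `c p'` are different, so there are at least `4` crossings with under strand of the parity of `p`, but there are only `2`. This proves the claim.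
Let `e₀, e₂` and `o₁, o₃` be the labels. At both crossings with even under strand the over label `o` satisfies `2 * o = e₀ + e₂` in `ZMod 8`, so it is the same label (it is determined mod 4, and odd
labels which occur are determined by their residue mod 4); the same for the other two crossings, with over label `e`. Now define new labels in `ℤ` by `ψ : ZMod 8 → ℤ`, a function of the residue
mod 4, with `ψ e₀ = 0`, `ψ e₂ = 2`, `ψ o = 1` and `ψ o' = 2 * ψ e - 1` for the other odd label `o'`: at all four crossings the labels `ψ` of the under strand are `b` and `2 * a - b`. So the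
diagram `e` has nonconstant labels in `Fox ℤ`, contradiction to `white_fox'`. (Different proofs are welcome.)
-/

set_option autoImplicit false

universe u v

namespace Pool.Agent.KL

open Kind

/-! ### the Whitehead link with the colours of its components -/

/-- the Whitehead link with the colours of its components -/
def whiteC : Wrd (Col Bool) := [((cup true : Kind (Col Bool)), 0), (cup true, 2), (cup false, 1), (neg, 2), (pos, 3), (pos, 3),
  (neg, 2), (cap, 1), (pos, 1), (cap, 0), (cap, 0)]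

theorem whiteC_fgt : fgt whiteC = white := rfl

theorem whiteC_run : Run [] whiteC [] := by
  unfold whiteC
  rw [run_cons]
  refine ⟨_, App.cup _ _, ?_⟩
  rw [run_cons]
  refine ⟨_, App.skip _ (App.skip _ (App.cup _ _)), ?_⟩
  rw [run_cons]
  refine ⟨_, App.skip _ (App.cup _ _), ?_⟩
  rw [run_cons]
  refine ⟨_, App.skip _ (App.skip _ (App.neg _ _ _)), ?_⟩
  rw [run_cons]
  refine ⟨_, App.skip _ (App.skip _ (App.skip _ (App.pos _ _ _))), ?_⟩
  rw [run_cons]
  refine ⟨_, App.skip _ (App.skip _ (App.skip _ (App.pos _ _ _))), ?_⟩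
  rw [run_cons]
  refine ⟨_, App.skip _ (App.skip _ (App.neg _ _ _)), ?_⟩
  rw [run_cons]
  refine ⟨_, App.skip _ (App.cap _ _), ?_⟩
  rw [run_cons]
  refine ⟨_, App.skip _ (App.pos _ _ _), ?_⟩
  rw [run_cons]
  refine ⟨_, App.cap _ _, ?_⟩
  rw [run_cons]
  exact ⟨_, App.cap _ _, Run.nil _⟩

theorem whiteC_red : fgt (red [] whiteC) = [cu 0, cu 2, po 1, ca 0, ca 0] := rfl

theorem whiteC_blu : fgt (blu [] whiteC) = O := rfl

theorem whiteC_red_O : LEq (fgt (red [] whiteC)) O := by
  rw [whiteC_red]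
  have h1 : Eqv (U 0) ([cu 0] ++ [cu 2, po 1] ++ [ca 0, ca 0]) ([cu 0] ++ [cu 1, ne 2] ++ [ca 0, ca 0]) :=
    (move (n := 2) 1 (Rel0.sl2 () ()) ⟨_, rfl, rfl⟩).symm.ctx (run_dec (by rfl)) _
  have h2 : Eqv (U 0) ([cu 0, cu 1] ++ [ne 2, ca 0] ++ [ca 0]) ([cu 0, cu 1] ++ [ca 0, ne 0] ++ [ca 0]) :=
    (move (n := 4) 0 (Rel0.far cap neg 0) ⟨_, rfl, rfl⟩).symm.ctx (run_dec (by rfl)) _
  have h3 : Eqv (U 0) ([cu 0] ++ [cu 1, ca 0] ++ [ne 0, ca 0]) ([cu 0] ++ [] ++ [ne 0, ca 0]) :=
    (move (n := 2) 0 (Rel0.zag ()) ⟨_, rfl, rfl⟩).symm.ctx (run_dec (by rfl)) _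
  have h4 : Eqv (U 0) ([cu 0, ne 0] ++ [ca 0]) ([cu 0] ++ [ca 0]) :=
    (move (n := 0) 0 (Rel0.r1b () ()) ⟨_, rfl, rfl⟩).app_right _
  exact h1.trans (h2.trans (h3.trans h4))

/-! ### general lemmas on labels -/

section

variable {X : Type u} {Y : Type v} [Rule X] [Rule Y]

theorem wl_app (hX : ∀ x : X, bar x = x) (hY : ∀ y : Y, bar y = y) (f : X → Y) {k : Kind X} {i : ℕ} {s t : List X}
    (h : App k i s t) (hf : ∀ x ∈ crL k i s, f (act x.1 x.2) = act (f x.1) (f x.2)) :
    App (kmap f k) i (s.map f) (t.map f) ∧ crL (kmap f k) i (s.map f) = (crL k i s).map (Prod.map f f) := by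
  induction h with
  | cup x s =>
    refine ⟨?_, rfl⟩
    rw [List.map_cons, List.map_cons, hX, kmap_cup, app_cup, hY]
  | cap x s =>
    refine ⟨?_, by simp⟩
    rw [List.map_cons, List.map_cons, hX, kmap_cap, app_cap, hY]
    exact ⟨rfl, rfl⟩
  | pos a b s =>
    refine ⟨?_, by simp⟩
    rw [List.map_cons, List.map_cons, List.map_cons, List.map_cons, kmap_pos, app_pos, hf (a, b) (by simp)]
  | neg a b s =>
    refine ⟨?_, by simp⟩
    rw [List.map_cons, List.map_cons, List.map_cons, List.map_cons, kmap_neg, app_neg, hX, hf (b, a) (by simp), hY]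
  | skip x h ih =>
    obtain ⟨h1, h2⟩ := ih (by simpa using hf)
    exact ⟨App.skip (f x) h1, by simpa using h2⟩

/-- maps which respect the rule at the crossings of a word -/
theorem wl_run (hX : ∀ x : X, bar x = x) (hY : ∀ y : Y, bar y = y) (f : X → Y) {s t : List X} {w : Wrd X}
    (h : Run s w t) (hf : ∀ x ∈ crs s w, f (act x.1 x.2) = act (f x.1) (f x.2)) :
    Run (s.map f) (wmap f w) (t.map f) ∧ crs (s.map f) (wmap f w) = (crs s w).map (Prod.map f f) := by
  induction h with
  | nil s => exact ⟨Run.nil _, rfl⟩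
  | @cons k i s t u w h h' ih =>
    rw [crs_cons, h.nx] at hf
    obtain ⟨h1, h2⟩ := wl_app hX hY f h fun x hx => hf x (List.mem_append_left _ hx)
    obtain ⟨h3, h4⟩ := ih fun x hx => hf x (List.mem_append_right _ hx)
    refine ⟨Run.cons h1 h3, ?_⟩
    rw [wmap_cons, crs_cons, crs_cons, h.nx, h1.nx, h2, h4, List.map_append]

theorem wl_cnt_app [DecidableEq X] (hX : ∀ x : X, bar x = x) (p : X) {k : Kind X} {i : ℕ} {s t : List X} (h : App k i s t) :
    (s.count p + t.count p + (crL k i s).countP (fun x => decide (x.2 = p)) +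
      (crL k i s).countP (fun x => decide (act x.1 x.2 = p))) % 2 = 0 := by
  induction h with
  | cup x s =>
    rw [hX]
    simp only [crL_cup, List.countP_nil, List.count_cons]
    omega
  | cap x s =>
    rw [hX]
    simp only [crL_cap, List.countP_nil, List.count_cons]
    omega
  | pos a b s =>
    simp only [crL_pos, List.countP_cons, List.countP_nil, List.count_cons, beq_iff_eq, decide_eq_true_eq]
    omega
  | neg a b s =>
    rw [hX]
    simp only [crL_neg, List.countP_cons, List.countP_nil, List.count_cons, beq_iff_eq, decide_eq_true_eq]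
    omega
  | skip x h ih =>
    simp only [crL_succ, List.count_cons]
    omega

/-- at an even number of crossings one of the labels of the under strand is `p` -/
theorem wl_cnt [DecidableEq X] (hX : ∀ x : X, bar x = x) (p : X) {s t : List X} {w : Wrd X} (h : Run s w t) :
    (s.count p + t.count p + (crs s w).countP (fun x => decide (x.2 = p)) +
      (crs s w).countP (fun x => decide (act x.1 x.2 = p))) % 2 = 0 := by
  induction h with
  | nil s =>
    simp only [crs_nil, List.countP_nil]
    omega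
  | @cons k i s t u w h h' ih =>
    have h1 := wl_cnt_app hX p h
    rw [crs_cons, h.nx, List.countP_append, List.countP_append]
    omega

end

/-! ### the labels modulo eight -/

instance : DecidableEq (Fox (ZMod 8)) := inferInstanceAs (DecidableEq (ZMod 8))

abbrev z8 (n : ZMod 8) : Fox (ZMod 8) := n

/-- the Whitehead link with labels modulo eight -/
def white8 : Wrd (Fox (ZMod 8)) := [(cup (z8 0), 0), (cup (z8 2), 2), (cup (z8 1), 1), (neg, 2), (pos, 3), (pos, 3),
  (neg, 2), (cap, 1), (pos, 1), (cap, 0), (cap, 0)]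

theorem white8_fgt : fgt white8 = white := rfl

theorem white8_run : Run [] white8 [] := by
  unfold white8
  rw [run_cons]
  refine ⟨[z8 0, z8 0], app_cup.2 rfl, ?_⟩
  rw [run_cons]
  refine ⟨[z8 0, z8 0, z8 2, z8 2], App.skip _ (App.skip _ (app_cup.2 rfl)), ?_⟩
  rw [run_cons]
  refine ⟨[z8 0, z8 1, z8 1, z8 0, z8 2, z8 2], App.skip _ (app_cup.2 rfl), ?_⟩
  rw [run_cons]
  refine ⟨[z8 0, z8 1, z8 0, z8 7, z8 2, z8 2], App.skip _ (App.skip _ (app_neg.2 rfl)), ?_⟩
  rw [run_cons]
  refine ⟨[z8 0, z8 1, z8 0, z8 4, z8 7, z8 2], App.skip _ (App.skip _ (App.skip _ (app_pos.2 rfl))), ?_⟩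
  rw [run_cons]
  refine ⟨[z8 0, z8 1, z8 0, z8 1, z8 4, z8 2], App.skip _ (App.skip _ (App.skip _ (app_pos.2 rfl))), ?_⟩
  rw [run_cons]
  refine ⟨[z8 0, z8 1, z8 1, z8 2, z8 4, z8 2], App.skip _ (App.skip _ (app_neg.2 rfl)), ?_⟩
  rw [run_cons]
  refine ⟨[z8 0, z8 2, z8 4, z8 2], App.skip _ (app_cap.2 ⟨rfl, rfl⟩), ?_⟩
  rw [run_cons]
  refine ⟨[z8 0, z8 0, z8 2, z8 2], App.skip _ (app_pos.2 rfl), ?_⟩
  rw [run_cons]
  refine ⟨[z8 2, z8 2], app_cap.2 ⟨rfl, rfl⟩, ?_⟩
  rw [run_cons]
  exact ⟨[], app_cap.2 ⟨rfl, rfl⟩, Run.nil _⟩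

/-- parity -/
def pr8 (t : ZMod 8) : Bool := ZMod.val t % 2 == 0

theorem pr8_act : ∀ a x : ZMod 8, pr8 (a + a - x) = pr8 x := by decide

def par8 : Fox (ZMod 8) → Col Bool := fun t => pr8 t

theorem par8_act (a x : Fox (ZMod 8)) : par8 (act a x) = par8 x := pr8_act a x

def parH : RHom (Fox (ZMod 8)) (Col Bool) := ⟨par8, fun _ => rfl, fun a x => par8_act a x⟩

theorem par8_white8 : wmap par8 white8 = whiteC := rfl

/-! ### over labels are under labels -/

def fstH : RHom (Col (Bool × Bool)) (Col Bool) := ⟨fun v => (show Bool × Bool from v).1, fun _ => rfl, fun _ _ => rfl⟩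

theorem wl_over {w : Wrd (Fox (ZMod 8))} (h : Run [] w [])
    (hO : ∀ P : Bool, LEq (fgt (res (fun y : Col Bool => (show Bool from y) == P) [] (wmap par8 w))) O)
    (hU : ∀ P : Bool, ∃ y ∈ crs [] w, par8 y.2 = P) :
    ∀ x ∈ crs [] w, ∃ y ∈ crs [] w, y.2 = x.1 ∨ act y.1 y.2 = x.1 := by
  intro x hx
  by_contra hc
  push Not at hc
  let g : Fox (ZMod 8) → Col (Bool × Bool) := fun t => (show Bool × Bool from ((show Bool from par8 t), decide (t = x.1)))
  obtain ⟨hW, hcrs⟩ := wl_run (fun _ => rfl) (fun _ => rfl) g h (by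
    intro y hy
    obtain ⟨h1, h2⟩ := hc y hy
    have e1 : par8 (act y.1 y.2) = par8 y.2 := par8_act y.1 y.2
    change g (act y.1 y.2) = g y.2
    simp only [g, e1, h1, h2, decide_false])
  obtain ⟨P, hP⟩ : ∃ P : Bool, par8 x.1 = P := ⟨_, rfl⟩
  have hR := Run.res (keeps_col fun v : Col (Bool × Bool) => (show Bool × Bool from v).1 == P) hW
  have e2 : wmap fstH.toFun (wmap g w) = wmap par8 w := by
    unfold wmap
    rw [List.map_map]
    apply List.map_congr_left
    rintro ⟨k, i⟩ _
    cases k <;> rfl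
  have e3 := res_wmap fstH (fun y : Col Bool => (show Bool from y) == P) hW
  have e4 : fgt (res (fun v : Col (Bool × Bool) => (show Bool × Bool from v).1 == P) [] (wmap g w)) =
      fgt (res (fun y : Col Bool => (show Bool from y) == P) [] (wmap par8 w)) := by
    rw [← e2]
    have e5 := congrArg fgt e3
    rw [fgt_wmap] at e5
    exact e5.symm
  have hO' : LEq (fgt (res (fun v : Col (Bool × Bool) => (show Bool × Bool from v).1 == P) [] (wmap g w))) O := by
    rw [e4]
    exact hO P
  obtain ⟨c, hc'⟩ := O_label hR hO'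
  have hcups : cups (fun v : Col (Bool × Bool) => (show Bool × Bool from v).1 = P → v = c) (wmap g w) := by
    intro v i hv hvP
    obtain ⟨j, hj⟩ := mem_res_cup (p := fun v : Col (Bool × Bool) => (show Bool × Bool from v).1 == P) hW hv (by
      simpa using hvP)
    exact hc' v j hj
  have hm := hW.crs_mem (subR_col _) (by simp) hcups
  have hcrs' : crs [] (wmap g w) = (crs [] w).map (Prod.map g g) := hcrs
  have h1 := (hm (g x.1, g x.2) (by
    change _ ∈ crs [] (wmap g w)
    rw [hcrs', List.mem_map]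
    exact ⟨x, hx, rfl⟩)).1 hP
  obtain ⟨y, hy, hyP⟩ := hU P
  have h2 := (hm (g y.1, g y.2) (by
    change _ ∈ crs [] (wmap g w)
    rw [hcrs', List.mem_map]
    exact ⟨y, hy, rfl⟩)).2 hyP
  have h1' : g x.1 = c := h1
  have h2' : g y.2 = c := h2
  have h3 : g y.2 = g x.1 := h2'.trans h1'.symm
  have h4 : decide (y.2 = x.1) = decide (x.1 = x.1) := congrArg (fun v : Bool × Bool => v.2) h3
  rw [decide_eq_true (rfl : x.1 = x.1), decide_eq_true_eq] at h4
  exact (hc y hy).1 h4

/-! ### lists of four crossings -/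

theorem wl_four {α : Type} {L : List α} {A B : α → Bool} (hlen : L.length ≤ 4) (hAB : ∀ x, A x = true → B x = false)
    (hA : L.countP A % 2 = 0) (hA1 : 1 ≤ L.countP A) (hB : L.countP B % 2 = 0) (hB1 : 1 ≤ L.countP B) :
    ∃ a1 a2 b1 b2, L.Perm [a1, a2, b1, b2] ∧ A a1 = true ∧ A a2 = true ∧ B b1 = true ∧ B b2 = true := by
  have hp := List.filter_append_perm A L
  have h1 : (L.filter A).length = L.countP A := List.countP_eq_length_filter.symm
  have h2 := hp.length_eq
  rw [List.length_append] at h2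
  have h3 := hp.countP_eq B
  rw [List.countP_append] at h3
  have h4 : (L.filter A).countP B = 0 := by
    rw [List.countP_eq_zero]
    intro x hx
    rw [List.mem_filter] at hx
    rw [hAB x hx.2]
    simp
  have h5 := List.countP_le_length (p := B) (l := L.filter fun x => !A x)
  obtain ⟨a1, a2, h6⟩ := List.length_eq_two.1 (by omega : (L.filter A).length = 2)
  obtain ⟨b1, b2, h7⟩ := List.length_eq_two.1 (by omega : (L.filter fun x => !A x).length = 2)
  have h8 : ([b1, b2] : List α).countP B = 2 := by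
    rw [← h7]
    omega
  have h9 : ∀ x ∈ [b1, b2], B x = true := List.countP_eq_length.1 h8
  have h10 : ∀ x ∈ [a1, a2], A x = true := by
    intro x hx
    rw [← h6, List.mem_filter] at hx
    exact hx.2
  refine ⟨a1, a2, b1, b2, ?_, h10 a1 (by simp), h10 a2 (by simp), h9 b1 (by simp), h9 b2 (by simp)⟩
  rw [h6, h7] at hp
  exact hp.symm

/-! ### arithmetic modulo eight -/

/-- one if the numbers are equal, zero otherwise -/
def ck (v p : ZMod 8) : ℕ := if v = p then 1 else 0

theorem ck_par {v p : ZMod 8} (h : pr8 v ≠ pr8 p) : ck v p = 0 := by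
  unfold ck
  rw [if_neg]
  rintro rfl
  exact h rfl

def ckF (v p : Fox (ZMod 8)) : ℕ := ck v p

theorem wl_ev (x1 y1 x2 y2 z1 u1 z2 u2 p : Fox (ZMod 8)) :
    ([(x1, y1), (x2, y2), (z1, u1), (z2, u2)] : List (Fox (ZMod 8) × Fox (ZMod 8))).countP (fun x => decide (x.2 = p)) +
      ([(x1, y1), (x2, y2), (z1, u1), (z2, u2)] : List (Fox (ZMod 8) × Fox (ZMod 8))).countP
        (fun x => decide (act x.1 x.2 = p)) =
    ckF y1 p + ckF y2 p + ckF u1 p + ckF u2 p + (ckF (act x1 y1) p + ckF (act x2 y2) p + ckF (act z1 u1) p +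
      ckF (act z2 u2) p) := by
  have e : ∀ a : Fox (ZMod 8), (if decide (a = p) = true then 1 else 0) = ckF a p := by
    intro a
    unfold ckF ck
    by_cases h : a = p
    · rw [decide_eq_true h, if_pos rfl]
      exact (if_pos h).symm
    · rw [decide_eq_false h, if_neg (by decide)]
      exact (if_neg h).symm
  simp only [List.countP_cons, List.countP_nil, e]
  omega

theorem wl_pairs : ∀ x1 x2 y1 y2 : ZMod 8, pr8 x1 ≠ pr8 y1 → pr8 x2 ≠ pr8 y2 →
    (ck y1 y1 + ck y2 y1 + (ck (x1 + x1 - y1) y1 + ck (x2 + x2 - y2) y1)) % 2 = 0 →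
    (ck y1 (x1 + x1 - y1) + ck y2 (x1 + x1 - y1) + (ck (x1 + x1 - y1) (x1 + x1 - y1) +
      ck (x2 + x2 - y2) (x1 + x1 - y1))) % 2 = 0 →
    x1 + x1 = x2 + x2 ∧ (y2 = y1 ∨ y2 = x1 + x1 - y1) := by
  decide +kernel

theorem wl_mem {z1 z2 u1 u2 x : ZMod 8} (h : z1 + z1 = z2 + z2) (h' : u2 = u1 ∨ u2 = z1 + z1 - u1)
    (hx : u2 = x ∨ z2 + z2 - u2 = x) : x = u1 ∨ x = z1 + z1 - u1 := by
  rw [← h] at hx
  rcases h' with rfl | rfl
  · rcases hx with rfl | rfl
    · exact Or.inl rfl
    · exact Or.inr rfl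
  · rcases hx with rfl | rfl
    · exact Or.inr rfl
    · left
      ring

theorem wl_same : ∀ z1 z2 x y : ZMod 8, pr8 x ≠ pr8 y → z1 + z1 = z2 + z2 → (z1 = y ∨ z1 = x + x - y) →
    (z2 = y ∨ z2 = x + x - y) → z1 = z2 := by
  decide +kernel

/-- the new labels -/
def psi (u z x : ZMod 8) (t : ZMod 8) : ℤ :=
  if t = u then 0 else if t = z + z - u then 2 else if t = z then 1 else if x = u then -1 else 3

theorem psi_spec1 : ∀ u z x : ZMod 8, pr8 u ≠ pr8 z → (x = u ∨ x = z + z - u) →
    psi u z x u = 0 ∧ psi u z x z = 1 ∧ psi u z x (z + z - u) = psi u z x z + psi u z x z - psi u z x u ∧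
    psi u z x (z + z - (z + z - u)) = psi u z x z + psi u z x z - psi u z x (z + z - u) := by
  decide +kernel

theorem psi_spec2 : ∀ u z x : ZMod 8, pr8 u ≠ pr8 z → (x = u ∨ x = z + z - u) →
    psi u z x (x + x - z) = psi u z x x + psi u z x x - psi u z x z ∧
    psi u z x (x + x - (x + x - z)) = psi u z x x + psi u z x x - psi u z x (x + x - z) := by
  decide +kernel

theorem wl_arith (x1 y1 x2 y2 z1 u1 z2 u2 : ZMod 8) (px1 : pr8 x1 = true) (py1 : pr8 y1 = false) (px2 : pr8 x2 = true)
    (py2 : pr8 y2 = false) (pz1 : pr8 z1 = false) (pu1 : pr8 u1 = true) (pz2 : pr8 z2 = false) (pu2 : pr8 u2 = true)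
    (hev : ∀ p : ZMod 8, (ck y1 p + ck y2 p + ck u1 p + ck u2 p + (ck (x1 + x1 - y1) p + ck (x2 + x2 - y2) p +
      ck (z1 + z1 - u1) p + ck (z2 + z2 - u2) p)) % 2 = 0)
    (hov : ∀ a : ZMod 8, (a = x1 ∨ a = x2 ∨ a = z1 ∨ a = z2) → (y1 = a ∨ x1 + x1 - y1 = a) ∨ (y2 = a ∨ x2 + x2 - y2 = a) ∨
      (u1 = a ∨ z1 + z1 - u1 = a) ∨ (u2 = a ∨ z2 + z2 - u2 = a)) :
    ∃ f : ZMod 8 → ℤ, f (x1 + x1 - y1) = f x1 + f x1 - f y1 ∧ f (x2 + x2 - y2) = f x2 + f x2 - f y2 ∧
      f (z1 + z1 - u1) = f z1 + f z1 - f u1 ∧ f (z2 + z2 - u2) = f z2 + f z2 - f u2 ∧ f z1 = 1 ∧ f u1 = 0 := by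
  have tf : true ≠ false := by decide
  have ft : false ≠ true := by decide
  have hp1 := wl_pairs x1 x2 y1 y2 (by rw [px1, py1]; exact tf) (by rw [px2, py2]; exact tf) (by
    have h := hev y1
    have e1 : ck u1 y1 = 0 := ck_par (by rw [pu1, py1]; exact tf)
    have e2 : ck u2 y1 = 0 := ck_par (by rw [pu2, py1]; exact tf)
    have e3 : ck (z1 + z1 - u1) y1 = 0 := ck_par (by rw [pr8_act, pu1, py1]; exact tf)
    have e4 : ck (z2 + z2 - u2) y1 = 0 := ck_par (by rw [pr8_act, pu2, py1]; exact tf)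
    omega) (by
    have h := hev (x1 + x1 - y1)
    have e1 : ck u1 (x1 + x1 - y1) = 0 := ck_par (by rw [pr8_act, pu1, py1]; exact tf)
    have e2 : ck u2 (x1 + x1 - y1) = 0 := ck_par (by rw [pr8_act, pu2, py1]; exact tf)
    have e3 : ck (z1 + z1 - u1) (x1 + x1 - y1) = 0 := ck_par (by rw [pr8_act, pr8_act, pu1, py1]; exact tf)
    have e4 : ck (z2 + z2 - u2) (x1 + x1 - y1) = 0 := ck_par (by rw [pr8_act, pr8_act, pu2, py1]; exact tf)
    omega)
  have hp2 := wl_pairs z1 z2 u1 u2 (by rw [pz1, pu1]; exact ft) (by rw [pz2, pu2]; exact ft) (by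
    have h := hev u1
    have e1 : ck y1 u1 = 0 := ck_par (by rw [pu1, py1]; exact ft)
    have e2 : ck y2 u1 = 0 := ck_par (by rw [pu1, py2]; exact ft)
    have e3 : ck (x1 + x1 - y1) u1 = 0 := ck_par (by rw [pr8_act, pu1, py1]; exact ft)
    have e4 : ck (x2 + x2 - y2) u1 = 0 := ck_par (by rw [pr8_act, pu1, py2]; exact ft)
    omega) (by
    have h := hev (z1 + z1 - u1)
    have e1 : ck y1 (z1 + z1 - u1) = 0 := ck_par (by rw [pr8_act, pu1, py1]; exact ft)
    have e2 : ck y2 (z1 + z1 - u1) = 0 := ck_par (by rw [pr8_act, pu1, py2]; exact ft)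
    have e3 : ck (x1 + x1 - y1) (z1 + z1 - u1) = 0 := ck_par (by rw [pr8_act, pr8_act, pu1, py1]; exact ft)
    have e4 : ck (x2 + x2 - y2) (z1 + z1 - u1) = 0 := ck_par (by rw [pr8_act, pr8_act, pu1, py2]; exact ft)
    omega)
  obtain ⟨hxx, hyy⟩ := hp1
  obtain ⟨hzz, huu⟩ := hp2
  have hovx : ∀ x : ZMod 8, pr8 x = true → (x = x1 ∨ x = x2 ∨ x = z1 ∨ x = z2) → x = u1 ∨ x = z1 + z1 - u1 := by
    intro x px hx
    rcases hov x hx with h | h | h | h
    · exfalso
      rcases h with rfl | rfl
      · rw [py1] at px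
        exact ft px
      · rw [pr8_act, py1] at px
        exact ft px
    · exfalso
      rcases h with rfl | rfl
      · rw [py2] at px
        exact ft px
      · rw [pr8_act, py2] at px
        exact ft px
    · rcases h with rfl | rfl
      · exact Or.inl rfl
      · exact Or.inr rfl
    · exact wl_mem hzz huu h
  have hovz : ∀ x : ZMod 8, pr8 x = false → (x = x1 ∨ x = x2 ∨ x = z1 ∨ x = z2) → x = y1 ∨ x = x1 + x1 - y1 := by
    intro x px hx
    rcases hov x hx with h | h | h | h
    · rcases h with rfl | rfl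
      · exact Or.inl rfl
      · exact Or.inr rfl
    · exact wl_mem hxx hyy h
    · exfalso
      rcases h with rfl | rfl
      · rw [pu1] at px
        exact tf px
      · rw [pr8_act, pu1] at px
        exact tf px
    · exfalso
      rcases h with rfl | rfl
      · rw [pu2] at px
        exact tf px
      · rw [pr8_act, pu2] at px
        exact tf px
  have hx1 := hovx x1 px1 (by simp)
  have hx2 := hovx x2 px2 (by simp)
  have hz1 := hovz z1 pz1 (by simp)
  have hz2 := hovz z2 pz2 (by simp)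
  have ez : z1 = z2 := wl_same z1 z2 x1 y1 (by rw [px1, py1]; exact tf) hzz hz1 hz2
  have ex : x1 = x2 := wl_same x1 x2 z1 u1 (by rw [pz1, pu1]; exact ft) hxx hx1 hx2
  subst ez
  subst ex
  have hy1 : y1 = z1 ∨ y1 = x1 + x1 - z1 := by
    rcases hz1 with h | h
    · exact Or.inl h.symm
    · right
      rw [h]
      ring
  have hy2 : y2 = z1 ∨ y2 = x1 + x1 - z1 := by
    rcases hz1 with h | h
    · rw [h]
      exact hyy
    · rcases hyy with h' | h'
      · right
        rw [h, h']
        ring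
      · exact Or.inl (h'.trans h.symm)
  obtain ⟨s1, s2, s3, s4⟩ := psi_spec1 u1 z1 x1 (by rw [pz1, pu1]; exact tf) hx1
  obtain ⟨s5, s6⟩ := psi_spec2 u1 z1 x1 (by rw [pz1, pu1]; exact tf) hx1
  refine ⟨psi u1 z1 x1, ?_, ?_, s3, ?_, s2, s1⟩
  · rcases hy1 with h | h
    · rw [h]
      exact s5
    · rw [h]
      exact s6
  · rcases hy2 with h | h
    · rw [h]
      exact s5
    · rw [h]
      exact s6
  · rcases huu with h | h
    · rw [h]
      exact s3
    · rw [h]
      exact s4

theorem white_lower {e : Wrd Unit} (he : LEq white e) : 5 ≤ ncr e := by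
  by_contra hlt
  push Not at hlt
  obtain ⟨w, rfl, hw1, hw⟩ := LEq.lift white8_run (v := e) (by rw [white8_fgt]; exact he)
  -- the colours of the components
  have hC : Eqv [] whiteC (wmap par8 w) := by
    have := hw1.map parH
    rw [← par8_white8]
    exact this
  obtain ⟨hWC, hcrs⟩ := wl_run (fun _ => rfl) (fun _ => rfl) par8 hw (fun y _ => par8_act y.1 y.2)
  have hWC' : Run [] (wmap par8 w) [] := hWC
  have hcrs' : crs [] (wmap par8 w) = (crs [] w).map (Prod.map par8 par8) := hcrs
  have hlen : (crs [] w).length ≤ 4 := by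
    rw [hw.length_crs]
    rw [ncr_fgt] at hlt
    omega
  -- numbers of crossings
  have h1 : oc true false (wmap par8 w) % 2 = 0 := by
    rw [← oc_eqv (by simp) whiteC_run hC]
    rfl
  have h2 : oc false true (wmap par8 w) % 2 = 0 := by
    rw [← oc_eqv (by simp) whiteC_run hC]
    rfl
  have hns : ∀ a b, Closed a → Closed b → a ≠ [] → b ≠ [] → ¬ LEq (fgt (wmap par8 w)) (a ++ b) := by
    intro a b ha hb ha' hb' hc
    rw [fgt_wmap] at hc
    exact white_nonsplit a b ha hb ha' hb' (he.trans hc)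
  have hcu : ∀ P : Bool, ¬ cups (fun x : Col Bool => x = P) (wmap par8 w) := by
    intro P hP
    have h3 := Eqv.cups (subR_col _) hC.symm hWC' (by simp) hP
    have h4 := h3 true 0 (by simp [whiteC])
    have h5 := h3 false 1 (by simp [whiteC])
    rw [← h4] at h5
    exact absurd h5 (by decide)
  obtain ⟨h3, h4⟩ := over_exists hWC' (hcu false) (hcu true) hns
  have hoc : ∀ x y : Bool, oc x y (wmap par8 w) = (crs [] w).countP
      (fun v => decide (par8 v.1 = x) && decide (par8 v.2 = y)) := by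
    intro x y
    unfold oc cnt
    rw [hcrs', List.countP_map]
    rfl
  rw [hoc] at h1 h2 h3 h4
  obtain ⟨a1, a2, b1, b2, hperm, ha1, ha2, hb1, hb2⟩ := wl_four hlen (by
    intro v hv
    simp only [Bool.and_eq_true, decide_eq_true_eq] at hv
    simp only [hv.1, Bool.and_eq_false_iff, decide_eq_false_iff_not]
    left
    simp) h1 h3 h2 h4
  simp only [Bool.and_eq_true, decide_eq_true_eq] at ha1 ha2 hb1 hb2
  obtain ⟨x1, y1⟩ := a1
  obtain ⟨x2, y2⟩ := a2
  obtain ⟨z1, u1⟩ := b1
  obtain ⟨z2, u2⟩ := b2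
  simp only at ha1 ha2 hb1 hb2
  have hmem : ∀ v, v ∈ crs [] w ↔ v ∈ [(x1, y1), (x2, y2), (z1, u1), (z2, u2)] := fun v => hperm.mem_iff
  -- over labels
  have hO : ∀ P : Bool, LEq (fgt (res (fun y : Col Bool => (show Bool from y) == P) [] (wmap par8 w))) O := by
    intro P
    have h5 := Eqv.res (keeps_col fun y : Col Bool => (show Bool from y) == P) hC whiteC_run
    have h6 : LEq (fgt (res (fun y : Col Bool => (show Bool from y) == P) [] whiteC))
      (fgt (res (fun y : Col Bool => (show Bool from y) == P) [] (wmap par8 w))) := h5.forget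
    refine h6.symm.trans ?_
    cases P with
    | true => exact whiteC_red_O
    | false => exact LEq.refl _
  have hov := wl_over hw hO (by
    intro P
    cases P with
    | true => exact ⟨(z1, u1), (hmem _).2 (by simp), hb1.2⟩
    | false => exact ⟨(x1, y1), (hmem _).2 (by simp), ha1.2⟩)
  obtain ⟨f, f1, f2, f3, f4, f5, f6⟩ := wl_arith x1 y1 x2 y2 z1 u1 z2 u2 ha1.1 ha1.2 ha2.1 ha2.2 hb1.1 hb1.2 hb2.1 hb2.2 (by
    intro p
    have h := wl_cnt (fun _ => rfl) (z8 p) hw
    rw [hperm.countP_eq, hperm.countP_eq] at h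
    have h' := wl_ev x1 y1 x2 y2 z1 u1 z2 u2 (z8 p)
    simp only [List.count_nil] at h
    have h5 : (ckF y1 (z8 p) + ckF y2 (z8 p) + ckF u1 (z8 p) + ckF u2 (z8 p) + (ckF (act x1 y1) (z8 p) + ckF (act x2 y2) (z8 p) +
      ckF (act z1 u1) (z8 p) + ckF (act z2 u2) (z8 p))) % 2 = 0 := by
      rw [← h']
      omega
    exact h5) (by
    have key : ∀ (a b : Fox (ZMod 8)), (a, b) ∈ crs [] w → (y1 = a ∨ act x1 y1 = a) ∨ (y2 = a ∨ act x2 y2 = a) ∨
        (u1 = a ∨ act z1 u1 = a) ∨ (u2 = a ∨ act z2 u2 = a) := by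
      intro a b hab
      obtain ⟨⟨v1, v2⟩, hv, hv'⟩ := hov _ hab
      rw [hmem] at hv
      simp only [List.mem_cons, List.not_mem_nil, or_false, Prod.mk.injEq] at hv
      rcases hv with ⟨rfl, rfl⟩ | ⟨rfl, rfl⟩ | ⟨rfl, rfl⟩ | ⟨rfl, rfl⟩
      · exact Or.inl hv'
      · exact Or.inr (Or.inl hv')
      · exact Or.inr (Or.inr (Or.inl hv'))
      · exact Or.inr (Or.inr (Or.inr hv'))
    rintro a (h | h | h | h)
    · exact key a y1 ((hmem _).2 (by rw [h]; simp))
    · exact key a y2 ((hmem _).2 (by rw [h]; simp))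
    · exact key a u1 ((hmem _).2 (by rw [h]; simp))
    · exact key a u2 ((hmem _).2 (by rw [h]; simp)))
  -- integral labels
  let F : Fox (ZMod 8) → Fox ℤ := fun t => f t
  obtain ⟨hF, hFc⟩ := wl_run (fun _ => rfl) (fun _ => rfl) F hw (by
    intro v hv
    rw [hmem] at hv
    simp only [List.mem_cons, List.not_mem_nil, or_false] at hv
    rcases hv with rfl | rfl | rfl | rfl
    · exact f1
    · exact f2
    · exact f3
    · exact f4)
  obtain ⟨c, hc⟩ := white_fox' (w := wmap F w) hF (by rw [fgt_wmap]; exact he)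
  have hS : SubR fun x : Fox ℤ => x = c := by
    refine ⟨fun x hx => hx, ?_⟩
    intro a x ha hx
    rw [ha, hx, act_self]
  have hm := hF.crs_mem hS (by simp) hc
  have hFc' : crs [] (wmap F w) = (crs [] w).map (Prod.map F F) := hFc
  have h9 := hm (F z1, F u1) (by
    change _ ∈ crs [] (wmap F w)
    rw [hFc', List.mem_map]
    exact ⟨(z1, u1), (hmem _).2 (by simp), rfl⟩)
  have h10 : F z1 = c := h9.1
  have h11 : F u1 = c := h9.2
  have h12 : f z1 = f u1 := h10.trans h11.symm
  rw [f5, f6] at h12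
  exact absurd h12 (by norm_num)

end Pool.Agent.KL
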